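import Pool.Agent.Lib.MP_f20cd2_co.PL.Defs

/-!
Hall theorem with capacities, foot maps (B7) and the balanced split of the parts.
-/

set_option autoImplicit false
set_option linter.unusedSectionVars false

namespace Pool.Agent.Lib.MP_f20cd2_co.PL

open Finset
open Pool.Agent.Lib.MP_f20cd2_co.H83 (Conn Cells)
open scoped Classical

variable {V : Type} [Fintype V] [DecidableEq V] {G : SimpleGraph V}

theorem hall_cap {α β : Type} [Nonempty β] (U : Finset α) (P : Finset β) (cap : β → ℕ)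
    (R : α → β → Prop)
    (h : ∀ X ⊆ U, X.card ≤ ∑ p ∈ P.filter (fun p => ∃ u ∈ X, R u p), cap p) :
    ∃ ψ : α → β, (∀ u ∈ U, ψ u ∈ P ∧ R u (ψ u)) ∧
      ∀ p, (U.filter fun u => ψ u = p).card ≤ cap p := by
  have key : ∀ s : Finset U, s.card ≤ (s.biUnion fun u : U =>
      (P.filter fun p => R u p).sigma fun p => range (cap p)).card := by
    intro s
    have h1 := h (s.map (Function.Embedding.subtype _)) (by
      intro u hu
      obtain ⟨w, -, rfl⟩ := mem_map.1 hu
      exact w.2)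
    rw [card_map] at h1
    refine h1.trans ?_
    have h2 : ∑ p ∈ P.filter (fun p => ∃ u ∈ s.map (Function.Embedding.subtype _), R u p), cap p
        = ((P.filter (fun p => ∃ u ∈ s.map (Function.Embedding.subtype _), R u p)).sigma
          fun p => range (cap p)).card := by
      rw [card_sigma]
      simp only [card_range]
    rw [h2]
    refine card_le_card ?_
    intro q hq
    obtain ⟨hq1, hq2⟩ := mem_sigma.1 hq
    obtain ⟨hq3, u, hu, hR⟩ := mem_filter.1 hq1
    obtain ⟨w, hw, rfl⟩ := mem_map.1 hu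
    exact mem_biUnion.2 ⟨w, hw, mem_sigma.2 ⟨mem_filter.2 ⟨hq3, hR⟩, hq2⟩⟩
  obtain ⟨f, hf, hm⟩ := (all_card_le_biUnion_card_iff_exists_injective _).1 key
  refine ⟨fun u => if hu : u ∈ U then (f ⟨u, hu⟩).1 else Classical.arbitrary β, ?_, ?_⟩
  · intro u hu
    simp only [dif_pos hu]
    exact mem_filter.1 (mem_sigma.1 (hm ⟨u, hu⟩)).1
  · intro p
    rw [← card_range (cap p)]
    refine card_le_card_of_injOn (fun u => if hu : u ∈ U then (f ⟨u, hu⟩).2 else 0) ?_ ?_
    · intro u hu
      obtain ⟨hu1, hu2⟩ := mem_filter.1 (mem_coe.1 hu)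
      simp only [dif_pos hu1] at hu2 ⊢
      rw [← hu2]
      exact mem_coe.2 (mem_sigma.1 (hm ⟨u, hu1⟩)).2
    · intro u hu w hw e
      obtain ⟨hu1, hu2⟩ := mem_filter.1 (mem_coe.1 hu)
      obtain ⟨hw1, hw2⟩ := mem_filter.1 (mem_coe.1 hw)
      simp only [dif_pos hu1, dif_pos hw1] at hu2 hw2 e
      have : f ⟨u, hu1⟩ = f ⟨w, hw1⟩ := Sigma.ext (hu2.trans hw2.symm) (heq_of_eq e)
      exact congrArg Subtype.val (hf this)

theorem feet (W W0 Fl U : Finset V) (lam Λ : ℕ) (hW : W0 ⊆ W) (hF : Fl ⊆ U)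
    (hup : ∀ D : Finset V, D.card ≤ Λ * (nbr G D ∩ W0).card)
    (hlow : ∀ D ⊆ W, lam * D.card ≤ (nbr G D ∩ Fl).card) :
    ∃ ft : V → V, (∀ u ∈ U, ft u ∈ W ∧ G.Adj u (ft u)) ∧
      ∀ x ∈ W, lam ≤ (U.filter fun u => ft u = x).card ∧
        (U.filter fun u => ft u = x).card ≤ lam + Λ := by
  rcases isEmpty_or_nonempty V with hV | hV
  · exact ⟨id, fun u _ => (IsEmpty.false u).elim, fun u _ => (IsEmpty.false u).elim⟩
  obtain ⟨f, hf1, hf2⟩ := hall_cap (W ×ˢ range lam) Fl (fun _ => 1)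
    (fun y u => G.Adj y.1 u) (by
      intro X hX
      have h1 : X ⊆ (X.image Prod.fst) ×ˢ range lam := fun y hy =>
        mem_product.2 ⟨mem_image_of_mem _ hy, (mem_product.1 (hX hy)).2⟩
      have h2 := card_le_card h1
      rw [card_product, card_range, mul_comm] at h2
      have h3 := hlow (X.image Prod.fst) (by
        intro x hx
        obtain ⟨y, hy, rfl⟩ := mem_image.1 hx
        exact (mem_product.1 (hX hy)).1)
      rw [sum_const, smul_eq_mul, mul_one]
      refine h2.trans (h3.trans (card_le_card ?_))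
      intro u hu
      obtain ⟨hu1, hu2⟩ := mem_inter.1 hu
      obtain ⟨x, hx, hadj⟩ := mem_nbr.1 hu1
      obtain ⟨y, hy, rfl⟩ := mem_image.1 hx
      exact mem_filter.2 ⟨hu2, y, hy, hadj⟩)
  obtain ⟨g, hg1, hg2⟩ := hall_cap U W0 (fun _ => Λ) (fun u p => G.Adj u p) (by
      intro X _
      rw [sum_const, smul_eq_mul, mul_comm]
      refine (hup X).trans (Nat.mul_le_mul_left _ (card_le_card ?_))
      intro u hu
      obtain ⟨hu1, hu2⟩ := mem_inter.1 hu
      exact mem_filter.2 ⟨hu2, mem_nbr.1 hu1⟩)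
  have hinj : ∀ y ∈ W ×ˢ range lam, ∀ z ∈ W ×ˢ range lam, f y = f z → y = z := by
    intro y hy z hz e
    refine card_le_one.1 (hf2 (f z)) y ?_ z ?_
    · simp only [mem_filter]
      exact ⟨hy, e⟩
    · simp only [mem_filter]
      exact ⟨hz, trivial⟩
  have hex : ∀ u, ∃ x, (∃ j, (x, j) ∈ W ×ˢ range lam ∧ f (x, j) = u) ∨
      ((∀ y ∈ W ×ˢ range lam, f y ≠ u) ∧ x = g u) := by
    intro u
    by_cases h : ∃ y ∈ W ×ˢ range lam, f y = u
    · obtain ⟨y, hy, e⟩ := h
      exact ⟨y.1, Or.inl ⟨y.2, hy, e⟩⟩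
    · exact ⟨g u, Or.inr ⟨fun y hy e => h ⟨y, hy, e⟩, rfl⟩⟩
  choose ft hft using hex
  refine ⟨ft, ?_, ?_⟩
  · intro u hu
    rcases hft u with ⟨j, hj, e⟩ | ⟨-, e⟩
    · have := (hf1 _ hj).2
      rw [e] at this
      exact ⟨(mem_product.1 hj).1, this.symm⟩
    · rw [e]
      exact ⟨hW (hg1 u hu).1, (hg1 u hu).2⟩
  · intro x hx
    constructor
    · conv_lhs => rw [← card_range lam]
      refine card_le_card_of_injOn (fun j => f (x, j)) ?_ ?_
      · intro j hj
        have hm : (x, j) ∈ W ×ˢ range lam := mem_product.2 ⟨hx, mem_coe.1 hj⟩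
        refine mem_coe.2 (mem_filter.2 ⟨hF (hf1 _ hm).1, ?_⟩)
        rcases hft (f (x, j)) with ⟨i, hi, e⟩ | ⟨h, -⟩
        · exact congrArg Prod.fst (hinj _ hi _ hm e)
        · exact (h _ hm rfl).elim
      · intro i hi j hj e
        exact congrArg Prod.snd (hinj (x, i) (mem_product.2 ⟨hx, mem_coe.1 hi⟩) (x, j)
          (mem_product.2 ⟨hx, mem_coe.1 hj⟩) e)
    · have h1 : (U.filter fun u => ft u = x) ⊆
          (range lam).image (fun j => f (x, j)) ∪ U.filter fun u => g u = x := by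
        intro u hu
        obtain ⟨hu1, hu2⟩ := mem_filter.1 hu
        rcases hft u with ⟨j, hj, e⟩ | ⟨-, e⟩
        · rw [hu2] at hj e
          exact mem_union_left _ (mem_image.2 ⟨j, (mem_product.1 hj).2, e⟩)
        · exact mem_union_right _ (mem_filter.2 ⟨hu1, e ▸ hu2⟩)
      refine (card_le_card h1).trans ((card_union_le _ _).trans (add_le_add ?_ ?_))
      · exact card_image_le.trans (card_range lam).le
      · refine le_trans (card_le_card ?_) (hg2 x)
        intro u hu
        simp only [mem_filter] at hu ⊢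
        exact hu

namespace HallAux

lemma bal {ι : Type} (I : Finset ι) (a : ι → ℕ) (J s : ℕ) (hJ : 0 < J) (ha : ∀ i ∈ I, a i ≤ s) :
    ∃ tr : ι → ℕ, (∀ i ∈ I, tr i < J) ∧ ∀ c < J, ∀ c' < J,
      ∑ i ∈ I.filter (fun i => tr i = c), a i ≤ ∑ i ∈ I.filter (fun i => tr i = c'), a i + s := by
  induction I using Finset.induction_on with
  | empty => exact ⟨fun _ => 0, by simp, by simp⟩
  | insert j I hj ih =>
    obtain ⟨tr, h1, h2⟩ := ih fun i hi => ha i (mem_insert_of_mem hi)
    obtain ⟨m, hm, hmin⟩ := exists_min_image (range J)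
      (fun c => ∑ i ∈ I.filter (fun i => tr i = c), a i) ⟨0, mem_range.2 hJ⟩
    have haj := ha j (mem_insert_self _ _)
    have e : ∀ c, ∑ i ∈ (insert j I).filter (fun i => Function.update tr j m i = c), a i
        = (if m = c then a j else 0) + ∑ i ∈ I.filter (fun i => tr i = c), a i := by
      intro c
      rw [sum_filter, sum_insert hj, Function.update_self, sum_filter]
      congr 1
      refine sum_congr rfl fun i hi => ?_
      rw [Function.update_of_ne (by rintro rfl; exact hj hi)]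
    refine ⟨Function.update tr j m, ?_, ?_⟩
    · intro i hi
      rcases mem_insert.1 hi with rfl | hi'
      · rw [Function.update_self]
        exact mem_range.1 hm
      · rw [Function.update_of_ne (by rintro rfl; exact hj hi')]
        exact h1 i hi'
    · intro c hc c' hc'
      rw [e, e]
      have h3 := h2 c hc c' hc'
      have h4 := hmin c' (mem_range.2 hc')
      by_cases h5 : m = c
      · subst h5
        rw [if_pos rfl]
        omega
      · rw [if_neg h5]
        omega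

end HallAux

theorem split {ι : Type} (I : Finset ι) (a : ι → ℕ) (J s : ℕ) (hJ : 0 < J)
    (ha : ∀ i ∈ I, a i ≤ s) :
    ∃ tr : ι → ℕ, (∀ i ∈ I, tr i < J) ∧ ∀ c < J,
      J * ∑ i ∈ I.filter (fun i => tr i = c), a i ≤ ∑ i ∈ I, a i + J * s ∧
      ∑ i ∈ I, a i ≤ J * ∑ i ∈ I.filter (fun i => tr i = c), a i + J * s := by
  obtain ⟨tr, h1, h2⟩ := HallAux.bal I a J s hJ ha
  have tot : ∑ i ∈ I, a i = ∑ c ∈ range J, ∑ i ∈ I.filter (fun i => tr i = c), a i :=
    (sum_fiberwise_of_maps_to (fun i hi => mem_range.2 (h1 i hi)) a).symm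
  refine ⟨tr, h1, fun c hc => ⟨?_, ?_⟩⟩
  · have := sum_le_sum (s := range J) fun c' hc' => h2 c hc c' (mem_range.1 hc')
    rw [sum_add_distrib, sum_const, sum_const, card_range, smul_eq_mul, smul_eq_mul] at this
    rw [tot]
    exact this
  · have := sum_le_sum (s := range J) fun c' hc' => h2 c' (mem_range.1 hc') c hc
    rw [sum_const, card_range, smul_eq_mul, mul_add] at this
    rw [tot]
    exact this


end Pool.Agent.Lib.MP_f20cd2_co.PL
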