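import Pool.Agent.Lib.MP_f20cd2_co.PL.Basic

/-!
Small parts, complete graphs and the passage to the final form (E2).
-/

set_option autoImplicit false
set_option linter.unusedSectionVars false

namespace Pool.Agent.Lib.MP_f20cd2_co.PL

open Finset
open Pool.Agent.Lib.MP_f20cd2_co.H83 (Conn Cells)
open scoped Classical

variable {V : Type} [Fintype V] [DecidableEq V] {G : SimpleGraph V}

namespace SmallAux

/-- The image of a connected graph under a map that preserves edges. -/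
lemma conn_of_hom {U : Type} {H : SimpleGraph U} (hH : H.Connected) (φ : U → V)
    (hφ : ∀ x y, H.Adj x y → G.Adj (φ x) (φ y)) (P : Finset V)
    (hP : ∀ v, v ∈ P ↔ ∃ x, φ x = v) : Conn G P := by
  obtain ⟨x0⟩ := hH.nonempty
  refine ⟨⟨φ x0, (hP _).2 ⟨x0, rfl⟩⟩, fun A hA hne hAP => ?_⟩
  by_contra hcon
  push Not at hcon
  obtain ⟨a, ha⟩ := hne
  obtain ⟨x, rfl⟩ := (hP a).1 (hA ha)
  apply hAP
  refine Subset.antisymm hA fun b hb => ?_
  obtain ⟨y, rfl⟩ := (hP b).1 hb
  have hr := (SimpleGraph.reachable_iff_reflTransGen x y).1 (hH.preconnected x y)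
  clear hb
  induction hr with
  | refl => exact ha
  | @tail u w _ huw ih =>
    by_contra hw
    exact hcon _ ih _ ((hP _).2 ⟨w, rfl⟩) hw (hφ u w huw)

/-- The graph induced on a superset of `W` is tough. -/
lemma tough_induce {W A : Finset V} {t : ℝ} (h : RT G W t) (hW : W ⊆ A) :
    H83.Tough (G.induce (A : Set V)) t := by
  intro S hS
  set B : Finset V := univ.filter fun v => ∃ hv : v ∈ (A : Set V), (⟨v, hv⟩ : (A : Set V)) ∈ Sᶜ
    with hB
  have hmem : ∀ v, v ∈ B ↔ ∃ hv : v ∈ (A : Set V), (⟨v, hv⟩ : (A : Set V)) ∈ Sᶜ := by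
    intro v
    simp only [hB, mem_filter, mem_univ, true_and]
  let lab : V → Option ((G.induce (A : Set V)).induce Sᶜ).ConnectedComponent := fun v =>
    if hv : ∃ hv : v ∈ (A : Set V), (⟨v, hv⟩ : (A : Set V)) ∈ Sᶜ then
      some (((G.induce (A : Set V)).induce Sᶜ).connectedComponentMk
        ⟨⟨v, hv.choose⟩, hv.choose_spec⟩)
    else none
  have hlab : ∀ (x : (A : Set V)) (hx : x ∈ Sᶜ), lab x =
      some (((G.induce (A : Set V)).induce Sᶜ).connectedComponentMk ⟨x, hx⟩) := by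
    intro x hx
    have : ∃ hv : (x : V) ∈ (A : Set V), (⟨x, hv⟩ : (A : Set V)) ∈ Sᶜ := ⟨x.2, hx⟩
    simp only [lab, dif_pos this]
  have hfin : Finite ((G.induce (A : Set V)).induce Sᶜ).ConnectedComponent :=
    Nat.finite_of_card_ne_zero (by omega)
  have := Fintype.ofFinite ((G.induce (A : Set V)).induce Sᶜ).ConnectedComponent
  have hc : Cells G B (Nat.card ((G.induce (A : Set V)).induce Sᶜ).ConnectedComponent) := by
    refine cells_of_lab B lab ?_ _ ?_
    · intro v hv w hw hvw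
      obtain ⟨hv1, hv2⟩ := (hmem v).1 hv
      obtain ⟨hw1, hw2⟩ := (hmem w).1 hw
      rw [hlab ⟨v, hv1⟩ hv2, hlab ⟨w, hw1⟩ hw2]
      congr 1
      exact SimpleGraph.ConnectedComponent.connectedComponentMk_eq_of_adj hvw
    · rw [Nat.card_eq_fintype_card, ← card_univ]
      refine card_le_card_of_injOn some (fun C _ => ?_) (Option.some_injective _).injOn
      obtain ⟨⟨x, hx⟩, rfl⟩ := C.exists_rep
      simp only [coe_image, Set.mem_image, mem_coe]
      exact ⟨x, (hmem x).2 ⟨x.2, hx⟩, hlab x hx⟩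
  refine (h B _ hc hS).trans ?_
  have h1 : ((W \ B : Finset V) : Set V) ⊆ Subtype.val '' S := by
    intro v hv
    rw [mem_coe, mem_sdiff] at hv
    have hvA : v ∈ (A : Set V) := hW hv.1
    refine ⟨⟨v, hvA⟩, ?_, rfl⟩
    by_contra hn
    exact hv.2 ((hmem v).2 ⟨hvA, hn⟩)
  have h2 := Set.ncard_le_ncard h1 (Set.toFinite _)
  rw [Set.ncard_coe_finset, Set.ncard_image_of_injective _ Subtype.val_injective] at h2
  exact_mod_cast h2

end SmallAux

theorem small_unit {ι : Type} {W A : Finset V} {t : ℝ} (h : RT G W t) (ht : 0 < t) (hW : W ⊆ A)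
    (I : Finset ι) (a : ι → ℕ) (hpos : ∀ i ∈ I, 0 < a i) (hle : ∀ i ∈ I, (a i : ℝ) ≤ t)
    (hsum : ∑ i ∈ I, a i = A.card) : Pack G A I a := by
  rcases I.eq_empty_or_nonempty with rfl | ⟨i0, hi0⟩
  · exact ⟨fun _ => ∅, by simp, by simp⟩
  have hs : ∑ j : Fin I.card, a (I.equivFin.symm j) = Fintype.card (A : Set V) := by
    rw [Equiv.sum_comp I.equivFin.symm (fun i : I => a i), Finset.sum_coe_sort I a, hsum]
    simp
  obtain ⟨f, hf⟩ := H83.realise (k := ⌊t⌋₊) ht (SmallAux.tough_induce h hW) (Nat.floor_le ht.le)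
    (a := fun j : Fin I.card => a (I.equivFin.symm j))
    (fun j => hpos _ (I.equivFin.symm j).2) hs (i0 := I.equivFin ⟨i0, hi0⟩)
    (fun j _ => (Nat.le_floor (hle _ (I.equivFin.symm j).2)).trans (Nat.le_succ _))
  let q : Fin I.card → Finset V := fun j =>
    univ.filter fun v => ∃ hv : v ∈ (A : Set V), f ⟨v, hv⟩ = j
  have hq : ∀ j v, v ∈ q j ↔ ∃ hv : v ∈ (A : Set V), f ⟨v, hv⟩ = j := by
    intro j v
    simp only [q, mem_filter, mem_univ, true_and]
  refine ⟨fun i => if hi : i ∈ I then q (I.equivFin ⟨i, hi⟩) else ∅, ?_, ?_⟩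
  · intro i hi
    simp only [dif_pos hi]
    obtain ⟨h1, h2⟩ := hf (I.equivFin ⟨i, hi⟩)
    refine ⟨fun v hv => ((hq _ v).1 hv).choose, ?_, ?_⟩
    · have h3 : ((q (I.equivFin ⟨i, hi⟩) : Finset V) : Set V) =
          Subtype.val '' (f ⁻¹' {I.equivFin ⟨i, hi⟩}) := by
        ext v
        rw [mem_coe, hq]
        constructor
        · rintro ⟨hv, hv'⟩
          exact ⟨⟨v, hv⟩, hv', rfl⟩
        · rintro ⟨x, hx, rfl⟩
          exact ⟨x.2, hx⟩
      rw [← Set.ncard_coe_finset, h3, Set.ncard_image_of_injective _ Subtype.val_injective, h1]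
      simp
    · refine SmallAux.conn_of_hom h2 (fun x => x.1.1) (fun x y hxy => hxy) _ fun v => ?_
      rw [hq]
      constructor
      · rintro ⟨hv, hv'⟩
        exact ⟨⟨⟨v, hv⟩, hv'⟩, rfl⟩
      · rintro ⟨x, rfl⟩
        exact ⟨x.1.2, x.2⟩
  · intro i hi j hj hij
    simp only [dif_pos hi, dif_pos hj]
    rw [disjoint_left]
    intro v hv hv'
    obtain ⟨h1, h2⟩ := (hq _ v).1 hv
    obtain ⟨h3, h4⟩ := (hq _ v).1 hv'
    have h5 := I.equivFin.injective (h2.symm.trans h4)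
    exact hij (congrArg Subtype.val h5)

/-- A finite set splits into blocks of prescribed sizes. -/
theorem exists_blocks {ι : Type} (L : Finset V) (I : Finset ι) (s : ι → ℕ)
    (h : ∑ i ∈ I, s i ≤ L.card) :
    ∃ p : ι → Finset V, (∀ i ∈ I, p i ⊆ L ∧ (p i).card = s i) ∧
      ∀ i ∈ I, ∀ j ∈ I, i ≠ j → Disjoint (p i) (p j) := by
  induction I using Finset.induction_on generalizing L with
  | empty => exact ⟨fun _ => ∅, by simp, by simp⟩
  | insert i I hi ih =>
    rw [sum_insert hi] at h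
    obtain ⟨Q, hQ, hQc⟩ := exists_subset_card_eq (s := L) (n := s i) (by omega)
    obtain ⟨p, hp1, hp2⟩ := ih (L \ Q) (by rw [card_sdiff_of_subset hQ]; omega)
    have hne : ∀ j ∈ I, j ≠ i := fun j hj hji => hi (hji ▸ hj)
    have hd : ∀ j ∈ I, Disjoint Q (p j) := fun j hj =>
      disjoint_of_subset_right (hp1 j hj).1 disjoint_sdiff
    refine ⟨Function.update p i Q, ?_, ?_⟩
    · intro j hj
      rcases mem_insert.1 hj with rfl | hj
      · rw [Function.update_self]
        exact ⟨hQ, hQc⟩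
      · rw [Function.update_of_ne (hne j hj)]
        exact ⟨(hp1 j hj).1.trans sdiff_subset, (hp1 j hj).2⟩
    · intro j hj k hk hjk
      rcases mem_insert.1 hj with rfl | hj'
      · rcases mem_insert.1 hk with rfl | hk'
        · exact absurd rfl hjk
        · rw [Function.update_self, Function.update_of_ne (hne k hk')]
          exact hd k hk'
      · rcases mem_insert.1 hk with rfl | hk'
        · rw [Function.update_self, Function.update_of_ne (hne j hj')]
          exact (hd j hj').symm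
        · rw [Function.update_of_ne (hne j hj'), Function.update_of_ne (hne k hk')]
          exact hp2 j hj' k hk' hjk

theorem pack_complete {ι : Type} (hc : ∀ u v : V, u ≠ v → G.Adj u v) (I : Finset ι) (a : ι → ℕ)
    (hpos : ∀ i ∈ I, 0 < a i) (hsum : ∑ i ∈ I, a i ≤ Fintype.card V) : Pack G univ I a := by
  obtain ⟨p, hp1, hp2⟩ := exists_blocks (univ : Finset V) I a (by rwa [card_univ])
  refine ⟨p, fun i hi => ⟨(hp1 i hi).1, (hp1 i hi).2, ?_, ?_⟩, hp2⟩
  · rw [← card_pos, (hp1 i hi).2]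
    exact hpos i hi
  · intro A hA hne hAP
    obtain ⟨x, hx⟩ := hne
    obtain ⟨y, hy, hyA⟩ := exists_of_ssubset (hA.ssubset_of_ne hAP)
    exact ⟨x, hx, y, hy, hyA, hc x y fun hxy => hyA (hxy ▸ hx)⟩

theorem fun_of_pack {k : ℕ} (a : Fin k → ℕ) (hsum : ∑ i, a i = Fintype.card V)
    (h : Pack G univ univ a) :
    ∃ f : V → Fin k, ∀ i, (f ⁻¹' {i}).ncard = a i ∧ (G.induce (f ⁻¹' {i})).Connected := by
  obtain ⟨p, hp1, hp2⟩ := h
  have hall : (univ : Finset (Fin k)).biUnion p = univ := by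
    apply eq_univ_of_card
    rw [card_biUnion (fun i hi j hj hij => hp2 i hi j hj hij), ← hsum]
    exact sum_congr rfl fun i hi => (hp1 i hi).2.1
  have hex : ∀ v, ∃ i, v ∈ p i := by
    intro v
    have : v ∈ (univ : Finset (Fin k)).biUnion p := by rw [hall]; exact mem_univ v
    obtain ⟨i, _, hi⟩ := mem_biUnion.1 this
    exact ⟨i, hi⟩
  choose f hf using hex
  refine ⟨f, fun i => ?_⟩
  have he : f ⁻¹' {i} = (p i : Set V) := by
    ext v
    simp only [Set.mem_preimage, Set.mem_singleton_iff, mem_coe]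
    constructor
    · rintro rfl
      exact hf v
    · intro hv
      by_contra hne
      exact disjoint_left.1 (hp2 _ (mem_univ _) _ (mem_univ _) hne) (hf v) hv
  rw [he, Set.ncard_coe_finset]
  exact ⟨(hp1 i (mem_univ _)).2.1, (hp1 i (mem_univ _)).2.2.connected⟩

/-- Units with reserved sets are filled up with the vertices that are left. -/
theorem glue {ι : Type} (I : Finset ι) (a : ι → ℕ) (hsum : ∑ i ∈ I, a i = Fintype.card V)
    (key : ι → ℕ) (Act : Finset ℕ) (R : ℕ → Finset V)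
    (hR : ∀ κ ∈ Act, ∀ κ' ∈ Act, κ ≠ κ' → Disjoint (R κ) (R κ'))
    (hsz : ∀ κ ∈ Act, (R κ).card ≤ ∑ i ∈ I.filter (fun i => key i = κ), a i)
    (h0 : Pack G (univ \ Act.biUnion R) (I.filter fun i => key i ∉ Act) a)
    (hu : ∀ κ ∈ Act, ∀ A : Finset V, R κ ⊆ A →
      A.card = ∑ i ∈ I.filter (fun i => key i = κ), a i →
      Pack G A (I.filter fun i => key i = κ) a) : Pack G univ I a := by
  obtain ⟨p0, hp1, hp2⟩ := h0
  set I0 := I.filter fun i => key i ∉ Act with hI0
  set ms : ℕ → ℕ := fun κ => ∑ i ∈ I.filter (fun i => key i = κ), a i with hms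
  set L : Finset V := (univ \ Act.biUnion R) \ I0.biUnion p0 with hL
  have hsub : I0.biUnion p0 ⊆ univ \ Act.biUnion R := biUnion_subset.2 fun i hi => (hp1 i hi).1
  have hc0 : (I0.biUnion p0).card = ∑ i ∈ I0, a i := by
    rw [card_biUnion (fun i hi j hj hij => hp2 i hi j hj hij)]
    exact sum_congr rfl fun i hi => (hp1 i hi).2.1
  have hcR : (Act.biUnion R).card = ∑ κ ∈ Act, (R κ).card :=
    card_biUnion fun i hi j hj hij => hR i hi j hj hij
  have hsplit : ∑ κ ∈ Act, ms κ + ∑ i ∈ I0, a i = Fintype.card V := by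
    rw [← hsum, ← sum_filter_add_sum_filter_not I (fun i => key i ∈ Act) a]
    congr 1
    rw [← sum_fiberwise_of_maps_to (s := I.filter fun i => key i ∈ Act) (t := Act) (g := key)
      (fun i hi => (mem_filter.1 hi).2) a]
    refine sum_congr rfl fun κ hκ => ?_
    refine sum_congr ?_ fun _ _ => rfl
    ext i
    simp only [mem_filter]
    constructor
    · rintro ⟨h1, h2⟩
      exact ⟨⟨h1, h2 ▸ hκ⟩, h2⟩
    · rintro ⟨⟨h1, _⟩, h2⟩
      exact ⟨h1, h2⟩
  have hsub2 : ∑ κ ∈ Act, (ms κ - (R κ).card) + ∑ κ ∈ Act, (R κ).card = ∑ κ ∈ Act, ms κ := by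
    rw [← sum_add_distrib]
    exact sum_congr rfl fun κ hκ => Nat.sub_add_cancel (hsz κ hκ)
  have hLc : ∑ κ ∈ Act, (ms κ - (R κ).card) ≤ L.card := by
    rw [hL, card_sdiff_of_subset hsub, card_sdiff_of_subset (subset_univ _), card_univ, hc0, hcR]
    omega
  obtain ⟨q, hq1, hq2⟩ := exists_blocks L Act (fun κ => ms κ - (R κ).card) hLc
  have hqR : ∀ κ ∈ Act, ∀ κ' ∈ Act, Disjoint (R κ) (q κ') := by
    intro κ hκ κ' hκ'
    rw [disjoint_left]
    intro v hv hv'
    have h1 := (mem_sdiff.1 (mem_sdiff.1 ((hq1 κ' hκ').1 hv')).1).2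
    exact h1 (mem_biUnion.2 ⟨κ, hκ, hv⟩)
  have hP : ∀ κ, ∃ P : ι → Finset V, κ ∈ Act →
      (∀ i ∈ I.filter (fun i => key i = κ), P i ⊆ R κ ∪ q κ ∧ (P i).card = a i ∧ Conn G (P i)) ∧
        ∀ i ∈ I.filter (fun i => key i = κ), ∀ j ∈ I.filter (fun i => key i = κ), i ≠ j →
          Disjoint (P i) (P j) := by
    intro κ
    by_cases hκ : κ ∈ Act
    · obtain ⟨P, hP⟩ := hu κ hκ (R κ ∪ q κ) subset_union_left (by
        rw [card_union_of_disjoint (hqR κ hκ κ hκ), (hq1 κ hκ).2]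
        exact Nat.add_sub_cancel' (hsz κ hκ))
      exact ⟨P, fun _ => hP⟩
    · exact ⟨fun _ => ∅, fun h => absurd h hκ⟩
  choose P hP using hP
  have hmix : ∀ i ∈ I, key i ∈ Act → ∀ j ∈ I, key j ∉ Act → Disjoint (P (key i) i) (p0 j) := by
    intro i hi hki j hj hkj
    have hj0 : j ∈ I0 := mem_filter.2 ⟨hj, hkj⟩
    rw [disjoint_left]
    intro v hv hv'
    rcases mem_union.1 (((hP _ hki).1 i (mem_filter.2 ⟨hi, rfl⟩)).1 hv) with h1 | h1
    · exact (mem_sdiff.1 ((hp1 j hj0).1 hv')).2 (mem_biUnion.2 ⟨_, hki, h1⟩)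
    · exact (mem_sdiff.1 ((hq1 _ hki).1 h1)).2 (mem_biUnion.2 ⟨j, hj0, hv'⟩)
  refine ⟨fun i => if key i ∈ Act then P (key i) i else p0 i, ?_, ?_⟩
  · intro i hi
    by_cases hk : key i ∈ Act
    · simp only [if_pos hk]
      exact ⟨subset_univ _, ((hP _ hk).1 i (mem_filter.2 ⟨hi, rfl⟩)).2⟩
    · simp only [if_neg hk]
      exact ⟨subset_univ _, (hp1 i (mem_filter.2 ⟨hi, hk⟩)).2⟩
  · intro i hi j hj hij
    by_cases hki : key i ∈ Act
    · by_cases hkj : key j ∈ Act
      · simp only [if_pos hki, if_pos hkj]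
        by_cases hk : key i = key j
        · rw [← hk]
          exact (hP _ hki).2 i (mem_filter.2 ⟨hi, rfl⟩) j (mem_filter.2 ⟨hj, hk.symm⟩) hij
        · refine disjoint_of_subset_left ((hP _ hki).1 i (mem_filter.2 ⟨hi, rfl⟩)).1
            (disjoint_of_subset_right ((hP _ hkj).1 j (mem_filter.2 ⟨hj, rfl⟩)).1 ?_)
          rw [disjoint_union_left, disjoint_union_right, disjoint_union_right]
          exact ⟨⟨hR _ hki _ hkj hk, hqR _ hki _ hkj⟩, (hqR _ hkj _ hki).symm, hq2 _ hki _ hkj hk⟩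
      · simp only [if_pos hki, if_neg hkj]
        exact hmix i hi hki j hj hkj
    · by_cases hkj : key j ∈ Act
      · simp only [if_neg hki, if_pos hkj]
        exact (hmix j hj hkj i hi hki).symm
      · simp only [if_neg hki, if_neg hkj]
        exact hp2 i (mem_filter.2 ⟨hi, hki⟩) j (mem_filter.2 ⟨hj, hkj⟩) hij


end Pool.Agent.Lib.MP_f20cd2_co.PL
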