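import Pool.Agent.Lib.MP_f20cd2_co.PL.Basic

/-!
A spanning tree of logarithmic degree (C1).
-/

set_option autoImplicit false
set_option linter.unusedSectionVars false

namespace Pool.Agent.Lib.MP_f20cd2_co.PL

open Finset
open Pool.Agent.Lib.MP_f20cd2_co.H83 (Conn Cells)
open scoped Classical

variable {V : Type} [Fintype V] [DecidableEq V] {G : SimpleGraph V}

namespace TreeAux

theorem grow {H : SimpleGraph V} {A : Finset V} (hA : Conn H A) (r : V) :
    ∀ (n : ℕ) (P : Finset V) (par : V → V) (rk : V → ℕ), P ⊆ A → r ∈ P → (A \ P).card = n →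
      (∀ v ∈ P, v ≠ r → par v ∈ P ∧ rk (par v) < rk v ∧ H.Adj v (par v)) →
      ∃ (par' : V → V) (rk' : V → ℕ),
        ∀ v ∈ A, v ≠ r → par' v ∈ A ∧ rk' (par' v) < rk' v ∧ H.Adj v (par' v) := by
  intro n
  induction n using Nat.strong_induction_on with
  | _ n ih =>
    intro P par rk hP hr hn h
    by_cases hPA : P = A
    · subst hPA
      exact ⟨par, rk, h⟩
    obtain ⟨a, ha, b, hb, hbP, hab⟩ := hA.2 P hP ⟨r, hr⟩ hPA
    have hlt : (A \ insert b P).card < n := by
      rw [← hn]
      refine card_lt_card ⟨sdiff_subset_sdiff (Subset.refl _) (subset_insert _ _), fun h' => ?_⟩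
      exact (mem_sdiff.1 (h' (mem_sdiff.2 ⟨hb, hbP⟩))).2 (mem_insert_self _ _)
    refine ih _ hlt (insert b P) (Function.update par b a) (Function.update rk b (rk a + 1))
      (insert_subset hb hP) (mem_insert_of_mem hr) rfl fun v hv hvr => ?_
    rcases mem_insert.1 hv with rfl | hvP
    · have hav : a ≠ v := fun e => hbP (e ▸ ha)
      rw [Function.update_self, Function.update_self, Function.update_of_ne hav]
      exact ⟨mem_insert_of_mem ha, Nat.lt_succ_self _, hab.symm⟩
    · have hvb : v ≠ b := fun e => hbP (e ▸ hvP)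
      obtain ⟨h1, h2, h3⟩ := h v hvP hvr
      have hpb : par v ≠ b := fun e => hbP (e ▸ h1)
      rw [Function.update_of_ne hvb, Function.update_of_ne hvb, Function.update_of_ne hpb]
      exact ⟨mem_insert_of_mem h1, h2, h3⟩

/-- The fibres of `lab` on `A` are connected in the subgraph `H` of `G`. -/
def Frag (G : SimpleGraph V) (A : Finset V) (lab : V → V) (H : SimpleGraph V) : Prop :=
  H ≤ G ∧ ∀ x ∈ A, Conn H (A.filter fun y => lab y = lab x)

theorem merge {A : Finset V} {lab : V → V} {H : SimpleGraph V} (h : Frag G A lab H) {v w : V}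
    (hv : v ∈ A) (hw : w ∈ A) (hvw : G.Adj v w) (hne : lab v ≠ lab w) :
    Frag G A (fun x => if lab x = lab w then lab v else lab x) (H ⊔ SimpleGraph.edge v w) ∧
      (A.image fun x => if lab x = lab w then lab v else lab x).card + 1 ≤ (A.image lab).card := by
  refine ⟨⟨sup_le h.1 ?_, fun x hx => ?_⟩, ?_⟩
  · intro a b hab
    rw [SimpleGraph.edge_adj] at hab
    rcases hab.1 with ⟨rfl, rfl⟩ | ⟨rfl, rfl⟩
    · exact hvw
    · exact hvw.symm
  · by_cases hx' : lab x = lab v ∨ lab x = lab w
    · have e : (A.filter fun y => (if lab y = lab w then lab v else lab y) =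
          if lab x = lab w then lab v else lab x) =
          (A.filter fun y => lab y = lab v) ∪ A.filter fun y => lab y = lab w := by
        have e1 : (if lab x = lab w then lab v else lab x) = lab v := by
          rcases hx' with e | e
          · rw [e, if_neg hne]
          · rw [if_pos e]
        ext y
        rw [e1]
        simp only [mem_filter, mem_union]
        by_cases hy : lab y = lab w
        · rw [if_pos hy]
          exact ⟨fun k => Or.inr ⟨k.1, hy⟩, fun k => ⟨k.elim And.left And.left, rfl⟩⟩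
        · rw [if_neg hy]
          exact ⟨Or.inl, fun k => k.resolve_right fun k' => hy k'.2⟩
      rw [e]
      refine conn_union (conn_mono le_sup_left (h.2 v hv)) (conn_mono le_sup_left (h.2 w hw))
        (x := v) (y := w) (mem_filter.2 ⟨hv, rfl⟩) (mem_filter.2 ⟨hw, rfl⟩) ?_
      exact Or.inr ((SimpleGraph.edge_adj v w v w).2 ⟨Or.inl ⟨rfl, rfl⟩, hvw.ne⟩)
    · rw [not_or] at hx'
      have e : (A.filter fun y => (if lab y = lab w then lab v else lab y) =
          if lab x = lab w then lab v else lab x) = A.filter fun y => lab y = lab x := by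
        ext y
        rw [if_neg hx'.2]
        simp only [mem_filter]
        by_cases hy : lab y = lab w
        · rw [if_pos hy, hy]
          exact ⟨fun k => absurd k.2.symm hx'.1, fun k => absurd k.2.symm hx'.2⟩
        · rw [if_neg hy]
      rw [e]
      exact conn_mono le_sup_left (h.2 x hx)
  · have hsub : (A.image fun x => if lab x = lab w then lab v else lab x) ⊆
        (A.image lab).erase (lab w) := by
      intro c hc
      obtain ⟨x, hx, rfl⟩ := mem_image.1 hc
      by_cases hy : lab x = lab w
      · rw [if_pos hy]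
        exact mem_erase.2 ⟨hne, mem_image_of_mem _ hv⟩
      · rw [if_neg hy]
        exact mem_erase.2 ⟨hy, mem_image_of_mem _ hx⟩
    have h1 := card_le_card hsub
    have h2 := card_erase_add_one (mem_image_of_mem lab hw)
    omega

/-- The degree. -/
noncomputable def dg (H : SimpleGraph V) (x : V) : ℕ := (univ.filter fun u => H.Adj x u).card

/-- The neighbours. -/
noncomputable def nb (H : SimpleGraph V) (x : V) : Finset V := univ.filter fun u => H.Adj x u

theorem mem_nb {H : SimpleGraph V} {x u : V} : u ∈ nb H x ↔ H.Adj x u := by simp [nb]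

theorem deg_edge (H : SimpleGraph V) (v w x : V) :
    dg (H ⊔ SimpleGraph.edge v w) x ≤ dg H x + if x = v ∨ x = w then 1 else 0 := by
  show (nb _ x).card ≤ (nb H x).card + _
  by_cases hx : x = v ∨ x = w
  · rw [if_pos hx]
    refine le_trans (card_le_card (t := insert (if x = v then w else v)
      (nb H x)) fun u hu => ?_) (card_insert_le _ _)
    rcases mem_nb.1 hu with h | h
    · exact mem_insert_of_mem (mem_nb.2 h)
    · rw [SimpleGraph.edge_adj] at h
      rcases h.1 with ⟨h1, h2⟩ | ⟨h1, h2⟩
      · rw [if_pos h1, h2]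
        exact mem_insert_self _ _
      · have : x ≠ v := fun e => h.2 (e.trans h2.symm)
        rw [if_neg this, h2]
        exact mem_insert_self _ _
  · rw [if_neg hx, add_zero]
    refine card_le_card fun u hu => ?_
    rcases mem_nb.1 hu with h | h
    · exact mem_nb.2 h
    · rw [SimpleGraph.edge_adj] at h
      rcases h.1 with ⟨h1, -⟩ | ⟨h1, -⟩
      · exact absurd (Or.inl h1) hx
      · exact absurd (Or.inr h1) hx

/-- One round. -/
theorem round {W A : Finset V} (hT : RT G W 1) (hW : W ⊆ A) (j k₀ : ℕ) :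
    ∀ (k : ℕ) (lab : V → V) (H : SimpleGraph V) (S : Finset V), Frag G A lab H →
      (A.image lab).card = k → S.card + 2 * k ≤ 2 * k₀ →
      (∀ x, dg H x ≤ j + if x ∈ S then 1 else 0) →
      ∃ (lab' : V → V) (H' : SimpleGraph V), Frag G A lab' H' ∧
        (∀ x, dg H' x ≤ j + 1) ∧
        ((A.image lab').card ≤ 1 ∨ 6 * (A.image lab').card ≤ 5 * k₀) := by
  intro k
  induction k using Nat.strong_induction_on with
  | _ k ih =>
    intro lab H S hF hk hS hdeg
    by_cases hex : ∃ v ∈ A \ S, ∃ w ∈ A \ S, G.Adj v w ∧ lab v ≠ lab w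
    · obtain ⟨v, hv, w, hw, hvw, hne⟩ := hex
      obtain ⟨hvA, hvS⟩ := mem_sdiff.1 hv
      obtain ⟨hwA, hwS⟩ := mem_sdiff.1 hw
      obtain ⟨h1, h2⟩ := merge hF hvA hwA hvw hne
      refine ih _ (by omega) _ _ (insert v (insert w S)) h1 rfl ?_ fun x => ?_
      · have a1 := card_insert_le v (insert w S)
        have a2 := card_insert_le w S
        omega
      · have a1 := deg_edge H v w x
        have a2 := hdeg x
        by_cases hx : x = v ∨ x = w
        · have hxS : x ∉ S := by
            rcases hx with rfl | rfl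
            · exact hvS
            · exact hwS
          have hx' : x ∈ insert v (insert w S) := by
            rcases hx with rfl | rfl
            · exact mem_insert_self _ _
            · exact mem_insert_of_mem (mem_insert_self _ _)
          rw [if_pos hx] at a1
          rw [if_neg hxS] at a2
          rw [if_pos hx']
          omega
        · rw [if_neg hx] at a1
          by_cases hxS : x ∈ S
          · rw [if_pos hxS] at a2
            rw [if_pos (mem_insert_of_mem (mem_insert_of_mem hxS))]
            omega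
          · rw [if_neg hxS] at a2
            omega
    · refine ⟨lab, H, hF, fun x => (hdeg x).trans (by split_ifs <;> omega), ?_⟩
      have hlab : ∀ v ∈ A \ S, ∀ w ∈ A \ S, G.Adj v w → lab v = lab w := by
        intro v hv w hw hvw
        by_contra hne
        exact hex ⟨v, hv, w, hw, hvw, hne⟩
      have hc : k ≤ ((A \ S).image lab).card + S.card := by
        rw [← hk]
        refine le_trans (card_le_card (t := (A \ S).image lab ∪ S.image lab) fun c hc => ?_)
          ((card_union_le _ _).trans (Nat.add_le_add_left card_image_le _))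
        obtain ⟨x, hx, rfl⟩ := mem_image.1 hc
        by_cases hxS : x ∈ S
        · exact mem_union_right _ (mem_image_of_mem _ hxS)
        · exact mem_union_left _ (mem_image_of_mem _ (mem_sdiff.2 ⟨hx, hxS⟩))
      rw [hk]
      by_cases h2 : 2 ≤ ((A \ S).image lab).card
      · have h3 := hT (A \ S) _ (cells_of_lab (A \ S) lab hlab ((A \ S).image lab).card
          (le_of_eq (by congr; exact Subsingleton.elim _ _))) h2
        rw [one_mul] at h3
        have h4 : ((A \ S).image lab).card ≤ (W \ (A \ S)).card := by exact_mod_cast h3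
        have h5 : (W \ (A \ S)).card ≤ S.card := by
          refine card_le_card fun x hx => ?_
          obtain ⟨hxW, hx'⟩ := mem_sdiff.1 hx
          by_contra hxS
          exact hx' (mem_sdiff.2 ⟨hW hxW, hxS⟩)
        omega
      · omega

theorem rounds {W A : Finset V} (hT : RT G W 1) (hW : W ⊆ A) (j : ℕ) :
    ∃ (lab : V → V) (H : SimpleGraph V), Frag G A lab H ∧
      (∀ x, dg H x ≤ j) ∧
      ((A.image lab).card ≤ 1 ∨ 6 ^ j * (A.image lab).card ≤ 5 ^ j * A.card) := by
  induction j with
  | zero =>
    refine ⟨id, ⊥, ⟨bot_le, fun x hx => ?_⟩, fun x => by simp [dg], Or.inr (by simp)⟩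
    have e : (A.filter fun y => id y = id x) = {x} := by
      ext y
      simp only [mem_filter, id, mem_singleton]
      exact ⟨fun h => h.2, fun h => ⟨h ▸ hx, h⟩⟩
    rw [e]
    exact Conn.single x
  | succ j ih =>
    obtain ⟨lab, H, hF, hdeg, hk⟩ := ih
    rcases hk with hk | hk
    · exact ⟨lab, H, hF, fun x => (hdeg x).trans (Nat.le_succ j), Or.inl hk⟩
    · obtain ⟨lab', H', hF', hdeg', hk'⟩ := round hT hW j (A.image lab).card _ lab H ∅ hF rfl
        (by simp) (fun x => by simpa using hdeg x)
      refine ⟨lab', H', hF', hdeg', hk'.imp_right fun h => ?_⟩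
      calc 6 ^ (j + 1) * (A.image lab').card = 6 ^ j * (6 * (A.image lab').card) := by ring
        _ ≤ 6 ^ j * (5 * (A.image lab).card) := Nat.mul_le_mul_left _ h
        _ = 5 * (6 ^ j * (A.image lab).card) := by ring
        _ ≤ 5 * (5 ^ j * A.card) := Nat.mul_le_mul_left _ hk
        _ = 5 ^ (j + 1) * A.card := by ring

end TreeAux

theorem tree_of_conn {H : SimpleGraph V} {A : Finset V} (hA : Conn H A) (Δ : ℕ)
    (hdeg : ∀ v, (univ.filter fun u => H.Adj v u).card ≤ Δ) :
    ∃ (r : V) (par : V → V) (rk : V → ℕ), RTree A r par rk Δ ∧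
      ∀ v ∈ A, v ≠ r → H.Adj v (par v) := by
  obtain ⟨r, hr⟩ := hA.1
  obtain ⟨par, rk, h⟩ := TreeAux.grow hA r _ {r} id (fun _ => 0) (singleton_subset_iff.2 hr)
    (mem_singleton_self r) rfl fun v hv hvr => absurd (mem_singleton.1 hv) hvr
  refine ⟨r, par, rk, ⟨hr, fun v hv hvr => (h v hv hvr).1, fun v hv hvr => (h v hv hvr).2.1,
    fun u => le_trans (card_le_card fun v hv => ?_) (hdeg u)⟩, fun v hv hvr => (h v hv hvr).2.2⟩
  simp only [mem_filter] at hv
  obtain ⟨hvA, hvr, hp⟩ := hv
  exact mem_filter.2 ⟨mem_univ _, hp ▸ (h v hvA hvr).2.2.symm⟩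

theorem tree_exists (l : ℕ) (hn : Fintype.card V < 2 ^ l) {W A : Finset V} (hT : RT G W 1)
    (hW : W ⊆ A) (hA : A.Nonempty) :
    ∃ (r : V) (par : V → V) (rk : V → ℕ), RTree A r par rk (4 * l) ∧
      ∀ v ∈ A, v ≠ r → G.Adj v (par v) := by
  obtain ⟨lab, H, hF, hdeg, hk⟩ := TreeAux.rounds hT hW (4 * l)
  have hk1 : (A.image lab).card ≤ 1 := by
    rcases hk with hk | hk
    · exact hk
    · by_contra h1
      have h2 : A.card < 2 ^ l := (card_le_univ A).trans_lt hn
      have h3 : 5 ^ (4 * l) * 2 ^ l ≤ 6 ^ (4 * l) := by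
        rw [pow_mul, pow_mul, ← mul_pow]
        exact Nat.pow_le_pow_left (by norm_num) l
      have h4 : 5 ^ (4 * l) * A.card < 5 ^ (4 * l) * 2 ^ l :=
        Nat.mul_lt_mul_of_pos_left h2 (by positivity)
      have h5 : 6 ^ (4 * l) * 1 ≤ 6 ^ (4 * l) * (A.image lab).card :=
        Nat.mul_le_mul_left _ (by omega)
      omega
  obtain ⟨x, hx⟩ := hA
  have e : (A.filter fun y => lab y = lab x) = A :=
    filter_true_of_mem fun y hy =>
      card_le_one.1 hk1 _ (mem_image_of_mem _ hy) _ (mem_image_of_mem _ hx)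
  have hc := hF.2 x hx
  rw [e] at hc
  obtain ⟨r, par, rk, h1, h2⟩ := tree_of_conn hc (4 * l) hdeg
  exact ⟨r, par, rk, h1, fun v hv hvr => hF.1 (h2 v hv hvr)⟩


end Pool.Agent.Lib.MP_f20cd2_co.PL
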