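import Pool.Agent.Lib.MP_f20cd2_co.PL.Defs

/-!
Basic facts on toughness, connected sets and packings.
-/

set_option autoImplicit false
set_option linter.unusedSectionVars false

namespace Pool.Agent.Lib.MP_f20cd2_co.PL

open Finset
open Pool.Agent.Lib.MP_f20cd2_co.H83 (Conn Cells)
open scoped Classical

variable {V : Type} [Fintype V] [DecidableEq V] {G : SimpleGraph V}

namespace BasicAux

theorem const {P : Finset V} (hP : Conn G P) (A : V → Prop)
    (hA : ∀ a ∈ P, ∀ b ∈ P, G.Adj a b → (A a ↔ A b)) : ∀ v ∈ P, ∀ w ∈ P, (A v ↔ A w) := by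
  have key : ∀ v ∈ P, ∀ w ∈ P, A v → A w := by
    intro v hv w hw hAv
    by_contra hAw
    obtain ⟨a, ha, b, hb, hbA, hab⟩ := hP.2 (P.filter A) (filter_subset _ _)
      ⟨v, mem_filter.2 ⟨hv, hAv⟩⟩ fun h => hAw (mem_filter.1 (h.symm ▸ hw : w ∈ P.filter A)).2
    exact hbA (mem_filter.2 ⟨hb, (hA a (mem_filter.1 ha).1 b hb hab).1 (mem_filter.1 ha).2⟩)
  exact fun v hv w hw => ⟨key v hv w hw, key w hw v hv⟩

theorem of_const {P : Finset V} {r : V} (hr : r ∈ P) (h : ∀ A : V → Prop,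
    (∀ a ∈ P, ∀ b ∈ P, G.Adj a b → (A a ↔ A b)) → ∀ v ∈ P, (A v ↔ A r)) : Conn G P := by
  refine ⟨⟨r, hr⟩, fun A hA hne hAP => ?_⟩
  by_contra hno
  have h1 := h (fun v => v ∈ A) fun a ha b hb hab =>
    ⟨fun haA => by_contra fun hbA => hno ⟨a, haA, b, hb, hbA, hab⟩,
      fun hbA => by_contra fun haA => hno ⟨b, hbA, a, ha, haA, hab.symm⟩⟩
  obtain ⟨x, hx⟩ := hne
  exact hAP (Subset.antisymm hA fun v hv => (h1 v hv).2 ((h1 x (hA hx)).1 hx))

end BasicAux

theorem cells_of_lab {ι : Type} (B : Finset V) (lab : V → ι)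
    (h : ∀ v ∈ B, ∀ w ∈ B, G.Adj v w → lab v = lab w) (c : ℕ) (hc : c ≤ (B.image lab).card) :
    Cells G B c := by
  refine ⟨fun v => if hv : lab v ∈ B.image lab then ((B.image lab).equivFin ⟨lab v, hv⟩ : ℕ) else 0,
    fun j hj => ?_, fun v hv w hw hvw => ?_⟩
  · obtain ⟨x, hx⟩ := (B.image lab).equivFin.surjective ⟨j, hj.trans_le hc⟩
    obtain ⟨v, hv, e⟩ := mem_image.1 x.2
    refine ⟨v, hv, ?_⟩
    have h1 : lab v ∈ B.image lab := mem_image_of_mem lab hv
    have h2 : (⟨lab v, h1⟩ : B.image lab) = x := Subtype.ext e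
    simp only [dif_pos h1, h2, hx]
  · simp only [h v hv w hw hvw]

theorem BasicAux.cells {ι : Type} [inst : DecidableEq ι] (B : Finset V) (lab : V → ι)
    (h : ∀ v ∈ B, ∀ w ∈ B, G.Adj v w → lab v = lab w) (c : ℕ) (hc : c ≤ (B.image lab).card) :
    Cells G B c := by
  have e : inst = fun a b => Classical.propDecidable (a = b) := Subsingleton.elim _ _
  subst e
  exact cells_of_lab B lab h c hc

theorem RT.mono {W W' : Finset V} {t t' : ℝ} (h : RT G W t) (hW : W ⊆ W') (ht : t' ≤ t) :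
    RT G W' t' := by
  intro B c hB hc
  refine (mul_le_mul_of_nonneg_right ht (Nat.cast_nonneg c)).trans ((h B c hB hc).trans ?_)
  exact_mod_cast card_le_card (sdiff_subset_sdiff hW (Subset.refl _))

theorem rt_of_tough {t : ℝ} (ht : 0 ≤ t)
    (hG : ∀ S : Set V, 1 < Nat.card (G.induce Sᶜ).ConnectedComponent →
      t * Nat.card (G.induce Sᶜ).ConnectedComponent ≤ S.ncard) : RT G univ t := by
  intro B c hB hc
  have h1 := hB.le_card
  have h2 := hG ((univ \ B : Finset V) : Set V)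
  have e : ((univ \ B : Finset V) : Set V)ᶜ = (B : Set V) := by
    ext v
    simp
  rw [e, Set.ncard_coe_finset] at h2
  refine le_trans (mul_le_mul_of_nonneg_left ?_ ht) (h2 (by omega))
  exact_mod_cast h1

theorem RT.conn {W A : Finset V} {t : ℝ} (h : RT G W t) (ht : 0 < t) (hW : W ⊆ A)
    (hA : A.Nonempty) : Conn G A := by
  obtain ⟨r, hr⟩ := hA
  refine BasicAux.of_const hr fun P hP v hv => ?_
  by_contra hne
  have h1 := h A 2 (BasicAux.cells A P (fun a ha b hb hab => propext (hP a ha b hb hab)) 2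
    (one_lt_card.2 ⟨P v, mem_image_of_mem _ hv, P r, mem_image_of_mem _ hr,
      fun e => hne (iff_of_eq e)⟩)) le_rfl
  rw [sdiff_eq_empty_iff_subset.2 hW] at h1
  simp only [card_empty, Nat.cast_zero, Nat.cast_ofNat] at h1
  linarith

theorem RT.card_ge {t : ℝ} (h : RT G univ t) (hnc : ∃ u v, u ≠ v ∧ ¬ G.Adj u v) :
    2 * t + 2 ≤ (Fintype.card V : ℝ) := by
  obtain ⟨u, v, huv, hn⟩ := hnc
  have h1 := h {u, v} 2 (BasicAux.cells {u, v} id (fun a ha b hb hab => ?_) 2
    (by rw [image_id, card_pair huv])) le_rfl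
  · have h2 : (univ \ {u, v} : Finset V).card + 2 = Fintype.card V := by
      rw [← card_pair huv, card_sdiff_add_card_eq_card (subset_univ _), card_univ]
    rw [← h2]
    push_cast at h1 ⊢
    linarith
  · simp only [mem_insert, mem_singleton] at ha hb
    rcases ha with rfl | rfl <;> rcases hb with rfl | rfl
    · rfl
    · exact absurd hab hn
    · exact absurd hab.symm hn
    · rfl

theorem RT.expd {t : ℝ} (h : RT G univ t) (ht : 0 ≤ t) (hnc : ∃ u v, u ≠ v ∧ ¬ G.Adj u v) :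
    Expd G t := by
  intro I hI
  have hIB : I ⊆ univ \ nbr G I := fun v hv => mem_sdiff.2 ⟨mem_univ _, fun h' =>
    let ⟨u, hu, huv⟩ := mem_nbr.1 h'; hI u hu v hv huv⟩
  obtain ⟨lab, hlab⟩ : ∃ lab : V → Option V, lab = fun v => if v ∈ I then some v else none :=
    ⟨_, rfl⟩
  have hc := BasicAux.cells (G := G) (univ \ nbr G I) lab (fun v hv w hw hvw => by
    have h1 : v ∉ I := fun h' => (mem_sdiff.1 hw).2 (mem_nbr.2 ⟨v, h', hvw⟩)
    have h2 : w ∉ I := fun h' => (mem_sdiff.1 hv).2 (mem_nbr.2 ⟨w, h', hvw.symm⟩)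
    simp only [hlab, if_neg h1, if_neg h2]) _ le_rfl
  have hle : I.card ≤ ((univ \ nbr G I).image lab).card := by
    refine card_le_card_of_injOn lab (fun v hv => mem_coe.2 (mem_image_of_mem _ (hIB hv)))
      fun v hv w hw e => ?_
    simpa only [hlab, if_pos (mem_coe.1 hv), if_pos (mem_coe.1 hw), Option.some.injEq] using e
  by_cases h2 : 2 ≤ ((univ \ nbr G I).image lab).card
  · have h3 := h _ _ hc h2
    rw [Finset.sdiff_sdiff_eq_self (subset_univ _)] at h3
    exact (mul_le_mul_of_nonneg_left (by exact_mod_cast hle) ht).trans h3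
  rcases I.eq_empty_or_nonempty with rfl | ⟨x, hx⟩
  · simp
  have h3 : univ \ nbr G I ⊆ I := fun y hy => by
    by_contra hyI
    refine h2 (one_lt_card.2 ⟨lab x, mem_image_of_mem _ (hIB hx), lab y, mem_image_of_mem _ hy, ?_⟩)
    simp only [hlab, if_pos hx, if_neg hyI]
    exact Option.some_ne_none x
  have h4 := card_le_card h3
  have h5 := card_sdiff_add_card_eq_card (subset_univ (nbr G I))
  rw [card_univ] at h5
  have h6 := h.card_ge hnc
  have h7 : (I.card : ℝ) ≤ 1 := by exact_mod_cast (by omega : I.card ≤ 1)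
  have h8 : (Fintype.card V : ℝ) ≤ (nbr G I).card + 1 := by
    exact_mod_cast (by omega : Fintype.card V ≤ (nbr G I).card + 1)
  have h9 := mul_le_mul_of_nonneg_left h7 ht
  linarith

theorem conn_union {P Q : Finset V} (hP : Conn G P) (hQ : Conn G Q) {x y : V} (hx : x ∈ P)
    (hy : y ∈ Q) (hxy : G.Adj x y) : Conn G (P ∪ Q) := by
  refine BasicAux.of_const (mem_union_left Q hx) fun A hA v hv => ?_
  have h1 := BasicAux.const hP A fun a ha b hb => hA a (mem_union_left _ ha) b (mem_union_left _ hb)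
  have h2 := BasicAux.const hQ A fun a ha b hb =>
    hA a (mem_union_right _ ha) b (mem_union_right _ hb)
  rcases mem_union.1 hv with hv | hv
  · exact h1 v hv x hx
  · exact (h2 v hv y hy).trans (hA x (mem_union_left _ hx) y (mem_union_right _ hy) hxy).symm

theorem conn_mono {H : SimpleGraph V} (hH : H ≤ G) {P : Finset V} (hP : Conn H P) : Conn G P := by
  refine ⟨hP.1, fun A hA hne hAP => ?_⟩
  obtain ⟨a, ha, b, hb, hbA, hab⟩ := hP.2 A hA hne hAP
  exact ⟨a, ha, b, hb, hbA, hH hab⟩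

/-- A set in which every vertex but the root has a neighbour of smaller rank. -/
theorem conn_of_rank (P : Finset V) (r : V) (hr : r ∈ P) (rk : V → ℕ)
    (h : ∀ v ∈ P, v ≠ r → ∃ u ∈ P, G.Adj v u ∧ rk u < rk v) : Conn G P := by
  refine BasicAux.of_const hr fun A hA => ?_
  suffices key : ∀ n, ∀ v ∈ P, rk v < n → (A v ↔ A r) from
    fun v hv => key _ v hv (Nat.lt_succ_self _)
  intro n
  induction n with
  | zero => intro v _ h0; omega
  | succ n ih =>
    intro v hv hn
    by_cases hvr : v = r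
    · rw [hvr]
    · obtain ⟨u, hu, hvu, hlt⟩ := h v hv hvr
      exact (hA v hv u hu hvu).trans (ih u hu (by omega))

/-- A union of connected sets, each joined to an earlier one. -/
theorem conn_biUnion (I : Finset ℕ) (S : ℕ → Finset V) (t : ℕ) (ht : t ∈ I)
    (hS : ∀ a ∈ I, Conn G (S a))
    (h : ∀ a ∈ I, a ≠ t → ∃ a' ∈ I, a' < a ∧ ∃ x ∈ S a, ∃ y ∈ S a', G.Adj x y) :
    Conn G (I.biUnion S) := by
  obtain ⟨r, hr⟩ := (hS t ht).1
  refine BasicAux.of_const (mem_biUnion.2 ⟨t, ht, hr⟩) fun A hA => ?_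
  have h1 : ∀ a ∈ I, ∀ v ∈ S a, ∀ w ∈ S a, (A v ↔ A w) := fun a ha =>
    BasicAux.const (hS a ha) A fun v hv w hw =>
      hA v (mem_biUnion.2 ⟨a, ha, hv⟩) w (mem_biUnion.2 ⟨a, ha, hw⟩)
  have key : ∀ n, ∀ a ∈ I, a < n → ∀ v ∈ S a, (A v ↔ A r) := by
    intro n
    induction n with
    | zero => intro a _ h0; omega
    | succ n ih =>
      intro a ha hn v hv
      by_cases hat : a = t
      · exact h1 a ha v hv r (hat ▸ hr)
      · obtain ⟨a', ha', hlt, x, hx, y, hy, hxy⟩ := h a ha hat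
        exact (h1 a ha v hv x hx).trans ((hA x (mem_biUnion.2 ⟨a, ha, hx⟩) y
          (mem_biUnion.2 ⟨a', ha', hy⟩) hxy).trans (ih a' ha' (by omega) y hy))
  intro v hv
  obtain ⟨a, ha, hv⟩ := mem_biUnion.1 hv
  exact key _ a ha (Nat.lt_succ_self _) v hv

/-- Pendant vertices. -/
theorem conn_attach {P : Finset V} (hP : Conn G P) (Q : Finset V)
    (h : ∀ u ∈ Q, ∃ x ∈ P, G.Adj u x) : Conn G (P ∪ Q) := by
  obtain ⟨r, hr⟩ := hP.1
  refine BasicAux.of_const (mem_union_left Q hr) fun A hA v hv => ?_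
  have h1 := BasicAux.const hP A fun a ha b hb => hA a (mem_union_left _ ha) b (mem_union_left _ hb)
  rcases mem_union.1 hv with hv | hv
  · exact h1 v hv r hr
  · obtain ⟨x, hx, hvx⟩ := h v hv
    exact (hA v (mem_union_right _ hv) x (mem_union_left _ hx) hvx).trans (h1 x hx r hr)

theorem conn_subset_card {P : Finset V} (hP : Conn G P) (s : ℕ) (hs : 0 < s) (hsP : s ≤ P.card) :
    ∃ Q ⊆ P, Q.card = s ∧ Conn G Q := by
  induction s, hs using Nat.le_induction with
  | base =>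
    obtain ⟨r, hr⟩ := hP.1
    exact ⟨{r}, singleton_subset_iff.2 hr, card_singleton r, Conn.single r⟩
  | succ s hs ih =>
    obtain ⟨Q, hQ, hc, hQc⟩ := ih (by omega)
    obtain ⟨a, ha, b, hb, hbQ, hab⟩ := hP.2 Q hQ hQc.1 fun e => by
      rw [e] at hc
      omega
    exact ⟨insert b Q, insert_subset hb hQ, by rw [card_insert_of_notMem hbQ, hc],
      hQc.insert ha hab.symm⟩


end Pool.Agent.Lib.MP_f20cd2_co.PL
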