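import Pool.Agent.Lib.MP_f20cd2_co.PL.Basic

/-!
The container lemma and its consequences (B2).
-/

set_option autoImplicit false
set_option linter.unusedSectionVars false

namespace Pool.Agent.Lib.MP_f20cd2_co.PL

open Finset
open Pool.Agent.Lib.MP_f20cd2_co.H83 (Conn Cells)
open scoped Classical

variable {V : Type} [Fintype V] [DecidableEq V] {G : SimpleGraph V}

namespace ContAux

lemma nbr_mono {D D' : Finset V} (h : D' ⊆ D) : nbr G D' ⊆ nbr G D := by
  intro v hv
  obtain ⟨u, hu, huv⟩ := mem_nbr.1 hv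
  exact mem_nbr.2 ⟨u, h hu, huv⟩

lemma card_nbr_sdiff_le (I B : Finset V) (s : ℕ) (h : ∀ v ∈ I, (nbr G {v} \ B).card ≤ s) :
    (nbr G I \ B).card ≤ s * I.card := by
  have h1 : nbr G I \ B ⊆ I.biUnion fun v => nbr G {v} \ B := by
    intro w hw
    obtain ⟨hw1, hw2⟩ := mem_sdiff.1 hw
    obtain ⟨u, hu, huw⟩ := mem_nbr.1 hw1
    exact mem_biUnion.2 ⟨u, hu, mem_sdiff.2 ⟨mem_nbr.2 ⟨u, mem_singleton_self u, huw⟩, hw2⟩⟩
  refine (card_le_card h1).trans ?_
  rw [mul_comm]
  exact card_biUnion_le_card_mul _ _ _ h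

lemma exists_max_ind (A : Finset V) :
    ∃ I ⊆ A, Ind G I ∧ ∀ u ∈ A, u ∈ I ∨ u ∈ nbr G I := by
  obtain ⟨I, hI, hmax⟩ := exists_max_image (A.powerset.filter fun I => Ind G I) card
    ⟨∅, mem_filter.2 ⟨empty_mem_powerset A, fun u hu => absurd hu (notMem_empty u)⟩⟩
  obtain ⟨hI1, hI2⟩ := mem_filter.1 hI
  refine ⟨I, mem_powerset.1 hI1, hI2, fun u hu => ?_⟩
  by_contra hc
  rw [not_or] at hc
  have h1 : Ind G (insert u I) := by
    intro a ha b hb hab
    rcases mem_insert.1 ha with ha' | ha'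
    · rcases mem_insert.1 hb with hb' | hb'
      · rw [ha', hb'] at hab
        exact G.irrefl hab
      · rw [ha'] at hab
        exact hc.2 (mem_nbr.2 ⟨b, hb', hab.symm⟩)
    · rcases mem_insert.1 hb with hb' | hb'
      · rw [hb'] at hab
        exact hc.2 (mem_nbr.2 ⟨a, ha', hab⟩)
      · exact hI2 a ha' b hb' hab
  have h2 := hmax (insert u I)
    (mem_filter.2 ⟨mem_powerset.2 (insert_subset hu (mem_powerset.1 hI1)), h1⟩)
  rw [card_insert_of_notMem hc.1] at h2
  omega

lemma card_inter_col (χ : V → ℕ) (B : Finset V) (a k : ℕ) :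
    (B ∩ col χ a (a + k)).card = ∑ j ∈ range k, (B ∩ col χ (a + j) (a + j + 1)).card := by
  induction k with
  | zero =>
    rw [sum_range_zero, card_eq_zero]
    refine eq_empty_of_forall_notMem fun v hv => ?_
    have := mem_col.1 (mem_inter.1 hv).2
    omega
  | succ k ih =>
    rw [sum_range_succ, ← ih, ← card_union_of_disjoint]
    · congr 1
      ext v
      simp only [mem_union, mem_inter, mem_col]
      constructor
      · rintro ⟨h1, h2, h3⟩
        by_cases h : χ v < a + k
        · exact Or.inl ⟨h1, h2, h⟩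
        · exact Or.inr ⟨h1, by omega, by omega⟩
      · rintro (⟨h1, h2, h3⟩ | ⟨h1, h2, h3⟩)
        · exact ⟨h1, h2, by omega⟩
        · exact ⟨h1, by omega, by omega⟩
    · rw [disjoint_left]
      intro v h1 h2
      have h3 := mem_col.1 (mem_inter.1 h1).2
      have h4 := mem_col.1 (mem_inter.1 h2).2
      omega

lemma mul_card_le (χ : V → ℕ) (B : Finset V) (a k c s : ℕ)
    (h : ∀ j < k, c * (B ∩ col χ (a + j) (a + j + 1)).card ≤ s) :
    c * (B ∩ col χ a (a + k)).card ≤ k * s := by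
  rw [card_inter_col, mul_sum]
  refine (sum_le_card_nsmul _ _ s fun j hj => h j (mem_range.1 hj)).trans ?_
  simp

lemma le_mul_card (χ : V → ℕ) (B : Finset V) (a k c s : ℕ)
    (h : ∀ j < k, s ≤ c * (B ∩ col χ (a + j) (a + j + 1)).card) :
    k * s ≤ c * (B ∩ col χ a (a + k)).card := by
  rw [card_inter_col, mul_sum]
  refine le_trans ?_ (card_nsmul_le_sum _ _ s fun j hj => h j (mem_range.1 hj))
  simp

end ContAux

open ContAux

theorem container {t : ℝ} (hX : Expd G t) (τ : ℕ) (hτ : 0 < τ) (ht : (τ : ℝ) ≤ t) (D : Finset V)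
    (hD : D.Nonempty) :
    ∃ D' ⊆ D, D'.Nonempty ∧ τ * D'.card ≤ (nbr G D').card ∧
      (t - τ) * (D \ nbr G D').card ≤ τ * ((nbr G D').card : ℝ) ∧
      (Ind G D → (t - τ) * D.card ≤ ((nbr G D').card : ℝ)) := by
  obtain ⟨D', hD', hmax⟩ := exists_max_image
    (D.powerset.filter fun E => τ * E.card ≤ (nbr G E).card) card
    ⟨∅, mem_filter.2 ⟨empty_mem_powerset D, by simp⟩⟩
  obtain ⟨h1, h2⟩ := mem_filter.1 hD'
  have hsub : D' ⊆ D := mem_powerset.1 h1
  have hne : D'.Nonempty := by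
    obtain ⟨v, hv⟩ := hD
    have h3 : Ind G {v} := by
      intro a ha b hb hab
      rw [mem_singleton.1 ha, mem_singleton.1 hb] at hab
      exact G.irrefl hab
    have h4 := hX {v} h3
    have h5 : τ * ({v} : Finset V).card ≤ (nbr G {v}).card := by
      rw [card_singleton] at h4 ⊢
      have : ((τ * 1 : ℕ) : ℝ) ≤ ((nbr G {v}).card : ℝ) := by
        push_cast at h4 ⊢
        linarith
      exact_mod_cast this
    have h6 := hmax {v} (mem_filter.2 ⟨mem_powerset.2 (singleton_subset_iff.2 hv), h5⟩)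
    rw [card_singleton] at h6
    exact card_pos.1 h6
  have hdeg : ∀ v ∈ D, (nbr G {v} \ nbr G D').card ≤ τ - 1 := by
    intro v hv
    by_cases hv' : v ∈ D'
    · rw [sdiff_eq_empty_iff_subset.2 (nbr_mono (singleton_subset_iff.2 hv'))]
      simp
    · by_contra hc
      have h3 : nbr G D' ∪ (nbr G {v} \ nbr G D') ⊆ nbr G (insert v D') :=
        union_subset (nbr_mono (subset_insert v D'))
          (sdiff_subset.trans (nbr_mono (singleton_subset_iff.2 (mem_insert_self v D'))))
      have h4 := card_le_card h3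
      rw [card_union_of_disjoint disjoint_sdiff] at h4
      have h5 : τ * (insert v D').card ≤ (nbr G (insert v D')).card := by
        rw [card_insert_of_notMem hv', mul_add]
        omega
      have h6 := hmax (insert v D') (mem_filter.2 ⟨mem_powerset.2 (insert_subset hv hsub), h5⟩)
      rw [card_insert_of_notMem hv'] at h6
      omega
  have hind : ∀ I ⊆ D, Ind G I → (t - τ) * I.card ≤ ((nbr G D').card : ℝ) := by
    intro I hI hI'
    have h3 := hX I hI'
    have h4 := card_nbr_sdiff_le (G := G) I (nbr G D') τ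
      fun v hv => (hdeg v (hI hv)).trans (Nat.sub_le _ _)
    have h5 : (nbr G I).card ≤ (nbr G I \ nbr G D').card + (nbr G D').card :=
      card_le_card_sdiff_add_card
    have h6 : ((nbr G I).card : ℝ) ≤ τ * I.card + (nbr G D').card := by
      exact_mod_cast h5.trans (Nat.add_le_add_right h4 _)
    linarith
  refine ⟨D', hsub, hne, h2, ?_, hind D Subset.rfl⟩
  obtain ⟨I, hI1, hI2, hI3⟩ := exists_max_ind (G := G) (D \ nbr G D')
  have hID : I ⊆ D := hI1.trans sdiff_subset
  have h3 := hind I hID hI2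
  have h4 := card_nbr_sdiff_le (G := G) I (nbr G D') (τ - 1) fun v hv => hdeg v (hID hv)
  have h5 : D \ nbr G D' ⊆ I ∪ (nbr G I \ nbr G D') := by
    intro u hu
    rcases hI3 u hu with h | h
    · exact mem_union_left _ h
    · exact mem_union_right _ (mem_sdiff.2 ⟨h, (mem_sdiff.1 hu).2⟩)
  have h6 : (D \ nbr G D').card ≤ τ * I.card := by
    have h7 := (card_le_card h5).trans (card_union_le _ _)
    obtain ⟨s, rfl⟩ : ∃ s, τ = s + 1 := ⟨τ - 1, by omega⟩
    rw [Nat.add_sub_cancel] at h4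
    rw [add_mul]
    omega
  have h7 : ((D \ nbr G D').card : ℝ) ≤ τ * I.card := by exact_mod_cast h6
  have h8 : (0 : ℝ) ≤ t - τ := by linarith
  have h9 : (0 : ℝ) ≤ τ := by positivity
  calc (t - τ) * ((D \ nbr G D').card : ℝ) ≤ (t - τ) * (τ * I.card) :=
        mul_le_mul_of_nonneg_left h7 h8
    _ = τ * ((t - τ) * I.card) := by ring
    _ ≤ _ := mul_le_mul_of_nonneg_left h3 h9

theorem dom_of_ea {t : ℝ} (hX : Expd G t) {M τ : ℕ} (hτ : 0 < τ) (ht : 2 * (τ : ℝ) ≤ t)
    {χ : V → ℕ} (hE : Ea G M τ χ) {j : ℕ} (hj : j < M) : Dom G M t (col χ j (j + 1)) := by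
  have hτ' : (0 : ℝ) < τ := by exact_mod_cast hτ
  have key : ∀ D : Finset V, D.Nonempty → ∃ B : Finset V,
      (t - τ) * (D \ B).card ≤ τ * (B.card : ℝ) ∧ (Ind G D → (t - τ) * D.card ≤ (B.card : ℝ)) ∧
      B.card ≤ 2 * M * (nbr G D ∩ col χ j (j + 1)).card := by
    intro D hD
    obtain ⟨D', h1, h2, h3, h4, h5⟩ := container hX τ hτ (by linarith) D hD
    refine ⟨nbr G D', h4, h5, ((hE j hj).2 D' h2 h3).1.trans ?_⟩
    exact Nat.mul_le_mul_left _ (card_le_card (inter_subset_inter_right (nbr_mono h1)))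
  constructor
  · intro D
    rcases D.eq_empty_or_nonempty with rfl | hD
    · simp
    obtain ⟨B, h1, -, h3⟩ := key D hD
    have h4 : (D \ B).card ≤ B.card := by
      have h5 : (τ : ℝ) * (D \ B).card ≤ τ * (B.card : ℝ) :=
        le_trans (mul_le_mul_of_nonneg_right (by linarith) (by positivity)) h1
      exact_mod_cast le_of_mul_le_mul_left h5 hτ'
    have h5 : D.card ≤ (D \ B).card + B.card := card_le_card_sdiff_add_card
    have h6 : 4 * M * (nbr G D ∩ col χ j (j + 1)).card
        = 2 * (2 * M * (nbr G D ∩ col χ j (j + 1)).card) := by ring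
    omega
  · intro D hI
    rcases D.eq_empty_or_nonempty with rfl | hD
    · simp only [card_empty, Nat.cast_zero, mul_zero]
      positivity
    obtain ⟨B, -, h2, h3⟩ := key D hD
    have h4 := h2 hI
    have h5 : (B.card : ℝ) ≤ 2 * M * ((nbr G D ∩ col χ j (j + 1)).card : ℝ) := by
      exact_mod_cast h3
    have h6 : (0 : ℝ) ≤ (t - 2 * τ) * D.card := mul_nonneg (by linarith) (by positivity)
    nlinarith

theorem low_of_ea {t : ℝ} (hX : Expd G t) {M τ : ℕ} (hτ : 0 < τ) (ht : (M + 1) * (τ : ℝ) ≤ t)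
    {χ : V → ℕ} (hE : Ea G M τ χ) (g L h MF lam : ℕ) (hM : 0 < M) (hg : g + L ≤ M)
    (hh : h + MF ≤ M) (hlam : 2 * (2 * L + 1) * lam ≤ MF) (D : Finset V)
    (hD : D ⊆ col χ g (g + L)) : lam * D.card ≤ (nbr G D ∩ col χ h (h + MF)).card := by
  have hτ' : (0 : ℝ) < τ := by exact_mod_cast hτ
  have hM' : (0 : ℝ) ≤ M * τ := by positivity
  rcases D.eq_empty_or_nonempty with rfl | hne
  · simp
  obtain ⟨D', h1, h2, h3, h4, -⟩ := container hX τ hτ (by linarith) D hne
  have h5 : M * (D \ nbr G D').card ≤ (nbr G D').card := by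
    have h6 : (τ : ℝ) * (M * (D \ nbr G D').card) ≤ τ * ((nbr G D').card : ℝ) := by
      refine le_trans ?_ h4
      rw [← mul_assoc]
      exact mul_le_mul_of_nonneg_right (by linarith) (by positivity)
    exact_mod_cast le_of_mul_le_mul_left h6 hτ'
  have h6 := mul_card_le χ (nbr G D') g L M (2 * (nbr G D').card)
    fun j hj => ((hE (g + j) (by omega)).2 D' h2 h3).2
  have h7 := le_mul_card χ (nbr G D') h MF (2 * M) (nbr G D').card
    fun j hj => ((hE (h + j) (by omega)).2 D' h2 h3).1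
  have h8 : D.card ≤ (D \ nbr G D').card + (nbr G D' ∩ col χ g (g + L)).card := by
    refine le_trans (card_le_card ?_) (card_union_le _ _)
    intro v hv
    by_cases hv' : v ∈ nbr G D'
    · exact mem_union_right _ (mem_inter.2 ⟨hv', hD hv⟩)
    · exact mem_union_left _ (mem_sdiff.2 ⟨hv, hv'⟩)
  have h9 : (nbr G D' ∩ col χ h (h + MF)).card ≤ (nbr G D ∩ col χ h (h + MF)).card :=
    card_le_card (inter_subset_inter_right (nbr_mono h1))
  have h10 : M * D.card ≤ (2 * L + 1) * (nbr G D').card := by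
    have h11 := Nat.mul_le_mul_left M h8
    rw [mul_add] at h11
    have h12 : (2 * L + 1) * (nbr G D').card = L * (2 * (nbr G D').card) + (nbr G D').card := by
      ring
    omega
  refine le_trans (Nat.le_of_mul_le_mul_left ?_ (show 0 < 2 * M by omega)) h9
  calc 2 * M * (lam * D.card) = 2 * lam * (M * D.card) := by ring
    _ ≤ 2 * lam * ((2 * L + 1) * (nbr G D').card) := Nat.mul_le_mul_left _ h10
    _ = 2 * (2 * L + 1) * lam * (nbr G D').card := by ring
    _ ≤ MF * (nbr G D').card := Nat.mul_le_mul_right _ hlam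
    _ ≤ _ := h7

theorem size_of_ea {M τ : ℕ} {χ : V → ℕ} (hE : Ea G M τ χ) (a b : ℕ) (hb : b ≤ M) :
    M * (col χ a b).card ≤ 2 * (b - a) * Fintype.card V := by
  rcases le_or_gt a b with hab | hab
  · obtain ⟨k, rfl⟩ := Nat.exists_eq_add_of_le hab
    have h1 := mul_card_le χ univ a k M (2 * Fintype.card V) fun j hj => by
      rw [univ_inter]
      exact (hE (a + j) (by omega)).1
    rw [univ_inter] at h1
    rw [Nat.add_sub_cancel_left]
    calc M * (col χ a (a + k)).card ≤ k * (2 * Fintype.card V) := h1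
      _ = 2 * k * Fintype.card V := by ring
  · have h1 : col χ a b = ∅ := by
      refine eq_empty_of_forall_notMem fun v hv => ?_
      have := mem_col.1 hv
      omega
    simp [h1]

end Pool.Agent.Lib.MP_f20cd2_co.PL
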