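import Pool.Agent.Lib.MP_f20cd2_co.PL.Defs

/-!
Averages over one and two coordinates, fibres and union bounds (A3).
-/

set_option autoImplicit false
set_option linter.unusedSectionVars false

namespace Pool.Agent.Lib.MP_f20cd2_co.PL

open Finset
open Pool.Agent.Lib.MP_f20cd2_co.H83 (Conn Cells)
open scoped Classical

variable {ι α : Type} [Fintype ι] [DecidableEq ι]

namespace ProdAux

lemma upd_mem {s : ι → Finset α} {x : ι → α} (hx : x ∈ Fintype.piFinset s) {i : ι} {y : α}
    (hy : y ∈ s i) : Function.update x i y ∈ Fintype.piFinset s := by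
  rw [Fintype.mem_piFinset] at hx ⊢
  intro v
  by_cases h : v = i
  · subst h
    simpa using hy
  · rw [Function.update_of_ne h]
    exact hx v

lemma resample (s : ι → Finset α) (i : ι) (F : (ι → α) → ℝ) :
    (∑ x ∈ Fintype.piFinset s, F x) * (s i).card =
      ∑ x ∈ Fintype.piFinset s, ∑ y ∈ s i, F (Function.update x i y) := by
  have h1 : (∑ x ∈ Fintype.piFinset s, F x) * (s i).card =
      ∑ z ∈ Fintype.piFinset s ×ˢ s i, F z.1 := by
    rw [sum_product, sum_mul]
    refine sum_congr rfl fun x _ => ?_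
    simp [mul_comm]
  have h2 : ∑ x ∈ Fintype.piFinset s, ∑ y ∈ s i, F (Function.update x i y) =
      ∑ z ∈ Fintype.piFinset s ×ˢ s i, F (Function.update z.1 i z.2) := by
    rw [sum_product]
  rw [h1, h2]
  symm
  refine sum_nbij' (fun z => (Function.update z.1 i z.2, z.1 i))
    (fun z => (Function.update z.1 i z.2, z.1 i)) ?_ ?_ ?_ ?_ ?_
  · intro z hz
    rw [mem_product] at hz ⊢
    exact ⟨upd_mem hz.1 hz.2, Fintype.mem_piFinset.1 hz.1 i⟩
  · intro z hz
    rw [mem_product] at hz ⊢
    exact ⟨upd_mem hz.1 hz.2, Fintype.mem_piFinset.1 hz.1 i⟩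
  · intro z _
    simp
  · intro z _
    simp
  · intro z _
    rfl

/-- The frozen values. -/
noncomputable def key (E : Finset α) (x : ι → α) : ι → Option α :=
  fun v => if x v ∈ E then some (x v) else none

lemma fibre_eq (s : ι → Finset α) (E : Finset α) {x0 : ι → α} (h0 : x0 ∈ Fintype.piFinset s) :
    (Fintype.piFinset s).filter (fun x => key E x = key E x0) = Fintype.piFinset (fib s E x0) := by
  ext x
  rw [mem_filter, Fintype.mem_piFinset, Fintype.mem_piFinset, funext_iff, ← forall_and]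
  refine forall_congr' fun v => ?_
  have h1 := Fintype.mem_piFinset.1 h0 v
  unfold key fib
  by_cases a : x0 v ∈ E
  · by_cases b : x v ∈ E
    · simp only [a, b, if_true, Option.some.injEq, mem_singleton]
      exact ⟨fun h => h.2, fun h => ⟨h ▸ h1, h⟩⟩
    · simp only [a, b, if_true, if_false, mem_singleton]
      constructor
      · intro h
        exact absurd h.2 (by simp)
      · intro h
        exact absurd (h ▸ a) b
  · by_cases b : x v ∈ E
    · simp [a, b]
    · simp [a, b]

end ProdAux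

open ProdAux

theorem sum_coord (s : ι → Finset α) (i : ι) (h : α → ℝ) :
    (∑ x ∈ Fintype.piFinset s, h (x i)) * (s i).card =
      (Fintype.piFinset s).card * ∑ y ∈ s i, h y := by
  rw [resample]
  simp

theorem sum_two (s : ι → Finset α) {i j : ι} (hij : i ≠ j) (h : α → ℝ) (h0 : ∀ y ∈ s i, 0 ≤ h y)
    (E : α → α → Prop) (p : ℝ)
    (hp : ∀ y ∈ s i, (((s j).filter fun y' => E y y').card : ℝ) ≤ p * (s j).card) :
    ∑ x ∈ Fintype.piFinset s, (if E (x i) (x j) then h (x i) else 0) ≤
      p * ∑ x ∈ Fintype.piFinset s, h (x i) := by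
  rcases (s j).eq_empty_or_nonempty with hj | hj
  · have : Fintype.piFinset s = ∅ := Fintype.piFinset_eq_empty.2 ⟨j, hj⟩
    simp [this]
  have hc : (0 : ℝ) < (s j).card := by exact_mod_cast hj.card_pos
  refine le_of_mul_le_mul_right ?_ hc
  rw [resample s j fun x => if E (x i) (x j) then h (x i) else 0, mul_sum, sum_mul]
  refine sum_le_sum fun x hx => ?_
  have hxi := Fintype.mem_piFinset.1 hx i
  simp only [Function.update_of_ne hij, Function.update_self]
  rw [← sum_filter, sum_const, nsmul_eq_mul]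
  have h1 := mul_le_mul_of_nonneg_right (hp _ hxi) (h0 _ hxi)
  calc _ ≤ p * (s j).card * h (x i) := h1
    _ = _ := by ring

/-- Prescribing the value on a set of coordinates. -/
theorem card_fix (s : ι → Finset α) (H : Finset ι) (y : α) (hy : ∀ v ∈ H, y ∈ s v) (M : ℕ)
    (hM : ∀ v, (s v).card ≤ M) :
    (Fintype.piFinset s).card ≤
      M ^ H.card * ((Fintype.piFinset s).filter fun x => ∀ v ∈ H, x v = y).card := by
  have h1 : ((Fintype.piFinset s).filter fun x => ∀ v ∈ H, x v = y) =
      Fintype.piFinset fun v => if v ∈ H then {y} else s v := by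
    ext x
    rw [mem_filter, Fintype.mem_piFinset, Fintype.mem_piFinset, ← forall_and]
    refine forall_congr' fun v => ?_
    by_cases a : v ∈ H
    · simp only [a, if_true, mem_singleton, forall_true_left]
      exact ⟨fun h => h.2, fun h => ⟨h ▸ hy v a, h⟩⟩
    · simp [a]
  have h2 : M ^ H.card = ∏ v : ι, if v ∈ H then M else 1 := by
    rw [prod_ite_mem, univ_inter, prod_const]
  rw [h1, h2, Fintype.card_piFinset, Fintype.card_piFinset, ← prod_mul_distrib]
  refine prod_le_prod' fun v _ => ?_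
  by_cases a : v ∈ H
  · simpa [a] using hM v
  · simp [a]

theorem mem_fib {s : ι → Finset α} {E : Finset α} {x0 x : ι → α}
    (hx : x ∈ Fintype.piFinset (fib s E x0)) (v : ι) :
    (x0 v ∈ E → x v = x0 v) ∧ (x0 v ∉ E → x v ∉ E) := by
  have h := Fintype.mem_piFinset.1 hx v
  unfold fib at h
  constructor
  · intro a
    simpa [a] using h
  · intro a
    rw [if_neg a] at h
    exact (mem_sdiff.1 h).2

theorem fibre_le (s : ι → Finset α) (E : Finset α) (bad : (ι → α) → Prop) (p : ℝ)
    (h : ∀ x0 ∈ Fintype.piFinset s, (((Fintype.piFinset (fib s E x0)).filter bad).card : ℝ) ≤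
      p * (Fintype.piFinset (fib s E x0)).card) :
    (((Fintype.piFinset s).filter bad).card : ℝ) ≤ p * (Fintype.piFinset s).card := by
  have h1 := card_eq_sum_card_fiberwise (f := key E) (s := (Fintype.piFinset s).filter bad)
    (t := (Fintype.piFinset s).image (key E))
    (fun x hx => mem_coe.2 (mem_image_of_mem _ (mem_filter.1 (mem_coe.1 hx)).1))
  have h2 := card_eq_sum_card_fiberwise (f := key E) (s := Fintype.piFinset s)
    (t := (Fintype.piFinset s).image (key E))
    (fun x hx => mem_coe.2 (mem_image_of_mem _ (mem_coe.1 hx)))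
  rw [h1, h2]
  push_cast
  rw [mul_sum]
  refine sum_le_sum fun k hk => ?_
  obtain ⟨x0, hx0, rfl⟩ := mem_image.1 hk
  have h3 := h x0 hx0
  rw [← fibre_eq s E hx0] at h3
  rw [filter_comm]
  convert h3 using 3

theorem union_le {Ω κ : Type} (S : Finset Ω) (I : Finset κ) (bad : κ → Ω → Prop) (p : κ → ℝ)
    (h : ∀ k ∈ I, ((S.filter (bad k)).card : ℝ) ≤ p k * S.card) (B : Ω → Prop)
    (hB : ∀ x ∈ S, B x → ∃ k ∈ I, bad k x) :
    ((S.filter B).card : ℝ) ≤ (∑ k ∈ I, p k) * S.card := by
  have h1 : S.filter B ⊆ I.biUnion fun k => S.filter (bad k) := by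
    intro x hx
    obtain ⟨a, b⟩ := mem_filter.1 hx
    obtain ⟨k, hk, c⟩ := hB x a b
    exact mem_biUnion.2 ⟨k, hk, mem_filter.2 ⟨a, c⟩⟩
  have h2 : ((S.filter B).card : ℝ) ≤ ∑ k ∈ I, ((S.filter (bad k)).card : ℝ) := by
    exact_mod_cast (card_le_card h1).trans card_biUnion_le
  rw [sum_mul]
  exact h2.trans (sum_le_sum h)

theorem exists_good {Ω : Type} (S : Finset Ω) (hS : S.Nonempty) (B : Ω → Prop) (p : ℝ) (hp : p < 1)
    (h : ((S.filter B).card : ℝ) ≤ p * S.card) : ∃ x ∈ S, ¬ B x := by
  by_contra hc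
  have h1 : S.filter B = S := filter_true_of_mem fun x hx => by
    by_contra h2
    exact hc ⟨x, hx, h2⟩
  rw [h1] at h
  have h3 : (0 : ℝ) < S.card := by exact_mod_cast hS.card_pos
  nlinarith

theorem sum_pow_card {β : Type} (A : Finset β) (x : ℝ) :
    ∑ S ∈ A.powerset, x ^ S.card = (1 + x) ^ A.card := by
  have h := Finset.sum_pow_mul_eq_add_pow x 1 A
  simpa [add_comm] using h

/-- The sum over the nonempty subsets. -/
theorem sum_pow_card_le {β : Type} (A : Finset β) (x : ℝ) (hx : 0 ≤ x) (h1 : A.card * x ≤ 1) :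
    ∑ S ∈ A.powerset.filter (fun S => S.Nonempty), x ^ S.card ≤ 2 * (A.card * x) := by
  have h2 : ∑ S ∈ A.powerset.filter (fun S => S.Nonempty), x ^ S.card + 1 = (1 + x) ^ A.card := by
    rw [← sum_pow_card A x, ← sum_filter_add_sum_filter_not A.powerset (fun S => S.Nonempty)]
    congr 1
    have : A.powerset.filter (fun S => ¬ S.Nonempty) = {∅} := by
      ext S
      simp only [mem_filter, mem_powerset, not_nonempty_iff_eq_empty, mem_singleton]
      exact ⟨fun h => h.2, fun h => ⟨h ▸ empty_subset _, h⟩⟩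
    rw [this]
    simp
  have h3 : (1 + x) ^ A.card ≤ Real.exp (A.card * x) := by
    rw [Real.exp_nat_mul]
    exact pow_le_pow_left₀ (by linarith) (by linarith [Real.add_one_le_exp x]) _
  have h0 : 0 ≤ (A.card : ℝ) * x := by positivity
  have h4 := Real.abs_exp_sub_one_le (x := A.card * x) (by rwa [abs_of_nonneg h0])
  rw [abs_of_nonneg h0] at h4
  have h5 := le_abs_self (Real.exp (A.card * x) - 1)
  linarith

theorem two_pow_le_exp (l : ℕ) : (2 : ℝ) ^ l ≤ Real.exp l := by
  have h : Real.exp l = Real.exp 1 ^ l := by rw [← Real.exp_nat_mul, mul_one]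
  rw [h]
  exact pow_le_pow_left₀ (by norm_num) (by linarith [Real.add_one_le_exp 1]) _

theorem pow_le_exp (l k : ℕ) : (l : ℝ) ^ k ≤ Real.exp (k * l) := by
  rw [Real.exp_nat_mul]
  exact pow_le_pow_left₀ (by positivity) (by linarith [Real.add_one_le_exp (l : ℝ)]) _


end Pool.Agent.Lib.MP_f20cd2_co.PL
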