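import Pool.Agent.Lib.MP_f20cd2_co.PL.McD
import Pool.Agent.Lib.MP_f20cd2_co.PL.Prod

/-!
The chance that no connector is completed (B5, first half).
-/

set_option autoImplicit false
set_option linter.unusedSectionVars false

namespace Pool.Agent.Lib.MP_f20cd2_co.PL

open Finset
open Pool.Agent.Lib.MP_f20cd2_co.H83 (Conn Cells)
open scoped Classical

variable {V : Type} [Fintype V] [DecidableEq V] {G : SimpleGraph V}

theorem miss_prob (s : V → Finset ℕ) (hs : ∀ v, (s v).Nonempty) (M : ℕ) (hM0 : 0 < M)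
    (hM : ∀ v, (s v).card ≤ M) (𝓗 : Finset (Finset V)) (h1 : ∀ H ∈ 𝓗, H.card ≤ 2)
    (h2 : ∀ H ∈ 𝓗, ∀ H' ∈ 𝓗, H ≠ H' → Disjoint H H') (j : ℕ)
    (hj : ∀ H ∈ 𝓗, ∀ v ∈ H, j ∈ s v) :
    (((Fintype.piFinset s).filter fun x => ∀ H ∈ 𝓗, ∃ v ∈ H, x v ≠ j).card : ℝ) ≤
      Real.exp (-((𝓗.card : ℝ) / (4 * (M : ℝ) ^ 4))) * (Fintype.piFinset s).card := by
  rcases 𝓗.eq_empty_or_nonempty with rfl | hne
  · simp
  have hK : (0 : ℝ) < 𝓗.card := by exact_mod_cast hne.card_pos
  have hM' : (0 : ℝ) < M := by exact_mod_cast hM0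
  have key := mcd_lower s hs (fun x => ∑ H ∈ 𝓗, if ∀ v ∈ H, x v = j then (1 : ℝ) else 0)
    (fun v => if v ∈ 𝓗.biUnion id then (1 : ℝ) else 0) (fun x _ v y _ => ?_)
    (𝓗.card / (M : ℝ) ^ 2) (𝓗.card / (M : ℝ) ^ 2) (2 * 𝓗.card) (by positivity) (by positivity)
    ?_ ?_
  · have e : (𝓗.card / (M : ℝ) ^ 2) ^ 2 / (2 * (2 * 𝓗.card)) = 𝓗.card / (4 * (M : ℝ) ^ 4) := by
      field_simp
      ring
    rw [e] at key
    refine le_trans (Nat.cast_le.2 (card_le_card fun x hx => ?_)) key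
    simp only [mem_filter] at hx ⊢
    refine ⟨hx.1, ?_⟩
    rw [sub_self, sum_eq_zero]
    intro H hH
    obtain ⟨v, hv, hv'⟩ := hx.2 H hH
    exact if_neg fun h => hv' (h v hv)
  · have h0 : ∀ H : Finset V, v ∉ H →
        ((if ∀ u ∈ H, Function.update x v y u = j then (1 : ℝ) else 0) -
          if ∀ u ∈ H, x u = j then (1 : ℝ) else 0) = 0 := by
      intro H hv
      have : (∀ u ∈ H, Function.update x v y u = j) ↔ ∀ u ∈ H, x u = j :=
        forall₂_congr fun u hu => by rw [Function.update_of_ne fun h : u = v => hv (h ▸ hu)]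
      simp only [this, sub_self]
    rw [← sum_sub_distrib]
    by_cases hv : v ∈ 𝓗.biUnion id
    · obtain ⟨H, hH, hvH⟩ := mem_biUnion.1 hv
      rw [if_pos hv, sum_eq_single H (fun H' hH' hd => h0 H' fun h =>
        disjoint_left.1 (h2 H' hH' H hH hd) h hvH) fun h => absurd hH h]
      split_ifs <;> norm_num
    · rw [if_neg hv, sum_eq_zero fun H hH => h0 H fun h => hv (mem_biUnion.2 ⟨H, hH, h⟩),
        abs_zero]
  · have h3 : (𝓗.biUnion id).card ≤ 2 * 𝓗.card := by
      refine card_biUnion_le.trans ((sum_le_sum h1).trans (le_of_eq ?_))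
      simp [mul_comm]
    have h4 : ∑ v, (if v ∈ 𝓗.biUnion id then (1 : ℝ) else 0) ^ 2 = (𝓗.biUnion id).card := by
      simp only [ite_pow, one_pow, ne_eq, OfNat.ofNat_ne_zero, not_false_eq_true, zero_pow]
      rw [sum_boole, filter_mem_eq_inter, univ_inter]
    rw [h4]
    exact_mod_cast h3
  · rw [sum_comm, div_mul_eq_mul_div, mul_div_assoc, ← nsmul_eq_mul, ← sum_const]
    refine sum_le_sum fun H hH => ?_
    rw [sum_boole, div_le_iff₀ (by positivity), mul_comm]
    have h3 := (card_fix s H j (hj H hH) M hM).trans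
      (Nat.mul_le_mul_right _ (Nat.pow_le_pow_right hM0 (h1 H hH)))
    have h4 := (Nat.cast_le (α := ℝ)).2 h3
    push_cast at h4
    convert h4

theorem card_gset (K : Finset (Finset V)) (n : ℕ) : (gset K n).card = n ^ K.card := by
  rw [gset, Fintype.card_piFinset]
  simp only [apply_ite Finset.card, card_range, card_singleton]
  rw [prod_ite_mem, univ_inter, prod_const]


end Pool.Agent.Lib.MP_f20cd2_co.PL
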