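import Pool.Agent.Lib.MP_f20cd2_co.PL.Conr
import Pool.Agent.Lib.MP_f20cd2_co.PL.Miss

/-!
Every class inherits the toughness (B5, second half).
-/

set_option autoImplicit false
set_option linter.unusedSectionVars false

namespace Pool.Agent.Lib.MP_f20cd2_co.PL

open Finset
open Pool.Agent.Lib.MP_f20cd2_co.H83 (Conn Cells)
open scoped Classical

variable {V : Type} [Fintype V] [DecidableEq V] {G : SimpleGraph V}

namespace EbAux

lemma fib_mem {ι α : Type} {s : ι → Finset α} {E : Finset α} {x : ι → α} {v : ι} {y : α}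
    (hv : x v ∉ E) (h1 : y ∈ s v) (h2 : y ∉ E) : y ∈ fib s E x v := by
  unfold fib
  rw [if_neg hv]
  exact mem_sdiff.2 ⟨h1, h2⟩

lemma fib_self {ι α : Type} {s : ι → Finset α} {E : Finset α} {x : ι → α} {v : ι}
    (hv : x v ∈ E) : (fib s E x v).Nonempty := by
  unfold fib
  rw [if_pos hv]
  exact singleton_nonempty _

lemma fib_card {ι α : Type} {s : ι → Finset α} {E : Finset α} {x : ι → α} {v : ι} {M : ℕ}
    (h1 : 1 ≤ M) (h2 : (s v).card ≤ M) : (fib s E x v).card ≤ M := by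
  unfold fib
  split_ifs
  · rwa [card_singleton]
  · exact (card_le_card sdiff_subset).trans h2

lemma col_eq {M g b c : ℕ} {x0 χ : V → ℕ}
    (hχ : χ ∈ Fintype.piFinset (fib (fun _ : V => range M) (Ico g c) x0)) (hb : b ≤ c) :
    col χ g b = col x0 g b := by
  ext v
  have h := mem_fib hχ v
  simp only [mem_Ico] at h
  simp only [mem_col]
  by_cases hv : g ≤ x0 v ∧ x0 v < c
  · rw [h.1 hv]
  · have := h.2 hv
    omega

/-- One deleted set and one grouping. -/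
lemma one (l : ℕ) (hl : 1000 ≤ l) (hT : RT G univ ((l : ℝ) ^ 760)) (g i : ℕ)
    (hg : g + i + 1 < l ^ 163) (x0 : V → ℕ)
    (hD : Dom G (l ^ 163) ((l : ℝ) ^ 760) (col x0 g (g + 1))) (F : Finset V) (γ : Finset V → ℕ)
    (hL : Lev G ((l : ℝ) ^ 102) (col x0 g (g + 1)) (col x0 g (g + i + 1)) F γ) :
    (((Fintype.piFinset (fib (fun _ : V => range (l ^ 163)) (Ico g (g + i + 1)) x0)).filter
      fun χ => NoX G (col x0 g (g + 1)) (col x0 g (g + i + 1)) (col χ g (g + i + 2)) F γ).card : ℝ) ≤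
      Real.exp (-((l : ℝ) ^ 107 *
        (cms G (col x0 g (g + 1) \ F) (col x0 g (g + i + 1) \ F)).card)) *
        (Fintype.piFinset (fib (fun _ : V => range (l ^ 163)) (Ico g (g + i + 1)) x0)).card := by
  have hl' : (1000 : ℝ) ≤ l := by exact_mod_cast hl
  have hl1 : (1 : ℝ) ≤ l := by linarith
  have ht : 8 * (1 + 4 * ((l ^ 163 : ℕ) : ℝ)) * (l : ℝ) ^ 102 ≤ (l : ℝ) ^ 760 := by
    have h1 : (1 : ℝ) ≤ (l : ℝ) ^ 163 := one_le_pow₀ hl1
    have h2 := absorbR hl 40 265 1 (by norm_num)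
    have h3 : (l : ℝ) ^ (265 + 1) ≤ (l : ℝ) ^ 760 := pow_le_pow_right₀ hl1 (by norm_num)
    have h4 : (l : ℝ) ^ 265 = (l : ℝ) ^ 163 * (l : ℝ) ^ 102 := by rw [← pow_add]
    have h5 : (0 : ℝ) ≤ (l : ℝ) ^ 102 := by positivity
    push_cast
    calc 8 * (1 + 4 * (l : ℝ) ^ 163) * (l : ℝ) ^ 102 ≤ 40 * (l : ℝ) ^ 163 * (l : ℝ) ^ 102 :=
          mul_le_mul_of_nonneg_right (by linarith) h5
      _ = 40 * (l : ℝ) ^ 265 := by rw [h4, mul_assoc]
      _ ≤ _ := h2.trans h3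
  have hW : col x0 g (g + 1) ⊆ col x0 g (g + i + 1) := fun v hv => by
    simp only [mem_col] at hv ⊢
    omega
  obtain ⟨𝓗, h1, h2, h3, h4⟩ := connectors hT (l ^ 163) (by positivity) ht hD hW hL
  have hmem : ∀ v, x0 v ∉ Ico g (g + i + 1) →
      g + i + 1 ∈ fib (fun _ : V => range (l ^ 163)) (Ico g (g + i + 1)) x0 v := by
    intro v hv
    exact fib_mem hv (mem_range.2 hg) (by simp)
  have key := miss_prob (fib (fun _ : V => range (l ^ 163)) (Ico g (g + i + 1)) x0)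
    (fun v => by
      by_cases hv : x0 v ∈ Ico g (g + i + 1)
      · exact fib_self hv
      · exact ⟨_, hmem v hv⟩)
    (l ^ 163) (by omega) (fun v => fib_card (by omega) (card_range _).le)
    𝓗 (fun H hH => (h1 H hH).2.1) h2 (g + i + 1)
    (fun H hH v hv => hmem v fun k =>
      disjoint_left.1 (h1 H hH).2.2 hv (mem_col.2 (mem_Ico.1 k)))
  refine le_trans ?_ (key.trans ?_)
  · refine Nat.cast_le.2 (card_le_card fun χ hχ => ?_)
    rw [mem_filter] at hχ ⊢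
    refine ⟨hχ.1, fun H hH => ?_⟩
    have hsub : col x0 g (g + i + 1) ⊆ col χ g (g + i + 2) := by
      rw [← col_eq hχ.1 le_rfl]
      intro v hv
      simp only [mem_col] at hv ⊢
      omega
    obtain ⟨v, hv, hv'⟩ := not_subset.1 (h4 _ hsub hχ.2 H hH)
    refine ⟨v, hv, fun k => hv' (mem_col.2 ?_)⟩
    omega
  · refine mul_le_mul_of_nonneg_right (Real.exp_le_exp.2 (neg_le_neg ?_)) (Nat.cast_nonneg _)
    rw [le_div_iff₀ (by positivity)]
    push_cast
    generalize ((cms G (col x0 g (g + 1) \ F) (col x0 g (g + i + 1) \ F)).card : ℝ) = N at h3 ⊢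
    by_cases hN : 0 ≤ N
    · have h5 := absorbR hl 32 759 1 (by norm_num)
      have h6 : (l : ℝ) ^ 107 * N * (4 * ((l : ℝ) ^ 163) ^ 4) = 32 * (l : ℝ) ^ 759 * N / 8 := by
        rw [← pow_mul, show 759 = 107 + 163 * 4 by norm_num, pow_add]
        generalize (l : ℝ) ^ 107 = a
        generalize (l : ℝ) ^ (163 * 4) = b
        ring
      have h7 := mul_le_mul_of_nonneg_right h5 hN
      rw [h6]
      have h8 : (l : ℝ) ^ (759 + 1) = (l : ℝ) ^ 760 := rfl
      rw [h8] at h7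
      linarith
    · refine le_trans ?_ (Nat.cast_nonneg _)
      exact mul_nonpos_of_nonpos_of_nonneg
        (mul_nonpos_of_nonneg_of_nonpos (by positivity) (le_of_not_ge hN)) (by positivity)

/-- One deleted set. -/
lemma del (l : ℕ) (hl : 1000 ≤ l) (hn : Fintype.card V < 2 ^ l)
    (hT : RT G univ ((l : ℝ) ^ 760)) (g i : ℕ) (hg : g + i + 1 < l ^ 163) (x0 : V → ℕ)
    (hD : Dom G (l ^ 163) ((l : ℝ) ^ 760) (col x0 g (g + 1))) (F : Finset V) :
    (((Fintype.piFinset (fib (fun _ : V => range (l ^ 163)) (Ico g (g + i + 1)) x0)).filter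
      fun χ => ∃ γ ∈ gset (cms G (col x0 g (g + 1) \ F) (col x0 g (g + i + 1) \ F))
          (Fintype.card V),
        Lev G ((l : ℝ) ^ 102) (col x0 g (g + 1)) (col x0 g (g + i + 1)) F γ ∧
        NoX G (col x0 g (g + 1)) (col x0 g (g + i + 1)) (col χ g (g + i + 2)) F γ).card : ℝ) ≤
      Real.exp (-((l : ℝ) ^ 106)) * Real.exp (-(l : ℝ)) ^ F.card *
        (Fintype.piFinset (fib (fun _ : V => range (l ^ 163)) (Ico g (g + i + 1)) x0)).card := by
  have hl' : (1000 : ℝ) ≤ l := by exact_mod_cast hl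
  set K := cms G (col x0 g (g + 1) \ F) (col x0 g (g + i + 1) \ F) with hK
  set I := (gset K (Fintype.card V)).filter fun γ =>
    Lev G ((l : ℝ) ^ 102) (col x0 g (g + 1)) (col x0 g (g + i + 1)) F γ with hI
  have key := union_le
    (Fintype.piFinset (fib (fun _ : V => range (l ^ 163)) (Ico g (g + i + 1)) x0)) I
    (fun γ χ => NoX G (col x0 g (g + 1)) (col x0 g (g + i + 1)) (col χ g (g + i + 2)) F γ)
    (fun _ => Real.exp (-((l : ℝ) ^ 107 * K.card)))
    (fun γ hγ => by convert one l hl hT g i hg x0 hD F γ (mem_filter.1 hγ).2)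
    (fun χ => ∃ γ ∈ gset K (Fintype.card V),
      Lev G ((l : ℝ) ^ 102) (col x0 g (g + 1)) (col x0 g (g + i + 1)) F γ ∧
      NoX G (col x0 g (g + 1)) (col x0 g (g + i + 1)) (col χ g (g + i + 2)) F γ)
    (fun χ _ ⟨γ, a1, a2, a3⟩ => ⟨γ, mem_filter.2 ⟨a1, a2⟩, a3⟩)
  refine le_trans (le_of_eq (by convert rfl))
    (key.trans (mul_le_mul_of_nonneg_right ?_ (Nat.cast_nonneg _)))
  rcases I.eq_empty_or_nonempty with h | ⟨γ, hγ⟩
  · rw [h, sum_empty]
    positivity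
  obtain ⟨a1, a2, -⟩ := (mem_filter.1 hγ).2
  rw [← hK] at a1 a2
  have b1 : (2 : ℝ) ≤ K.card := by exact_mod_cast a2.trans card_image_le
  have b2 : (I.card : ℝ) ≤ Real.exp (l * K.card) := by
    have c1 : I.card ≤ Fintype.card V ^ K.card := by
      rw [← card_gset]
      exact card_filter_le _ _
    have c2 : (Fintype.card V : ℝ) ≤ Real.exp l :=
      le_trans (by exact_mod_cast hn.le) (two_pow_le_exp l)
    calc (I.card : ℝ) ≤ (Fintype.card V : ℝ) ^ K.card := by exact_mod_cast c1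
      _ ≤ Real.exp l ^ K.card := pow_le_pow_left₀ (Nat.cast_nonneg _) c2 _
      _ = _ := by rw [← Real.exp_nat_mul, mul_comm]
  rw [sum_const, nsmul_eq_mul]
  refine (mul_le_mul_of_nonneg_right b2 (Real.exp_nonneg _)).trans ?_
  rw [← Real.exp_add, ← Real.exp_nat_mul, ← Real.exp_add, Real.exp_le_exp]
  have d1 : (l : ℝ) ≤ (l : ℝ) ^ 106 := le_self_pow₀ (by linarith) (by norm_num)
  have d2 : 2 * (l : ℝ) ^ 106 ≤ (l : ℝ) ^ 107 := absorbR hl 2 106 1 (by norm_num)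
  have d3 : 4 * (l : ℝ) ^ 103 ≤ (l : ℝ) ^ 106 := absorbR hl 4 103 3 (by norm_num)
  have d4 : (l : ℝ) ^ 103 = (l : ℝ) ^ 102 * l := pow_succ _ _
  have d5 := mul_le_mul_of_nonneg_right a1 (show (0 : ℝ) ≤ l by linarith)
  have d0 : (0 : ℝ) ≤ (l : ℝ) ^ 106 := by positivity
  rw [d4] at d3
  generalize (l : ℝ) ^ 102 = A at d3 d5
  generalize (l : ℝ) ^ 106 = B at d0 d1 d2 d3 ⊢
  generalize (l : ℝ) ^ 107 = C at d2 ⊢
  generalize (K.card : ℝ) = N at b1 d5 ⊢
  have hN : 0 ≤ N := by linarith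
  nlinarith [mul_le_mul_of_nonneg_right d1 hN, mul_le_mul_of_nonneg_right d2 hN,
    mul_le_mul_of_nonneg_right d3 hN, mul_le_mul_of_nonneg_left b1 d0]

end EbAux

theorem eb_fib (l : ℕ) (hl : 1000 ≤ l) (hn : Fintype.card V < 2 ^ l)
    (hT : RT G univ ((l : ℝ) ^ 760)) (g i : ℕ) (hg : g + i + 1 < l ^ 163) (x0 : V → ℕ)
    (hx0 : x0 ∈ cols V (l ^ 163)) :
    (((Fintype.piFinset (fib (fun _ : V => range (l ^ 163)) (Ico g (g + i + 1)) x0)).filter
      fun χ => Dom G (l ^ 163) ((l : ℝ) ^ 760) (col χ g (g + 1)) ∧ ∃ F : Finset V,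
        ∃ γ ∈ gset (cms G (col χ g (g + 1) \ F) (col χ g (g + i + 1) \ F)) (Fintype.card V),
          Lev G ((l : ℝ) ^ 102) (col χ g (g + 1)) (col χ g (g + i + 1)) F γ ∧
          NoX G (col χ g (g + 1)) (col χ g (g + i + 1)) (col χ g (g + i + 2)) F γ).card : ℝ) ≤
      Real.exp (-((l : ℝ) ^ 2)) *
        (Fintype.piFinset (fib (fun _ : V => range (l ^ 163)) (Ico g (g + i + 1)) x0)).card := by
  have _ := hx0
  have hl' : (1000 : ℝ) ≤ l := by exact_mod_cast hl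
  by_cases hD : Dom G (l ^ 163) ((l : ℝ) ^ 760) (col x0 g (g + 1))
  swap
  · rw [filter_false_of_mem, card_empty, Nat.cast_zero]
    · positivity
    · intro χ hχ h
      rw [EbAux.col_eq hχ (by omega)] at h
      exact hD h.1
  have key := union_le
    (Fintype.piFinset (fib (fun _ : V => range (l ^ 163)) (Ico g (g + i + 1)) x0))
    (univ : Finset V).powerset
    (fun F χ => ∃ γ ∈ gset (cms G (col x0 g (g + 1) \ F) (col x0 g (g + i + 1) \ F))
        (Fintype.card V),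
      Lev G ((l : ℝ) ^ 102) (col x0 g (g + 1)) (col x0 g (g + i + 1)) F γ ∧
      NoX G (col x0 g (g + 1)) (col x0 g (g + i + 1)) (col χ g (g + i + 2)) F γ)
    (fun F => Real.exp (-((l : ℝ) ^ 106)) * Real.exp (-(l : ℝ)) ^ F.card)
    (fun F _ => by convert EbAux.del l hl hn hT g i hg x0 hD F)
    (fun χ => Dom G (l ^ 163) ((l : ℝ) ^ 760) (col χ g (g + 1)) ∧ ∃ F : Finset V,
      ∃ γ ∈ gset (cms G (col χ g (g + 1) \ F) (col χ g (g + i + 1) \ F)) (Fintype.card V),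
        Lev G ((l : ℝ) ^ 102) (col χ g (g + 1)) (col χ g (g + i + 1)) F γ ∧
        NoX G (col χ g (g + 1)) (col χ g (g + i + 1)) (col χ g (g + i + 2)) F γ)
    (fun χ hχ h => by
      obtain ⟨-, F, h⟩ := h
      rw [EbAux.col_eq hχ (show g + 1 ≤ g + i + 1 by omega), EbAux.col_eq hχ le_rfl] at h
      exact ⟨F, mem_powerset.2 (subset_univ F), h⟩)
  refine le_trans (le_of_eq (by convert rfl))
    (key.trans (mul_le_mul_of_nonneg_right ?_ (Nat.cast_nonneg _)))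
  rw [← mul_sum, sum_pow_card, card_univ]
  have a1 : (Fintype.card V : ℝ) ≤ Real.exp l :=
    le_trans (by exact_mod_cast hn.le) (two_pow_le_exp l)
  have a2 : (Fintype.card V : ℝ) * Real.exp (-(l : ℝ)) ≤ 1 := by
    refine (mul_le_mul_of_nonneg_right a1 (Real.exp_nonneg _)).trans (le_of_eq ?_)
    rw [← Real.exp_add, add_neg_cancel, Real.exp_zero]
  have a3 : (1 + Real.exp (-(l : ℝ))) ^ Fintype.card V ≤ Real.exp 1 := by
    calc (1 + Real.exp (-(l : ℝ))) ^ Fintype.card V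
        ≤ Real.exp (Real.exp (-(l : ℝ))) ^ Fintype.card V :=
          pow_le_pow_left₀ (by positivity) (by linarith [Real.add_one_le_exp (Real.exp (-(l : ℝ)))]) _
      _ = Real.exp (Fintype.card V * Real.exp (-(l : ℝ))) := by rw [← Real.exp_nat_mul]
      _ ≤ _ := Real.exp_le_exp.2 a2
  refine (mul_le_mul_of_nonneg_left a3 (Real.exp_nonneg _)).trans ?_
  rw [← Real.exp_add, Real.exp_le_exp]
  have a4 : 2 * (l : ℝ) ^ 2 ≤ (l : ℝ) ^ 106 := absorbR hl 2 2 104 (by norm_num)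
  have a5 : (1 : ℝ) ≤ (l : ℝ) ^ 2 := one_le_pow₀ (by linarith)
  linarith

theorem eb_prob (l : ℕ) (hl : 1000 ≤ l) (hn : Fintype.card V < 2 ^ l)
    (hT : RT G univ ((l : ℝ) ^ 760)) :
    (((cols V (l ^ 163)).filter fun χ => ∃ g, g + l < l ^ 163 ∧
      Dom G (l ^ 163) ((l : ℝ) ^ 760) (col χ g (g + 1)) ∧
      ¬ RT G (col χ g (g + l + 1)) ((l : ℝ) ^ 102)).card : ℝ) ≤
      1 / 4 * (cols V (l ^ 163)).card := by
  have hl' : (1000 : ℝ) ≤ l := by exact_mod_cast hl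
  have hl1 : (1 : ℝ) ≤ l := by linarith
  have ht : 16 * ((l ^ 163 : ℕ) : ℝ) * (l : ℝ) ^ 102 ≤ (l : ℝ) ^ 760 := by
    have h2 := absorbR hl 16 265 1 (by norm_num)
    have h3 : (l : ℝ) ^ (265 + 1) ≤ (l : ℝ) ^ 760 := pow_le_pow_right₀ hl1 (by norm_num)
    have h4 : (l : ℝ) ^ 265 = (l : ℝ) ^ 163 * (l : ℝ) ^ 102 := by rw [← pow_add]
    push_cast
    rw [mul_assoc, ← h4]
    exact h2.trans h3
  have key := union_le (cols V (l ^ 163))
    ((range (l ^ 163) ×ˢ range l).filter fun q => q.1 + l < l ^ 163)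
    (fun q χ => Dom G (l ^ 163) ((l : ℝ) ^ 760) (col χ q.1 (q.1 + 1)) ∧ ∃ F : Finset V,
      ∃ γ ∈ gset (cms G (col χ q.1 (q.1 + 1) \ F) (col χ q.1 (q.1 + q.2 + 1) \ F))
          (Fintype.card V),
        Lev G ((l : ℝ) ^ 102) (col χ q.1 (q.1 + 1)) (col χ q.1 (q.1 + q.2 + 1)) F γ ∧
        NoX G (col χ q.1 (q.1 + 1)) (col χ q.1 (q.1 + q.2 + 1)) (col χ q.1 (q.1 + q.2 + 2)) F γ)
    (fun _ => Real.exp (-((l : ℝ) ^ 2)))
    (fun q hq => by
      obtain ⟨h1, h2⟩ := mem_filter.1 hq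
      have h3 := mem_range.1 (mem_product.1 h1).2
      refine fibre_le (fun _ : V => range (l ^ 163)) (Ico q.1 (q.1 + q.2 + 1)) _ _ fun x0 hx0 => ?_
      convert eb_fib l hl hn hT q.1 q.2 (by omega) x0 hx0)
    (fun χ => ∃ g, g + l < l ^ 163 ∧ Dom G (l ^ 163) ((l : ℝ) ^ 760) (col χ g (g + 1)) ∧
      ¬ RT G (col χ g (g + l + 1)) ((l : ℝ) ^ 102))
    (fun χ _ h => by
      obtain ⟨g, h1, h2, h3⟩ := h
      obtain ⟨i, hi, F, h4⟩ := levels l (l ^ 163) (by omega) hn ((l : ℝ) ^ 760) ((l : ℝ) ^ 102)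
        (by positivity) ht (fun i => col χ g (g + i + 1))
        (fun i v hv => by
          simp only [mem_col] at hv ⊢
          omega) h2 h3
      exact ⟨(g, i), mem_filter.2 ⟨mem_product.2 ⟨mem_range.2 (by omega), mem_range.2 hi⟩, h1⟩,
        h2, F, h4⟩)
  refine le_trans (le_of_eq (by convert rfl))
    (key.trans (mul_le_mul_of_nonneg_right ?_ (Nat.cast_nonneg _)))
  rw [sum_const, nsmul_eq_mul]
  have a1 : (((range (l ^ 163) ×ˢ range l).filter fun q => q.1 + l < l ^ 163).card : ℝ) ≤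
      (l : ℝ) ^ 164 := by
    have := card_filter_le (range (l ^ 163) ×ˢ range l) fun q => q.1 + l < l ^ 163
    rw [card_product, card_range, card_range, ← pow_succ] at this
    exact_mod_cast this
  refine (mul_le_mul_of_nonneg_right (a1.trans (pow_le_exp l 164)) (Real.exp_nonneg _)).trans ?_
  rw [← Real.exp_add]
  have a2 : ((164 : ℕ) : ℝ) * l + -((l : ℝ) ^ 2) ≤ -3 := by
    push_cast
    nlinarith
  refine (Real.exp_le_exp.2 a2).trans ?_
  rw [Real.exp_neg, one_div]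
  exact inv_anti₀ (by norm_num) (by linarith [Real.add_one_le_exp (3 : ℝ)])


end Pool.Agent.Lib.MP_f20cd2_co.PL
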