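import Pool.Agent.Lib.MP_f20cd2_co.PL.Ea
import Pool.Agent.Lib.MP_f20cd2_co.PL.Cont
import Pool.Agent.Lib.MP_f20cd2_co.PL.Eb

/-!
A good colouring exists (B6).
-/

set_option autoImplicit false
set_option linter.unusedSectionVars false

namespace Pool.Agent.Lib.MP_f20cd2_co.PL

open Finset
open Pool.Agent.Lib.MP_f20cd2_co.H83 (Conn Cells)
open scoped Classical

variable {V : Type} [Fintype V] [DecidableEq V] {G : SimpleGraph V}

theorem sample (l : ℕ) (hl : 1000 ≤ l) (hn : Fintype.card V < 2 ^ l)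
    (hT : RT G univ ((l : ℝ) ^ 760)) (hnc : ∃ u v, u ≠ v ∧ ¬ G.Adj u v) :
    ∃ χ : V → ℕ, Good G l χ := by
  have hl1 : 1 ≤ l := by omega
  have hlR : (1 : ℝ) ≤ l := by exact_mod_cast hl1
  have hX : Expd G ((l : ℝ) ^ 760) := hT.expd (by positivity) hnc
  have hbig : l ^ 329 ≤ Fintype.card V := by
    have h1 := hT.card_ge hnc
    have h2 : (l : ℝ) ^ 329 ≤ (l : ℝ) ^ 760 := pow_le_pow_right₀ hlR (by norm_num)
    have h3 : (0 : ℝ) ≤ (l : ℝ) ^ 760 := by positivity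
    have h4 : ((l ^ 329 : ℕ) : ℝ) ≤ (Fintype.card V : ℝ) := by
      rw [Nat.cast_pow]
      linarith
    exact_mod_cast h4
  have hM : 0 < l ^ 163 := by positivity
  have hτ : 0 < l ^ 329 := by positivity
  have hne : (cols V (l ^ 163)).Nonempty :=
    Fintype.piFinset_nonempty.2 fun _ => nonempty_range_iff.2 hM.ne'
  have h1 := ea_prob G l hl hn hbig
  have h2 := eb_prob l hl hn hT
  have h3 : (((cols V (l ^ 163)).filter fun χ => ¬ Ea G (l ^ 163) (l ^ 329) χ ∨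
      ∃ g, g + l < l ^ 163 ∧ Dom G (l ^ 163) ((l : ℝ) ^ 760) (col χ g (g + 1)) ∧
        ¬ RT G (col χ g (g + l + 1)) ((l : ℝ) ^ 102)).card : ℝ) ≤
      1 / 2 * (cols V (l ^ 163)).card := by
    rw [filter_or]
    refine le_trans (Nat.cast_le.2 (card_union_le _ _)) ?_
    rw [Nat.cast_add]
    linarith
  obtain ⟨χ, -, hχ⟩ := exists_good (cols V (l ^ 163)) hne (fun χ => ¬ Ea G (l ^ 163) (l ^ 329) χ ∨
      ∃ g, g + l < l ^ 163 ∧ Dom G (l ^ 163) ((l : ℝ) ^ 760) (col χ g (g + 1)) ∧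
        ¬ RT G (col χ g (g + l + 1)) ((l : ℝ) ^ 102)) (1 / 2) (by norm_num) (by convert h3)
  rw [not_or, not_not] at hχ
  obtain ⟨hE, hB⟩ := hχ
  have ht2 : 2 * ((l ^ 329 : ℕ) : ℝ) ≤ (l : ℝ) ^ 760 := by
    rw [Nat.cast_pow]
    exact (absorbR hl 2 329 1 (by norm_num)).trans (pow_le_pow_right₀ hlR (by norm_num))
  have ht3 : (((l ^ 163 : ℕ) : ℝ) + 1) * ((l ^ 329 : ℕ) : ℝ) ≤ (l : ℝ) ^ 760 := by
    rw [Nat.cast_pow, Nat.cast_pow]
    have a1 : (1 : ℝ) ≤ (l : ℝ) ^ 163 := one_le_pow₀ hlR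
    have a2 : ((l : ℝ) ^ 163 + 1) * (l : ℝ) ^ 329 ≤ 2 * (l : ℝ) ^ 163 * (l : ℝ) ^ 329 :=
      mul_le_mul_of_nonneg_right (by linarith) (by positivity)
    have a3 : 2 * (l : ℝ) ^ 163 * (l : ℝ) ^ 329 = 2 * (l : ℝ) ^ 492 := by ring
    rw [a3] at a2
    exact a2.trans ((absorbR hl 2 492 1 (by norm_num)).trans (pow_le_pow_right₀ hlR (by norm_num)))
  have hdom : ∀ g < l ^ 163, Dom G (l ^ 163) ((l : ℝ) ^ 760) (col χ g (g + 1)) :=
    fun g hg => dom_of_ea hX hτ ht2 hE hg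
  refine ⟨χ, fun a b hb => size_of_ea hE a b hb, fun g hg => ?_, fun g hg => (hdom g hg).1,
    fun g h hg hh D hD => ?_⟩
  · by_contra hbad
    exact hB ⟨g, hg, hdom g (by omega), hbad⟩
  · refine low_of_ea hX hτ ht3 hE g (l + 1) h (l ^ 91) (2 * l ^ 89) hM (by omega) hh ?_ D
      (by rwa [← add_assoc])
    have a1 : 2 * (2 * (l + 1) + 1) * (2 * l ^ 89) ≤ 12 * l ^ 90 := by
      have : 2 * (2 * (l + 1) + 1) * 2 ≤ 12 * l := by omega
      calc 2 * (2 * (l + 1) + 1) * (2 * l ^ 89) = 2 * (2 * (l + 1) + 1) * 2 * l ^ 89 := by ring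
        _ ≤ 12 * l * l ^ 89 := Nat.mul_le_mul_right _ this
        _ = 12 * l ^ 90 := by ring
    exact a1.trans (absorb hl 12 90 1 (by norm_num))

end Pool.Agent.Lib.MP_f20cd2_co.PL
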