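import Pool.Agent.Lib.MP_f20cd2_co.PL.Sub

/-!
A weighted tree is cut into atoms of comparable mass with few neighbours (C3).
-/

set_option autoImplicit false
set_option linter.unusedSectionVars false

namespace Pool.Agent.Lib.MP_f20cd2_co.PL

open Finset
open Pool.Agent.Lib.MP_f20cd2_co.H83 (Conn Cells)
open scoped Classical

variable {α : Type} {A : Finset α} {r : α} {par : α → α} {rk : α → ℕ} {Δ : ℕ}

namespace AtomsAux

/-- Recursion from the root downwards. -/
theorem exists_rec {γ : Type} (hT : RTree A r par rk Δ) (F : α → γ → γ) (b : α → γ) :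
    ∃ f : α → γ, ∀ v, f v = if v ∈ A ∧ v ≠ r then F v (f (par v)) else b v := by
  have wf : WellFounded (fun x y : α => rk x < rk y) := InvImage.wf rk Nat.lt_wfRel.wf
  refine ⟨wf.fix (fun v ih =>
    if h : v ∈ A ∧ v ≠ r then F v (ih (par v) (hT.lt v h.1 h.2)) else b v), fun v => ?_⟩
  rw [WellFounded.fix_eq]
  by_cases h : v ∈ A ∧ v ≠ r
  · rw [dif_pos h, if_pos h]
  · rw [dif_neg h, if_neg h]

/-- `top v` is the nearest starting vertex above `v`. -/
structure Tp (A : Finset α) (r : α) (par : α → α) (st : α → Prop) (top : α → α) : Prop where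
  sr : st r
  yes : ∀ v ∈ A, st v → top v = v
  no : ∀ v ∈ A, ¬ st v → top v = top (par v)

theorem exists_tp (hT : RTree A r par rk Δ) (st : α → Prop) (hr : st r) :
    ∃ top, Tp A r par st top := by
  obtain ⟨top, h⟩ := exists_rec hT (fun v t => if st v then v else t) (fun v => v)
  refine ⟨top, hr, fun v hv hs => ?_, fun v hv hs => ?_⟩
  · rw [h v]
    split_ifs <;> rfl
  · have hne : v ≠ r := fun e => hs (e ▸ hr)
    rw [h v, if_pos ⟨hv, hne⟩, if_neg hs]

variable {st : α → Prop} {top : α → α}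

theorem Tp.mem (h : Tp A r par st top) (hT : RTree A r par rk Δ) :
    ∀ v ∈ A, top v ∈ A ∧ st (top v) ∧ v ∈ sub A r par (top v) := by
  refine hT.ind_down _ ?_ ?_
  · rw [h.yes r hT.root h.sr]
    exact ⟨hT.root, h.sr, self_mem_sub hT.root⟩
  · intro v hv hne ih
    by_cases hs : st v
    · rw [h.yes v hv hs]
      exact ⟨hv, hs, self_mem_sub hv⟩
    · rw [h.no v hv hs]
      exact ⟨ih.1, ih.2.1, mem_sub_of_par hv hne ih.2.2⟩

theorem Tp.rk_top (h : Tp A r par st top) (hT : RTree A r par rk Δ) {v : α} (hv : v ∈ A) :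
    rk (top v) ≤ rk v := (hT.rk_le (h.mem hT v hv).2.2).1

theorem Tp.rk_le_top (h : Tp A r par st top) (hT : RTree A r par rk Δ) {c : α} (hc : st c) :
    ∀ u ∈ A, u ∈ sub A r par c → rk c ≤ rk (top u) := by
  refine hT.ind_down _ ?_ ?_
  · intro hu
    rw [h.yes r hT.root h.sr]
    exact (hT.rk_le hu).1
  · intro u huA _ ih hu
    by_cases hs : st u
    · rw [h.yes u huA hs]
      exact (hT.rk_le hu).1
    · have hne : u ≠ c := fun e => hs (e ▸ hc)
      rw [h.no u huA hs]
      exact ih (hT.par_mem_sub hu hne).2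

theorem Tp.top_ne (h : Tp A r par st top) (hT : RTree A r par rk Δ) {v c u : α} (hv : v ∈ A)
    (hc : c ∈ ch A r par v) (hs : st c) (hu : u ∈ sub A r par c) : top u ≠ top v := by
  obtain ⟨hcA, hcr, hcp⟩ := mem_ch.1 hc
  intro e
  have h1 := h.rk_le_top hT hs u (mem_sub.1 hu).1 hu
  have h2 := h.rk_top hT hv
  have h3 := hT.lt c hcA hcr
  rw [hcp] at h3
  rw [e] at h1
  omega

/-- The mass of the atom of `v` inside the subtree of `v`. -/
noncomputable def Rm (A : Finset α) (r : α) (par : α → α) (top : α → α) (μ : α → ℕ) (v : α) : ℕ :=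
  ∑ u ∈ sub A r par v, if top u = top v then μ u else 0

theorem Tp.Rm_rec (h : Tp A r par st top) (hT : RTree A r par rk Δ) (μ : α → ℕ) {v : α}
    (hv : v ∈ A) :
    Rm A r par top μ v = μ v + ∑ c ∈ ch A r par v, if st c then 0 else Rm A r par top μ c := by
  unfold Rm
  rw [hT.sum_sub hv, if_pos rfl]
  congr 1
  refine sum_congr rfl fun c hc => ?_
  obtain ⟨hcA, _, hcp⟩ := mem_ch.1 hc
  by_cases hs : st c
  · rw [if_pos hs]
    exact sum_eq_zero fun u hu => if_neg (h.top_ne hT hv hc hs hu)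
  · rw [if_neg hs, h.no c hcA hs, hcp]

/-- Indicator of the starting vertices that hang from the atom `a`. -/
noncomputable def gi (r : α) (par : α → α) (st : α → Prop) (top : α → α) (a u : α) : ℕ :=
  if u ≠ r ∧ st u ∧ top (par u) = a then 1 else 0

/-- The number of atoms below `v` that hang from the atom of `v`. -/
noncomputable def Cn (A : Finset α) (r : α) (par : α → α) (st : α → Prop) (top : α → α)
    (v : α) : ℕ :=
  ∑ c ∈ ch A r par v, ∑ u ∈ sub A r par c, gi r par st top (top v) u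

theorem Tp.Cn_rec (h : Tp A r par st top) (hT : RTree A r par rk Δ) {v : α} (hv : v ∈ A) :
    Cn A r par st top v = ∑ c ∈ ch A r par v, if st c then 1 else Cn A r par st top c := by
  unfold Cn
  refine sum_congr rfl fun c hc => ?_
  obtain ⟨hcA, hcr, hcp⟩ := mem_ch.1 hc
  rw [hT.sum_sub hcA]
  by_cases hs : st c
  · rw [if_pos hs]
    have h1 : gi r par st top (top v) c = 1 := if_pos ⟨hcr, hs, by rw [hcp]⟩
    have h2 : ∑ c' ∈ ch A r par c, ∑ u ∈ sub A r par c', gi r par st top (top v) u = 0 := by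
      refine sum_eq_zero fun c' hc' => sum_eq_zero fun u hu => if_neg ?_
      rintro ⟨_, _, e⟩
      refine h.top_ne hT hv hc hs (u := par u) ?_ e
      obtain ⟨hA', hr', hp'⟩ := mem_ch.1 hc'
      by_cases e' : u = c'
      · rw [e', hp']
        exact self_mem_sub hcA
      · exact sub_trans ((mem_sub_iff hcA).2 (Or.inr ⟨c', hc', self_mem_sub hA'⟩))
          (hT.par_mem_sub hu e').2
    rw [h1, h2]
  · rw [if_neg hs]
    have h1 : gi r par st top (top v) c = 0 := if_neg fun hh => hs hh.2.1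
    rw [h1, zero_add, h.no c hcA hs, hcp]

/-- The mass of a subtree. -/
noncomputable def Sm (A : Finset α) (r : α) (par : α → α) (μ : α → ℕ) (v : α) : ℕ :=
  ∑ u ∈ sub A r par v, μ u

theorem Sm_rec (hT : RTree A r par rk Δ) (μ : α → ℕ) {v : α} (hv : v ∈ A) :
    Sm A r par μ v = μ v + ∑ c ∈ ch A r par v, Sm A r par μ c := hT.sum_sub hv μ

theorem Sm_ch_le (hT : RTree A r par rk Δ) (μ : α → ℕ) {v c : α} (hv : v ∈ A)
    (hc : c ∈ ch A r par v) : Sm A r par μ c ≤ Sm A r par μ v := by
  rw [Sm_rec hT μ hv]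
  exact (single_le_sum (f := fun c => Sm A r par μ c) (fun _ _ => Nat.zero_le _) hc).trans
    (Nat.le_add_left _ _)

theorem Sm_two_le (hT : RTree A r par rk Δ) (μ : α → ℕ) {v c c' : α} (hv : v ∈ A)
    (hc : c ∈ ch A r par v) (hc' : c' ∈ ch A r par v) (hne : c ≠ c') :
    Sm A r par μ c + Sm A r par μ c' ≤ Sm A r par μ v := by
  rw [Sm_rec hT μ hv, ← sum_pair (f := fun c => Sm A r par μ c) hne]
  refine (sum_le_sum_of_subset ?_).trans (Nat.le_add_left _ _)
  intro x hx
  rcases mem_insert.1 hx with e | e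
  · exact e ▸ hc
  · exact mem_singleton.1 e ▸ hc'

/-- The vertex together with its small child subtrees. -/
noncomputable def hm (A : Finset α) (r : α) (par : α → α) (μ : α → ℕ) (β : ℕ) (v : α) : ℕ :=
  μ v + ∑ c ∈ ch A r par v, if Sm A r par μ c < β then Sm A r par μ c else 0

theorem hm_le (hT : RTree A r par rk Δ) {μ : α → ℕ} {β : ℕ} {v : α} (hμ : μ v ≤ β) :
    hm A r par μ β v ≤ (Δ + 1) * β := by
  have h1 : (∑ c ∈ ch A r par v, if Sm A r par μ c < β then Sm A r par μ c else 0) ≤
      (ch A r par v).card • β := by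
    refine sum_le_card_nsmul _ _ _ fun c _ => ?_
    split_ifs with hc
    · exact hc.le
    · exact Nat.zero_le _
  have h2 : (ch A r par v).card * β ≤ Δ * β := Nat.mul_le_mul_right _ (hT.ch_card v)
  rw [smul_eq_mul] at h1
  unfold hm
  rw [add_mul, one_mul]
  omega

/-- The data of the construction. -/
structure Dt (A : Finset α) (r : α) (par : α → α) (μ : α → ℕ) (β : ℕ) (pref : α → α)
    (acc : α → ℕ) (st : α → Prop) : Prop where
  pf : ∀ v c, c ∈ ch A r par v → β ≤ Sm A r par μ c →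
    pref v ∈ ch A r par v ∧ β ≤ Sm A r par μ (pref v) ∧ Sm A r par μ (pref v) ≤ Sm A r par μ c
  ac : ∀ v, acc v = if v ∈ A ∧ v ≠ r then
    (if v = pref (par v) ∧ acc (par v) + hm A r par μ β (par v) < β then
      acc (par v) + hm A r par μ β (par v) else 0) else 0
  st : ∀ c, st c ↔ c = r ∨ (β ≤ Sm A r par μ c ∧
    ¬ (c = pref (par c) ∧ acc (par c) + hm A r par μ β (par c) < β))

theorem exists_dt (hT : RTree A r par rk Δ) (μ : α → ℕ) (β : ℕ) :
    ∃ pref acc st, Dt A r par μ β pref acc st := by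
  have h1 : ∀ v, ∃ p, ∀ c, c ∈ ch A r par v → β ≤ Sm A r par μ c →
      p ∈ ch A r par v ∧ β ≤ Sm A r par μ p ∧ Sm A r par μ p ≤ Sm A r par μ c := by
    intro v
    by_cases hne : ((ch A r par v).filter fun c => β ≤ Sm A r par μ c).Nonempty
    · obtain ⟨p, hp, hmin⟩ := exists_min_image _ (fun c => Sm A r par μ c) hne
      rw [mem_filter] at hp
      exact ⟨p, fun c hc hb => ⟨hp.1, hp.2, hmin c (mem_filter.2 ⟨hc, hb⟩)⟩⟩
    · exact ⟨v, fun c hc hb => (hne ⟨c, mem_filter.2 ⟨hc, hb⟩⟩).elim⟩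
  choose pref hp using h1
  obtain ⟨acc, ha⟩ := exists_rec hT (γ := ℕ) (fun v t =>
    if v = pref (par v) ∧ t + hm A r par μ β (par v) < β then t + hm A r par μ β (par v) else 0)
    (fun _ => 0)
  exact ⟨pref, acc, _, hp, ha, fun _ => Iff.rfl⟩

variable {μ : α → ℕ} {β : ℕ} {pref : α → α} {acc : α → ℕ}

theorem Dt.acc_lt (hD : Dt A r par μ β pref acc st) (hβ : 0 < β) (v : α) : acc v < β := by
  rw [hD.ac v]
  split_ifs with h1 h2
  · exact h2.2
  · exact hβ
  · exact hβ

theorem Dt.acc_st (hD : Dt A r par μ β pref acc st) {v : α} (hs : st v) : acc v = 0 := by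
  rw [hD.ac v]
  rcases (hD.st v).1 hs with e | e
  · exact if_neg fun hh => hh.2 e
  · rw [if_neg e.2, ite_self]

theorem Dt.st_ch (hD : Dt A r par μ β pref acc st) {v c : α} (hc : c ∈ ch A r par v) :
    st c ↔ β ≤ Sm A r par μ c ∧ ¬ (c = pref v ∧ acc v + hm A r par μ β v < β) := by
  obtain ⟨_, hcr, hcp⟩ := mem_ch.1 hc
  rw [hD.st c, hcp]
  exact ⟨fun hh => hh.resolve_left hcr, Or.inr⟩

theorem Dt.Rm_small (hD : Dt A r par μ β pref acc st) (h : Tp A r par st top)
    (hT : RTree A r par rk Δ) :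
    ∀ v ∈ A, Sm A r par μ v < β → Rm A r par top μ v = Sm A r par μ v := by
  refine hT.ind_up _ fun v hv ih hs => ?_
  rw [h.Rm_rec hT μ hv, Sm_rec hT μ hv]
  congr 1
  refine sum_congr rfl fun c hc => ?_
  have hc' : Sm A r par μ c < β := (Sm_ch_le hT μ hv hc).trans_lt hs
  rw [if_neg fun hh => absurd ((hD.st_ch hc).1 hh).1 (not_le.2 hc'), ih c hc hc']

theorem Dt.Rm_big (hD : Dt A r par μ β pref acc st) (h : Tp A r par st top)
    (hT : RTree A r par rk Δ) (hβ : 0 < β) (hμ : ∀ v ∈ A, μ v ≤ β) :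
    ∀ v ∈ A, β ≤ Sm A r par μ v →
      β ≤ acc v + Rm A r par top μ v ∧ acc v + Rm A r par top μ v ≤ (Δ + 2) * β := by
  refine hT.ind_up _ fun v hv ih hb => ?_
  by_cases hcond : acc v + hm A r par μ β v < β
  · have hex : ∃ c ∈ ch A r par v, β ≤ Sm A r par μ c := by
      by_contra hno
      have e : hm A r par μ β v = Sm A r par μ v := by
        rw [Sm_rec hT μ hv]
        unfold hm
        congr 1
        exact sum_congr rfl fun c hc => if_pos (not_le.1 fun hh => hno ⟨c, hc, hh⟩)
      omega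
    obtain ⟨c0, hc0, hb0⟩ := hex
    obtain ⟨hp, hpb, _⟩ := hD.pf v c0 hc0 hb0
    obtain ⟨hpA, hpr, hpp⟩ := mem_ch.1 hp
    have e1 : acc (pref v) = acc v + hm A r par μ β v := by
      rw [hD.ac (pref v), if_pos ⟨hpA, hpr⟩, hpp, if_pos ⟨rfl, hcond⟩]
    have e2 : Rm A r par top μ v = hm A r par μ β v + Rm A r par top μ (pref v) := by
      rw [h.Rm_rec hT μ hv]
      unfold hm
      rw [add_assoc]
      congr 1
      have e3 : Rm A r par top μ (pref v) =
          ∑ c ∈ ch A r par v, if c = pref v then Rm A r par top μ c else 0 := by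
        rw [sum_ite_eq', if_pos hp]
      rw [e3, ← sum_add_distrib]
      refine sum_congr rfl fun c hc => ?_
      by_cases e : c = pref v
      · have hns : ¬ st c := fun hh => ((hD.st_ch hc).1 hh).2 ⟨e, hcond⟩
        have hbc : ¬ Sm A r par μ c < β := by rw [e]; exact not_lt.2 hpb
        rw [if_neg hns, if_neg hbc, if_pos e, zero_add]
      · rw [if_neg e, add_zero]
        by_cases hs : Sm A r par μ c < β
        · rw [if_neg fun hh => absurd ((hD.st_ch hc).1 hh).1 (not_le.2 hs), if_pos hs,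
            hD.Rm_small h hT c (mem_ch.1 hc).1 hs]
        · rw [if_pos ((hD.st_ch hc).2 ⟨not_lt.1 hs, fun hh => e hh.1⟩), if_neg hs]
    have := ih (pref v) hp hpb
    rw [e1] at this
    rw [e2, ← add_assoc]
    exact this
  · have e2 : Rm A r par top μ v = hm A r par μ β v := by
      rw [h.Rm_rec hT μ hv]
      unfold hm
      congr 1
      refine sum_congr rfl fun c hc => ?_
      by_cases hs : Sm A r par μ c < β
      · rw [if_neg fun hh => absurd ((hD.st_ch hc).1 hh).1 (not_le.2 hs), if_pos hs,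
          hD.Rm_small h hT c (mem_ch.1 hc).1 hs]
      · rw [if_pos ((hD.st_ch hc).2 ⟨not_lt.1 hs, fun hh => hcond hh.2⟩), if_neg hs]
    have h1 := hm_le hT (hμ v hv)
    have h2 := hD.acc_lt hβ v
    have h3 : (Δ + 2) * β = (Δ + 1) * β + β := by ring
    rw [e2]
    omega

theorem Dt.Cn_le (hD : Dt A r par μ β pref acc st) (h : Tp A r par st top)
    (hT : RTree A r par rk Δ) :
    ∀ v ∈ A, ∀ k, Sm A r par μ v < 2 ^ k * β → Cn A r par st top v ≤ Δ * k := by
  refine hT.ind_up _ fun v hv ih k hk => ?_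
  have hsmall : ∀ c ∈ ch A r par v, Sm A r par μ c < β →
      (if st c then 1 else Cn A r par st top c) = 0 := by
    intro c hc hs
    rw [if_neg fun hh => absurd ((hD.st_ch hc).1 hh).1 (not_le.2 hs)]
    have := ih c hc 0 (by simpa using hs)
    omega
  rw [h.Cn_rec hT hv]
  by_cases hex : ∃ c ∈ ch A r par v, β ≤ Sm A r par μ c
  · obtain ⟨c0, hc0, hb0⟩ := hex
    obtain ⟨hp, hpb, _⟩ := hD.pf v c0 hc0 hb0
    have hle := Sm_ch_le hT μ hv hp
    obtain ⟨j, rfl⟩ : ∃ j, k = j + 1 := by
      cases k with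
      | zero => omega
      | succ j => exact ⟨j, rfl⟩
    have hcard := hT.ch_card v
    by_cases h2 : ∃ c ∈ ch A r par v, c ≠ pref v ∧ β ≤ Sm A r par μ c
    · obtain ⟨c1, hc1, hne, hb1⟩ := h2
      have h3 := (hD.pf v c1 hc1 hb1).2.2
      have h4 := Sm_two_le hT μ hv hc1 hp hne
      have h5 : 2 ^ (j + 1) * β = 2 * (2 ^ j * β) := by ring
      have h6 := ih (pref v) hp j (by omega)
      have e3 : Cn A r par st top (pref v) =
          ∑ c ∈ ch A r par v, if c = pref v then Cn A r par st top c else 0 := by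
        rw [sum_ite_eq', if_pos hp]
      have h7 : (∑ c ∈ ch A r par v, if st c then 1 else Cn A r par st top c) ≤
          ∑ c ∈ ch A r par v, ((if c = pref v then Cn A r par st top c else 0) + 1) := by
        refine sum_le_sum fun c hc => ?_
        by_cases hs : st c
        · rw [if_pos hs]
          omega
        · by_cases e : c = pref v
          · rw [if_neg hs, if_pos e]
            omega
          · have hb : Sm A r par μ c < β :=
              not_le.1 fun hb => hs ((hD.st_ch hc).2 ⟨hb, fun hh => e hh.1⟩)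
            rw [hsmall c hc hb]
            omega
      rw [sum_add_distrib, ← e3, sum_const, smul_eq_mul, mul_one] at h7
      rw [mul_add, mul_one]
      omega
    · rw [sum_eq_single_of_mem (pref v) hp fun c hc hne =>
        hsmall c hc (not_le.1 fun hb => h2 ⟨c, hc, hne, hb⟩)]
      split_ifs
      · have : 0 < (ch A r par v).card := card_pos.2 ⟨_, hp⟩
        rw [mul_add, mul_one]
        omega
      · exact ih (pref v) hp (j + 1) (by omega)
  · rw [sum_eq_zero fun c hc => hsmall c hc (not_le.1 fun hb => hex ⟨c, hc, hb⟩)]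
    exact Nat.zero_le _

end AtomsAux

open AtomsAux in
theorem exists_atoms (hT : RTree A r par rk Δ) (μ : α → ℕ) (β k : ℕ) (hβ : 0 < β)
    (hμ : ∀ v ∈ A, μ v ≤ β) (hlo : β ≤ ∑ v ∈ A, μ v) (hhi : ∑ v ∈ A, μ v < 2 ^ k * β) :
    ∃ top : α → α, top r = r ∧
      (∀ v ∈ A, top v ∈ A ∧ top (top v) = top v ∧ (v ≠ top v → v ≠ r ∧ top (par v) = top v)) ∧
      (∀ a ∈ A, top a = a → β ≤ ∑ v ∈ A.filter (fun v => top v = a), μ v ∧
        ∑ v ∈ A.filter (fun v => top v = a), μ v ≤ (Δ + 2) * β) ∧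
      RTree (A.filter fun a => top a = a) r (fun a => top (par a)) rk (Δ * k + 1) := by
  obtain ⟨pref, acc, st, hD⟩ := exists_dt hT μ β
  obtain ⟨top, h⟩ := exists_tp hT st ((hD.st r).2 (Or.inl rfl))
  have hr : top r = r := h.yes r hT.root h.sr
  have htt : ∀ v ∈ A, top (top v) = top v := fun v hv =>
    h.yes _ (h.mem hT v hv).1 (h.mem hT v hv).2.1
  have hst : ∀ a ∈ A, top a = a → st a := fun a ha e => e ▸ (h.mem hT a ha).2.1
  refine ⟨top, hr, fun v hv => ⟨(h.mem hT v hv).1, htt v hv, fun hne => ?_⟩, fun a ha e => ?_,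
    ?_, ?_, ?_, ?_⟩
  · have hs : ¬ st v := fun hs => hne (h.yes v hv hs).symm
    exact ⟨fun e => hs (e ▸ h.sr), (h.no v hv hs).symm⟩
  · have hs := hst a ha e
    have hb : β ≤ Sm A r par μ a := by
      rcases (hD.st a).1 hs with e' | e'
      · rw [e']
        unfold Sm
        rw [hT.sub_root]
        exact hlo
      · exact e'.1
    have h1 := hD.Rm_big h hT hβ hμ a ha hb
    rw [hD.acc_st hs, zero_add] at h1
    have h2 : Rm A r par top μ a = ∑ v ∈ A.filter (fun v => top v = a), μ v := by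
      unfold Rm
      rw [← sum_filter, e]
      refine sum_congr ?_ fun _ _ => rfl
      ext v
      simp only [mem_filter]
      exact ⟨fun hh => ⟨(mem_sub.1 hh.1).1, hh.2⟩,
        fun hh => ⟨hh.2 ▸ (h.mem hT v hh.1).2.2, hh.2⟩⟩
    rwa [h2] at h1
  · exact mem_filter.2 ⟨hT.root, hr⟩
  · intro v hv hne
    have hp := hT.mem v (mem_filter.1 hv).1 hne
    exact mem_filter.2 ⟨(h.mem hT _ hp).1, htt _ hp⟩
  · intro v hv hne
    have hvA := (mem_filter.1 hv).1
    exact (h.rk_top hT (hT.mem v hvA hne)).trans_lt (hT.lt v hvA hne)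
  · intro u
    by_cases hne : ((A.filter fun a => top a = a).filter
        fun v => v ≠ r ∧ top (par v) = u).Nonempty
    · obtain ⟨v0, hv0⟩ := hne
      simp only [mem_filter] at hv0
      have hp0 := hT.mem v0 hv0.1.1 hv0.2.1
      have huA : u ∈ A := hv0.2.2 ▸ (h.mem hT _ hp0).1
      have huu : top u = u := hv0.2.2 ▸ htt _ hp0
      have hS : Sm A r par μ u < 2 ^ k * β :=
        (sum_le_sum_of_subset fun x hx => (mem_sub.1 hx).1).trans_lt hhi
      have h1 := hD.Cn_le h hT u huA k hS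
      have h2 : ∑ x ∈ sub A r par u, gi r par st top u x =
          gi r par st top u u + Cn A r par st top u := by
        rw [hT.sum_sub huA]
        unfold Cn
        rw [huu]
      have h3 : gi r par st top u u ≤ 1 := by
        unfold gi
        split_ifs <;> omega
      have h4 : ((A.filter fun a => top a = a).filter
          fun v => v ≠ r ∧ top (par v) = u).card ≤ ∑ x ∈ sub A r par u, gi r par st top u x := by
        unfold gi
        rw [← card_filter]
        refine card_le_card fun v hv => ?_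
        simp only [mem_filter] at hv ⊢
        have hp := hT.mem v hv.1.1 hv.2.1
        exact ⟨mem_sub_of_par hv.1.1 hv.2.1 (hv.2.2 ▸ (h.mem hT _ hp).2.2), hv.2.1,
          hst v hv.1.1 hv.1.2, hv.2.2⟩
      refine le_trans (le_of_eq ?_) (h4.trans (by omega))
      congr
    · rw [not_nonempty_iff_eq_empty] at hne
      refine le_trans (le_of_eq ?_) (Nat.zero_le _)
      rw [← card_empty (α := α), ← hne]


end Pool.Agent.Lib.MP_f20cd2_co.PL
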