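import Pool.Agent.Lib.MP_f20cd2_co.PL.Eta

/-!
The number of boundary edges is paid for (D6).
-/

set_option autoImplicit false
set_option linter.unusedSectionVars false

namespace Pool.Agent.Lib.MP_f20cd2_co.PL

open Finset
open Pool.Agent.Lib.MP_f20cd2_co.H83 (Conn Cells)
open scoped Classical

variable {α : Type} {l D b : ℕ} {T : ℕ → TD} {U : Finset α} {φ : ℕ → α → ℕ} {th : ℕ → ℕ}
  {sk z ow tp : ℕ → ℕ → ℕ}

namespace BdryAux

theorem sum_fib {s t : Finset ℕ} {g : ℕ → ℕ} {ρ : ℕ → ℝ} {A : ℕ} (hm : ∀ j ∈ s, g j ∈ t)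
    (hA : ∀ i, (s.filter fun j => g j = i).card ≤ A) (hρ : ∀ i ∈ t, 0 ≤ ρ i) :
    ∑ j ∈ s, ρ (g j) ≤ A * ∑ i ∈ t, ρ i := by
  rw [← sum_fiberwise_of_maps_to hm, mul_sum]
  refine sum_le_sum fun i hi => ?_
  rw [sum_congr rfl (g := fun _ => ρ i) (fun j hj => by rw [(mem_filter.1 hj).2]), sum_const,
    nsmul_eq_mul]
  exact mul_le_mul_of_nonneg_right (by exact_mod_cast hA i) (hρ i hi)

/-- The price of a piece. -/
noncomputable def rho (N : ℕ) (par o y : ℕ → ℕ) (f : ℕ → ℝ) (S : ℕ → Prop) (i : ℕ) : ℝ :=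
  (if S i ∧ f (y i) ≤ 1 / 2 then 1 else 0) + 4 * (if ¬ S i then f (y i) else 0) +
    8 * tin N par o f i

theorem rho_nonneg (N : ℕ) (par o y : ℕ → ℕ) {f : ℕ → ℝ} (hf : ∀ a, 0 ≤ f a) (S : ℕ → Prop)
    (i : ℕ) : 0 ≤ rho N par o y f S i := by
  have h1 := tin_nonneg N par o f i
  have h2 := hf (y i)
  unfold rho
  split_ifs <;> linarith

theorem edge {N k Δ : ℕ} {par e o t y : ℕ → ℕ} (h : PT N par e Δ) (hC : Cut N par k o t)
    (hy : ∀ i < k, y i < N ∧ o (y i) = i) {f : ℕ → ℝ} (hf : ∀ a, 0 ≤ f a) {S : ℕ → Prop}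
    {a a' : ℕ} (ha : a < N) (ha' : a' < N) (hS : S (o a)) (hS' : ¬ S (o a')) :
    1 ≤ rho N par o y f S (o a) + rho N par o y f S (o a') + 4 * |f a - f a'| := by
  have h1 := le_tin h hC f ha (hy _ (hC.lt a ha)).1 (hy _ (hC.lt a ha)).2.symm
  have h2 := le_tin h hC f ha' (hy _ (hC.lt a' ha')).1 (hy _ (hC.lt a' ha')).2.symm
  have h3 := tin_nonneg N par o f (o a)
  have h4 := tin_nonneg N par o f (o a')
  have h5 := hf (y (o a'))
  have h6 := le_abs_self (f a - f a')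
  have h7 := abs_nonneg (f a - f a')
  rw [abs_le] at h1 h2
  unfold rho
  rw [if_neg (not_not.2 hS), if_pos hS', if_neg (fun h : S (o a') ∧ _ => hS' h.1)]
  by_cases h8 : f (y (o a)) ≤ 1 / 2
  · rw [if_pos ⟨hS, h8⟩]
    linarith
  · rw [if_neg (fun h : _ ∧ _ => h8 h.2)]
    linarith [not_le.1 h8, h1.1, h2.2]

theorem sum_rho {N k : ℕ} {par o y : ℕ → ℕ} (hy : ∀ i < k, y i < N ∧ o (y i) = i) {f : ℕ → ℝ}
    (hf : ∀ a, 0 ≤ f a) (S : ℕ → Prop) :
    ∑ i ∈ range k, rho N par o y f S i ≤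
      ((range k).filter fun i => S i ∧ f (y i) ≤ 1 / 2).card +
        4 * ∑ a ∈ (range N).filter (fun a => ¬ S (o a)), f a + 8 * tau N par f := by
  unfold rho
  rw [sum_add_distrib, sum_add_distrib, ← mul_sum, ← mul_sum, sum_boole, ← sum_filter]
  have h1 := sum_tin N k par o f
  have h2 : ∑ i ∈ (range k).filter (fun i => ¬ S i), f (y i) ≤
      ∑ a ∈ (range N).filter (fun a => ¬ S (o a)), f a := by
    rw [← sum_image (g := y) (f := f) (fun i hi j hj he => by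
      have h3 := (hy i (mem_range.1 (mem_filter.1 hi).1)).2
      have h4 := (hy j (mem_range.1 (mem_filter.1 hj).1)).2
      rw [← h3, ← h4, he])]
    refine sum_le_sum_of_subset_of_nonneg (fun a ha => ?_) (fun a _ _ => hf a)
    obtain ⟨i, hi, rfl⟩ := mem_image.1 ha
    have h3 := hy i (mem_range.1 (mem_filter.1 hi).1)
    exact mem_filter.2 ⟨mem_range.2 h3.1, by
      rw [h3.2]
      exact (mem_filter.1 hi).2⟩
  linarith

theorem one_tree {N k Δ A : ℕ} {par e o t y : ℕ → ℕ} (h : PT N par e Δ) (hC : Cut N par k o t)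
    (hy : ∀ i < k, y i < N ∧ o (y i) = i)
    (hA : ∀ i, ((range N).filter fun a => o a = i).card ≤ A) {f : ℕ → ℝ} (hf : ∀ a, 0 ≤ f a)
    (S : ℕ → Prop) :
    (((range N).filter fun j => 0 < j ∧ ¬ (S (o j) ↔ S (o (par j)))).card : ℝ) ≤
      (1 + Δ) * A * (((range k).filter fun i => S i ∧ f (y i) ≤ 1 / 2).card +
        4 * ∑ a ∈ (range N).filter (fun a => ¬ S (o a)), f a + 8 * tau N par f) +
        4 * tau N par f := by
  have hρ := rho_nonneg N par o y hf S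
  have h1 : ∑ j ∈ range N, rho N par o y f S (o j) ≤ A * ∑ i ∈ range k, rho N par o y f S i :=
    sum_fib (fun j hj => mem_range.2 (hC.lt j (mem_range.1 hj))) hA (fun i _ => hρ i)
  have hp : ∀ j, 0 < j → j < N → par j < N := fun j h0 hj => (h.plt j h0 hj).1.trans hj
  have h2 : ∑ j ∈ (range N).filter (fun j => 0 < j), rho N par o y f S (o (par j)) ≤
      Δ * ∑ a ∈ range N, rho N par o y f S (o a) :=
    sum_fib (ρ := fun a => rho N par o y f S (o a))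
      (fun j hj => mem_range.2 (hp j (mem_filter.1 hj).2 (mem_range.1 (mem_filter.1 hj).1)))
      (fun a => by
        rw [filter_filter]
        exact h.deg a) (fun a _ => hρ _)
  have h3 : ∑ j ∈ (range N).filter (fun j => 0 < j), rho N par o y f S (o j) ≤
      ∑ j ∈ range N, rho N par o y f S (o j) :=
    sum_le_sum_of_subset_of_nonneg (filter_subset _ _) (fun j _ _ => hρ _)
  have h4 : (((range N).filter fun j => 0 < j ∧ ¬ (S (o j) ↔ S (o (par j)))).card : ℝ) ≤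
      ∑ j ∈ (range N).filter (fun j => 0 < j),
        (rho N par o y f S (o j) + rho N par o y f S (o (par j)) + 4 * |f j - f (par j)|) := by
    rw [card_eq_sum_ones, Nat.cast_sum, Nat.cast_one]
    refine (sum_le_sum (g := fun j => rho N par o y f S (o j) + rho N par o y f S (o (par j)) +
      4 * |f j - f (par j)|) fun j hj => ?_).trans
      (sum_le_sum_of_subset_of_nonneg (fun j hj => ?_) (fun j _ _ => ?_))
    · obtain ⟨hj, h0, hS⟩ := mem_filter.1 hj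
      have hj := mem_range.1 hj
      by_cases h5 : S (o j)
      · exact edge h hC hy hf hj (hp j h0 hj) h5 (fun h6 => hS ⟨fun _ => h6, fun _ => h5⟩)
      · have h6 : S (o (par j)) := by
          by_contra h6
          exact hS ⟨fun h7 => absurd h7 h5, fun h7 => absurd h7 h6⟩
        have h7 := edge h hC hy hf (hp j h0 hj) hj h6 h5
        rw [abs_sub_comm] at h7
        linarith
    · exact mem_filter.2 ⟨(mem_filter.1 hj).1, (mem_filter.1 hj).2.1⟩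
    · have := hρ (o j)
      have := hρ (o (par j))
      positivity
  rw [sum_add_distrib, sum_add_distrib, ← mul_sum] at h4
  have h5 := sum_rho (par := par) hy hf S
  have h6 : (0 : ℝ) ≤ Δ := Nat.cast_nonneg _
  have h7 : (0 : ℝ) ≤ A := Nat.cast_nonneg _
  have h8 := mul_le_mul_of_nonneg_left h1 (by linarith : (0 : ℝ) ≤ 1 + Δ)
  have h9 := mul_le_mul_of_nonneg_left h5 (by positivity : (0 : ℝ) ≤ (1 + Δ) * A)
  unfold tau at h9 ⊢
  nlinarith

theorem numeric {L m B V E Y τ : ℝ} (hL : 1000 ≤ L) (hm : 0 ≤ m) (hV : 0 ≤ V) (hE : 0 ≤ E)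
    (hY : 0 ≤ Y) (hτ : 0 ≤ τ) (h1 : B ≤ (1 + 5 * L ^ 2) * L ^ 15 * (V + 4 * E + 8 * τ) + 4 * τ)
    (h2 : m * E ≤ 4 * Y / L) :
    m * B ≤ L ^ 27 * (m / 8 * V + Y / 2 + 1 / L ^ 9 * m * τ) := by
  have hL0 : 0 < L := by linarith
  have hL1 : 1 ≤ L := by linarith
  have a1 : 1 ≤ L ^ 2 := one_le_pow₀ hL1
  have a2 : 1 ≤ L ^ 17 := one_le_pow₀ hL1
  have a3 : (1 + 5 * L ^ 2) * L ^ 15 ≤ 6 * L ^ 17 := by
    have : 0 < L ^ 15 := by positivity
    calc (1 + 5 * L ^ 2) * L ^ 15 ≤ (6 * L ^ 2) * L ^ 15 := by gcongr; linarith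
      _ = 6 * L ^ 17 := by ring
  have a4 : 1000 * L ^ 17 ≤ L ^ 18 := by
    calc 1000 * L ^ 17 ≤ L * L ^ 17 := by gcongr
      _ = L ^ 18 := by ring
  have a5 : L ^ 18 ≤ L ^ 27 := pow_le_pow_right₀ hL1 (by norm_num)
  have a6 : m * E ≤ 4 * Y := h2.trans (div_le_self (by linarith) hL1)
  have a7 : B ≤ 6 * L ^ 17 * (V + 4 * E + 8 * τ) + 4 * τ :=
    h1.trans (by gcongr)
  have a8 : L ^ 27 * (m / 8 * V + Y / 2 + 1 / L ^ 9 * m * τ) =
      L ^ 27 / 8 * (m * V) + L ^ 27 / 2 * Y + L ^ 18 * (m * τ) := by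
    field_simp
  have b1 : 0 ≤ m * V := mul_nonneg hm hV
  have b2 : 0 ≤ m * τ := mul_nonneg hm hτ
  have b3 : 6 * L ^ 17 * (m * V) ≤ L ^ 27 / 8 * (m * V) := by
    gcongr
    linarith
  have b4 : 24 * L ^ 17 * (m * E) ≤ L ^ 27 / 2 * Y := by
    calc 24 * L ^ 17 * (m * E) ≤ 24 * L ^ 17 * (4 * Y) := by gcongr
      _ = 96 * L ^ 17 * Y := by ring
      _ ≤ L ^ 27 / 2 * Y := by
        gcongr
        linarith
  have b5 : (48 * L ^ 17 + 4) * (m * τ) ≤ L ^ 18 * (m * τ) := by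
    gcongr
    linarith
  rw [a8]
  calc m * B ≤ m * (6 * L ^ 17 * (V + 4 * E + 8 * τ) + 4 * τ) := by gcongr
    _ = 6 * L ^ 17 * (m * V) + 24 * L ^ 17 * (m * E) + (48 * L ^ 17 + 4) * (m * τ) := by ring
    _ ≤ _ := by linarith

end BdryAux

theorem bdry_le (hF : Fl l D b T U φ th sk) (hP : Ps l T z ow tp) (hl : 1000 ≤ l)
    {X Q : Finset α} (hX : X ⊆ Q) (hQ : Q ⊆ U)
    (hu : ∀ u ∈ Q \ X, uns (l ^ 68) X φ ow u ≤ l ^ 61) :
    (l : ℝ) ^ 6 * b * bb T (l ^ 68) X φ ow ≤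
      (l : ℝ) ^ 27 * ((l : ℝ) ^ 6 * b / 8 * VV T (l ^ 68) U X Q φ z ow +
        ((Q \ X).card : ℝ) / 2 + 1 / (l : ℝ) ^ 9 * ((l : ℝ) ^ 6 * b) * tauQ T (l ^ 68) U Q φ) := by
  have hs : ∀ c a, 0 ≤ share U Q (φ c) a := fun c a => (share_mem hQ (φ c) a).1
  refine BdryAux.numeric (E := eta T (l ^ 68) U X Q φ ow) (by exact_mod_cast hl) (by positivity)
    (Nat.cast_nonneg _) (sum_nonneg fun c _ => sum_nonneg fun a _ => hs c a) (Nat.cast_nonneg _)
    (sum_nonneg fun c _ => tau_nonneg _ _ _) ?_ (hF.eta_le hl hX hQ hu)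
  unfold bb VV eta tauQ
  rw [Nat.cast_sum, Nat.cast_sum, mul_sum, mul_sum, mul_sum, ← sum_add_distrib, ← sum_add_distrib,
    mul_sum, ← sum_add_distrib]
  refine sum_le_sum fun c hc => ?_
  have hc := mem_range.1 hc
  have h1 := BdryAux.one_tree (hF.ok c hc).pt (hP.cut c hc) (hP.ctr c hc) (hP.size c hc) (hs c)
    (seen X (φ c) (ow c))
  push_cast at h1
  convert h1


end Pool.Agent.Lib.MP_f20cd2_co.PL
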