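import Pool.Agent.Lib.MP_f20cd2_co.PL.Defs

/-!
Subtrees of a rooted tree.
-/

set_option autoImplicit false
set_option linter.unusedSectionVars false

namespace Pool.Agent.Lib.MP_f20cd2_co.PL

open Finset
open Pool.Agent.Lib.MP_f20cd2_co.H83 (Conn Cells)
open scoped Classical

variable {α : Type} {A : Finset α} {r : α} {par : α → α} {rk : α → ℕ} {Δ : ℕ}

theorem RTree.ind_down (h : RTree A r par rk Δ) (p : α → Prop) (hr : p r)
    (hs : ∀ v ∈ A, v ≠ r → p (par v) → p v) : ∀ v ∈ A, p v := by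
  have key : ∀ n, ∀ v ∈ A, rk v = n → p v := by
    intro n
    induction n using Nat.strong_induction_on with
    | _ n ih =>
      intro v hv hn
      by_cases hvr : v = r
      · exact hvr ▸ hr
      · exact hs v hv hvr (ih _ (hn ▸ h.lt v hv hvr) _ (h.mem v hv hvr) rfl)
  exact fun v hv => key _ v hv rfl

theorem RTree.ind_up (h : RTree A r par rk Δ) (p : α → Prop)
    (hs : ∀ v ∈ A, (∀ c ∈ ch A r par v, p c) → p v) : ∀ v ∈ A, p v := by
  have key : ∀ n, ∀ v ∈ A, A.sup rk - rk v = n → p v := by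
    intro n
    induction n using Nat.strong_induction_on with
    | _ n ih =>
      intro v hv hn
      refine hs v hv fun c hc => ?_
      obtain ⟨h1, h2, h3⟩ := mem_ch.1 hc
      have h4 := h.lt c h1 h2
      rw [h3] at h4
      have h5 : rk c ≤ A.sup rk := le_sup h1
      exact ih _ (by omega) c h1 rfl
  exact fun v hv => key _ v hv rfl

theorem RTree.ch_card (h : RTree A r par rk Δ) (v : α) : (ch A r par v).card ≤ Δ := by
  have := h.deg v
  unfold ch
  convert this

theorem RTree.sub_root (h : RTree A r par rk Δ) : sub A r par r = A := by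
  ext u
  rw [mem_sub]
  refine ⟨fun hu => hu.1, fun hu => ⟨hu, ?_⟩⟩
  exact h.ind_down (fun u => Desc A r par r u) Relation.ReflTransGen.refl
    (fun v hv hr hp => Relation.ReflTransGen.tail hp ⟨hv, hr, rfl⟩) u hu

theorem self_mem_sub {v : α} (hv : v ∈ A) : v ∈ sub A r par v := by
  exact mem_sub.2 ⟨hv, Relation.ReflTransGen.refl⟩

theorem RTree.rk_le (h : RTree A r par rk Δ) {v u : α} (hu : u ∈ sub A r par v) :
    rk v ≤ rk u ∧ (u ≠ v → rk v < rk u) := by
  have key : ∀ w, Desc A r par v w → rk v ≤ rk w := by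
    intro w hw
    induction hw with
    | refl => exact le_rfl
    | tail _ hbc ih =>
      have := h.lt _ hbc.1 hbc.2.1
      rw [hbc.2.2] at this
      omega
  have hd := (mem_sub.1 hu).2
  refine ⟨key u hd, fun hne => ?_⟩
  rcases Relation.ReflTransGen.cases_tail hd with e | ⟨c, hc, hcu⟩
  · exact absurd e hne
  · have h1 := key c hc
    have h2 := h.lt _ hcu.1 hcu.2.1
    rw [hcu.2.2] at h2
    omega

theorem RTree.par_mem_sub (h : RTree A r par rk Δ) {v u : α} (hu : u ∈ sub A r par v)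
    (hne : u ≠ v) : u ≠ r ∧ par u ∈ sub A r par v := by
  rcases Relation.ReflTransGen.cases_tail (mem_sub.1 hu).2 with e | ⟨c, hc, hcu⟩
  · exact absurd e hne
  · refine ⟨hcu.2.1, mem_sub.2 ⟨h.mem u hcu.1 hcu.2.1, ?_⟩⟩
    rw [hcu.2.2]
    exact hc

theorem mem_sub_of_par {v u : α} (hu : u ∈ A) (hr : u ≠ r) (hp : par u ∈ sub A r par v) :
    u ∈ sub A r par v := by
  exact mem_sub.2 ⟨hu, Relation.ReflTransGen.tail (mem_sub.1 hp).2 ⟨hu, hr, rfl⟩⟩

theorem sub_trans {v u w : α} (hu : u ∈ sub A r par v) (hw : w ∈ sub A r par u) :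
    w ∈ sub A r par v := by
  exact mem_sub.2 ⟨(mem_sub.1 hw).1, Relation.ReflTransGen.trans (mem_sub.1 hu).2 (mem_sub.1 hw).2⟩

theorem mem_sub_iff {v u : α} (hv : v ∈ A) :
    u ∈ sub A r par v ↔ u = v ∨ ∃ c ∈ ch A r par v, u ∈ sub A r par c := by
  constructor
  · intro hu
    rcases Relation.ReflTransGen.cases_head (mem_sub.1 hu).2 with e | ⟨c, hvc, hc⟩
    · exact Or.inl e.symm
    · exact Or.inr ⟨c, mem_ch.2 hvc, mem_sub.2 ⟨(mem_sub.1 hu).1, hc⟩⟩
  · rintro (rfl | ⟨c, hc, hu⟩)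
    · exact self_mem_sub hv
    · exact mem_sub.2 ⟨(mem_sub.1 hu).1,
        Relation.ReflTransGen.head (mem_ch.1 hc) (mem_sub.1 hu).2⟩

theorem RTree.sub_disjoint (h : RTree A r par rk Δ) {v c c' : α} (hc : c ∈ ch A r par v)
    (hc' : c' ∈ ch A r par v) (hne : c ≠ c') : Disjoint (sub A r par c) (sub A r par c') := by
  have key : ∀ a b : α, a ∈ ch A r par v → b ∈ ch A r par v → a ≠ b → a ∉ sub A r par b := by
    intro a b ha hb hab hm
    have h1 := (h.rk_le (h.par_mem_sub hm hab).2).1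
    have h2 := h.lt b (mem_ch.1 hb).1 (mem_ch.1 hb).2.1
    rw [(mem_ch.1 ha).2.2] at h1
    rw [(mem_ch.1 hb).2.2] at h2
    omega
  have main := h.ind_down (fun u => u ∈ sub A r par c → u ∉ sub A r par c')
    (fun hr _ => (h.par_mem_sub hr (mem_ch.1 hc).2.1.symm).1 rfl)
    (fun u _ _ ih h1 h2 => by
      by_cases e1 : u = c
      · exact key c c' hc hc' hne (e1 ▸ h2)
      by_cases e2 : u = c'
      · exact key c' c hc' hc hne.symm (e2 ▸ h1)
      exact ih (h.par_mem_sub h1 e1).2 (h.par_mem_sub h2 e2).2)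
  exact disjoint_left.2 fun u h1 h2 => main u (mem_sub.1 h1).1 h1 h2

theorem RTree.sum_sub (h : RTree A r par rk Δ) {v : α} (hv : v ∈ A) (g : α → ℕ) :
    ∑ u ∈ sub A r par v, g u = g v + ∑ c ∈ ch A r par v, ∑ u ∈ sub A r par c, g u := by
  have e : sub A r par v = insert v ((ch A r par v).biUnion (sub A r par)) := by
    ext u
    rw [mem_sub_iff hv, mem_insert, mem_biUnion]
  have hn : v ∉ (ch A r par v).biUnion (sub A r par) := by
    intro hm
    obtain ⟨c, hc, hm⟩ := mem_biUnion.1 hm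
    have h1 := (h.rk_le hm).1
    have h2 := h.lt c (mem_ch.1 hc).1 (mem_ch.1 hc).2.1
    rw [(mem_ch.1 hc).2.2] at h2
    omega
  rw [e, sum_insert hn, sum_biUnion fun c hc c' hc' hne => h.sub_disjoint hc hc' hne]


end Pool.Agent.Lib.MP_f20cd2_co.PL
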