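import Pool.Agent.Lib.MP_f20cd2_co.PL.Basic
import Pool.Agent.Lib.MP_f20cd2_co.PL.Sub

/-!
Carving parts out of a tree (C2).
-/

set_option autoImplicit false
set_option linter.unusedSectionVars false

namespace Pool.Agent.Lib.MP_f20cd2_co.PL

open Finset
open Pool.Agent.Lib.MP_f20cd2_co.H83 (Conn Cells)
open scoped Classical

variable {V : Type} [Fintype V] [DecidableEq V] {G : SimpleGraph V}

theorem carve {ι : Type} {A : Finset V} {r : V} {par : V → V} {rk : V → ℕ} {Δ : ℕ}
    (hT : RTree A r par rk Δ) (hadj : ∀ v ∈ A, v ≠ r → G.Adj v (par v)) (hΔ : 1 ≤ Δ)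
    (I : Finset ι) (a : ι → ℕ) (hpos : ∀ i ∈ I, 0 < a i) (hsum : Δ * ∑ i ∈ I, a i ≤ A.card) :
    Pack G A I a := by
  induction I using Finset.induction_on generalizing A with
  | empty => exact ⟨fun _ => ∅, by simp, by simp⟩
  | insert i I hi ih =>
    rw [sum_insert hi, mul_add] at hsum
    have hai : 0 < a i := hpos i (mem_insert_self i I)
    have hle : a i ≤ Δ * a i := Nat.le_mul_of_pos_left _ hΔ
    obtain ⟨v, hv, hmax⟩ := exists_max_image (A.filter fun v => a i ≤ (sub A r par v).card) rk
      ⟨r, mem_filter.2 ⟨hT.root, by rw [hT.sub_root]; omega⟩⟩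
    obtain ⟨hvA, hva⟩ := mem_filter.1 hv
    have hsub : sub A r par v ⊆ A := fun u hu => (mem_sub.1 hu).1
    have hcard : (sub A r par v).card ≤ Δ * a i := by
      have h1 := hT.sum_sub hvA fun _ => 1
      simp only [sum_const, smul_eq_mul, mul_one] at h1
      have h2 : ∑ c ∈ ch A r par v, (sub A r par c).card ≤ (ch A r par v).card * (a i - 1) := by
        rw [← smul_eq_mul]
        refine sum_le_card_nsmul _ _ _ fun c hc => ?_
        obtain ⟨c1, c2, c3⟩ := mem_ch.1 hc
        by_contra hcon
        have h3 := hmax c (mem_filter.2 ⟨c1, by omega⟩)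
        have h4 := hT.lt c c1 c2
        rw [c3] at h4
        omega
      have h3 : (ch A r par v).card * (a i - 1) ≤ Δ * (a i - 1) :=
        Nat.mul_le_mul_right _ (hT.ch_card v)
      have h4 : Δ * a i = Δ * (a i - 1) + Δ := by
        rw [← Nat.mul_succ]
        congr 1
        omega
      omega
    have hconn : Conn G (sub A r par v) := by
      refine conn_of_rank _ v (self_mem_sub hvA) rk fun u hu hne => ?_
      obtain ⟨h1, h2⟩ := hT.par_mem_sub hu hne
      exact ⟨par u, h2, hadj u (hsub hu) h1, hT.lt u (hsub hu) h1⟩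
    obtain ⟨Q, hQ, hQc, hQn⟩ := conn_subset_card hconn (a i) hai hva
    have hrest : Δ * ∑ j ∈ I, a j ≤ (A \ sub A r par v).card := by
      rw [card_sdiff_of_subset hsub]
      omega
    have hP : Pack G (A \ sub A r par v) I a := by
      by_cases hr : r ∈ sub A r par v
      · have hrv : r = v := by
          by_contra hne
          exact (hT.par_mem_sub hr hne).1 rfl
        subst hrv
        rw [hT.sub_root, sdiff_self, bot_eq_empty, card_empty] at hrest
        have h0 : ∑ j ∈ I, a j = 0 := by
          rcases Nat.mul_eq_zero.1 (Nat.le_zero.1 hrest) with h | h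
          · omega
          · exact h
        have hI : ∀ j, j ∉ I := fun j hj => by
          have h1 := sum_eq_zero_iff.1 h0 j hj
          have h2 := hpos j (mem_insert_of_mem hj)
          omega
        exact ⟨fun _ => ∅, fun j hj => (hI j hj).elim, fun j hj => (hI j hj).elim⟩
      · refine ih ⟨mem_sdiff.2 ⟨hT.root, hr⟩, fun u hu hne => ?_,
          fun u hu hne => hT.lt u (mem_sdiff.1 hu).1 hne, fun u => le_trans (card_le_card ?_)
            (hT.deg u)⟩ (fun u hu hne => hadj u (mem_sdiff.1 hu).1 hne)
          (fun j hj => hpos j (mem_insert_of_mem hj)) hrest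
        · obtain ⟨h1, h2⟩ := mem_sdiff.1 hu
          exact mem_sdiff.2 ⟨hT.mem u h1 hne, fun h3 => h2 (mem_sub_of_par h1 hne h3)⟩
        · intro x hx
          simp only [mem_filter, mem_sdiff] at hx ⊢
          exact ⟨hx.1.1, hx.2⟩
    obtain ⟨p, hp1, hp2⟩ := hP
    have hdis : ∀ j ∈ I, Disjoint Q (p j) := fun j hj =>
      disjoint_left.2 fun x hx hx' => (mem_sdiff.1 ((hp1 j hj).1 hx')).2 (hQ hx)
    refine ⟨fun j => if j = i then Q else p j, fun j hj => ?_, fun j hj k hk hjk => ?_⟩
    · by_cases hji : j = i
      · subst hji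
        simp only [if_true]
        exact ⟨hQ.trans hsub, hQc, hQn⟩
      · simp only [if_neg hji]
        obtain ⟨h1, h2, h3⟩ := hp1 j ((mem_insert.1 hj).resolve_left hji)
        exact ⟨h1.trans sdiff_subset, h2, h3⟩
    · by_cases hji : j = i
      · have hki : k ≠ i := fun h => hjk (hji.trans h.symm)
        simp only [if_pos hji, if_neg hki]
        exact hdis k ((mem_insert.1 hk).resolve_left hki)
      · have hj' := (mem_insert.1 hj).resolve_left hji
        by_cases hki : k = i
        · simp only [if_neg hji, if_pos hki]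
          exact (hdis j hj').symm
        · simp only [if_neg hji, if_neg hki]
          exact hp2 j hj' k ((mem_insert.1 hk).resolve_left hki) hjk


end Pool.Agent.Lib.MP_f20cd2_co.PL
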