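import Pool.Agent.Lib.MP_f20cd2_co.PL.Lev

/-!
Many disjoint connectors between the groups (B4), and the chance to miss them all.
-/

set_option autoImplicit false
set_option linter.unusedSectionVars false

namespace Pool.Agent.Lib.MP_f20cd2_co.PL

open Finset
open Pool.Agent.Lib.MP_f20cd2_co.H83 (Conn Cells)
open scoped Classical

variable {V : Type} [Fintype V] [DecidableEq V] {G : SimpleGraph V}

namespace ConrAux

/-- A pairwise disjoint subfamily that meets every member. -/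
lemma exists_max {α : Type} [DecidableEq α] (C : Finset (Finset α)) (hC : ∀ H ∈ C, H.Nonempty) :
    ∃ 𝓗 ⊆ C, (∀ H ∈ 𝓗, ∀ H' ∈ 𝓗, H ≠ H' → Disjoint H H') ∧
      ∀ H ∈ C, ∃ H' ∈ 𝓗, ¬ Disjoint H H' := by
  obtain ⟨𝓗, h1, h2⟩ := exists_max_image
    (C.powerset.filter fun 𝓗 => ∀ H ∈ 𝓗, ∀ H' ∈ 𝓗, H ≠ H' → Disjoint H H') card ⟨∅, by simp⟩
  rw [mem_filter, mem_powerset] at h1
  refine ⟨𝓗, h1.1, h1.2, fun H hH => ?_⟩
  by_contra h
  push Not at h
  have hn : H ∉ 𝓗 := fun hm => (hC H hH).ne_empty (disjoint_self.1 (h H hm))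
  have := h2 (insert H 𝓗) (mem_filter.2 ⟨mem_powerset.2 (insert_subset hH h1.1), by
    intro A hA B hB hAB
    rcases mem_insert.1 hA with rfl | hA' <;> rcases mem_insert.1 hB with rfl | hB'
    exacts [(hAB rfl).elim, h B hB', (h A hA').symm, h1.2 A hA' B hB' hAB]⟩)
  rw [card_insert_of_notMem hn] at this
  omega

lemma cmp_anc {Y0 Y : Finset V} (hY : Y0 ⊆ Y) {v : V} (hv : v ∈ Y) (h : v ∉ far G Y0) :
    cmp G Y (anc G Y0 v) = cmp G Y v := by
  obtain ⟨h1, h2 | h2⟩ := anc_spec h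
  · rw [h2]
  · exact (cmp_eq (Relation.ReflTransGen.single ⟨hv, hY h1, h2⟩)).symm

end ConrAux

theorem connectors {t t' : ℝ} (hT : RT G univ t) (M : ℕ) (ht' : 0 ≤ t')
    (ht : 8 * (1 + 4 * M) * t' ≤ t) {W0 Wi F : Finset V} (hD : Dom G M t W0) (hW : W0 ⊆ Wi)
    {γ : Finset V → ℕ} (hL : Lev G t' W0 Wi F γ) :
    ∃ 𝓗 : Finset (Finset V), (∀ H ∈ 𝓗, H.Nonempty ∧ H.card ≤ 2 ∧ Disjoint H Wi) ∧
      (∀ H ∈ 𝓗, ∀ H' ∈ 𝓗, H ≠ H' → Disjoint H H') ∧
      t * (cms G (W0 \ F) (Wi \ F)).card ≤ 8 * (𝓗.card : ℝ) ∧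
      ∀ Wn : Finset V, Wi ⊆ Wn → NoX G W0 Wi Wn F γ → ∀ H ∈ 𝓗, ¬ H ⊆ Wn := by
  obtain ⟨hF, hc2, hNc⟩ := hL
  have ht0 : 0 ≤ t := le_trans (by positivity) ht
  set lab : V → ℕ := fun v => γ (cmp G (Wi \ F) (anc G (W0 \ F) v)) with hlab
  let C : Finset (Finset V) := univ.filter fun H => ∃ v w, G.Adj v w ∧ v ∉ F ∧ w ∉ F ∧
    v ∉ far G (W0 \ F) ∧ w ∉ far G (W0 \ F) ∧ lab v ≠ lab w ∧ H = {v, w} \ Wi
  have hY : W0 \ F ⊆ Wi \ F := sdiff_subset_sdiff hW Subset.rfl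
  have hC : ∀ H ∈ C, H.Nonempty ∧ H.card ≤ 2 ∧ Disjoint H Wi := fun H hH => by
    obtain ⟨v, w, hvw, hv, hw, hv', hw', hne, rfl⟩ := (mem_filter.1 hH).2
    refine ⟨?_, (card_le_card sdiff_subset).trans card_le_two, sdiff_disjoint⟩
    by_contra h
    rw [not_nonempty_iff_eq_empty, sdiff_eq_empty_iff_subset] at h
    have h1 : v ∈ Wi \ F := mem_sdiff.2 ⟨h (by simp), hv⟩
    have h2 : w ∈ Wi \ F := mem_sdiff.2 ⟨h (by simp), hw⟩
    apply hne
    simp only [hlab]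
    rw [ConrAux.cmp_anc hY h1 hv', ConrAux.cmp_anc hY h2 hw',
      cmp_eq (Relation.ReflTransGen.single ⟨h1, h2, hvw⟩)]
  obtain ⟨𝓗, hsub, hdis, hmax⟩ := ConrAux.exists_max C fun H hH => (hC H hH).1
  refine ⟨𝓗, fun H hH => hC H (hsub hH), hdis, ?_, fun Wn hWn hX H hH hHW => ?_⟩
  · let S : Finset V := F ∪ far G (W0 \ F) ∪ 𝓗.biUnion id
    have hcell : Cells G (univ \ S) ((cms G (W0 \ F) (Wi \ F)).image γ).card := by
      refine cells_of_lab _ lab (fun v hv w hw hvw => ?_) _ (card_le_card fun x hx => ?_)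
      · by_contra hne
        simp only [S, mem_sdiff, mem_univ, true_and, mem_union, not_or, mem_biUnion, id,
          not_exists, not_and] at hv hw
        obtain ⟨H', hH', hnd⟩ := hmax ({v, w} \ Wi) (mem_filter.2 ⟨mem_univ _, v, w, hvw,
          hv.1.1, hw.1.1, hv.1.2, hw.1.2, hne, rfl⟩)
        obtain ⟨x, hx, hx'⟩ := not_disjoint_iff.1 hnd
        rcases mem_insert.1 (mem_sdiff.1 hx).1 with rfl | hx2
        · exact hv.2 H' hH' hx'
        · rw [mem_singleton.1 hx2] at hx'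
          exact hw.2 H' hH' hx'
      · obtain ⟨K, hK, rfl⟩ := mem_image.1 hx
        obtain ⟨u, hu, rfl⟩ := mem_image.1 hK
        rw [@mem_image _ _ (_)]
        refine ⟨u, ?_, by simp only [hlab]; rw [anc_of_mem hu]⟩
        simp only [S, mem_sdiff, mem_univ, true_and, mem_union, not_or, mem_biUnion, id,
          not_exists, not_and]
        exact ⟨⟨(mem_sdiff.1 hu).2, fun h => (mem_far.1 h).1 hu⟩, fun H hH hx' =>
          disjoint_left.1 (hC H (hsub hH)).2.2 hx' (hW (mem_sdiff.1 hu).1)⟩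
    have h1 := hT _ _ hcell hc2
    have h2 : (far G (W0 \ F)).card ≤ 4 * M * F.card :=
      (hD.1 _).trans (Nat.mul_le_mul_left _ (card_le_card fun u hu => by
        obtain ⟨hu1, hu2⟩ := mem_inter.1 hu
        obtain ⟨v, hv, hvu⟩ := mem_nbr.1 hu1
        by_contra h
        exact (mem_far.1 hv).2 u (mem_sdiff.2 ⟨hu2, h⟩) hvu))
    have h3 : (𝓗.biUnion id).card ≤ 𝓗.card * 2 :=
      card_biUnion_le_card_mul _ _ _ fun H hH => (hC H (hsub hH)).2.1
    have h4 : (univ \ (univ \ S)).card ≤ F.card + 4 * M * F.card + 𝓗.card * 2 := by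
      rw [Finset.sdiff_sdiff_eq_self (subset_univ S)]
      exact (card_union_le _ _).trans (add_le_add ((card_union_le _ _).trans (by omega)) h3)
    have h5 : (((univ \ (univ \ S)).card : ℕ) : ℝ) ≤ F.card + 4 * M * F.card + 𝓗.card * 2 := by
      exact_mod_cast h4
    have h6 : ((cms G (W0 \ F) (Wi \ F)).card : ℝ) ≤
        2 * ((cms G (W0 \ F) (Wi \ F)).image γ).card := by exact_mod_cast hNc.le
    have h7 := mul_le_mul_of_nonneg_left h6 ht0
    have h8 := mul_le_mul_of_nonneg_left hF (show (0 : ℝ) ≤ 1 + 4 * M by positivity)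
    have h9 := mul_le_mul_of_nonneg_right ht
      (Nat.cast_nonneg (α := ℝ) (cms G (W0 \ F) (Wi \ F)).card)
    nlinarith
  · obtain ⟨v, w, hvw, hv, hw, hv', hw', hne, rfl⟩ := (mem_filter.1 (hsub hH)).2
    have key : ∀ x ∈ ({v, w} : Finset V), x ∈ Wn := fun x hx => by
      by_cases h : x ∈ Wi
      exacts [hWn h, hHW (mem_sdiff.2 ⟨hx, h⟩)]
    exact hne (hX v w hvw hv hw hv' hw' (key v (by simp)) (key w (by simp)))


end Pool.Agent.Lib.MP_f20cd2_co.PL
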