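import Pool.Agent.Lib.MP_f20cd2_co.PL.Prod

/-!
Few reference trees describe the seen region (D7).
-/

set_option autoImplicit false
set_option linter.unusedSectionVars false

namespace Pool.Agent.Lib.MP_f20cd2_co.PL

open Finset
open Pool.Agent.Lib.MP_f20cd2_co.H83 (Conn Cells)
open scoped Classical

variable {α : Type} {l D b : ℕ} {T : ℕ → TD} {U : Finset α} {φ : ℕ → α → ℕ} {th : ℕ → ℕ}
  {sk z ow tp : ℕ → ℕ → ℕ}

namespace HitAux

/-- The sequences that avoid a set of at least `h` values are rare. -/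
lemma miss_le (J s h : ℕ) (A : Finset ℕ) (hA : A ⊆ range J) (hh : h ≤ A.card) (hJ : 0 < J) :
    (((Fintype.piFinset fun _ : Fin s => range J).filter fun x => ∀ i, x i ∉ A).card : ℝ) ≤
      Real.exp (-((h : ℝ) * s / J)) * (Fintype.piFinset fun _ : Fin s => range J).card := by
  have e : ((Fintype.piFinset fun _ : Fin s => range J).filter fun x => ∀ i, x i ∉ A) =
      Fintype.piFinset fun _ : Fin s => range J \ A := by
    ext x
    simp only [mem_filter, Fintype.mem_piFinset, mem_sdiff]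
    exact ⟨fun hx i => ⟨hx.1 i, hx.2 i⟩, fun hx => ⟨fun i => (hx i).1, fun i => (hx i).2⟩⟩
  rw [e, Fintype.card_piFinset, Fintype.card_piFinset]
  simp only [prod_const, card_univ, Fintype.card_fin, card_range, Nat.cast_pow]
  have hJR : (0 : ℝ) < J := by exact_mod_cast hJ
  have h1 : (((range J \ A).card : ℕ) : ℝ) ≤ Real.exp (-((h : ℝ) / J)) * J := by
    have h2 : (range J \ A).card + A.card = J := by
      rw [card_sdiff_add_card_eq_card hA, card_range]
    have h3 : (((range J \ A).card : ℕ) : ℝ) + h ≤ J := by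
      have : (range J \ A).card + h ≤ J := by omega
      exact_mod_cast this
    have h4 := Real.add_one_le_exp (-((h : ℝ) / J))
    have h5 : (-((h : ℝ) / J) + 1) * J = J - h := by field_simp; ring
    calc (((range J \ A).card : ℕ) : ℝ) ≤ (-((h : ℝ) / J) + 1) * J := by rw [h5]; linarith
      _ ≤ _ := mul_le_mul_of_nonneg_right h4 hJR.le
  calc (((range J \ A).card : ℕ) : ℝ) ^ s ≤ (Real.exp (-((h : ℝ) / J)) * J) ^ s :=
        pow_le_pow_left₀ (by positivity) h1 s
    _ = _ := by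
        rw [mul_pow, ← Real.exp_nat_mul]
        congr 2
        ring

/-- The tree edges of tree `c` between a seen and an unseen piece. -/
noncomputable def be (T : ℕ → TD) (X : Finset α) (φ : ℕ → α → ℕ) (ow : ℕ → ℕ → ℕ) (c : ℕ) :
    Finset ℕ :=
  (range (T c).N).filter fun j => 0 < j ∧
    ¬ (seen X (φ c) (ow c) (ow c j) ↔ seen X (φ c) (ow c) (ow c ((T c).par j)))

lemma bb_eq (J : ℕ) (X : Finset α) : bb T J X φ ow = ∑ c ∈ range J, (be T X φ ow c).card := rfl

/-- Without a boundary edge all atoms have the status of the root. -/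
lemma seen_root {X : Finset α} {c : ℕ} (hp : ∀ j, 0 < j → j < (T c).N → (T c).par j < j)
    (h0 : be T X φ ow c = ∅) (j : ℕ) (hj : j < (T c).N) :
    seen X (φ c) (ow c) (ow c j) ↔ seen X (φ c) (ow c) (ow c 0) := by
  induction j using Nat.strong_induction_on with
  | _ j ih =>
    rcases Nat.eq_zero_or_pos j with rfl | hpos
    · exact Iff.rfl
    · have h1 := hp j hpos hj
      have h2 : seen X (φ c) (ow c) (ow c j) ↔ seen X (φ c) (ow c) (ow c ((T c).par j)) := by
        by_contra h3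
        have : j ∈ be T X φ ow c := mem_filter.2 ⟨mem_range.2 hj, hpos, h3⟩
        rw [h0] at this
        exact notMem_empty _ this
      exact h2.trans (ih _ h1 (h1.trans hj))

lemma uns_le_bb {J : ℕ} (hp : ∀ c < J, ∀ j, 0 < j → j < (T c).N → (T c).par j < j)
    (hφ : ∀ c < J, ∀ u ∈ U, φ c u < (T c).N) {X : Finset α} (hX : X ⊆ U) (hne : X.Nonempty)
    {u : α} (hu : u ∈ U) : uns J X φ ow u ≤ bb T J X φ ow := by
  obtain ⟨x, hx⟩ := hne
  rw [bb_eq, uns, card_filter]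
  refine sum_le_sum fun c hc => ?_
  have hc' := mem_range.1 hc
  split_ifs with h
  · exact Nat.zero_le _
  · rw [Nat.one_le_iff_ne_zero]
    intro h0
    have h1 := card_eq_zero.1 h0
    have h2 := seen_root (hp c hc') h1 _ (hφ c hc' u hu)
    have h3 := seen_root (hp c hc') h1 _ (hφ c hc' x (hX hx))
    exact h (h2.2 (h3.1 ⟨x, hx, rfl⟩))

/-- The unseen atoms of the trees in `R`. -/
noncomputable def zs (T : ℕ → TD) (J : ℕ) (X : Finset α) (φ : ℕ → α → ℕ) (ow : ℕ → ℕ → ℕ)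
    (R : Finset ℕ) : Finset (ℕ × ℕ) :=
  (atoms T J).filter fun p => p.1 ∈ R ∧ ¬ seen X (φ p.1) (ow p.1) (ow p.1 p.2)

lemma mem_zs {J : ℕ} {X : Finset α} {R : Finset ℕ} {c a : ℕ} :
    (c, a) ∈ zs T J X φ ow R ↔
      (c < J ∧ a < (T c).N) ∧ c ∈ R ∧ ¬ seen X (φ c) (ow c) (ow c a) := by
  rw [zs, mem_filter, mem_atoms]

lemma bd_zs {J : ℕ} (hp : ∀ c < J, ∀ j, 0 < j → j < (T c).N → (T c).par j < j)
    (X : Finset α) (R : Finset ℕ) :
    (bd T J (zs T J X φ ow R)).card ≤ ∑ c ∈ R, ((be T X φ ow c).card + 1) := by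
  have hsub : bd T J (zs T J X φ ow R) ⊆
      R.biUnion fun c => (insert 0 (be T X φ ow c)).image fun a => (c, a) := by
    rintro ⟨c, a⟩ hm
    rw [bd, mem_filter, mem_atoms] at hm
    obtain ⟨⟨hc, ha⟩, hm⟩ := hm
    simp only at hc ha hm
    rw [mem_biUnion]
    rcases hm with ⟨h0, hz⟩ | ⟨hpos, hz⟩
    · exact ⟨c, (mem_zs.1 hz).2.1, mem_image.2 ⟨a, by rw [h0]; exact mem_insert_self _ _, rfl⟩⟩
    · rw [mem_zs, mem_zs] at hz
      have hpa := (hp c hc a hpos ha).trans ha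
      have hR : c ∈ R := by
        by_contra hR
        exact hz ⟨fun h => absurd h.2.1 hR, fun h => absurd h.2.1 hR⟩
      refine ⟨c, hR, mem_image.2 ⟨a, mem_insert_of_mem (mem_filter.2 ⟨mem_range.2 ha, hpos, ?_⟩),
        rfl⟩⟩
      intro hi
      exact hz ⟨fun h => ⟨⟨hc, hpa⟩, hR, fun h' => h.2.2 (hi.2 h')⟩,
        fun h => ⟨⟨hc, ha⟩, hR, fun h' => h.2.2 (hi.1 h')⟩⟩
  refine (card_le_card hsub).trans (card_biUnion_le.trans (sum_le_sum fun c _ => ?_))
  exact card_image_le.trans (card_insert_le _ _)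

/-- Few summands are large. -/
lemma heavy_le (J q : ℕ) (f : ℕ → ℕ) (hpos : 0 < ∑ c ∈ range J, f c) :
    2 * ((range J).filter fun c => ¬ q * f c ≤ 2 * ∑ c ∈ range J, f c).card ≤ q := by
  set B := ∑ c ∈ range J, f c with hB
  set Hv := (range J).filter fun c => ¬ q * f c ≤ 2 * B
  have h1 : Hv.card * (2 * B) ≤ ∑ c ∈ Hv, q * f c := by
    rw [← smul_eq_mul]
    exact card_nsmul_le_sum _ _ _ fun c hc => (not_le.1 (mem_filter.1 hc).2).le
  have h2 : ∑ c ∈ Hv, q * f c ≤ q * B := by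
    rw [← mul_sum]
    exact Nat.mul_le_mul_left _ (sum_le_sum_of_subset (filter_subset _ _))
  have h3 : 2 * Hv.card * B ≤ q * B := by
    calc 2 * Hv.card * B = Hv.card * (2 * B) := by ring
      _ ≤ _ := h1.trans h2
  exact Nat.le_of_mul_le_mul_right h3 hpos

end HitAux

theorem exists_hit {β : Type} (S : Finset β) (J s h : ℕ) (H : β → Finset ℕ) (L : Finset ℕ)
    (hL : L ⊆ range J) (hH : ∀ u ∈ S, H u ⊆ L ∧ h ≤ (H u).card) (hJ : 0 < J)
    (hs : (S.card : ℝ) * Real.exp (-((h : ℝ) * s / J)) < 1) :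
    ∃ R ⊆ L, R.card ≤ s ∧ ∀ u ∈ S, ∃ c ∈ R, c ∈ H u := by
  have hne : (Fintype.piFinset fun _ : Fin s => range J).Nonempty :=
    ⟨fun _ => 0, Fintype.mem_piFinset.2 fun _ => mem_range.2 hJ⟩
  have h1 := union_le (Fintype.piFinset fun _ : Fin s => range J) S
    (fun u x => ∀ i, x i ∉ H u) (fun _ => Real.exp (-((h : ℝ) * s / J)))
    (fun u hu => by
      convert HitAux.miss_le J s h (H u) ((hH u hu).1.trans hL) (hH u hu).2 hJ)
    (fun x => ∃ u ∈ S, ∀ i, x i ∉ H u) (fun x _ hx => hx)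
  rw [sum_const, nsmul_eq_mul] at h1
  obtain ⟨x, -, hx⟩ := exists_good _ hne _ _ hs h1
  refine ⟨(univ.image x) ∩ L, inter_subset_right, ?_, fun u hu => ?_⟩
  · refine (card_le_card inter_subset_left).trans (card_image_le.trans ?_)
    simp
  · by_contra hc
    refine hx ⟨u, hu, fun i hi => hc ⟨x i, ?_, hi⟩⟩
    exact mem_inter.2 ⟨mem_image_of_mem _ (mem_univ i), (hH u hu).1 hi⟩

theorem choose_Z (hl : 1000 ≤ l)
    (hp : ∀ c < l ^ 68, ∀ j, 0 < j → j < (T c).N → (T c).par j < j)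
    (hφ : ∀ c < l ^ 68, ∀ u ∈ U, φ c u < (T c).N) (hU : U.card < 2 ^ l) {X : Finset α}
    (hX : X ⊆ U) (hne : X.Nonempty) :
    ∃ Z ⊆ atoms T (l ^ 68), X ⊆ QZ U φ (l ^ 68) Z ∧
      (∀ u ∈ QZ U φ (l ^ 68) Z, uns (l ^ 68) X φ ow u ≤ l ^ 61) ∧
      l ^ 61 * (bd T (l ^ 68) Z).card ≤ 6 * l ^ 8 * bb T (l ^ 68) X φ ow := by
  have hl0 : 0 < l := by omega
  have hsubQ : ∀ R : Finset ℕ, X ⊆ QZ U φ (l ^ 68) (HitAux.zs T (l ^ 68) X φ ow R) := by
    intro R u hu
    refine mem_filter.2 ⟨hX hu, fun c _ hz => ?_⟩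
    exact (HitAux.mem_zs.1 hz).2.2 ⟨u, hu, rfl⟩
  rcases le_or_gt (bb T (l ^ 68) X φ ow) (l ^ 61) with hb | hb
  · refine ⟨HitAux.zs T (l ^ 68) X φ ow ∅, filter_subset _ _, hsubQ _, fun u hu => ?_, ?_⟩
    · exact (HitAux.uns_le_bb hp hφ hX hne (mem_filter.1 hu).1).trans hb
    · have := HitAux.bd_zs (ow := ow) (φ := φ) hp X ∅
      rw [sum_empty, Nat.le_zero] at this
      rw [this, mul_zero]
      exact Nat.zero_le _
  · set B := bb T (l ^ 68) X φ ow with hB
    have hBe : B = ∑ c ∈ range (l ^ 68), (HitAux.be T X φ ow c).card := HitAux.bb_eq _ _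
    have hheavy := HitAux.heavy_le (l ^ 68) (l ^ 61) (fun c => (HitAux.be T X φ ow c).card)
      (by rw [← hBe]; omega)
    rw [← hBe] at hheavy
    set L := (range (l ^ 68)).filter fun c => l ^ 61 * (HitAux.be T X φ ow c).card ≤ 2 * B with hL
    set S := U.filter fun u => l ^ 61 < uns (l ^ 68) X φ ow u with hS
    set H : α → Finset ℕ := fun u => L.filter fun c => ¬ seen X (φ c) (ow c) (ow c (φ c u))
      with hH
    obtain ⟨R, hRL, hRc, hR⟩ := exists_hit S (l ^ 68) (2 * l ^ 8) ((l ^ 61 + 1) / 2) H L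
      (filter_subset _ _) (fun u hu => ⟨filter_subset _ _, by
        have h1 := (mem_filter.1 hu).2
        have h2 : uns (l ^ 68) X φ ow u ≤ (H u).card + ((range (l ^ 68)).filter fun c =>
            ¬ l ^ 61 * (HitAux.be T X φ ow c).card ≤ 2 * B).card := by
          refine le_trans (card_le_card ?_) (card_union_le _ _)
          intro c hc
          obtain ⟨hc1, hc2⟩ := mem_filter.1 hc
          by_cases h3 : l ^ 61 * (HitAux.be T X φ ow c).card ≤ 2 * B
          · exact mem_union_left _ (mem_filter.2 ⟨mem_filter.2 ⟨hc1, h3⟩, hc2⟩)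
          · exact mem_union_right _ (mem_filter.2 ⟨hc1, h3⟩)
        omega⟩) (pow_pos hl0 _) (by
        have hlR : (0 : ℝ) < l := by exact_mod_cast hl0
        have h1 : (S.card : ℝ) < Real.exp l := by
          have h2 : S.card < 2 ^ l := (card_le_card (filter_subset _ _)).trans_lt hU
          have h3 : (S.card : ℝ) < 2 ^ l := by exact_mod_cast h2
          exact h3.trans_le (two_pow_le_exp l)
        have h4 : (l : ℝ) ≤ (((l ^ 61 + 1) / 2 : ℕ) : ℝ) * ((2 * l ^ 8 : ℕ) : ℝ) /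
            ((l ^ 68 : ℕ) : ℝ) := by
          rw [le_div_iff₀ (by positivity)]
          have h5 : l ^ 61 ≤ 2 * ((l ^ 61 + 1) / 2) := by omega
          have h6 : l * l ^ 68 ≤ (l ^ 61 + 1) / 2 * (2 * l ^ 8) := by
            calc l * l ^ 68 = l ^ 61 * l ^ 8 := by ring
              _ ≤ 2 * ((l ^ 61 + 1) / 2) * l ^ 8 := Nat.mul_le_mul_right _ h5
              _ = _ := by ring
          exact_mod_cast h6
        have h7 := Real.exp_le_exp.2 (neg_le_neg h4)
        calc _ ≤ (S.card : ℝ) * Real.exp (-(l : ℝ)) :=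
              mul_le_mul_of_nonneg_left h7 (by positivity)
          _ < Real.exp l * Real.exp (-(l : ℝ)) := mul_lt_mul_of_pos_right h1 (Real.exp_pos _)
          _ = 1 := by rw [← Real.exp_add, add_neg_cancel, Real.exp_zero])
    refine ⟨HitAux.zs T (l ^ 68) X φ ow R, filter_subset _ _, hsubQ _, fun u hu => ?_, ?_⟩
    · by_contra hlt
      obtain ⟨hu1, hu2⟩ := mem_filter.1 hu
      obtain ⟨c, hcR, hcH⟩ := hR u (mem_filter.2 ⟨hu1, not_le.1 hlt⟩)
      obtain ⟨hcL, hcs⟩ := mem_filter.1 hcH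
      have hc := mem_range.1 (mem_filter.1 hcL).1
      exact hu2 c hc (HitAux.mem_zs.2 ⟨⟨hc, hφ c hc u hu1⟩, hcR, hcs⟩)
    · have h1 := HitAux.bd_zs (ow := ow) (φ := φ) hp X R
      have h2 : ∑ c ∈ R, l ^ 61 * ((HitAux.be T X φ ow c).card + 1) ≤ R.card * (3 * B) := by
        rw [← smul_eq_mul]
        refine sum_le_card_nsmul _ _ _ fun c hc => ?_
        have h3 := (mem_filter.1 (hRL hc)).2
        rw [mul_add, mul_one]
        omega
      calc _ ≤ l ^ 61 * ∑ c ∈ R, ((HitAux.be T X φ ow c).card + 1) := Nat.mul_le_mul_left _ h1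
        _ = _ := mul_sum _ _ _
        _ ≤ R.card * (3 * B) := h2
        _ ≤ 2 * l ^ 8 * (3 * B) := Nat.mul_le_mul_right _ hRc
        _ = 6 * l ^ 8 * B := by ring

end Pool.Agent.Lib.MP_f20cd2_co.PL
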