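import Pool.Agent.Lib.MP_f20cd2_co.PL.Eta

/-!
The lower bound for the Hall surplus (D5).
-/

set_option autoImplicit false
set_option linter.unusedSectionVars false

namespace Pool.Agent.Lib.MP_f20cd2_co.PL

open Finset
open Pool.Agent.Lib.MP_f20cd2_co.H83 (Conn Cells)
open scoped Classical

variable {α : Type} {l D b : ℕ} {T : ℕ → TD} {U : Finset α} {φ : ℕ → α → ℕ} {th : ℕ → ℕ}
  {sk z ow tp : ℕ → ℕ → ℕ}

namespace IneqAux

theorem sum_fib (N k : ℕ) (o : ℕ → ℕ) (ho : ∀ a < N, o a < k) (h : ℕ → ℝ) :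
    ∑ a ∈ range N, h a = ∑ i ∈ range k, ∑ a ∈ (range N).filter (fun a => o a = i), h a :=
  (sum_fiberwise_of_maps_to (fun a ha => mem_range.2 (ho a (mem_range.1 ha))) h).symm

/-- The inequality for one piece. -/
theorem piece (hF : Fl l D b T U φ th sk) (hP : Ps l T z ow tp) (hl : 1000 ≤ l) {c i : ℕ}
    (hc : c < l ^ 68) (hi : i < (T c).k) (f : ℕ → ℝ) (hf : ∀ a, 0 ≤ f a ∧ f a ≤ 1) (g : ℝ)
    (hg : g ≤ 0 ∨ ∃ a < (T c).N, ow c a = i ∧ g ≤ f a - f (z c i)) (S : ℕ → Prop) :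
    ((T c).n i : ℝ) * f (z c i) -
        ∑ a ∈ (range (T c).N).filter (fun a => ow c a = i), (sk c a : ℝ) * f a +
        (l : ℝ) ^ 6 * b / 4 * g -
        1 / 2 / (l : ℝ) ^ 9 * ((l : ℝ) ^ 6 * b) * tin (T c).N (T c).par (ow c) f i +
        (l : ℝ) ^ 6 * b / 8 * (if S i ∧ f (z c i) ≤ 1 / 2 then 1 else 0) ≤
      (if S i then ((T c).n i : ℝ) - skel (T c).N (sk c) (ow c) i else 0) +
        9 / 4 * ((l : ℝ) ^ 6 * b) * ∑ a ∈ (range (T c).N).filter (fun a => ow c a = i),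
          (if ¬ S (ow c a) then f a else 0) := by
  have hok := hF.ok c hc
  obtain ⟨hz, hoz⟩ := hP.ctr c hc i hi
  have hl' : (1000 : ℝ) ≤ l := by exact_mod_cast hl
  set m : ℝ := (l : ℝ) ^ 6 * b with hm
  set s : ℝ := (skel (T c).N (sk c) (ow c) i : ℝ) with hs
  set t : ℝ := tin (T c).N (T c).par (ow c) f i with ht
  set I := (range (T c).N).filter (fun a => ow c a = i) with hI
  have hm0 : 0 ≤ m := by positivity
  have hs0 : 0 ≤ s := Nat.cast_nonneg _
  have ht0 : 0 ≤ t := tin_nonneg _ _ _ _ _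
  have hsm : (l : ℝ) ^ 10 * s ≤ m := by
    have := hF.skel_le hP hc i
    rw [hm, hs]
    exact_mod_cast this
  have hlo : m ≤ (T c).n i := by
    have := hok.nlo i hi
    rw [hm]
    exact_mod_cast this
  have hhi : ((T c).n i : ℝ) ≤ 2 * m := by
    have := hok.nhi i hi
    rw [hm]
    exact_mod_cast this
  have hl9 : (1 : ℝ) ≤ (l : ℝ) ^ 9 := one_le_pow₀ (by linarith)
  have hs4 : 4 * (l : ℝ) ^ 9 * s ≤ m := by
    refine le_trans (mul_le_mul_of_nonneg_right ?_ hs0) hsm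
    rw [pow_succ (l : ℝ) 9]
    nlinarith
  have hs2 : 2 * s ≤ 1 / 2 / (l : ℝ) ^ 9 * m := by
    rw [div_mul_eq_mul_div, le_div_iff₀ (by positivity)]
    linarith
  have hs3 : s ≤ m / 4 := by nlinarith
  have hsum : s * f (z c i) - 2 * s * t ≤ ∑ a ∈ I, (sk c a : ℝ) * f a := by
    have e : s * f (z c i) - 2 * s * t = ∑ a ∈ I, (sk c a : ℝ) * (f (z c i) - 2 * t) := by
      rw [← sum_mul, hs, skel, Nat.cast_sum]
      ring
    rw [e]
    refine sum_le_sum fun a ha => mul_le_mul_of_nonneg_left ?_ (Nat.cast_nonneg _)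
    obtain ⟨ha1, ha2⟩ := mem_filter.1 ha
    have h1 := le_tin hok.pt (hP.cut c hc) f hz (mem_range.1 ha1) (hoz.trans ha2.symm)
    rw [hoz] at h1
    linarith [le_abs_self (f (z c i) - f a)]
  have h2 := mul_le_mul_of_nonneg_right hs2 ht0
  obtain ⟨hz0, hz1⟩ := hf (z c i)
  by_cases hS : S i
  · have e0 : 0 ≤ ∑ a ∈ I, (if ¬ S (ow c a) then f a else 0) :=
      sum_nonneg fun a _ => by
        split_ifs
        · exact le_rfl
        · exact (hf a).1
    have e1 : g ≤ 1 - f (z c i) := by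
      rcases hg with h | ⟨a, -, -, h⟩
      · linarith
      · linarith [(hf a).2]
    have e2 : (if S i ∧ f (z c i) ≤ 1 / 2 then (1 : ℝ) else 0) ≤ 2 * (1 - f (z c i)) := by
      split_ifs with h
      · linarith [h.2]
      · linarith
    have e3 := mul_le_mul_of_nonneg_left e1 (by positivity : 0 ≤ m / 4)
    have e4 := mul_le_mul_of_nonneg_left e2 (by positivity : 0 ≤ m / 8)
    have e5 := mul_le_mul_of_nonneg_right (by linarith : m / 2 ≤ (T c).n i - s)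
      (by linarith : 0 ≤ 1 - f (z c i))
    have e6 := mul_nonneg hm0 e0
    rw [if_pos hS]
    linarith
  · have e0 : ∑ a ∈ I, (if ¬ S (ow c a) then f a else 0) = ∑ a ∈ I, f a :=
      sum_congr rfl fun a ha => by rw [(mem_filter.1 ha).2, if_pos hS]
    have e1 : ∀ a < (T c).N, ow c a = i → f a ≤ ∑ a ∈ I, f a := fun a h1 h2 =>
      single_le_sum (f := f) (fun a _ => (hf a).1) (mem_filter.2 ⟨mem_range.2 h1, h2⟩)
    have e2 := e1 _ hz hoz
    have e3 : g ≤ ∑ a ∈ I, f a := by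
      rcases hg with h | ⟨a, h1, h2, h⟩
      · linarith
      · linarith [e1 a h1 h2]
    have e4 := mul_le_mul_of_nonneg_left e3 (by positivity : 0 ≤ m / 4)
    have e5 := mul_le_mul (by linarith : (T c).n i - s ≤ 2 * m) e2 hz0 (by positivity)
    rw [if_neg hS, if_neg fun h => hS h.1, e0]
    linarith

/-- The inequality for one tree. -/
theorem tree (hF : Fl l D b T U φ th sk) (hP : Ps l T z ow tp) (hl : 1000 ≤ l) {Q : Finset α}
    (hQ : Q ⊆ U) {c : ℕ} (hc : c < l ^ 68) (g : ℕ → ℝ)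
    (hg : ∀ i < (T c).k, g i ≤ 0 ∨ ∃ a < (T c).N, ow c a = i ∧
      g i ≤ share U Q (φ c) a - share U Q (φ c) (z c i)) (S : ℕ → Prop) :
    (T c).dev D (share U Q (φ c)) (z c) + (l : ℝ) ^ 6 * b / 4 * ∑ i ∈ range (T c).k, g i -
        1 / 2 / (l : ℝ) ^ 9 * ((l : ℝ) ^ 6 * b) * tau (T c).N (T c).par (share U Q (φ c)) +
        (l : ℝ) ^ 6 * b / 8 *
          (((range (T c).k).filter fun i => S i ∧ share U Q (φ c) (z c i) ≤ 1 / 2).card : ℝ) +
        (th c : ℝ) / D * Q.card ≤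
      ∑ i ∈ (range (T c).k).filter (fun i => S i),
          (((T c).n i : ℝ) - skel (T c).N (sk c) (ow c) i) +
        9 / 4 * ((l : ℝ) ^ 6 * b) *
          ∑ a ∈ (range (T c).N).filter (fun a => ¬ S (ow c a)), share U Q (φ c) a := by
  have hlt := (hP.cut c hc).lt
  have h1 := sum_le_sum fun i (hi : i ∈ range (T c).k) =>
    piece hF hP hl hc (mem_range.1 hi) (share U Q (φ c)) (share_mem hQ _) (g i)
      (hg i (mem_range.1 hi)) S
  rw [sum_add_distrib, sum_add_distrib, sum_sub_distrib, sum_add_distrib, sum_sub_distrib,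
    ← mul_sum, ← mul_sum, ← mul_sum, ← mul_sum, ← sum_fib _ _ _ hlt, ← sum_fib _ _ _ hlt] at h1
  have h2 := hF.share_sum hQ hc
  simp only [sub_mul, sum_sub_distrib] at h2
  have h3 := mul_le_mul_of_nonneg_left
    (sum_tin (T c).N (T c).k (T c).par (ow c) (share U Q (φ c)))
    (by positivity : 0 ≤ 1 / 2 / (l : ℝ) ^ 9 * ((l : ℝ) ^ 6 * b))
  rw [card_filter, sum_filter, sum_filter, TD.dev]
  push_cast
  linarith

end IneqAux

theorem hall_ineq (hF : Fl l D b T U φ th sk) (hP : Ps l T z ow tp) (hl : 1000 ≤ l)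
    {X Q : Finset α} (hX : X ⊆ Q) (hQ : Q ⊆ U)
    (hu : ∀ u ∈ Q \ X, uns (l ^ 68) X φ ow u ≤ l ^ 61) (g : ℕ → ℕ → ℝ)
    (hg : ∀ c < l ^ 68, ∀ i < (T c).k, g c i ≤ 0 ∨ ∃ a < (T c).N, ow c a = i ∧
      g c i ≤ share U Q (φ c) a - share U Q (φ c) (z c i)) :
    ∑ c ∈ range (l ^ 68), ((T c).dev D (share U Q (φ c)) (z c) +
        (l : ℝ) ^ 6 * b / 4 * ∑ i ∈ range (T c).k, g c i) -
      1 / 2 / (l : ℝ) ^ 9 * ((l : ℝ) ^ 6 * b) * tauQ T (l ^ 68) U Q φ +
      (l : ℝ) ^ 6 * b / 8 * VV T (l ^ 68) U X Q φ z ow + ((Q \ X).card : ℝ) / 2 + X.card ≤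
    ∑ c ∈ range (l ^ 68), ∑ i ∈ (range (T c).k).filter (fun i => seen X (φ c) (ow c) i),
      (((T c).n i : ℝ) - skel (T c).N (sk c) (ow c) i) := by
  have hl' : (1000 : ℝ) ≤ l := by exact_mod_cast hl
  have h1 := sum_le_sum fun c (hc : c ∈ range (l ^ 68)) =>
    IneqAux.tree hF hP hl hQ (mem_range.1 hc) (g c) (hg c (mem_range.1 hc))
      fun i => seen X (φ c) (ow c) i
  rw [sum_add_distrib, sum_add_distrib, sum_add_distrib, sum_sub_distrib, ← mul_sum, ← mul_sum,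
    ← mul_sum, ← sum_mul, ← sum_div] at h1
  have hD : (0 : ℝ) < D := by
    exact_mod_cast (hF.ok 0 (by positivity)).hD
  have h2 : (∑ c ∈ range (l ^ 68), (th c : ℝ)) / D = 1 := by
    rw [← Nat.cast_sum, hF.ths, div_self hD.ne']
  have h3 : (Q.card : ℝ) = (Q \ X).card + X.card := by
    exact_mod_cast (card_sdiff_add_card_eq_card hX).symm
  have h4 := hF.eta_le hl hX hQ hu
  have h5 : 4 * ((Q \ X).card : ℝ) / l ≤ 4 * (Q \ X).card / 1000 :=
    div_le_div_of_nonneg_left (by positivity) (by norm_num) hl'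
  have h6 : (0 : ℝ) ≤ (Q \ X).card := Nat.cast_nonneg _
  rw [h2, h3] at h1
  rw [eta] at h4
  rw [tauQ, VV, Nat.cast_sum]
  linarith


end Pool.Agent.Lib.MP_f20cd2_co.PL
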