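import Pool.Agent.Lib.MP_f20cd2_co.PL.Defs

/-!
The tree of atoms is cut into small pieces around the centres (C6).
-/

set_option autoImplicit false
set_option linter.unusedSectionVars false

namespace Pool.Agent.Lib.MP_f20cd2_co.PL

open Finset
open Pool.Agent.Lib.MP_f20cd2_co.H83 (Conn Cells)
open scoped Classical

namespace PiecesAux

/-- A centre or a neighbour of a centre. -/
def Mk (N : ℕ) (par : ℕ → ℕ) (k : ℕ) (z : ℕ → ℕ) (a : ℕ) : Prop :=
  ∃ i < k, z i = a ∨ adj N par a (z i)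

/-- The subtree of `a` contains a marked index. -/
def Dn (N : ℕ) (par e : ℕ → ℕ) (k : ℕ) (z : ℕ → ℕ) (a : ℕ) : Prop :=
  ∃ g, a ≤ g ∧ g < e a ∧ Mk N par k z g

lemma exists_rec (P : ℕ → Prop) (f par : ℕ → ℕ) :
    ∃ ow : ℕ → ℕ, ∀ a, ow a = if P a then f a else if par a < a then ow (par a) else 0 := by
  refine ⟨WellFounded.fix (C := fun _ => ℕ) (wellFounded_lt (α := ℕ))
    (fun a ih => if P a then f a else if h : par a < a then ih (par a) h else 0), fun a => ?_⟩
  rw [WellFounded.fix_eq]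
  by_cases h1 : P a
  · simp only [h1, if_true]
  · by_cases h2 : par a < a
    · simp only [h1, h2, if_false, if_true, dif_pos]
    · simp only [h1, h2, if_false, dif_neg, not_false_eq_true]

lemma exists_mo (N : ℕ) (par : ℕ → ℕ) (k : ℕ) (hk : 0 < k) (z : ℕ → ℕ)
    (hinj : ∀ i < k, ∀ j < k, z i = z j → i = j) :
    ∃ mo : ℕ → ℕ, (∀ a, mo a < k) ∧ (∀ i < k, mo (z i) = i) ∧
      ∀ a, Mk N par k z a → z (mo a) = a ∨ adj N par a (z (mo a)) := by
  have H : ∀ a, ∃ m, m < k ∧ (∀ i < k, z i = a → m = i) ∧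
      (Mk N par k z a → z m = a ∨ adj N par a (z m)) := by
    intro a
    by_cases h1 : ∃ i < k, z i = a
    · obtain ⟨i, hi, hia⟩ := h1
      exact ⟨i, hi, fun j hj hja => hinj i hi j hj (hia.trans hja.symm), fun _ => Or.inl hia⟩
    · by_cases h2 : Mk N par k z a
      · obtain ⟨i, hi, hia⟩ := h2
        exact ⟨i, hi, fun j hj hja => (h1 ⟨j, hj, hja⟩).elim, fun _ => hia⟩
      · exact ⟨0, hk, fun j hj hja => (h1 ⟨j, hj, hja⟩).elim, fun h => (h2 h).elim⟩
  choose mo h1 h2 h3 using H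
  exact ⟨mo, h1, fun i hi => h2 (z i) i hi rfl, h3⟩

lemma exists_fm (N : ℕ) (par e : ℕ → ℕ) (k : ℕ) (z : ℕ → ℕ) :
    ∃ fm : ℕ → ℕ, ∀ a, Dn N par e k z a → a ≤ fm a ∧ fm a < e a ∧ Mk N par k z (fm a) ∧
      ∀ g, a ≤ g → g < fm a → ¬ Mk N par k z g := by
  have H : ∀ a, ∃ m, Dn N par e k z a → a ≤ m ∧ m < e a ∧ Mk N par k z m ∧
      ∀ g, a ≤ g → g < m → ¬ Mk N par k z g := by
    intro a
    by_cases h : Dn N par e k z a
    · refine ⟨Nat.find h, fun _ => ⟨(Nat.find_spec h).1, (Nat.find_spec h).2.1,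
        (Nat.find_spec h).2.2, fun g hg hlt hm => ?_⟩⟩
      exact Nat.find_min h hlt ⟨hg, hlt.trans (Nat.find_spec h).2.1, hm⟩
    · exact ⟨0, fun h' => (h h').elim⟩
  choose fm hfm using H
  exact ⟨fm, hfm⟩

/-- The data of the construction. -/
structure St (N Δ : ℕ) (par e : ℕ → ℕ) (k r : ℕ) (z mo fm ow : ℕ → ℕ) : Prop where
  pt : PT N par e Δ
  hk : 0 < k
  hz : ∀ i < k, z i < N
  gap : ∀ y, y + r ≤ N → ∃ i < k, y ≤ z i ∧ z i < y + r
  mlt : ∀ a, mo a < k
  mz : ∀ i < k, mo (z i) = i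
  mm : ∀ a, Mk N par k z a → z (mo a) = a ∨ adj N par a (z (mo a))
  fs : ∀ a, Dn N par e k z a → a ≤ fm a ∧ fm a < e a ∧ Mk N par k z (fm a) ∧
      ∀ g, a ≤ g → g < fm a → ¬ Mk N par k z g
  eq : ∀ a, ow a = if Dn N par e k z a then mo (fm a) else if par a < a then ow (par a) else 0

namespace St

variable {N Δ : ℕ} {par e : ℕ → ℕ} {k r : ℕ} {z mo fm ow : ℕ → ℕ}

lemma mk_z {i : ℕ} (hi : i < k) : Mk N par k z (z i) := ⟨i, hi, Or.inl rfl⟩

lemma ow_dn (S : St N Δ par e k r z mo fm ow) {a : ℕ} (h : Dn N par e k z a) :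
    ow a = mo (fm a) := by
  rw [S.eq a, if_pos h]

lemma dn_zero (S : St N Δ par e k r z mo fm ow) : Dn N par e k z 0 :=
  ⟨z 0, Nat.zero_le _, by rw [S.pt.top]; exact S.hz 0 S.hk, mk_z S.hk⟩

lemma ow_up (S : St N Δ par e k r z mo fm ow) {a : ℕ} (ha : a < N) (h : ¬ Dn N par e k z a) :
    0 < a ∧ ow (par a) = ow a := by
  have h0 : 0 < a := by
    rcases Nat.eq_zero_or_pos a with rfl | h0
    · exact (h S.dn_zero).elim
    · exact h0
  refine ⟨h0, ?_⟩
  rw [S.eq a, if_neg h, if_pos (S.pt.plt a h0 ha).1]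

lemma ow_lt (S : St N Δ par e k r z mo fm ow) (a : ℕ) : ow a < k := by
  induction a using Nat.strong_induction_on with
  | _ a ih =>
    rw [S.eq a]
    split_ifs with h1 h2
    · exact S.mlt _
    · exact ih _ h2
    · exact S.hk

lemma dn_of_mk (S : St N Δ par e k r z mo fm ow) {a : ℕ} (ha : a < N) (h : Mk N par k z a) :
    Dn N par e k z a := ⟨a, le_rfl, (S.pt.ele a ha).1, h⟩

lemma fm_eq (S : St N Δ par e k r z mo fm ow) {a p : ℕ} (h1 : a ≤ p) (h2 : p < e a)
    (h3 : Mk N par k z p) (h4 : ∀ g, a ≤ g → g < p → ¬ Mk N par k z g) :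
    Dn N par e k z a ∧ fm a = p := by
  have hd : Dn N par e k z a := ⟨p, h1, h2, h3⟩
  obtain ⟨f1, _, f3, f4⟩ := S.fs a hd
  refine ⟨hd, ?_⟩
  rcases lt_trichotomy (fm a) p with h | h | h
  · exact (h4 _ f1 h f3).elim
  · exact h
  · exact (f4 _ h1 h h3).elim

lemma ow_mk (S : St N Δ par e k r z mo fm ow) {a : ℕ} (ha : a < N) (h : Mk N par k z a) :
    ow a = mo a := by
  obtain ⟨hd, hf⟩ := S.fm_eq le_rfl (S.pt.ele a ha).1 h (fun g h1 h2 => by omega)
  rw [S.ow_dn hd, hf]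

lemma ow_z (S : St N Δ par e k r z mo fm ow) {i : ℕ} (hi : i < k) : ow (z i) = i := by
  rw [S.ow_mk (S.hz i hi) (mk_z hi), S.mz i hi]

lemma mk_par (S : St N Δ par e k r z mo fm ow) {i : ℕ} (hi : i < k) (h0 : 0 < z i) :
    Mk N par k z (par (z i)) := by
  have hz := S.hz i hi
  have hp := (S.pt.plt _ h0 hz).1
  exact ⟨i, hi, Or.inr ⟨by omega, hz, Or.inr ⟨h0, rfl⟩⟩⟩

/-- The three kinds of members whose subtree contains a marked index. -/
lemma kinds (S : St N Δ par e k r z mo fm ow) {a : ℕ} (ha : a < N) (h : Dn N par e k z a) :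
    a = z (ow a) ∨ (0 < a ∧ par a = z (ow a)) ∨
      (0 < z (ow a) ∧ fm a = par (z (ow a)) ∧ mo (fm a) = ow a) := by
  obtain ⟨f1, f2, f3, f4⟩ := S.fs a h
  have ho := S.ow_dn h
  have hi := S.ow_lt a
  have hN : fm a < N := lt_of_lt_of_le f2 (S.pt.ele a ha).2
  have hm := S.mm _ f3
  rw [← ho] at hm
  rcases hm with hm | ⟨_, _, ⟨g0, hm⟩ | ⟨g0, hm⟩⟩
  · rcases eq_or_lt_of_le f1 with h1 | h1
    · left
      rw [hm]
      exact h1
    · exfalso
      have g0 : 0 < fm a := by omega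
      refine f4 (par (fm a)) (S.pt.sub a ha _ h1 f2).1 (S.pt.plt _ g0 hN).1 ?_
      have := S.mk_par hi (by rw [hm]; exact g0)
      rwa [hm] at this
  · rcases eq_or_lt_of_le f1 with h1 | h1
    · right
      left
      rw [← h1] at g0 hm
      exact ⟨g0, hm⟩
    · exfalso
      refine f4 (par (fm a)) (S.pt.sub a ha _ h1 f2).1 (S.pt.plt _ g0 hN).1 ?_
      rw [hm]
      exact mk_z hi
  · right
    right
    exact ⟨g0, hm.symm, ho.symm⟩

/-- A member that is not the least one has its parent in the same piece. -/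
lemma step (S : St N Δ par e k r z mo fm ow) {a m : ℕ} (ha : a < N) (hma : m < a)
    (hm : Dn N par e k z m) (ho : ow m = ow a) : ow (par a) = ow a := by
  have h0 : 0 < a := by omega
  have hmN : m < N := by omega
  have hi := S.ow_lt a
  by_cases hd : Dn N par e k z a
  swap
  · exact (S.ow_up ha hd).2
  have km := S.kinds hmN hm
  rw [ho] at km
  have hle : a ≤ z (ow a) → 0 < z (ow a) ∧ fm m = par (z (ow a)) ∧ mo (fm m) = ow a := by
    intro hle
    rcases km with h1 | ⟨h1, h2⟩ | h1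
    · omega
    · have := (S.pt.plt m h1 hmN).1
      omega
    · exact h1
  rcases S.kinds ha hd with h1 | ⟨_, h2⟩ | ⟨h1, h2, h3⟩
  · obtain ⟨g1, g2, g3⟩ := hle h1.le
    have hp : par (z (ow a)) < N := by
      have := (S.pt.plt _ g1 (S.hz _ hi)).1
      have := S.hz _ hi
      omega
    have := S.ow_mk hp (S.mk_par hi g1)
    rw [← g2, g3, g2, ← h1] at this
    exact this
  · rw [h2]
    exact S.ow_z hi
  · obtain ⟨f1, f2, f3, _⟩ := S.fs a hd
    have hp := (S.pt.plt _ h1 (S.hz _ hi)).1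
    obtain ⟨_, g2, _⟩ := hle (by omega)
    obtain ⟨_, m2, _, m4⟩ := S.fs m hm
    have hfm : fm m = fm a := g2.trans h2.symm
    obtain ⟨p1, p2⟩ := S.pt.plt a h0 ha
    have q1 := (S.pt.sub m hmN a hma (by omega)).1
    have q2 := (S.pt.sub (par a) (by omega) a p1 p2).2
    obtain ⟨hb, hf⟩ := S.fm_eq (a := par a) (p := fm a) (by omega) (by omega) f3
      (fun g g1 g2 => m4 g (by omega) (by omega))
    rw [S.ow_dn hb, hf, h3]

/-- Every other member lies in a short subtree below a member of the first kind. -/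
lemma root_up (S : St N Δ par e k r z mo fm ow) (u : ℕ) (hu : u < N) (h : ¬ Dn N par e k z u) :
    ∃ c, c < N ∧ 0 < c ∧ ¬ Dn N par e k z c ∧ Dn N par e k z (par c) ∧ ow (par c) = ow u ∧
      c ≤ u ∧ u < e c := by
  induction u using Nat.strong_induction_on with
  | _ u ih =>
    obtain ⟨h0, ho⟩ := S.ow_up hu h
    obtain ⟨p1, p2⟩ := S.pt.plt u h0 hu
    by_cases hd : Dn N par e k z (par u)
    · exact ⟨u, hu, h0, h, hd, ho, le_rfl, (S.pt.ele u hu).1⟩
    · obtain ⟨c, c1, c2, c3, c4, c5, c6, c7⟩ := ih (par u) p1 (by omega) hd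
      refine ⟨c, c1, c2, c3, c4, c5.trans ho, by omega, ?_⟩
      rcases eq_or_lt_of_le c6 with h1 | h1
      · rw [h1]
        exact p2
      · have := (S.pt.sub c c1 _ h1 c7).2
        omega

lemma short (S : St N Δ par e k r z mo fm ow) {c : ℕ} (hc : c < N) (h : ¬ Dn N par e k z c) :
    e c < c + r := by
  by_contra hcon
  have he := (S.pt.ele c hc).2
  obtain ⟨i, hi, h1, h2⟩ := S.gap c (by omega)
  exact h ⟨z i, h1, by omega, mk_z hi⟩

lemma card_dn (S : St N Δ par e k r z mo fm ow) (i : ℕ) :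
    ((range N).filter fun a => Dn N par e k z a ∧ ow a = i).card ≤ Δ + 2 + r := by
  have hsub : ((range N).filter fun a => Dn N par e k z a ∧ ow a = i) ⊆
      ({z i} ∪ (range N).filter fun j => 0 < j ∧ par j = z i) ∪
        Icc (par (z i) - r) (par (z i)) := by
    intro a ha
    obtain ⟨ha, hd, ho⟩ := mem_filter.1 ha
    have haN := mem_range.1 ha
    have hk := S.kinds haN hd
    rw [ho] at hk
    rcases hk with h1 | h1 | ⟨_, h2, _⟩
    · exact mem_union_left _ (mem_union_left _ (mem_singleton.2 h1))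
    · exact mem_union_left _ (mem_union_right _ (mem_filter.2 ⟨ha, h1⟩))
    · obtain ⟨f1, f2, _, f4⟩ := S.fs a hd
      have he := (S.pt.ele a haN).2
      refine mem_union_right _ (mem_Icc.2 ⟨?_, by omega⟩)
      by_contra hcon
      obtain ⟨j, hj, g1, g2⟩ := S.gap a (by omega)
      exact f4 (z j) g1 (by omega) (mk_z hj)
  have h1 := card_le_card hsub
  have h2 := card_union_le ({z i} ∪ (range N).filter fun j => 0 < j ∧ par j = z i)
    (Icc (par (z i) - r) (par (z i)))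
  have h3 := card_union_le ({z i} : Finset ℕ) ((range N).filter fun j => 0 < j ∧ par j = z i)
  have h4 := S.pt.deg (z i)
  rw [card_singleton] at h3
  rw [Nat.card_Icc] at h2
  omega

lemma card_fib (S : St N Δ par e k r z mo fm ow) (i : ℕ) :
    ((range N).filter fun a => ow a = i).card ≤ (Δ + 2 + r) * (1 + Δ * r) := by
  have hD := S.card_dn i
  generalize hA : ((range N).filter fun a => Dn N par e k z a ∧ ow a = i) = A at hD
  have hsub : ((range N).filter fun a => ow a = i) ⊆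
      A ∪ A.biUnion fun d => ((range N).filter fun j => 0 < j ∧ par j = d).biUnion
        fun c => Ico c (c + r) := by
    intro a ha
    obtain ⟨ha, ho⟩ := mem_filter.1 ha
    have haN := mem_range.1 ha
    by_cases hd : Dn N par e k z a
    · refine mem_union_left _ ?_
      rw [← hA]
      exact mem_filter.2 ⟨ha, hd, ho⟩
    · obtain ⟨c, c1, c2, c3, c4, c5, c6, c7⟩ := S.root_up a haN hd
      have hs := S.short c1 c3
      have hp := (S.pt.plt c c2 c1).1
      refine mem_union_right _ (mem_biUnion.2 ⟨par c, ?_, mem_biUnion.2 ⟨c, ?_, ?_⟩⟩)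
      · rw [← hA]
        exact mem_filter.2 ⟨mem_range.2 (by omega), c4, c5.trans ho⟩
      · exact mem_filter.2 ⟨mem_range.2 c1, c2, rfl⟩
      · exact mem_Ico.2 ⟨c6, by omega⟩
  have h1 : (A.biUnion fun d => ((range N).filter fun j => 0 < j ∧ par j = d).biUnion
      fun c => Ico c (c + r)).card ≤ A.card * (Δ * r) := by
    refine card_biUnion_le_card_mul _ _ _ fun d _ => ?_
    refine (card_biUnion_le_card_mul _ _ r fun c _ => ?_).trans
      (Nat.mul_le_mul_right _ (S.pt.deg d))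
    rw [Nat.card_Ico]
    omega
  calc ((range N).filter fun a => ow a = i).card
      ≤ A.card + A.card * (Δ * r) :=
        (card_le_card hsub).trans ((card_union_le _ _).trans (Nat.add_le_add_left h1 _))
    _ = A.card * (1 + Δ * r) := by ring
    _ ≤ (Δ + 2 + r) * (1 + Δ * r) := Nat.mul_le_mul_right _ hD

lemma exists_tp (S : St N Δ par e k r z mo fm ow) : ∃ tp : ℕ → ℕ, Cut N par k ow tp := by
  have H : ∀ i, ∃ t, i < k → t < N ∧ ow t = i ∧ ∀ a < t, ow a ≠ i := by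
    intro i
    by_cases hi : i < k
    · have hex : ∃ t, ow t = i := ⟨z i, S.ow_z hi⟩
      refine ⟨Nat.find hex, fun _ => ⟨?_, Nat.find_spec hex, fun a ha => Nat.find_min hex ha⟩⟩
      exact lt_of_le_of_lt (Nat.find_min' hex (S.ow_z hi)) (S.hz i hi)
    · exact ⟨0, fun h => (hi h).elim⟩
  choose tp htp using H
  refine ⟨tp, fun a _ => S.ow_lt a, fun a ha hne => ?_, fun i hi => ⟨(htp i hi).1, (htp i hi).2.1⟩⟩
  obtain ⟨t1, t2, t3⟩ := htp (ow a) (S.ow_lt a)
  have hlt : tp (ow a) < a := by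
    rcases lt_trichotomy (tp (ow a)) a with h | h | h
    · exact h
    · exact (hne h.symm).elim
    · exact (t3 a h rfl).elim
  refine ⟨by omega, S.step ha hlt ?_ t2⟩
  by_contra hd
  obtain ⟨g0, g1⟩ := S.ow_up t1 hd
  exact t3 _ (S.pt.plt _ g0 t1).1 (g1.trans t2)

end St

end PiecesAux

theorem exists_pieces {N Δ : ℕ} {par e : ℕ → ℕ} (h : PT N par e Δ) (k r : ℕ) (hk : 0 < k)
    (z : ℕ → ℕ) (hz : ∀ i < k, z i < N) (hinj : ∀ i < k, ∀ j < k, z i = z j → i = j)
    (hgap : ∀ y, y + r ≤ N → ∃ i < k, y ≤ z i ∧ z i < y + r) :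
    ∃ ow tp : ℕ → ℕ, Cut N par k ow tp ∧ (∀ i < k, ow (z i) = i) ∧
      (∀ i, ((range N).filter fun a => ow a = i).card ≤ (Δ + 2 + r) * (1 + Δ * r)) ∧
      ∀ a < N, ∀ i < k, adj N par a (z i) → (∀ j < k, z j ≠ a) →
        (∀ j < k, j ≠ i → ¬ adj N par a (z j)) → ow a = i := by
  obtain ⟨mo, m1, m2, m3⟩ := PiecesAux.exists_mo N par k hk z hinj
  obtain ⟨fm, hfm⟩ := PiecesAux.exists_fm N par e k z
  obtain ⟨ow, how⟩ := PiecesAux.exists_rec (PiecesAux.Dn N par e k z) (fun a => mo (fm a)) par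
  have S : PiecesAux.St N Δ par e k r z mo fm ow := ⟨h, hk, hz, hgap, m1, m2, m3, hfm, how⟩
  obtain ⟨tp, htp⟩ := S.exists_tp
  refine ⟨ow, tp, htp, fun i hi => S.ow_z hi, S.card_fib, fun a ha i hi h1 h2 h3 => ?_⟩
  have hm : PiecesAux.Mk N par k z a := ⟨i, hi, Or.inr h1⟩
  rw [S.ow_mk ha hm]
  rcases m3 a hm with h4 | h4
  · exact (h2 _ (m1 a) h4).elim
  · by_contra hne
    exact h3 _ (m1 a) hne h4

end Pool.Agent.Lib.MP_f20cd2_co.PL
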