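import Pool.Agent.Lib.MP_f20cd2_co.PL.GoodX
import Pool.Agent.Lib.MP_f20cd2_co.PL.Ineq
import Pool.Agent.Lib.MP_f20cd2_co.PL.Bdry
import Pool.Agent.Lib.MP_f20cd2_co.PL.Hit
import Pool.Agent.Lib.MP_f20cd2_co.PL.Pieces
import Pool.Agent.Lib.MP_f20cd2_co.PL.Hall

/-!
The core lemma (Part D).
-/

set_option autoImplicit false
set_option linter.unusedSectionVars false

namespace Pool.Agent.Lib.MP_f20cd2_co.PL

open Finset
open Pool.Agent.Lib.MP_f20cd2_co.H83 (Conn Cells)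
open scoped Classical

variable {α : Type} {l D b : ℕ} {T : ℕ → TD} {U : Finset α} {φ : ℕ → α → ℕ} {th : ℕ → ℕ}
  {sk z ow tp : ℕ → ℕ → ℕ}

namespace CoreAux

lemma size_le (hl : 1000 ≤ l) :
    (5 * l ^ 2 + 2 + 4 * l ^ 6) * (1 + 5 * l ^ 2 * (4 * l ^ 6)) ≤ l ^ 15 := by
  have h1 : 1 ≤ l := by omega
  have a1 : 5 * l ^ 2 ≤ l ^ 6 := by
    have := absorb hl 5 2 4 (by norm_num)
    simpa using this
  have a2 : 1 ≤ l ^ 6 := Nat.one_le_pow _ _ h1
  have a3 : 1 ≤ l ^ 8 := Nat.one_le_pow _ _ h1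
  have a4 : 5 * l ^ 2 + 2 + 4 * l ^ 6 ≤ 7 * l ^ 6 := by omega
  have a5 : 1 + 5 * l ^ 2 * (4 * l ^ 6) ≤ 21 * l ^ 8 := by
    have : 5 * l ^ 2 * (4 * l ^ 6) = 20 * l ^ 8 := by ring
    omega
  calc _ ≤ (7 * l ^ 6) * (21 * l ^ 8) := Nat.mul_le_mul a4 a5
    _ = 147 * l ^ 14 := by ring
    _ ≤ l ^ 15 := absorb hl 147 14 1 (by norm_num)

lemma final_ineq {L m B d S P V Y X τ : ℝ} (hL : 1000 ≤ L) (hm : 0 < m)
    (h1 : 3 / 2 / L ^ 9 * m * τ - m * L ^ 25 * d ≤ P)
    (h2 : P - 1 / 2 / L ^ 9 * m * τ + m / 8 * V + Y / 2 + X ≤ S)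
    (h3 : m * B ≤ L ^ 27 * (m / 8 * V + Y / 2 + 1 / L ^ 9 * m * τ))
    (h4 : L ^ 61 * d ≤ 6 * L ^ 8 * B) (hB : 0 ≤ B) : X ≤ S := by
  have hL0 : 0 < L := by linarith
  have h5 : L ^ 52 * d ≤ B := by
    have e : L ^ 61 * d = L ^ 9 * (L ^ 52 * d) := by ring
    have e2 : 6 * L ^ 8 * B ≤ L ^ 9 * B := by
      have : L ^ 9 * B = L * (L ^ 8 * B) := by ring
      rw [this, mul_assoc]
      exact mul_le_mul_of_nonneg_right (by linarith) (by positivity)
    exact le_of_mul_le_mul_left (by rw [← e]; exact h4.trans e2) (by positivity : 0 < L ^ 9)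
  have h6 : L ^ 27 * (m * L ^ 25 * d) ≤ L ^ 27 * (m / 8 * V + Y / 2 + 1 / L ^ 9 * m * τ) := by
    refine le_trans ?_ h3
    have e : L ^ 27 * (m * L ^ 25 * d) = m * (L ^ 52 * d) := by ring
    rw [e]
    exact mul_le_mul_of_nonneg_left h5 hm.le
  have h7 := le_of_mul_le_mul_left h6 (by positivity : 0 < L ^ 27)
  have e3 : 3 / 2 / L ^ 9 * m * τ = 1 / L ^ 9 * m * τ + 1 / 2 / L ^ 9 * m * τ := by ring
  linarith

end CoreAux

theorem core (hF : Fl l D b T U φ th sk) (hl : 1000 ≤ l)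
    (hN : ∑ c ∈ range (l ^ 68), (T c).N < 2 ^ l) (hU : D < 2 ^ l) :
    ∃ (ow tp : ℕ → ℕ → ℕ) (ψ : α → ℕ),
      (∀ c < l ^ 68, Cut (T c).N (T c).par (T c).k (ow c) (tp c)) ∧ (∀ u ∈ U, ψ u < l ^ 68) ∧
      ∀ c < l ^ 68, ∀ i < (T c).k,
        (U.filter fun u => ψ u = c ∧ ow c (φ c u) = i).card + skel (T c).N (sk c) (ow c) i =
          (T c).n i := by
  have hQU : ∀ Z, QZ U φ (l ^ 68) Z ⊆ U := fun Z => filter_subset _ _
  have hQ0 : QZ U φ (l ^ 68) ∅ = U := by
    unfold QZ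
    exact filter_true_of_mem fun u _ c _ => notMem_empty _
  obtain ⟨x, hx, hgood⟩ := good_x l D b hl T hF.ok hN
    (fun Z c => share U (QZ U φ (l ^ 68) Z) (φ c)) (fun Z c a => share_mem (hQU Z) _ _)
    (fun c hc a ha => by rw [hQ0]; exact hF.share_univ hc ha)
  have hpc : ∀ c, ∃ o t : ℕ → ℕ, c < l ^ 68 → (Cut (T c).N (T c).par (T c).k o t ∧
      (∀ i < (T c).k, o ((T c).zc D (x c) i) = i) ∧
      (∀ i, ((range (T c).N).filter fun a => o a = i).card ≤ l ^ 15) ∧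
      ∀ a < (T c).N, ∀ i < (T c).k, adj (T c).N (T c).par a ((T c).zc D (x c) i) →
        (∀ j < (T c).k, (T c).zc D (x c) j ≠ a) →
        (∀ j < (T c).k, j ≠ i → ¬ adj (T c).N (T c).par a ((T c).zc D (x c) j)) → o a = i) := by
    intro c
    by_cases hc : c < l ^ 68
    · have h := hF.ok c hc
      obtain ⟨o, t, h1, h2, h3, h4⟩ := exists_pieces h.pt (T c).k (4 * l ^ 6) h.k_pos
        ((T c).zc D (x c)) (fun i hi => (h.zc_meets (hx c hc) hi).1)
        (fun i hi j hj he => by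
          rcases lt_trichotomy i j with r | r | r
          · exact absurd he (h.zc_lt (hx c hc) r hj).ne
          · exact r
          · exact absurd he (h.zc_lt (hx c hc) r hi).ne')
        (fun y hy => h.gap (hx c hc) y hy)
      exact ⟨o, t, fun _ => ⟨h1, h2, fun i => (h3 i).trans (CoreAux.size_le hl), h4⟩⟩
    · exact ⟨id, id, fun h => absurd h hc⟩
  choose ow tp hpc using hpc
  have hP : Ps l T (fun c => (T c).zc D (x c)) ow tp :=
    ⟨fun c hc => (hpc c hc).1,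
      fun c hc i hi => ⟨((hF.ok c hc).zc_meets (hx c hc) hi).1, (hpc c hc).2.1 i hi⟩,
      fun c hc => (hpc c hc).2.2.1⟩
  have hl1 : 1 ≤ l := by omega
  have hJ : 0 < l ^ 68 := by positivity
  have hb : 0 < b := (hF.ok 0 hJ).hb
  have hsk : ∀ c < l ^ 68, ∀ i < (T c).k, skel (T c).N (sk c) (ow c) i ≤ (T c).n i := by
    intro c hc i hi
    have h1 := hF.skel_le hP hc i
    have h2 := (hF.ok c hc).nlo i hi
    have h3 : 1 ≤ l ^ 10 := Nat.one_le_pow _ _ hl1
    nlinarith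
  have hpar : ∀ c < l ^ 68, ∀ j, 0 < j → j < (T c).N → (T c).par j < j :=
    fun c hc j h0 hj => ((hF.ok c hc).pt.plt j h0 hj).1
  obtain ⟨ψ, hψ, hcap⟩ := hall_cap (β := (_ : ℕ) × ℕ) U
    ((range (l ^ 68)).sigma fun c => range (T c).k)
    (fun p => (T p.1).n p.2 - skel (T p.1).N (sk p.1) (ow p.1) p.2)
    (fun u p => ow p.1 (φ p.1 u) = p.2) (by
      intro X hX
      rcases X.eq_empty_or_nonempty with rfl | hne
      · simp
      obtain ⟨Z, hZ, hXQ, hun, hbd⟩ := choose_Z (ow := ow) hl hpar hF.lt (by rw [hF.card]; exact hU)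
        hX hne
      have hu : ∀ u ∈ QZ U φ (l ^ 68) Z \ X, uns (l ^ 68) X φ ow u ≤ l ^ 61 :=
        fun u hu => hun u (mem_sdiff.1 hu).1
      have h1 := hgood Z hZ
      have h2 := hall_ineq hF hP hl hXQ (hQU Z) hu
        (fun c i => (T c).gn D (share U (QZ U φ (l ^ 68) Z) (φ c)) (x c) i) (by
          intro c hc i hi
          rcases (hF.ok c hc).capture (share U (QZ U φ (l ^ 68) Z) (φ c)) (hx c hc) hi with
            r | ⟨a, ha, r1, r2, r3, r4⟩
          · exact Or.inl r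
          · exact Or.inr ⟨a, ha, (hpc c hc).2.2.2 a ha i hi r1 r2 r3, r4⟩)
      have h3 := bdry_le hF hP hl hXQ (hQU Z) hu
      have h4 : (l : ℝ) ^ 61 * (bd T (l ^ 68) Z).card ≤
          6 * (l : ℝ) ^ 8 * (bb T (l ^ 68) X φ ow : ℕ) := by exact_mod_cast hbd
      have hLR : (1000 : ℝ) ≤ l := by exact_mod_cast hl
      have hbR : (0 : ℝ) < b := by exact_mod_cast hb
      have hm : (0 : ℝ) < (l : ℝ) ^ 6 * b := by positivity
      simp only [TD.Psi, Nat.cast_mul, Nat.cast_pow] at h1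
      have h5 := CoreAux.final_ineq hLR hm h1 h2 h3 h4 (Nat.cast_nonneg _)
      have h6 : ((∑ p ∈ ((range (l ^ 68)).sigma fun c => range (T c).k).filter
          (fun p => ∃ u ∈ X, ow p.1 (φ p.1 u) = p.2),
          ((T p.1).n p.2 - skel (T p.1).N (sk p.1) (ow p.1) p.2) : ℕ) : ℝ) =
          ∑ c ∈ range (l ^ 68), ∑ i ∈ (range (T c).k).filter (fun i => seen X (φ c) (ow c) i),
            (((T c).n i : ℝ) - skel (T c).N (sk c) (ow c) i) := by
        rw [sum_filter, sum_sigma, Nat.cast_sum]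
        refine sum_congr rfl fun c hc => ?_
        rw [sum_filter, Nat.cast_sum]
        refine sum_congr rfl fun i hi => ?_
        by_cases hs : seen X (φ c) (ow c) i
        · rw [if_pos hs, if_pos (show ∃ u ∈ X, ow c (φ c u) = i from hs),
            Nat.cast_sub (hsk c (mem_range.1 hc) i (mem_range.1 hi))]
        · rw [if_neg hs, if_neg (show ¬ ∃ u ∈ X, ow c (φ c u) = i from hs), Nat.cast_zero]
      rw [← h6] at h5
      have h7 := Nat.cast_le.1 h5
      convert h7)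
  have htot : ∑ p ∈ (range (l ^ 68)).sigma (fun c => range (T c).k),
      ((T p.1).n p.2 - skel (T p.1).N (sk p.1) (ow p.1) p.2) = U.card := by
    rw [hF.card, ← hF.ths, sum_sigma]
    refine sum_congr rfl fun c hc => ?_
    have hc' := mem_range.1 hc
    have h1 := hF.sum_n hc'
    have h2 : ∑ i ∈ range (T c).k, skel (T c).N (sk c) (ow c) i = ∑ a ∈ range (T c).N, sk c a := by
      unfold skel
      exact sum_fiberwise_of_maps_to
        (fun a ha => mem_range.2 ((hP.cut c hc').lt a (mem_range.1 ha))) _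
    have h3 : ∑ i ∈ range (T c).k, ((T c).n i - skel (T c).N (sk c) (ow c) i) +
        ∑ i ∈ range (T c).k, skel (T c).N (sk c) (ow c) i = ∑ i ∈ range (T c).k, (T c).n i := by
      rw [← sum_add_distrib]
      exact sum_congr rfl fun i hi => Nat.sub_add_cancel (hsk c hc' i (mem_range.1 hi))
    simp only at h3 ⊢
    omega
  have hfib : ∑ p ∈ (range (l ^ 68)).sigma (fun c => range (T c).k),
      (U.filter fun u => ψ u = p).card = U.card :=
    (card_eq_sum_card_fiberwise fun u hu => (hψ u hu).1).symm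
  have hcap' : ∀ p : (_ : ℕ) × ℕ, (U.filter fun u => ψ u = p).card ≤
      (T p.1).n p.2 - skel (T p.1).N (sk p.1) (ow p.1) p.2 := fun p => by convert hcap p
  have heq := (sum_eq_sum_iff_of_le (fun p _ => hcap' p)).1 (hfib.trans htot.symm)
  refine ⟨ow, tp, fun u => (ψ u).1, hP.cut, fun u hu => ?_, fun c hc i hi => ?_⟩
  · exact mem_range.1 (mem_sigma.1 (hψ u hu).1).1
  · have h1 := heq ⟨c, i⟩ (mem_sigma.2 ⟨mem_range.2 hc, mem_range.2 hi⟩)
    have h2 : (U.filter fun u => (ψ u).1 = c ∧ ow c (φ c u) = i) =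
        U.filter fun u => ψ u = ⟨c, i⟩ := by
      refine filter_congr fun u hu => ?_
      have h3 := (hψ u hu).2
      constructor
      · rintro ⟨h4, h5⟩
        rcases hp : ψ u with ⟨c', i'⟩
        rw [hp] at h3 h4
        simp only at h3 h4
        subst h4
        rw [h3] at h5
        rw [h5]
      · intro h4
        rw [h4] at h3
        exact ⟨by rw [h4], h3⟩
    rw [h2, h1]
    exact Nat.sub_add_cancel (hsk c hc i hi)

end Pool.Agent.Lib.MP_f20cd2_co.PL
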