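import Pool.Agent.Lib.MP_f20cd2_co.H83Grow

/-!
Definitions for the proof that graphs of polylogarithmic toughness are arbitrarily partitionable.
-/

set_option autoImplicit false
set_option linter.unusedSectionVars false

namespace Pool.Agent.Lib.MP_f20cd2_co.PL

open Finset
open Pool.Agent.Lib.MP_f20cd2_co.H83 (Conn Cells)
open scoped Classical

/-! ### Graphs -/

section Graph

variable {V : Type} [Fintype V] [DecidableEq V]

/-- The vertices with a neighbour in `D`. -/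
noncomputable def nbr (G : SimpleGraph V) (D : Finset V) : Finset V :=
  univ.filter fun v => ∃ u ∈ D, G.Adj u v

lemma mem_nbr {G : SimpleGraph V} {D : Finset V} {v : V} : v ∈ nbr G D ↔ ∃ u ∈ D, G.Adj u v := by
  simp [nbr]

/-- Independent sets. -/
def Ind (G : SimpleGraph V) (I : Finset V) : Prop := ∀ u ∈ I, ∀ v ∈ I, ¬ G.Adj u v

/-- Every separator contains many vertices of `W`. -/
def RT (G : SimpleGraph V) (W : Finset V) (t : ℝ) : Prop :=
  ∀ (B : Finset V) (c : ℕ), Cells G B c → 2 ≤ c → t * c ≤ ((W \ B).card : ℝ)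

/-- Independent sets expand. -/
def Expd (G : SimpleGraph V) (t : ℝ) : Prop :=
  ∀ I : Finset V, Ind G I → t * I.card ≤ ((nbr G I).card : ℝ)

/-- Disjoint connected subsets of `A` with prescribed sizes. -/
def Pack {ι : Type} (G : SimpleGraph V) (A : Finset V) (I : Finset ι) (a : ι → ℕ) : Prop :=
  ∃ p : ι → Finset V, (∀ i ∈ I, p i ⊆ A ∧ (p i).card = a i ∧ Conn G (p i)) ∧
    ∀ i ∈ I, ∀ j ∈ I, i ≠ j → Disjoint (p i) (p j)

/-- The vertices whose colour lies in an interval. -/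
def col (χ : V → ℕ) (a b : ℕ) : Finset V := univ.filter fun v => a ≤ χ v ∧ χ v < b

lemma mem_col {χ : V → ℕ} {a b : ℕ} {v : V} : v ∈ col χ a b ↔ a ≤ χ v ∧ χ v < b := by
  simp [col]

/-- All colourings with `M` colours. -/
def cols (V : Type) [Fintype V] [DecidableEq V] (M : ℕ) : Finset (V → ℕ) :=
  Fintype.piFinset fun _ : V => range M

/-- Large neighbourhoods are sampled evenly by every colour. -/
def Ea (G : SimpleGraph V) (M τ : ℕ) (χ : V → ℕ) : Prop :=
  ∀ j < M, M * (col χ j (j + 1)).card ≤ 2 * Fintype.card V ∧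
    ∀ D : Finset V, D.Nonempty → τ * D.card ≤ (nbr G D).card →
      (nbr G D).card ≤ 2 * M * (nbr G D ∩ col χ j (j + 1)).card ∧
        M * (nbr G D ∩ col χ j (j + 1)).card ≤ 2 * (nbr G D).card

/-- `W` dominates the graph robustly. -/
def Dom (G : SimpleGraph V) (M : ℕ) (t : ℝ) (W : Finset V) : Prop :=
  (∀ D : Finset V, D.card ≤ 4 * M * (nbr G D ∩ W).card) ∧
    ∀ D : Finset V, Ind G D → t * D.card ≤ 4 * M * ((nbr G D ∩ W).card : ℝ)

/-- Reachability inside `Y`. -/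
def Rch (G : SimpleGraph V) (Y : Finset V) : V → V → Prop :=
  Relation.ReflTransGen fun a b => a ∈ Y ∧ b ∈ Y ∧ G.Adj a b

/-- The component of `v` inside `Y`. -/
noncomputable def cmp (G : SimpleGraph V) (Y : Finset V) (v : V) : Finset V :=
  univ.filter fun w => Rch G Y v w

lemma mem_cmp {G : SimpleGraph V} {Y : Finset V} {v w : V} : w ∈ cmp G Y v ↔ Rch G Y v w := by
  simp [cmp]

/-- The components inside `Y` that meet `Y0`. -/
noncomputable def cms (G : SimpleGraph V) (Y0 Y : Finset V) : Finset (Finset V) :=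
  Y0.image (cmp G Y)

/-- The vertex itself or a fixed neighbour in `Y0`. -/
noncomputable def anc (G : SimpleGraph V) (Y0 : Finset V) (v : V) : V :=
  if v ∈ Y0 then v else if h : ∃ u ∈ Y0, G.Adj v u then h.choose else v

/-- The vertices outside `Y0` without a neighbour in `Y0`. -/
noncomputable def far (G : SimpleGraph V) (Y0 : Finset V) : Finset V :=
  univ.filter fun v => v ∉ Y0 ∧ ∀ u ∈ Y0, ¬ G.Adj v u

lemma mem_far {G : SimpleGraph V} {Y0 : Finset V} {v : V} :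
    v ∈ far G Y0 ↔ v ∉ Y0 ∧ ∀ u ∈ Y0, ¬ G.Adj v u := by
  simp [far]

lemma anc_spec {G : SimpleGraph V} {Y0 : Finset V} {v : V} (h : v ∉ far G Y0) :
    anc G Y0 v ∈ Y0 ∧ (anc G Y0 v = v ∨ G.Adj v (anc G Y0 v)) := by
  unfold anc
  by_cases h1 : v ∈ Y0
  · simp [h1]
  · have h2 : ∃ u ∈ Y0, G.Adj v u := by
      by_contra h3
      exact h (mem_far.2 ⟨h1, fun u hu hadj => h3 ⟨u, hu, hadj⟩⟩)
    rw [if_neg h1, dif_pos h2]
    exact ⟨h2.choose_spec.1, Or.inr h2.choose_spec.2⟩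

lemma anc_of_mem {G : SimpleGraph V} {Y0 : Finset V} {v : V} (h : v ∈ Y0) : anc G Y0 v = v := by
  simp [anc, h]

/-- Groupings of a family of components. -/
noncomputable def gset (K : Finset (Finset V)) (n : ℕ) : Finset (Finset V → ℕ) :=
  Fintype.piFinset fun C : Finset V => if C ∈ K then range n else {0}

/-- The numerical conditions on a deleted set and a grouping. -/
def Lev (G : SimpleGraph V) (t : ℝ) (W0 Wi F : Finset V) (γ : Finset V → ℕ) : Prop :=
  (F.card : ℝ) ≤ 2 * t * (cms G (W0 \ F) (Wi \ F)).card ∧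
    2 ≤ ((cms G (W0 \ F) (Wi \ F)).image γ).card ∧
    (cms G (W0 \ F) (Wi \ F)).card < 2 * ((cms G (W0 \ F) (Wi \ F)).image γ).card

/-- No edge inside `Wn` joins two groups. -/
def NoX (G : SimpleGraph V) (W0 Wi Wn F : Finset V) (γ : Finset V → ℕ) : Prop :=
  ∀ v w, G.Adj v w → v ∉ F → w ∉ F → v ∉ far G (W0 \ F) → w ∉ far G (W0 \ F) →
    v ∈ Wn → w ∈ Wn →
    γ (cmp G (Wi \ F) (anc G (W0 \ F) v)) = γ (cmp G (Wi \ F) (anc G (W0 \ F) w))

/-- The properties of the colouring that are used. -/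
structure Good (G : SimpleGraph V) (l : ℕ) (χ : V → ℕ) : Prop where
  size : ∀ a b, b ≤ l ^ 163 → l ^ 163 * (col χ a b).card ≤ 2 * (b - a) * Fintype.card V
  rt : ∀ g, g + l < l ^ 163 → RT G (col χ g (g + l + 1)) ((l : ℝ) ^ 102)
  up : ∀ g < l ^ 163, ∀ D : Finset V, D.card ≤ 4 * l ^ 163 * (nbr G D ∩ col χ g (g + 1)).card
  low : ∀ g h, g + l < l ^ 163 → h + l ^ 91 ≤ l ^ 163 → ∀ D ⊆ col χ g (g + l + 1),
    2 * l ^ 89 * D.card ≤ (nbr G D ∩ col χ h (h + l ^ 91)).card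

end Graph

/-! ### Product sets -/

/-- The coordinates with a value in `E` are frozen. -/
noncomputable def fib {ι α : Type} (s : ι → Finset α) (E : Finset α) (x : ι → α) (v : ι) :
    Finset α :=
  if x v ∈ E then {x v} else s v \ E

/-! ### Trees -/

/-- A rooted tree on `A` with at most `Δ` children per node. -/
structure RTree {α : Type} (A : Finset α) (r : α) (par : α → α) (rk : α → ℕ) (Δ : ℕ) : Prop where
  root : r ∈ A
  mem : ∀ v ∈ A, v ≠ r → par v ∈ A
  lt : ∀ v ∈ A, v ≠ r → rk (par v) < rk v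
  deg : ∀ u, (A.filter fun v => v ≠ r ∧ par v = u).card ≤ Δ

/-- `u` lies in the subtree of `v`. -/
def Desc {α : Type} (A : Finset α) (r : α) (par : α → α) (v u : α) : Prop :=
  Relation.ReflTransGen (fun x y => y ∈ A ∧ y ≠ r ∧ par y = x) v u

/-- The subtree of `v`. -/
noncomputable def sub {α : Type} (A : Finset α) (r : α) (par : α → α) (v : α) : Finset α :=
  A.filter fun u => Desc A r par v u

/-- The children of `v`. -/
noncomputable def ch {α : Type} (A : Finset α) (r : α) (par : α → α) (v : α) : Finset α :=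
  A.filter fun u => u ≠ r ∧ par u = v

lemma mem_sub {α : Type} {A : Finset α} {r : α} {par : α → α} {v u : α} :
    u ∈ sub A r par v ↔ u ∈ A ∧ Desc A r par v u := by
  simp [sub]

lemma mem_ch {α : Type} {A : Finset α} {r : α} {par : α → α} {v u : α} :
    u ∈ ch A r par v ↔ u ∈ A ∧ u ≠ r ∧ par u = v := by
  simp [ch]

/-- A rooted tree on `range N` in which the subtree of `a` is the interval from `a` to `e a`. -/
structure PT (N : ℕ) (par e : ℕ → ℕ) (Δ : ℕ) : Prop where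
  pos : 0 < N
  top : e 0 = N
  plt : ∀ j, 0 < j → j < N → par j < j ∧ j < e (par j)
  ele : ∀ a < N, a < e a ∧ e a ≤ N
  sub : ∀ a < N, ∀ j, a < j → j < e a → a ≤ par j ∧ e j ≤ e a
  deg : ∀ a, ((range N).filter fun j => 0 < j ∧ par j = a).card ≤ Δ

/-- Adjacency in the tree. -/
def adj (N : ℕ) (par : ℕ → ℕ) (a a' : ℕ) : Prop :=
  a < N ∧ a' < N ∧ ((0 < a ∧ par a = a') ∨ (0 < a' ∧ par a' = a))

/-- Total variation along the tree edges. -/
noncomputable def tau (N : ℕ) (par : ℕ → ℕ) (f : ℕ → ℝ) : ℝ :=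
  ∑ j ∈ (range N).filter (fun j => 0 < j), |f j - f (par j)|

/-- The tree is cut into `k` subtrees; `ow` is the owner and `tp` the top of a piece. -/
structure Cut (N : ℕ) (par : ℕ → ℕ) (k : ℕ) (ow tp : ℕ → ℕ) : Prop where
  lt : ∀ a < N, ow a < k
  up : ∀ a < N, a ≠ tp (ow a) → 0 < a ∧ ow (par a) = ow a
  top : ∀ i < k, tp i < N ∧ ow (tp i) = i

/-- A tree of atoms with masses and the sizes of the parts assigned to it. -/
structure TD where
  N : ℕ
  par : ℕ → ℕ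
  e : ℕ → ℕ
  mu : ℕ → ℕ
  k : ℕ
  n : ℕ → ℕ

namespace TD

variable (T : TD)

/-- Standing conditions; masses carry the factor `D`. -/
structure Ok (l D b : ℕ) : Prop where
  hl : 1000 ≤ l
  hD : 0 < D
  hb : 0 < b
  pt : PT T.N T.par T.e (5 * l ^ 2)
  lo : ∀ a < T.N, D * b ≤ T.mu a
  hi : ∀ a < T.N, T.mu a ≤ 5 * l * (D * b)
  nlo : ∀ i < T.k, l ^ 6 * b ≤ T.n i
  nhi : ∀ i < T.k, T.n i ≤ 2 * (l ^ 6 * b)
  tot : ∑ a ∈ range T.N, T.mu a = D * ∑ i ∈ range T.k, T.n i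

/-- The position at which atom `a` starts. -/
def pos (a : ℕ) : ℕ := ∑ j ∈ range a, T.mu j

/-- The position at which stratum `i` starts. -/
def st (D i : ℕ) : ℕ := D * ∑ j ∈ range i, T.n j

/-- The atom at a position. -/
def atm (p : ℕ) : ℕ := Nat.findGreatest (fun a => T.pos a ≤ p) T.N

/-- Atom `a` meets stratum `i`. -/
def meets (D i a : ℕ) : Prop := a < T.N ∧ T.pos a < T.st D (i + 1) ∧ T.st D i < T.pos (a + 1)

/-- The sample space. -/
def sp (D : ℕ) : Finset (Fin T.k → ℕ) := Fintype.piFinset fun i : Fin T.k => range (D * T.n i)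

/-- A sample as a sequence. -/
def ex (x : Fin T.k → ℕ) (i : ℕ) : ℕ := if h : i < T.k then x ⟨i, h⟩ else 0

/-- The sampled atom of stratum `i`. -/
def z (D : ℕ) (x : Fin T.k → ℕ) (i : ℕ) : ℕ := T.atm (T.st D i + T.ex x i)

/-- The first atom that meets stratum `i`. -/
def fst (D i : ℕ) : ℕ := T.atm (T.st D i)

/-- The centre of stratum `i`. -/
def zc (D : ℕ) (x : Fin T.k → ℕ) (i : ℕ) : ℕ :=
  if 0 < i ∧ T.z D x i = T.z D x (i - 1) then T.fst D i + 1 else T.z D x i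

/-- A neighbour with the largest value of `f`. -/
noncomputable def nb (f : ℕ → ℝ) (a : ℕ) : ℕ :=
  if h : ∃ a', adj T.N T.par a a' ∧ ∀ a'', adj T.N T.par a a'' → f a'' ≤ f a' then h.choose else a

/-- The largest increase of `f` along an edge at `a`. -/
noncomputable def om (f : ℕ → ℝ) (a : ℕ) : ℝ := max (f (T.nb f a) - f a) 0

/-- No other stratum interferes with the closed neighbourhood of `nb f a`. -/
def clean (D : ℕ) (f : ℕ → ℝ) (x : Fin T.k → ℕ) (i a : ℕ) : Prop :=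
  ¬ (0 < i ∧ T.z D x (i - 1) = a) ∧
    ∀ j < T.k, j ≠ i → ∀ a', (a' = T.nb f a ∨ adj T.N T.par (T.nb f a) a') → T.meets D j a' →
      T.z D x j ≠ a' ∧ T.z D x j ≠ T.fst D j

/-- The gain of stratum `i`. -/
noncomputable def gn (D : ℕ) (f : ℕ → ℝ) (x : Fin T.k → ℕ) (i : ℕ) : ℝ :=
  if T.clean D f x i (T.z D x i) then T.om f (T.z D x i) else 0

/-- The deviation for centres `c`. -/
noncomputable def dev (D : ℕ) (f : ℕ → ℝ) (c : ℕ → ℕ) : ℝ :=
  ∑ i ∈ range T.k, (T.n i : ℝ) * f (c i) - ∑ a ∈ range T.N, (T.mu a : ℝ) / D * f a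

/-- The functional of one tree. -/
noncomputable def Psi (D m : ℕ) (f : ℕ → ℝ) (x : Fin T.k → ℕ) : ℝ :=
  T.dev D f (T.zc D x) + (m : ℝ) / 4 * ∑ i ∈ range T.k, T.gn D f x i

/-- The variation of `f` between the first and the last atom of stratum `i`. -/
noncomputable def osc (D : ℕ) (f : ℕ → ℝ) (i : ℕ) : ℝ :=
  ∑ j ∈ Ico (T.fst D i) (T.atm (T.st D (i + 1) - 1)), |f (j + 1) - f j|

end TD

/-! ### The family of trees and the fluid set -/

/-- All atoms. -/
def atoms (T : ℕ → TD) (J : ℕ) : Finset (ℕ × ℕ) :=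
  (range J).biUnion fun c => (range (T c).N).image fun a => (c, a)

lemma mem_atoms {T : ℕ → TD} {J : ℕ} {p : ℕ × ℕ} : p ∈ atoms T J ↔ p.1 < J ∧ p.2 < (T p.1).N := by
  obtain ⟨c, a⟩ := p
  simp only [atoms, mem_biUnion, mem_range, mem_image, Prod.mk.injEq]
  constructor
  · rintro ⟨c', hc, a', ha, rfl, rfl⟩
    exact ⟨hc, ha⟩
  · rintro ⟨hc, ha⟩
    exact ⟨c, hc, a, ha, rfl, rfl⟩

/-- The boundary of a set of atoms. -/
noncomputable def bd (T : ℕ → TD) (J : ℕ) (Z : Finset (ℕ × ℕ)) : Finset (ℕ × ℕ) :=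
  (atoms T J).filter fun p =>
    (p.2 = 0 ∧ p ∈ Z) ∨ (0 < p.2 ∧ ¬ (p ∈ Z ↔ (p.1, (T p.1).par p.2) ∈ Z))

section Fluid

variable {α : Type}

/-- The elements of `U` without a foot in `Z`. -/
noncomputable def QZ (U : Finset α) (φ : ℕ → α → ℕ) (J : ℕ) (Z : Finset (ℕ × ℕ)) : Finset α :=
  U.filter fun u => ∀ c < J, (c, φ c u) ∉ Z

/-- The share of `Q` among the elements with foot `a`. -/
noncomputable def share (U Q : Finset α) (φ : α → ℕ) (a : ℕ) : ℝ :=
  ((Q.filter fun u => φ u = a).card : ℝ) / ((U.filter fun u => φ u = a).card : ℝ)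

/-- The piece `i` contains a foot of `X`. -/
def seen (X : Finset α) (φ : α → ℕ) (ow : ℕ → ℕ) (i : ℕ) : Prop := ∃ u ∈ X, ow (φ u) = i

/-- Standing conditions on the trees and the fluid set. -/
structure Fl (l D b : ℕ) (T : ℕ → TD) (U : Finset α) (φ : ℕ → α → ℕ) (th : ℕ → ℕ)
    (sk : ℕ → ℕ → ℕ) : Prop where
  ok : ∀ c < l ^ 68, (T c).Ok l D b
  card : U.card = D
  lt : ∀ c < l ^ 68, ∀ u ∈ U, φ c u < (T c).N
  mu : ∀ c < l ^ 68, ∀ a < (T c).N,
    (T c).mu a = th c * (U.filter fun u => φ c u = a).card + D * sk c a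
  skl : ∀ c < l ^ 68, ∀ a < (T c).N, l ^ 21 * (D * sk c a) ≤ (T c).mu a
  ths : ∑ c ∈ range (l ^ 68), th c = D
  thl : ∀ c < l ^ 68, l ^ 68 * th c ≤ 2 * D

/-- Pieces with centres for every tree. -/
structure Ps (l : ℕ) (T : ℕ → TD) (z ow tp : ℕ → ℕ → ℕ) : Prop where
  cut : ∀ c < l ^ 68, Cut (T c).N (T c).par (T c).k (ow c) (tp c)
  ctr : ∀ c < l ^ 68, ∀ i < (T c).k, z c i < (T c).N ∧ ow c (z c i) = i
  size : ∀ c < l ^ 68, ∀ i, ((range (T c).N).filter fun a => ow c a = i).card ≤ l ^ 15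

/-- The skeleton size of a piece. -/
def skel (N : ℕ) (sk ow : ℕ → ℕ) (i : ℕ) : ℕ := ∑ a ∈ (range N).filter (fun a => ow a = i), sk a

/-- The variation inside a piece. -/
noncomputable def tin (N : ℕ) (par ow : ℕ → ℕ) (f : ℕ → ℝ) (i : ℕ) : ℝ :=
  ∑ j ∈ (range N).filter (fun j => 0 < j ∧ ow j = i ∧ ow (par j) = i), |f j - f (par j)|

/-- The number of trees in which the piece of `u` is not seen by `X`. -/
noncomputable def uns (J : ℕ) (X : Finset α) (φ : ℕ → α → ℕ) (ow : ℕ → ℕ → ℕ) (u : α) : ℕ :=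
  ((range J).filter fun c => ¬ seen X (φ c) (ow c) (ow c (φ c u))).card

/-- The number of tree edges between a seen and an unseen piece. -/
noncomputable def bb (T : ℕ → TD) (J : ℕ) (X : Finset α) (φ : ℕ → α → ℕ) (ow : ℕ → ℕ → ℕ) : ℕ :=
  ∑ c ∈ range J, ((range (T c).N).filter fun j => 0 < j ∧
    ¬ (seen X (φ c) (ow c) (ow c j) ↔ seen X (φ c) (ow c) (ow c ((T c).par j)))).card

/-- The number of seen pieces whose centre has a small share. -/
noncomputable def VV (T : ℕ → TD) (J : ℕ) (U X Q : Finset α) (φ : ℕ → α → ℕ)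
    (z ow : ℕ → ℕ → ℕ) : ℕ :=
  ∑ c ∈ range J, ((range (T c).k).filter fun i =>
    seen X (φ c) (ow c) i ∧ share U Q (φ c) (z c i) ≤ 1 / 2).card

/-- The total variation of the shares. -/
noncomputable def tauQ (T : ℕ → TD) (J : ℕ) (U Q : Finset α) (φ : ℕ → α → ℕ) : ℝ :=
  ∑ c ∈ range J, tau (T c).N (T c).par (share U Q (φ c))

/-- The sum of the shares over the atoms of unseen pieces. -/
noncomputable def eta (T : ℕ → TD) (J : ℕ) (U X Q : Finset α) (φ : ℕ → α → ℕ)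
    (ow : ℕ → ℕ → ℕ) : ℝ :=
  ∑ c ∈ range J, ∑ a ∈ (range (T c).N).filter (fun a => ¬ seen X (φ c) (ow c) (ow c a)),
    share U Q (φ c) a

end Fluid

/-- Constants are absorbed by powers of `l`. -/
lemma absorb {l : ℕ} (hl : 1000 ≤ l) (c a k : ℕ) (hc : c ≤ 1000 ^ k) : c * l ^ a ≤ l ^ (a + k) := by
  rw [pow_add, mul_comm]
  exact Nat.mul_le_mul_left _ (hc.trans (Nat.pow_le_pow_left hl k))

lemma absorbR {l : ℕ} (hl : 1000 ≤ l) (c : ℝ) (a k : ℕ) (hc : c ≤ 1000 ^ k) :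
    c * (l : ℝ) ^ a ≤ (l : ℝ) ^ (a + k) := by
  rw [pow_add, mul_comm]
  have h : (1000 : ℝ) ≤ l := by exact_mod_cast hl
  exact mul_le_mul_of_nonneg_left (hc.trans (pow_le_pow_left₀ (by norm_num) h k)) (by positivity)

end Pool.Agent.Lib.MP_f20cd2_co.PL
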