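import Pool.Agent.Lib.MP_f20cd2_co.PL.McD
import Pool.Agent.Lib.MP_f20cd2_co.PL.Prod

/-!
Large neighbourhoods are sampled evenly (B1).
-/

set_option autoImplicit false
set_option linter.unusedSectionVars false

namespace Pool.Agent.Lib.MP_f20cd2_co.PL

open Finset
open Pool.Agent.Lib.MP_f20cd2_co.H83 (Conn Cells)
open scoped Classical

variable {V : Type} [Fintype V] [DecidableEq V] {G : SimpleGraph V}

namespace EaAux

theorem card_eq (B : Finset V) (j : ℕ) (χ : V → ℕ) :
    ((B ∩ col χ j (j + 1)).card : ℝ) = ∑ v ∈ B, if χ v = j then (1 : ℝ) else 0 := by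
  rw [Finset.sum_boole]
  congr 2
  ext v
  simp only [mem_inter, mem_col, mem_filter]
  constructor
  · rintro ⟨h1, h2, h3⟩
    exact ⟨h1, by omega⟩
  · rintro ⟨h1, h2⟩
    exact ⟨h1, by omega, by omega⟩

theorem or_le {Ω : Type} (S : Finset Ω) (P Q R : Ω → Prop) (p q : ℝ)
    (hP : ((S.filter P).card : ℝ) ≤ p * S.card) (hQ : ((S.filter Q).card : ℝ) ≤ q * S.card)
    (h : ∀ x ∈ S, R x → P x ∨ Q x) : ((S.filter R).card : ℝ) ≤ (p + q) * S.card := by
  have h1 : S.filter R ⊆ S.filter P ∪ S.filter Q := by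
    intro x hx
    rw [mem_filter] at hx
    rcases h x hx.1 hx.2 with h2 | h2
    · exact mem_union_left _ (mem_filter.2 ⟨hx.1, h2⟩)
    · exact mem_union_right _ (mem_filter.2 ⟨hx.1, h2⟩)
  have h2 : ((S.filter R).card : ℝ) ≤ (S.filter P).card + (S.filter Q).card := by
    exact_mod_cast (card_le_card h1).trans (card_union_le _ _)
  linarith

theorem one_set (B : Finset V) (hB : 0 < B.card) (M j : ℕ) (hj : j < M) :
    (((cols V M).filter fun χ => ¬ (B.card ≤ 2 * M * (B ∩ col χ j (j + 1)).card ∧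
      M * (B ∩ col χ j (j + 1)).card ≤ 2 * B.card)).card : ℝ) ≤
      2 * Real.exp (-(B.card / (8 * (M : ℝ) ^ 2))) * (cols V M).card := by
  have hM : (0 : ℝ) < M := by exact_mod_cast (Nat.zero_le j).trans_lt hj
  have hb : (0 : ℝ) < B.card := by exact_mod_cast hB
  set s : V → Finset ℕ := fun _ => range M with hs
  have hs0 : ∀ v, (s v).Nonempty := fun _ => ⟨j, mem_range.2 hj⟩
  set F : (V → ℕ) → ℝ := fun χ => ∑ v ∈ B, if χ v = j then (1 : ℝ) else 0 with hF
  set c : V → ℝ := fun v => if v ∈ B then 1 else 0 with hc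
  have hdiff : ∀ x ∈ Fintype.piFinset s, ∀ v, ∀ y ∈ s v,
      |F (Function.update x v y) - F x| ≤ c v := by
    intro x _ v y _
    simp only [hF, hc]
    rw [← Finset.sum_sub_distrib]
    by_cases hv : v ∈ B
    · rw [if_pos hv, Finset.sum_eq_single_of_mem v hv]
      · split_ifs <;> norm_num
      · intro w _ hw
        rw [Function.update_of_ne hw, sub_self]
    · rw [if_neg hv, Finset.sum_eq_zero]
      · simp
      · intro w hw
        rw [Function.update_of_ne (by rintro rfl; exact hv hw), sub_self]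
  have hc2 : ∑ v, c v ^ 2 ≤ (B.card : ℝ) := by
    simp only [hc, ite_pow, one_pow]
    simp
  have hmean : ∑ x ∈ Fintype.piFinset s, F x = B.card / M * (Fintype.piFinset s).card := by
    simp only [hF]
    rw [Finset.sum_comm]
    have h1 : ∀ v ∈ B, ∑ x ∈ Fintype.piFinset s, (if x v = j then (1 : ℝ) else 0) =
        (Fintype.piFinset s).card / M := by
      intro v _
      have h2 := sum_coord s v (fun y => if y = j then (1 : ℝ) else 0)
      simp only [hs, card_range, sum_ite_eq', mem_range, hj, if_true, mul_one] at h2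
      rw [eq_div_iff hM.ne']
      exact h2
    rw [Finset.sum_congr rfl h1, sum_const, nsmul_eq_mul]
    ring
  have hexp : ((B.card : ℝ) / (2 * M)) ^ 2 / (2 * B.card) = B.card / (8 * (M : ℝ) ^ 2) := by
    field_simp
    ring
  have hlo := mcd_lower s hs0 F c hdiff (B.card / M) (B.card / (2 * M)) B.card (by positivity) hb
    hc2 hmean.ge
  have hup := mcd_upper s hs0 F c hdiff (B.card / M) (B.card / (2 * M)) B.card (by positivity) hb
    hc2 hmean.le
  rw [hexp] at hlo hup
  have h3 := or_le (Fintype.piFinset s) (fun x => F x ≤ B.card / M - B.card / (2 * M))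
    (fun x => B.card / M + B.card / (2 * M) ≤ F x)
    (fun χ => ¬ (B.card ≤ 2 * M * (B ∩ col χ j (j + 1)).card ∧
      M * (B ∩ col χ j (j + 1)).card ≤ 2 * B.card)) _ _ (by convert hlo) (by convert hup) (by
      intro χ _ hχ
      have h4 : F χ = ((B ∩ col χ j (j + 1)).card : ℝ) := (card_eq B j χ).symm
      rw [h4]
      rcases not_and_or.1 hχ with h5 | h5
      · left
        have h6 : 2 * (M : ℝ) * ((B ∩ col χ j (j + 1)).card : ℝ) < B.card := by
          exact_mod_cast not_le.1 h5
        have h7 : (B.card : ℝ) / M - B.card / (2 * M) = B.card / (2 * M) := by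
          field_simp
          ring
        rw [h7, le_div_iff₀ (by positivity)]
        linarith
      · right
        have h6 : 2 * (B.card : ℝ) < M * ((B ∩ col χ j (j + 1)).card : ℝ) := by
          exact_mod_cast not_le.1 h5
        have h7 : (B.card : ℝ) / M + B.card / (2 * M) = 3 * B.card / (2 * M) := by
          field_simp
          ring
        rw [h7, div_le_iff₀ (by positivity)]
        linarith)
  rw [← two_mul] at h3
  unfold cols
  convert h3

theorem exp_le (l d b : ℕ) (hl : 1000 ≤ l) (h : l ^ 329 * d ≤ b) :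
    Real.exp (-(b / (8 * ((l ^ 163 : ℕ) : ℝ) ^ 2))) ≤ Real.exp (-((l : ℝ) ^ 3 / 8)) ^ d := by
  have hl0 : (0 : ℝ) < l := by exact_mod_cast (by omega : 0 < l)
  rw [← Real.exp_nat_mul]
  refine Real.exp_le_exp.2 ?_
  have h1 : (l : ℝ) ^ 329 * d ≤ b := by exact_mod_cast h
  have h2 : (d : ℝ) * ((l : ℝ) ^ 3 / 8) ≤ b / (8 * ((l ^ 163 : ℕ) : ℝ) ^ 2) := by
    rw [le_div_iff₀ (by positivity)]
    push_cast
    have h3 : (l : ℝ) ^ 329 = (l : ℝ) ^ 3 * ((l : ℝ) ^ 163) ^ 2 := by
      rw [← pow_mul, ← pow_add]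
    rw [h3] at h1
    generalize (l : ℝ) ^ 163 = y at h1 ⊢
    linarith
  linarith

end EaAux

theorem ea_prob (G : SimpleGraph V) (l : ℕ) (hl : 1000 ≤ l) (hn : Fintype.card V < 2 ^ l)
    (hbig : l ^ 329 ≤ Fintype.card V) :
    (((cols V (l ^ 163)).filter fun χ => ¬ Ea G (l ^ 163) (l ^ 329) χ).card : ℝ) ≤
      1 / 4 * (cols V (l ^ 163)).card := by
  have hl1 : (1000 : ℝ) ≤ l := by exact_mod_cast hl
  have hτ : 0 < l ^ 329 := pow_pos (by omega) _
  set M := l ^ 163 with hM
  set τ := l ^ 329 with hτd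
  set x : ℝ := Real.exp (-((l : ℝ) ^ 3 / 8)) with hx
  have hx0 : 0 < x := Real.exp_pos _
  have hC : (0 : ℝ) ≤ (cols V M).card := Nat.cast_nonneg _
  have hnl : (Fintype.card V : ℝ) ≤ Real.exp l := by
    have h1 : (Fintype.card V : ℝ) ≤ 2 ^ l := by exact_mod_cast hn.le
    exact h1.trans (two_pow_le_exp l)
  have hMl : (M : ℝ) ≤ Real.exp (163 * l) := by
    have h1 := pow_le_exp l 163
    rw [hM]
    push_cast at h1 ⊢
    exact h1
  have hl3 : 1000 * (l : ℝ) ≤ (l : ℝ) ^ 3 / 8 := by
    have h1 : (1000 : ℝ) * 1000 ≤ l * l := mul_le_mul hl1 hl1 (by norm_num) (by linarith)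
    nlinarith
  have hnx : (Fintype.card V : ℝ) * x ≤ Real.exp (-(999 * l)) := by
    calc (Fintype.card V : ℝ) * x ≤ Real.exp l * x := mul_le_mul_of_nonneg_right hnl hx0.le
      _ ≤ _ := by
        rw [hx, ← Real.exp_add]
        exact Real.exp_le_exp.2 (by linarith)
  have hxx : x ≤ Real.exp (-(999 * l)) := Real.exp_le_exp.2 (by linarith)
  have hone : ∀ j ∈ range M, (((cols V M).filter fun χ => ¬ (M * (col χ j (j + 1)).card ≤
      2 * Fintype.card V ∧ ∀ D : Finset V, D.Nonempty → τ * D.card ≤ (nbr G D).card →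
      (nbr G D).card ≤ 2 * M * (nbr G D ∩ col χ j (j + 1)).card ∧
        M * (nbr G D ∩ col χ j (j + 1)).card ≤ 2 * (nbr G D).card)).card : ℝ) ≤
      (6 * Real.exp (-(999 * l))) * (cols V M).card := by
    intro j hj
    have hj' := mem_range.1 hj
    have hA := EaAux.one_set (univ : Finset V) (by rw [card_univ]; omega) M j hj'
    have hA2 := EaAux.exp_le l 1 (univ : Finset V).card hl (by rw [card_univ]; omega)
    rw [pow_one] at hA2
    have hA3 := hA.trans (mul_le_mul_of_nonneg_right
      (mul_le_mul_of_nonneg_left (hA2.trans hxx) (by norm_num)) hC)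
    have hB := union_le (cols V M) ((univ : Finset V).powerset.filter fun S => S.Nonempty)
      (fun D χ => τ * D.card ≤ (nbr G D).card ∧
        ¬ ((nbr G D).card ≤ 2 * M * (nbr G D ∩ col χ j (j + 1)).card ∧
        M * (nbr G D ∩ col χ j (j + 1)).card ≤ 2 * (nbr G D).card))
      (fun D => 2 * x ^ D.card) (by
        intro D hD
        have hD' : 0 < D.card := card_pos.2 (mem_filter.1 hD).2
        by_cases h1 : τ * D.card ≤ (nbr G D).card
        · have h2 := EaAux.one_set (nbr G D) ((Nat.mul_pos hτ hD').trans_le h1) M j hj'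
          have h3 := EaAux.exp_le l D.card (nbr G D).card hl h1
          have h4 := h2.trans (mul_le_mul_of_nonneg_right
            (mul_le_mul_of_nonneg_left h3 (by norm_num)) hC)
          refine le_trans ?_ h4
          refine Nat.cast_le.2 (card_le_card fun χ hχ => ?_)
          simp only [mem_filter] at hχ ⊢
          exact ⟨hχ.1, hχ.2.2⟩
        · simp only [h1, false_and, filter_false, card_empty, Nat.cast_zero]
          positivity)
      (fun χ => ¬ ∀ D : Finset V, D.Nonempty → τ * D.card ≤ (nbr G D).card →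
        (nbr G D).card ≤ 2 * M * (nbr G D ∩ col χ j (j + 1)).card ∧
          M * (nbr G D ∩ col χ j (j + 1)).card ≤ 2 * (nbr G D).card) (by
        intro χ _ hχ
        simp only [not_forall] at hχ
        obtain ⟨D, h1, h2, h3⟩ := hχ
        exact ⟨D, mem_filter.2 ⟨mem_powerset.2 (subset_univ _), h1⟩, h2, h3⟩)
    have hB2 := sum_pow_card_le (univ : Finset V) x hx0.le (by
      rw [card_univ]
      exact hnx.trans (Real.exp_le_one_iff.2 (by linarith)))
    rw [card_univ] at hB2
    rw [← Finset.mul_sum] at hB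
    have hB3 := hB.trans (mul_le_mul_of_nonneg_right (c := 4 * Real.exp (-(999 * l)))
      (by
        have h5 : ∑ i ∈ (univ : Finset V).powerset with i.Nonempty, x ^ i.card ≤
            2 * (Fintype.card V * x) := by convert hB2
        linarith) hC)
    have h6 := EaAux.or_le (cols V M) _ _ (fun χ => ¬ (M * (col χ j (j + 1)).card ≤
      2 * Fintype.card V ∧ ∀ D : Finset V, D.Nonempty → τ * D.card ≤ (nbr G D).card →
      (nbr G D).card ≤ 2 * M * (nbr G D ∩ col χ j (j + 1)).card ∧
        M * (nbr G D ∩ col χ j (j + 1)).card ≤ 2 * (nbr G D).card)) _ _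
      (by convert hA3; rfl) (by convert hB3) (by
        intro χ _ hχ
        rcases not_and_or.1 hχ with h7 | h7
        · left
          rw [univ_inter, card_univ]
          exact fun h8 => h7 h8.2
        · exact Or.inr h7)
    have h9 : 2 * Real.exp (-(999 * (l : ℝ))) + 4 * Real.exp (-(999 * l)) =
        6 * Real.exp (-(999 * l)) := by ring
    rw [h9] at h6
    convert h6
  have hall := union_le (cols V M) (range M) _ (fun _ => 6 * Real.exp (-(999 * l)))
    (by intro j hj; convert hone j hj) (fun χ => ¬ Ea G M τ χ) (by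
      intro χ _ hχ
      unfold Ea at hχ
      simp only [not_forall] at hχ
      obtain ⟨j, h1, h2⟩ := hχ
      exact ⟨j, mem_range.2 h1, h2⟩)
  rw [sum_const, card_range, nsmul_eq_mul] at hall
  have hfin : (M : ℝ) * (6 * Real.exp (-(999 * l))) ≤ 1 / 4 := by
    have h1 : (M : ℝ) * Real.exp (-(999 * l)) ≤ Real.exp (-(836 * l)) := by
      calc (M : ℝ) * Real.exp (-(999 * l)) ≤ Real.exp (163 * l) * Real.exp (-(999 * l)) :=
            mul_le_mul_of_nonneg_right hMl (Real.exp_pos _).le
        _ = _ := by rw [← Real.exp_add]; congr 1; ring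
    have h2 : Real.exp (-(836 * (l : ℝ))) * 24 ≤ 1 := by
      have h3 : (24 : ℝ) ≤ Real.exp (836 * l) := by
        have := Real.add_one_le_exp (836 * (l : ℝ))
        linarith
      calc Real.exp (-(836 * (l : ℝ))) * 24 ≤ Real.exp (-(836 * (l : ℝ))) * Real.exp (836 * l) :=
            mul_le_mul_of_nonneg_left h3 (Real.exp_pos _).le
        _ = 1 := by rw [← Real.exp_add]; simp
    linarith
  have hend := hall.trans (mul_le_mul_of_nonneg_right hfin hC)
  convert hend
  rfl


end Pool.Agent.Lib.MP_f20cd2_co.PL
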