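import Pool.Agent.Lib.MP_f20cd2_co.PL.GeoB

/-!
Shares, skeleton sizes and the variation inside a piece (tools for D5, D6).
-/

set_option autoImplicit false
set_option linter.unusedSectionVars false

namespace Pool.Agent.Lib.MP_f20cd2_co.PL

open Finset
open Pool.Agent.Lib.MP_f20cd2_co.H83 (Conn Cells)
open scoped Classical

variable {α : Type} {l D b : ℕ} {T : ℕ → TD} {U : Finset α} {φ : ℕ → α → ℕ} {th : ℕ → ℕ}
  {sk z ow tp : ℕ → ℕ → ℕ}

theorem share_mem {Q : Finset α} (hQ : Q ⊆ U) (ψ : α → ℕ) (a : ℕ) :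
    0 ≤ share U Q ψ a ∧ share U Q ψ a ≤ 1 := by
  unfold share
  refine ⟨by positivity, div_le_one_of_le₀ ?_ (by positivity)⟩
  exact_mod_cast card_le_card (filter_subset_filter _ hQ)

theorem Fl.w_lower (hF : Fl l D b T U φ th sk) {c a : ℕ} (hc : c < l ^ 68) (ha : a < (T c).N) :
    l ^ 68 * b ≤ 4 * (U.filter fun u => φ c u = a).card := by
  have ok := hF.ok c hc
  have h1 := hF.mu c hc a ha
  have h2 := hF.skl c hc a ha
  have h3 := hF.thl c hc
  have h4 := ok.lo a ha
  have hl := ok.hl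
  generalize (U.filter fun u => φ c u = a).card = w at *
  have h5 : 2 ≤ l ^ 21 := le_trans (by omega : 2 ≤ l) (Nat.le_self_pow (by norm_num) l)
  have h6 : 2 * (D * sk c a) ≤ (T c).mu a := le_trans (Nat.mul_le_mul_right _ h5) h2
  have h7 : D * b ≤ 2 * (th c * w) := by omega
  refine Nat.le_of_mul_le_mul_left ?_ ok.hD
  calc D * (l ^ 68 * b) = l ^ 68 * (D * b) := by ring
    _ ≤ l ^ 68 * (2 * (th c * w)) := Nat.mul_le_mul_left _ h7
    _ = 2 * w * (l ^ 68 * th c) := by ring
    _ ≤ 2 * w * (2 * D) := Nat.mul_le_mul_left _ h3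
    _ = D * (4 * w) := by ring

theorem EtaAux.w_pos (hF : Fl l D b T U φ th sk) {c a : ℕ} (hc : c < l ^ 68) (ha : a < (T c).N) :
    0 < (U.filter fun u => φ c u = a).card := by
  have h1 := hF.w_lower hc ha
  have h2 := (hF.ok c hc).hl
  have h3 := (hF.ok c hc).hb
  have h4 : 0 < l ^ 68 * b := by positivity
  omega

theorem EtaAux.card_fib {Q : Finset α} {ψ : α → ℕ} {N : ℕ} (h : ∀ u ∈ Q, ψ u < N) :
    Q.card = ∑ a ∈ range N, (Q.filter fun u => ψ u = a).card :=
  card_eq_sum_card_fiberwise fun u hu => mem_coe.2 (mem_range.2 (h u hu))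

theorem Fl.share_univ (hF : Fl l D b T U φ th sk) {c a : ℕ} (hc : c < l ^ 68) (ha : a < (T c).N) :
    share U U (φ c) a = 1 := by
  unfold share
  exact div_self (by exact_mod_cast (EtaAux.w_pos hF hc ha).ne')

theorem Fl.share_sum (hF : Fl l D b T U φ th sk) {Q : Finset α} (hQ : Q ⊆ U) {c : ℕ}
    (hc : c < l ^ 68) :
    ∑ a ∈ range (T c).N, (((T c).mu a : ℝ) / D - sk c a) * share U Q (φ c) a =
      (th c : ℝ) / D * Q.card := by
  have hD : (D : ℝ) ≠ 0 := by exact_mod_cast (hF.ok c hc).hD.ne'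
  rw [EtaAux.card_fib (ψ := φ c) (N := (T c).N) fun u hu => hF.lt c hc u (hQ hu)]
  push_cast
  rw [mul_sum]
  refine sum_congr rfl fun a ha => ?_
  have ha' := mem_range.1 ha
  have hw : (((U.filter fun u => φ c u = a).card : ℕ) : ℝ) ≠ 0 := by
    exact_mod_cast (EtaAux.w_pos hF hc ha').ne'
  unfold share
  rw [hF.mu c hc a ha']
  push_cast
  field_simp
  ring

theorem Fl.sum_n (hF : Fl l D b T U φ th sk) {c : ℕ} (hc : c < l ^ 68) :
    ∑ i ∈ range (T c).k, (T c).n i = th c + ∑ a ∈ range (T c).N, sk c a := by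
  have ok := hF.ok c hc
  refine Nat.eq_of_mul_eq_mul_left ok.hD ?_
  rw [← ok.tot, sum_congr rfl fun a ha => hF.mu c hc a (mem_range.1 ha), sum_add_distrib,
    ← mul_sum, ← mul_sum, ← EtaAux.card_fib (ψ := φ c) (N := (T c).N) (hF.lt c hc), hF.card]
  ring

theorem Fl.eta_le (hF : Fl l D b T U φ th sk) (hl : 1000 ≤ l) {X Q : Finset α} (hX : X ⊆ Q)
    (hQ : Q ⊆ U) (hu : ∀ u ∈ Q \ X, uns (l ^ 68) X φ ow u ≤ l ^ 61) :
    (l : ℝ) ^ 6 * b * eta T (l ^ 68) U X Q φ ow ≤ 4 * (Q \ X).card / l := by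
  have hl0 : (0 : ℝ) < l := by exact_mod_cast (by omega : 0 < l)
  have h1 : ∀ c ∈ range (l ^ 68), (l : ℝ) ^ 68 * b *
      ∑ a ∈ (range (T c).N).filter (fun a => ¬ seen X (φ c) (ow c) (ow c a)),
        share U Q (φ c) a ≤
      4 * (((Q \ X).filter fun u => ¬ seen X (φ c) (ow c) (ow c (φ c u))).card : ℝ) := by
    intro c hc
    have hc' := mem_range.1 hc
    rw [card_eq_sum_card_fiberwise (f := φ c)
      (s := (Q \ X).filter fun u => ¬ seen X (φ c) (ow c) (ow c (φ c u)))
      (t := (range (T c).N).filter fun a => ¬ seen X (φ c) (ow c) (ow c a)) ?_]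
    · push_cast
      rw [mul_sum, mul_sum]
      refine sum_le_sum fun a ha => ?_
      obtain ⟨ha1, ha2⟩ := mem_filter.1 ha
      have ha' := mem_range.1 ha1
      have hw : (0 : ℝ) < (((U.filter fun u => φ c u = a).card : ℕ) : ℝ) := by
        exact_mod_cast EtaAux.w_pos hF hc' ha'
      have hw2 : (l : ℝ) ^ 68 * b ≤ 4 * (((U.filter fun u => φ c u = a).card : ℕ) : ℝ) := by
        exact_mod_cast hF.w_lower hc' ha'
      have e : (Q.filter fun u => φ c u = a) =
          ((Q \ X).filter fun u => ¬ seen X (φ c) (ow c) (ow c (φ c u))).filter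
            fun u => φ c u = a := by
        ext u
        simp only [mem_filter, mem_sdiff]
        constructor
        · rintro ⟨hu1, hu2⟩
          exact ⟨⟨⟨hu1, fun hx => ha2 ⟨u, hx, by rw [hu2]⟩⟩, by rw [hu2]; exact ha2⟩, hu2⟩
        · rintro ⟨⟨⟨hu1, -⟩, -⟩, hu2⟩
          exact ⟨hu1, hu2⟩
      unfold share
      rw [← e, ← mul_div_assoc, div_le_iff₀ hw]
      have : (0 : ℝ) ≤ (((Q.filter fun u => φ c u = a).card : ℕ) : ℝ) := by positivity
      nlinarith
    · intro u hu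
      have hu' := mem_filter.1 (mem_coe.1 hu)
      exact mem_coe.2 (mem_filter.2
        ⟨mem_range.2 (hF.lt c hc' u (hQ (mem_sdiff.1 hu'.1).1)), hu'.2⟩)
  have h2 : ∑ c ∈ range (l ^ 68),
      ((Q \ X).filter fun u => ¬ seen X (φ c) (ow c) (ow c (φ c u))).card ≤
      (Q \ X).card * l ^ 61 := by
    calc _ = ∑ u ∈ Q \ X, uns (l ^ 68) X φ ow u := by
          unfold uns
          simp only [card_filter]
          exact sum_comm
      _ ≤ _ := by
          rw [← smul_eq_mul]
          exact sum_le_card_nsmul _ _ _ hu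
  have h3 : (l : ℝ) ^ 68 * b * eta T (l ^ 68) U X Q φ ow ≤ 4 * ((Q \ X).card * (l : ℝ) ^ 61) := by
    unfold eta
    rw [mul_sum]
    refine (sum_le_sum h1).trans ?_
    rw [← mul_sum]
    exact mul_le_mul_of_nonneg_left (by exact_mod_cast h2) (by norm_num)
  rw [le_div_iff₀ hl0]
  refine le_of_mul_le_mul_left ?_ (by positivity : (0 : ℝ) < (l : ℝ) ^ 61)
  calc (l : ℝ) ^ 61 * ((l : ℝ) ^ 6 * b * eta T (l ^ 68) U X Q φ ow * l)
      = (l : ℝ) ^ 68 * b * eta T (l ^ 68) U X Q φ ow := by ring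
    _ ≤ _ := h3
    _ = _ := by ring

theorem Fl.skel_le (hF : Fl l D b T U φ th sk) (hP : Ps l T z ow tp) {c : ℕ} (hc : c < l ^ 68)
    (i : ℕ) : l ^ 10 * skel (T c).N (sk c) (ow c) i ≤ l ^ 6 * b := by
  have ok := hF.ok c hc
  have hl := ok.hl
  have h1 : ∀ a ∈ (range (T c).N).filter (fun a => ow c a = i), l ^ 21 * sk c a ≤ 5 * l * b := by
    intro a ha
    have ha' := mem_range.1 (mem_filter.1 ha).1
    refine Nat.le_of_mul_le_mul_left ?_ ok.hD
    calc D * (l ^ 21 * sk c a) = l ^ 21 * (D * sk c a) := by ring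
      _ ≤ 5 * l * (D * b) := (hF.skl c hc a ha').trans (ok.hi a ha')
      _ = D * (5 * l * b) := by ring
  have h2 : l ^ 21 * skel (T c).N (sk c) (ow c) i ≤ l ^ 15 * (5 * l * b) := by
    unfold skel
    rw [mul_sum]
    refine (sum_le_card_nsmul _ _ _ h1).trans ?_
    rw [smul_eq_mul]
    exact Nat.mul_le_mul_right _ (hP.size c hc i)
  refine Nat.le_of_mul_le_mul_left ?_ (by positivity : 0 < l ^ 11)
  calc l ^ 11 * (l ^ 10 * skel (T c).N (sk c) (ow c) i)
      = l ^ 21 * skel (T c).N (sk c) (ow c) i := by ring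
    _ ≤ l ^ 15 * (5 * l * b) := h2
    _ = 5 * (l ^ 16 * b) := by ring
    _ ≤ l * (l ^ 16 * b) := Nat.mul_le_mul_right _ (by omega)
    _ = l ^ 11 * (l ^ 6 * b) := by ring

theorem tin_nonneg (N : ℕ) (par o : ℕ → ℕ) (f : ℕ → ℝ) (i : ℕ) : 0 ≤ tin N par o f i := by
  exact sum_nonneg fun _ _ => abs_nonneg _

theorem EtaAux.tin_mono (par o : ℕ → ℕ) (f : ℕ → ℝ) (i : ℕ) {N N' : ℕ} (h : N ≤ N') :
    tin N par o f i ≤ tin N' par o f i :=
  sum_le_sum_of_subset_of_nonneg (filter_subset_filter _ (range_mono h)) fun _ _ _ => abs_nonneg _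

theorem le_tin {N k Δ : ℕ} {par e o t : ℕ → ℕ} (h : PT N par e Δ) (hC : Cut N par k o t)
    (f : ℕ → ℝ) {a a' : ℕ} (ha : a < N) (ha' : a' < N) (he : o a = o a') :
    |f a - f a'| ≤ 2 * tin N par o f (o a) := by
  have key : ∀ x, x < N → |f x - f (t (o x))| ≤ tin (x + 1) par o f (o x) := by
    intro x
    induction x using Nat.strong_induction_on with
    | _ x ih =>
      intro hx
      by_cases hx2 : x = t (o x)
      · rw [← hx2, sub_self, abs_zero]
        exact tin_nonneg _ _ _ _ _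
      · obtain ⟨u1, u2⟩ := hC.up x hx hx2
        have u3 := (h.plt x u1 hx).1
        have u4 := ih (par x) u3 (by omega)
        rw [u2] at u4
        have u5 := EtaAux.tin_mono par o f (o x) (by omega : par x + 1 ≤ x)
        have u6 : tin (x + 1) par o f (o x) = |f x - f (par x)| + tin x par o f (o x) := by
          unfold tin
          rw [range_add_one, filter_insert, if_pos ⟨u1, rfl, u2⟩, sum_insert (by simp)]
        have u7 := abs_sub_le (f x) (f (par x)) (f (t (o x)))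
        linarith
  have h1 := (key a ha).trans (EtaAux.tin_mono par o f (o a) (by omega : a + 1 ≤ N))
  have h2 := (key a' ha').trans (EtaAux.tin_mono par o f (o a') (by omega : a' + 1 ≤ N))
  rw [← he] at h2
  have h3 := abs_sub_le (f a) (f (t (o a))) (f a')
  rw [abs_sub_comm (f (t (o a)))] at h3
  linarith

theorem sum_tin (N k : ℕ) (par o : ℕ → ℕ) (f : ℕ → ℝ) :
    ∑ i ∈ range k, tin N par o f i ≤ tau N par f := by
  unfold tin tau
  simp only [sum_filter]
  rw [sum_comm]
  refine sum_le_sum fun j _ => ?_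
  by_cases hj : 0 < j
  · rw [if_pos hj]
    calc _ ≤ ∑ i ∈ range k, if o j = i then |f j - f (par j)| else 0 := by
          refine sum_le_sum fun i _ => ?_
          by_cases hi : o j = i
          · rw [if_pos hi]
            split_ifs
            · exact le_rfl
            · exact abs_nonneg _
          · rw [if_neg hi, if_neg fun u => hi u.2.1]
      _ ≤ _ := by
          rw [sum_ite_eq]
          split_ifs
          · exact le_rfl
          · exact abs_nonneg _
  · simp [hj]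


end Pool.Agent.Lib.MP_f20cd2_co.PL
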