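import Pool.Agent.Lib.MP_f20cd2_co.PL.Defs

/-!
Positions, strata and centres (D1, first half).
-/

set_option autoImplicit false
set_option linter.unusedSectionVars false

namespace Pool.Agent.Lib.MP_f20cd2_co.PL

open Finset
open Pool.Agent.Lib.MP_f20cd2_co.H83 (Conn Cells)
open scoped Classical

variable {T : TD} {l D b : ℕ}

namespace TD

theorem pos_mono (T : TD) : Monotone T.pos := by
  exact fun a c h => sum_le_sum_of_subset (range_mono h)

theorem pos_succ (T : TD) (a : ℕ) : T.pos (a + 1) = T.pos a + T.mu a := by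
  exact sum_range_succ _ _

theorem st_mono (T : TD) (D : ℕ) : Monotone (T.st D) := by
  exact fun a c h => Nat.mul_le_mul_left _ (sum_le_sum_of_subset (range_mono h))

theorem st_succ (T : TD) (D i : ℕ) : T.st D (i + 1) = T.st D i + D * T.n i := by
  rw [st, st, sum_range_succ, mul_add]

theorem atm_mono (T : TD) : Monotone T.atm := by
  exact fun p q h => Nat.findGreatest_mono_left (fun a (ha : T.pos a ≤ p) => ha.trans h) _

private theorem pos_atm_le (T : TD) (p : ℕ) : T.pos (T.atm p) ≤ p :=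
  Nat.findGreatest_spec (P := fun a => T.pos a ≤ p) (Nat.zero_le T.N) (Nat.zero_le p)

private theorem le_atm (T : TD) {a p : ℕ} (ha : a ≤ T.N) (h : T.pos a ≤ p) : a ≤ T.atm p :=
  Nat.le_findGreatest (P := fun a => T.pos a ≤ p) ha h

private theorem lt_of_pos_lt (T : TD) {a c : ℕ} (h : T.pos a < T.pos c) : a < c :=
  T.pos_mono.reflect_lt h

theorem atm_spec (T : TD) {p : ℕ} (hp : p < T.pos T.N) :
    T.atm p < T.N ∧ T.pos (T.atm p) ≤ p ∧ p < T.pos (T.atm p + 1) := by
  have h1 := T.pos_atm_le p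
  have h2 : T.atm p < T.N := T.lt_of_pos_lt (h1.trans_lt hp)
  refine ⟨h2, h1, ?_⟩
  by_contra h3
  have := T.le_atm (a := T.atm p + 1) h2 (not_lt.1 h3)
  omega

theorem atm_eq (T : TD) {a p : ℕ} (ha : a < T.N) (h1 : T.pos a ≤ p) (h2 : p < T.pos (a + 1)) :
    T.atm p = a := by
  have h3 := T.le_atm ha.le h1
  have h4 := T.lt_of_pos_lt ((T.pos_atm_le p).trans_lt h2)
  omega

theorem ex_lt {x : Fin T.k → ℕ} (hx : x ∈ T.sp D) {i : ℕ} (hi : i < T.k) :
    T.ex x i < D * T.n i := by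
  rw [ex, dif_pos hi]
  exact mem_range.1 (Fintype.mem_piFinset.1 hx ⟨i, hi⟩)

theorem ex_update (x : Fin T.k → ℕ) (j : Fin T.k) (y i : ℕ) (hij : i ≠ j) :
    T.ex (Function.update x j y) i = T.ex x i := by
  unfold ex
  split_ifs with h
  · exact Function.update_of_ne (fun e => hij (congrArg Fin.val e)) _ _
  · rfl

theorem Ok.st_k (h : T.Ok l D b) : T.st D T.k = T.pos T.N := by
  exact h.tot.symm

theorem Ok.k_pos (h : T.Ok l D b) : 0 < T.k := by
  by_contra h0
  have h1 := h.st_k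
  have h2 := T.pos_mono (show 0 + 1 ≤ T.N from h.pt.pos)
  have h3 := h.lo 0 h.pt.pos
  have h4 := Nat.mul_pos h.hD h.hb
  rw [pos_succ] at h2
  rw [show T.k = 0 by omega] at h1
  simp only [st, range_zero, sum_empty, mul_zero] at h1
  omega

private theorem Ok.big (h : T.Ok l D b) : 0 < D * b ∧ 1 ≤ l ^ 6 ∧
    2 * (5 * l * (D * b)) < l ^ 6 * (D * b) := by
  have h1 := Nat.mul_pos h.hD h.hb
  have hl := h.hl
  have h2 := absorb h.hl 11 1 5 (by norm_num)
  refine ⟨h1, Nat.one_le_pow _ _ (by omega), ?_⟩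
  rw [← mul_assoc]
  refine Nat.mul_lt_mul_of_pos_right ?_ h1
  rw [pow_one] at h2
  have h3 : l ^ (1 + 5) = l ^ 6 := rfl
  omega

private theorem Ok.n_bd (h : T.Ok l D b) {i : ℕ} (hi : i < T.k) :
    l ^ 6 * (D * b) ≤ D * T.n i ∧ D * T.n i ≤ 2 * (l ^ 6 * (D * b)) := by
  have h1 := Nat.mul_le_mul_left D (h.nlo i hi)
  have h2 := Nat.mul_le_mul_left D (h.nhi i hi)
  exact ⟨le_of_eq_of_le (by ring) h1, h2.trans_eq (by ring)⟩

private theorem Ok.st_le (h : T.Ok l D b) {i : ℕ} (hi : i ≤ T.k) : T.st D i ≤ T.pos T.N :=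
  (T.st_mono D hi).trans_eq h.st_k

private theorem Ok.pos_add (h : T.Ok l D b) (a r : ℕ) (hr : a + r ≤ T.N) :
    T.pos a + r * (D * b) ≤ T.pos (a + r) := by
  induction r with
  | zero => simp
  | succ r ih =>
    have h1 := ih (by omega)
    have h2 := h.lo (a + r) (by omega)
    rw [← add_assoc, pos_succ, add_mul, one_mul]
    omega

private theorem Ok.fst_spec (h : T.Ok l D b) {i : ℕ} (hi : i < T.k) :
    T.st D i < T.pos (T.fst D i + 1) ∧ T.fst D i + 1 < T.N ∧
      T.pos (T.fst D i + 1 + 1) < T.st D (i + 1) := by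
  have h1 := h.big
  have h2 := h.n_bd hi
  have h3 := h.st_le (i := i + 1) hi
  have h4 := T.st_succ D i
  obtain ⟨h5, h6, h7⟩ := T.atm_spec (p := T.st D i) (by omega)
  have h8 := h.hi _ h5
  have h9 := T.pos_succ (T.atm (T.st D i))
  have h10 : T.atm (T.st D i) + 1 < T.N := T.lt_of_pos_lt (by omega)
  have h11 := h.hi _ h10
  have h12 := T.pos_succ (T.atm (T.st D i) + 1)
  unfold fst
  exact ⟨h7, h10, by omega⟩

theorem Ok.sp_ne (h : T.Ok l D b) (i : Fin T.k) : (range (D * T.n i)).Nonempty := by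
  have h1 := h.big
  have h2 := (h.n_bd i.2).1
  exact nonempty_range_iff.2 (by omega)

theorem Ok.atm_meets (h : T.Ok l D b) {i y : ℕ} (hi : i < T.k) (hy : y < D * T.n i) :
    T.meets D i (T.atm (T.st D i + y)) := by
  have h3 := h.st_le (i := i + 1) hi
  have h4 := T.st_succ D i
  obtain ⟨h5, h6, h7⟩ := T.atm_spec (p := T.st D i + y) (by omega)
  exact ⟨h5, by omega, by omega⟩

theorem Ok.z_meets (h : T.Ok l D b) {x : Fin T.k → ℕ} (hx : x ∈ T.sp D) {i : ℕ} (hi : i < T.k) :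
    T.meets D i (T.z D x i) := by
  exact h.atm_meets hi (ex_lt hx hi)

theorem Ok.zc_meets (h : T.Ok l D b) {x : Fin T.k → ℕ} (hx : x ∈ T.sp D) {i : ℕ} (hi : i < T.k) :
    T.meets D i (T.zc D x i) := by
  unfold zc
  split_ifs with h0
  · obtain ⟨h1, h2, h3⟩ := h.fst_spec hi
    have h4 := T.pos_succ (T.fst D i + 1)
    exact ⟨h2, by omega, by omega⟩
  · exact h.z_meets hx hi

theorem Ok.meets_range (h : T.Ok l D b) {i a : ℕ} (hi : i < T.k) (ha : T.meets D i a) :
    T.fst D i ≤ a ∧ a ≤ T.atm (T.st D (i + 1) - 1) := by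
  obtain ⟨h1, h2, h3⟩ := ha
  have h4 := T.lt_of_pos_lt ((T.pos_atm_le (T.st D i)).trans_lt h3)
  exact ⟨Nat.lt_succ_iff.1 h4, T.le_atm h1.le (by omega)⟩

theorem Ok.z_prev (h : T.Ok l D b) {x : Fin T.k → ℕ} (hx : x ∈ T.sp D) {i : ℕ} (h0 : 0 < i)
    (hi : i < T.k) (he : T.z D x i = T.z D x (i - 1)) : T.z D x i = T.fst D i := by
  obtain ⟨i, rfl⟩ : ∃ j, i = j + 1 := ⟨i - 1, by omega⟩
  refine le_antisymm ?_ (T.atm_mono (Nat.le_add_right _ _))
  rw [he, Nat.add_sub_cancel]
  have h1 := ex_lt hx (show i < T.k by omega)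
  have h2 := T.st_succ D i
  exact T.atm_mono (by omega)

private theorem Ok.zc_succ (h : T.Ok l D b) {x : Fin T.k → ℕ} (hx : x ∈ T.sp D) {i : ℕ}
    (hi : i + 1 < T.k) : T.zc D x i < T.zc D x (i + 1) := by
  have hi' : i < T.k := by omega
  have h1 : T.zc D x i ≤ T.fst D (i + 1) :=
    (h.meets_range hi' (h.zc_meets hx hi')).2.trans (T.atm_mono (Nat.sub_le _ _))
  have h2 : T.fst D (i + 1) ≤ T.z D x (i + 1) := T.atm_mono (Nat.le_add_right _ _)
  have h3 : T.z D x i ≤ T.fst D (i + 1) :=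
    (h.meets_range hi' (h.z_meets hx hi')).2.trans (T.atm_mono (Nat.sub_le _ _))
  obtain ⟨-, h4, h5⟩ := h.fst_spec hi'
  have h6 : T.fst D i + 1 + 1 ≤ T.fst D (i + 1) := T.le_atm h4 h5.le
  have h7 : T.zc D x i = T.fst D i + 1 ∨ T.zc D x i = T.z D x i := by
    unfold zc
    split_ifs
    · exact Or.inl rfl
    · exact Or.inr rfl
  by_cases h8 : T.z D x (i + 1) = T.z D x i
  · have e : T.zc D x (i + 1) = T.fst D (i + 1) + 1 := if_pos ⟨Nat.succ_pos i, h8⟩
    omega
  · have e : T.zc D x (i + 1) = T.z D x (i + 1) := if_neg fun h9 => h8 h9.2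
    omega

theorem Ok.zc_lt (h : T.Ok l D b) {x : Fin T.k → ℕ} (hx : x ∈ T.sp D) {i j : ℕ} (hij : i < j)
    (hj : j < T.k) : T.zc D x i < T.zc D x j := by
  induction j with
  | zero => omega
  | succ j ih =>
    have h1 := h.zc_succ hx hj
    rcases Nat.lt_succ_iff_lt_or_eq.1 hij with h2 | rfl
    · exact (ih h2 (by omega)).trans h1
    · exact h1

theorem Ok.gap (h : T.Ok l D b) {x : Fin T.k → ℕ} (hx : x ∈ T.sp D) (y : ℕ)
    (hy : y + 4 * l ^ 6 ≤ T.N) : ∃ i < T.k, y ≤ T.zc D x i ∧ T.zc D x i < y + 4 * l ^ 6 := by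
  have h1 := h.big
  have h2 := h.pos_add y _ hy
  have h3 := T.pos_mono hy
  have h4 := h.st_k
  rw [mul_assoc] at h2
  have hk : T.pos y ≤ T.st D T.k := by omega
  have hex : ∃ i, T.pos y ≤ T.st D i := ⟨_, hk⟩
  obtain ⟨i, h5, hmin⟩ : ∃ i, T.pos y ≤ T.st D i ∧ ∀ j < i, ¬ T.pos y ≤ T.st D j :=
    ⟨Nat.find hex, Nat.find_spec hex, fun j hj => Nat.find_min hex hj⟩
  have h6 : i ≤ T.k := by
    by_contra h9
    exact hmin _ (not_le.1 h9) hk
  have h7 : T.st D i ≤ T.pos y + 2 * (l ^ 6 * (D * b)) := by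
    rcases Nat.eq_zero_or_pos i with h0 | h0
    · rw [h0]
      simp [st]
    · have h8 := hmin (i - 1) (by omega)
      have h9 := T.st_succ D (i - 1)
      have h10 := (h.n_bd (i := i - 1) (by omega)).2
      rw [Nat.sub_add_cancel h0] at h9
      omega
  have h8 : i < T.k := by
    by_contra h9
    rw [show i = T.k by omega] at h7
    omega
  obtain ⟨-, h9, h10⟩ := h.zc_meets hx h8
  have h11 := T.st_succ D i
  have h12 := (h.n_bd h8).2
  have h13 : y < T.zc D x i + 1 := T.lt_of_pos_lt (by omega)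
  exact ⟨i, h8, by omega, T.lt_of_pos_lt (by omega)⟩

theorem Ok.meets_two (h : T.Ok l D b) (a : ℕ) :
    ((range T.k).filter fun i => T.meets D i a).card ≤ 2 := by
  rcases ((range T.k).filter fun i => T.meets D i a).eq_empty_or_nonempty with h0 | h0
  · rw [h0]
    simp
  · have h1 := mem_filter.1 (min'_mem _ h0)
    refine (card_le_card (t := Icc (min' _ h0) (min' _ h0 + 1)) fun j hj => ?_).trans
      (by rw [Nat.card_Icc]; omega)
    refine mem_Icc.2 ⟨min'_le _ _ hj, ?_⟩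
    by_contra h2
    obtain ⟨h3, h4, -, h5⟩ := mem_filter.1 hj
    have h6 := mem_range.1 h3
    have h7 := h1.2.2.1
    have h8 := T.st_mono D (show min' _ h0 + 1 + 1 ≤ j by omega)
    have h9 := T.st_succ D (min' _ h0 + 1)
    have h10 := (h.n_bd (i := min' _ h0 + 1) (by omega)).1
    have h11 := T.pos_succ a
    have h12 := h.hi a h4
    have h13 := h.big
    omega

theorem Ok.meets_card (h : T.Ok l D b) {i : ℕ} (hi : i < T.k) :
    ((range T.N).filter fun a => T.meets D i a).card ≤ 3 * l ^ 6 := by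
  have h1 := h.big
  refine (card_le_card (t := Ico (T.fst D i) (T.fst D i + 1 + 2 * l ^ 6)) fun a ha => ?_).trans
    (by rw [Nat.card_Ico]; omega)
  have h2 := (mem_filter.1 ha).2
  refine mem_Ico.2 ⟨(h.meets_range hi h2).1, ?_⟩
  obtain ⟨h3, h4, -⟩ := h2
  by_contra h5
  have h6 := h.pos_add (T.fst D i + 1) (2 * l ^ 6) (by omega)
  have h7 := T.pos_mono (not_lt.1 h5)
  have h8 := (h.fst_spec hi).1
  have h9 := T.st_succ D i
  have h10 := (h.n_bd hi).2
  rw [mul_assoc] at h6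
  omega

theorem Ok.hit (h : T.Ok l D b) {j : ℕ} (hj : j < T.k) (a : ℕ) :
    l ^ 5 * ((range (D * T.n j)).filter fun y => T.atm (T.st D j + y) = a).card ≤
      5 * (D * T.n j) := by
  have key : ((range (D * T.n j)).filter fun y => T.atm (T.st D j + y) = a).card ≤
      5 * l * (D * b) := by
    rcases ((range (D * T.n j)).filter fun y => T.atm (T.st D j + y) = a).eq_empty_or_nonempty
      with h0 | ⟨y0, h0⟩
    · rw [h0]
      simp
    · obtain ⟨h1, h2⟩ := mem_filter.1 h0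
      have h3 : a < T.N := h2 ▸ (h.atm_meets hj (mem_range.1 h1)).1
      have h4 := h.hi a h3
      have h5 := T.pos_succ a
      refine (card_le_card (t := Ico (T.pos a - T.st D j) (T.pos (a + 1) - T.st D j))
        fun y hy => ?_).trans (by rw [Nat.card_Ico]; omega)
      obtain ⟨h6, h7⟩ := mem_filter.1 hy
      have h8 := mem_range.1 h6
      have h9 := h.st_le (i := j + 1) hj
      have h10 := T.st_succ D j
      obtain ⟨-, h11, h12⟩ := T.atm_spec (p := T.st D j + y) (by omega)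
      rw [h7] at h11 h12
      exact mem_Ico.2 ⟨by omega, by omega⟩
  refine (Nat.mul_le_mul_left _ key).trans ?_
  exact le_of_eq_of_le (by ring) (Nat.mul_le_mul_left 5 (h.n_bd hj).1)

theorem Ok.sum_strata (h : T.Ok l D b) (g : ℕ → ℝ) :
    ∑ i ∈ range T.k, ∑ y ∈ range (D * T.n i), g (T.atm (T.st D i + y)) =
      ∑ a ∈ range T.N, (T.mu a : ℝ) * g a := by
  have A : ∀ k, ∑ i ∈ range k, ∑ y ∈ range (D * T.n i), g (T.atm (T.st D i + y)) =
      ∑ p ∈ range (T.st D k), g (T.atm p) := by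
    intro k
    induction k with
    | zero => simp [st]
    | succ k ih => rw [sum_range_succ, ih, st_succ, sum_range_add]
  have B : ∀ N ≤ T.N, ∑ p ∈ range (T.pos N), g (T.atm p) = ∑ a ∈ range N, (T.mu a : ℝ) * g a := by
    intro N hN
    induction N with
    | zero => simp [pos]
    | succ N ih =>
      rw [sum_range_succ, ← ih (by omega), pos_succ, sum_range_add]
      congr 1
      rw [sum_congr rfl (g := fun _ => g N) fun y hy => ?_, sum_const, card_range, nsmul_eq_mul]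
      have h1 := mem_range.1 hy
      have h2 := T.pos_succ N
      rw [T.atm_eq (a := N) hN (by omega) (by omega)]
  rw [A, h.st_k, B _ le_rfl]

end TD


end Pool.Agent.Lib.MP_f20cd2_co.PL
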