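import Pool.Agent.Lib.MP_f20cd2_co.PL.Sub

/-!
Depth first enumeration of a rooted tree (C4) and the variation bound (C5).
-/

set_option autoImplicit false
set_option linter.unusedSectionVars false

namespace Pool.Agent.Lib.MP_f20cd2_co.PL

open Finset
open Pool.Agent.Lib.MP_f20cd2_co.H83 (Conn Cells)
open scoped Classical

variable {α : Type} {A : Finset α} {r : α} {par : α → α} {rk : α → ℕ} {Δ : ℕ}

namespace PreAux

/-- The shift that frees the place `t + 1`. -/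
def sh (t j : ℕ) : ℕ := if j ≤ t then j else j + 1

/-- The inverse of the shift. -/
def un (t j : ℕ) : ℕ := if j ≤ t then j else j - 1

lemma sh_ne (t j : ℕ) : sh t j ≠ t + 1 := by
  unfold sh
  split_ifs <;> omega

lemma un_sh (t j : ℕ) : un t (sh t j) = j := by
  unfold un sh
  split_ifs <;> omega

lemma sh_lt {t a b : ℕ} : sh t a < sh t b ↔ a < b := by
  unfold sh
  split_ifs <;> omega

lemma sh_le {t a b : ℕ} : sh t a ≤ sh t b ↔ a ≤ b := by
  unfold sh
  split_ifs <;> omega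

lemma sh_zero (t : ℕ) : sh t 0 = 0 := by
  simp [sh]

lemma sh_self (t : ℕ) : sh t t = t := by
  simp [sh]

lemma sh_top {t n : ℕ} (h : t < n) : sh t n = n + 1 := by
  unfold sh
  split_ifs <;> omega

lemma sh_lt_succ {t a : ℕ} : sh t a < t + 1 ↔ a ≤ t := by
  unfold sh
  split_ifs <;> omega

lemma succ_lt_sh {t a : ℕ} : t + 1 < sh t a ↔ t < a := by
  unfold sh
  split_ifs <;> omega

lemma cases_sh (t j : ℕ) : j = t + 1 ∨ ∃ i, j = sh t i := by
  by_cases h : j = t + 1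
  · exact Or.inl h
  · refine Or.inr ⟨un t j, ?_⟩
    unfold un sh
    split_ifs <;> omega

/-- The enumeration without the degree bound. -/
structure Enum (A : Finset α) (r : α) (par : α → α) (N : ℕ) (nd : ℕ → α) (ix : α → ℕ)
    (p e : ℕ → ℕ) : Prop where
  top : e 0 = N
  plt : ∀ j, 0 < j → j < N → p j < j ∧ j < e (p j)
  ele : ∀ a < N, a < e a ∧ e a ≤ N
  sub : ∀ a < N, ∀ j, a < j → j < e a → a ≤ p j ∧ e j ≤ e a
  nd_mem : ∀ j < N, nd j ∈ A ∧ ix (nd j) = j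
  ix_lt : ∀ v ∈ A, ix v < N ∧ nd (ix v) = v
  root : nd 0 = r
  par_eq : ∀ j, 0 < j → j < N → nd j ≠ r ∧ nd (p j) = par (nd j)

lemma Enum.insert {N : ℕ} {nd : ℕ → α} {ix : α → ℕ} {p e : ℕ → ℕ} {B : Finset α} {v : α}
    (h : Enum B r par N nd ix p e) (hA : ∀ w, w ∈ A ↔ w = v ∨ w ∈ B) (hv : v ∉ B) (hr : v ≠ r)
    (hp : par v ∈ B) : ∃ nd' ix' p' e', Enum A r par (N + 1) nd' ix' p' e' := by
  obtain ⟨ht, hnd⟩ := h.ix_lt _ hp
  generalize ix (par v) = t at ht hnd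
  obtain ⟨nd', n1, n2⟩ : ∃ nd' : ℕ → α, nd' (t + 1) = v ∧ ∀ j, nd' (sh t j) = nd j :=
    ⟨fun j => if j = t + 1 then v else nd (un t j), by simp, fun j => by simp [sh_ne, un_sh]⟩
  obtain ⟨p', p1, p2⟩ : ∃ p' : ℕ → ℕ, p' (t + 1) = t ∧ ∀ j, p' (sh t j) = sh t (p j) :=
    ⟨fun j => if j = t + 1 then t else sh t (p (un t j)), by simp,
      fun j => by simp [sh_ne, un_sh]⟩
  obtain ⟨e', e1, e2⟩ : ∃ e' : ℕ → ℕ, e' (t + 1) = t + 2 ∧ ∀ j, e' (sh t j) = sh t (e j) :=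
    ⟨fun j => if j = t + 1 then t + 2 else sh t (e (un t j)), by simp,
      fun j => by simp [sh_ne, un_sh]⟩
  obtain ⟨ix', i1, i2⟩ : ∃ ix' : α → ℕ, ix' v = t + 1 ∧ ∀ w ∈ B, ix' w = sh t (ix w) :=
    ⟨fun w => if w = v then t + 1 else sh t (ix w), by simp,
      fun w hw => if_neg (fun hwv : w = v => hv (hwv ▸ hw))⟩
  have hN : sh t N = N + 1 := sh_top ht
  have lt_of : ∀ {j}, sh t j < N + 1 → j < N := fun hj => sh_lt.1 (hN ▸ hj)
  have pos_of : ∀ {j}, 0 < sh t j → 0 < j := fun hj => sh_lt.1 ((sh_zero t).symm ▸ hj)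
  refine ⟨nd', ix', p', e', ?_, ?_, ?_, ?_, ?_, ?_, ?_, ?_⟩
  · have := e2 0
    rwa [sh_zero, h.top, hN] at this
  · intro j h0 hj
    rcases cases_sh t j with rfl | ⟨i, rfl⟩
    · have := e2 t
      rw [sh_self] at this
      rw [p1, this]
      exact ⟨by omega, succ_lt_sh.2 (h.ele t ht).1⟩
    · obtain ⟨h1, h2⟩ := h.plt i (pos_of h0) (lt_of hj)
      rw [p2, e2]
      exact ⟨sh_lt.2 h1, sh_lt.2 h2⟩
  · intro a ha
    rcases cases_sh t a with rfl | ⟨i, rfl⟩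
    · rw [e1]
      omega
    · obtain ⟨h1, h2⟩ := h.ele i (lt_of ha)
      rw [e2, ← hN]
      exact ⟨sh_lt.2 h1, sh_le.2 h2⟩
  · intro a ha j haj hje
    rcases cases_sh t a with rfl | ⟨a0, rfl⟩
    · rw [e1] at hje
      omega
    · rw [e2] at hje ⊢
      rcases cases_sh t j with rfl | ⟨i, rfl⟩
      · rw [p1, e1]
        omega
      · obtain ⟨h1, h2⟩ := h.sub a0 (lt_of ha) i (sh_lt.1 haj) (sh_lt.1 hje)
        rw [p2, e2]
        exact ⟨sh_le.2 h1, sh_le.2 h2⟩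
  · intro j hj
    rcases cases_sh t j with rfl | ⟨i, rfl⟩
    · rw [n1]
      exact ⟨(hA v).2 (Or.inl rfl), i1⟩
    · obtain ⟨h1, h2⟩ := h.nd_mem i (lt_of hj)
      rw [n2, i2 _ h1, h2]
      exact ⟨(hA _).2 (Or.inr h1), rfl⟩
  · intro w hw
    rcases (hA w).1 hw with rfl | hw
    · rw [i1, n1]
      exact ⟨by omega, rfl⟩
    · obtain ⟨h1, h2⟩ := h.ix_lt w hw
      rw [i2 w hw, n2, ← hN]
      exact ⟨sh_lt.2 h1, h2⟩
  · have := n2 0
    rwa [sh_zero, h.root] at this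
  · intro j h0 hj
    rcases cases_sh t j with rfl | ⟨i, rfl⟩
    · have := n2 t
      rw [sh_self] at this
      rw [p1, n1, this]
      exact ⟨hr, hnd⟩
    · rw [p2, n2, n2]
      exact h.par_eq i (pos_of h0) (lt_of hj)

lemma exists_enum (n : ℕ) : ∀ A : Finset α, A.card = n + 1 → RTree A r par rk Δ →
    ∃ nd ix p e, Enum A r par (n + 1) nd ix p e := by
  induction n with
  | zero =>
    intro A hc hT
    have hA : ∀ v ∈ A, v = r := fun v hv => card_le_one.1 (by omega) v hv r hT.root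
    refine ⟨fun _ => r, fun _ => 0, fun _ => 0, fun _ => 1, rfl, ?_, ?_, ?_, ?_, ?_, rfl, ?_⟩
    · intro j h0 hj
      omega
    · intro a ha
      omega
    · intro a ha j h1 h2
      omega
    · intro j hj
      exact ⟨hT.root, by omega⟩
    · intro v hv
      exact ⟨by omega, (hA v hv).symm⟩
    · intro j h0 hj
      omega
  | succ n ih =>
    intro A hc hT
    have hne : (A.erase r).Nonempty := by
      rw [← card_pos, card_erase_of_mem hT.root]
      omega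
    obtain ⟨v, hv, hmax⟩ := exists_max_image (A.erase r) rk hne
    obtain ⟨hvr, hvA⟩ := mem_erase.1 hv
    have leaf : ∀ u ∈ A, u ≠ r → par u ≠ v := by
      intro u hu hur hpu
      have h1 := hT.lt u hu hur
      have h2 := hmax u (mem_erase.2 ⟨hur, hu⟩)
      rw [hpu] at h1
      omega
    have hT' : RTree (A.erase v) r par rk Δ := by
      refine ⟨mem_erase.2 ⟨hvr.symm, hT.root⟩, ?_, ?_, ?_⟩
      · intro u hu hur
        have hu' := mem_of_mem_erase hu
        exact mem_erase.2 ⟨leaf u hu' hur, hT.mem u hu' hur⟩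
      · intro u hu hur
        exact hT.lt u (mem_of_mem_erase hu) hur
      · intro u
        exact (card_le_card (filter_subset_filter _ (erase_subset _ _))).trans (hT.deg u)
    obtain ⟨nd, ix, p, e, h⟩ := ih (A.erase v) (by rw [card_erase_of_mem hvA]; omega) hT'
    refine h.insert (v := v) ?_ (notMem_erase _ _) hvr
      (mem_erase.2 ⟨leaf v hvA hvr, hT.mem v hvA hvr⟩)
    intro w
    rw [mem_erase]
    by_cases hw : w = v
    · simp [hw, hvA]
    · simp [hw]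

/-- The variation along the path to the root. -/
noncomputable def dp (p : ℕ → ℕ) (f : ℕ → ℝ) (j : ℕ) : ℝ :=
  if p j < j then dp p f (p j) + |f j - f (p j)| else 0
termination_by j

lemma dp_pos {p : ℕ → ℕ} (f : ℕ → ℝ) {j : ℕ} (h : p j < j) :
    dp p f j = dp p f (p j) + |f j - f (p j)| := by
  rw [dp, if_pos h]

lemma dp_zero (p : ℕ → ℕ) (f : ℕ → ℝ) : dp p f 0 = 0 := by
  rw [dp, if_neg (Nat.not_lt_zero _)]

lemma dp_nonneg (p : ℕ → ℕ) (f : ℕ → ℝ) (j : ℕ) : 0 ≤ dp p f j := by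
  induction j using Nat.strong_induction_on with
  | _ j ih =>
    rw [dp]
    split_ifs with h
    · exact add_nonneg (ih _ h) (abs_nonneg _)
    · exact le_rfl

lemma abs_le_dp {N : ℕ} {p e : ℕ → ℕ} (h : PT N p e Δ) (f : ℕ → ℝ) {a : ℕ} (ha : a < N) (j : ℕ) :
    a ≤ j → j < e a → |f j - f a| ≤ dp p f j - dp p f a := by
  induction j using Nat.strong_induction_on with
  | _ j ih =>
    intro h1 h2
    rcases h1.eq_or_lt with rfl | h1
    · simp
    · have hN := (h.ele a ha).2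
      have h3 := (h.plt j (by omega) (by omega)).1
      have h4 := ih (p j) h3 (h.sub a ha j h1 h2).1 (by omega)
      have h5 := abs_sub_le (f j) (f (p j)) (f a)
      rw [dp_pos f h3]
      linarith

end PreAux

theorem exists_pre (hT : RTree A r par rk Δ) :
    ∃ (nd : ℕ → α) (ix : α → ℕ) (p e : ℕ → ℕ), PT A.card p e Δ ∧
      (∀ j < A.card, nd j ∈ A ∧ ix (nd j) = j) ∧ (∀ v ∈ A, ix v < A.card ∧ nd (ix v) = v) ∧
      nd 0 = r ∧ ∀ j, 0 < j → j < A.card → nd j ≠ r ∧ nd (p j) = par (nd j) := by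
  have hpos : 0 < A.card := card_pos.2 ⟨r, hT.root⟩
  obtain ⟨n, hn⟩ : ∃ n, A.card = n + 1 := ⟨A.card - 1, by omega⟩
  obtain ⟨nd, ix, p, e, h⟩ := PreAux.exists_enum n A hn hT
  rw [← hn] at h
  refine ⟨nd, ix, p, e, ⟨hpos, h.top, h.plt, h.ele, h.sub, fun a => ?_⟩, h.nd_mem, h.ix_lt,
    h.root, h.par_eq⟩
  refine le_trans (card_le_card_of_injOn nd ?_ ?_) (hT.deg (nd a))
  · intro j hj
    simp only [coe_filter, mem_range, Set.mem_ofPred_eq] at hj ⊢
    obtain ⟨h1, h2, h3⟩ := hj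
    obtain ⟨h4, h5⟩ := h.par_eq j h2 h1
    exact ⟨(h.nd_mem j h1).1, h4, by rw [← h5, h3]⟩
  · intro i hi j hj hij
    simp only [coe_filter, mem_range, Set.mem_ofPred_eq] at hi hj
    rw [← (h.nd_mem i hi.1).2, ← (h.nd_mem j hj.1).2, hij]

theorem PT.mono {N Δ' : ℕ} {p e : ℕ → ℕ} (h : PT N p e Δ) (hΔ : Δ ≤ Δ') : PT N p e Δ' := by
  exact ⟨h.pos, h.top, h.plt, h.ele, h.sub, fun a => (h.deg a).trans hΔ⟩

theorem PT.tv {N : ℕ} {p e : ℕ → ℕ} (h : PT N p e Δ) (f : ℕ → ℝ) :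
    ∑ j ∈ range (N - 1), |f (j + 1) - f j| ≤ 2 * tau N p f := by
  obtain ⟨M, rfl⟩ : ∃ M, N = M + 1 := ⟨N - 1, by have := h.pos; omega⟩
  have h1 : tau (M + 1) p f = ∑ j ∈ range M, |f (j + 1) - f (p (j + 1))| := by
    rw [tau, sum_filter, sum_range_succ']
    simp
  have h2 : ∀ j ∈ range M, |f (j + 1) - f j| ≤ 2 * |f (j + 1) - f (p (j + 1))| +
      (PreAux.dp p f j - PreAux.dp p f (j + 1)) := by
    intro j hj
    have hj' := mem_range.1 hj
    obtain ⟨h3, h4⟩ := h.plt (j + 1) (by omega) (by omega)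
    have h5 := PreAux.abs_le_dp h f (a := p (j + 1)) (by omega) j (by omega) (by omega)
    have h6 := abs_sub_le (f (j + 1)) (f (p (j + 1))) (f j)
    rw [abs_sub_comm (f (p (j + 1))) (f j)] at h6
    rw [PreAux.dp_pos f h3]
    linarith
  have h7 := sum_le_sum h2
  rw [sum_add_distrib, ← mul_sum, sum_range_sub', PreAux.dp_zero, ← h1] at h7
  have h8 := PreAux.dp_nonneg p f M
  rw [Nat.add_sub_cancel]
  linarith


end Pool.Agent.Lib.MP_f20cd2_co.PL
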