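import Pool.Agent.Lib.MP_f20cd2_co.PL.GeoA
import Pool.Agent.Lib.MP_f20cd2_co.PL.Pre

/-!
Neighbours, oscillation and the capture property (D1, second half).
-/

set_option autoImplicit false
set_option linter.unusedSectionVars false

namespace Pool.Agent.Lib.MP_f20cd2_co.PL

open Finset
open Pool.Agent.Lib.MP_f20cd2_co.H83 (Conn Cells)
open scoped Classical

variable {T : TD} {l D b : ℕ}

theorem adj_symm {N : ℕ} {par : ℕ → ℕ} {a a' : ℕ} (h : adj N par a a') : adj N par a' a := by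
  exact ⟨h.2.1, h.1, h.2.2.symm⟩

theorem tau_nonneg (N : ℕ) (par : ℕ → ℕ) (f : ℕ → ℝ) : 0 ≤ tau N par f := by
  exact sum_nonneg fun _ _ => abs_nonneg _

namespace TD

theorem Ok.adj_card (h : T.Ok l D b) (a : ℕ) :
    ((range T.N).filter fun a' => adj T.N T.par a a').card ≤ 6 * l ^ 2 := by
  have h1 : ((range T.N).filter fun a' => adj T.N T.par a a') ⊆
      insert (T.par a) ((range T.N).filter fun j => 0 < j ∧ T.par j = a) := by
    intro a' ha'
    obtain ⟨h1, -, -, h2⟩ := mem_filter.1 ha'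
    rcases h2 with h2 | h2
    · exact mem_insert.2 (Or.inl h2.2.symm)
    · exact mem_insert.2 (Or.inr (mem_filter.2 ⟨h1, h2⟩))
  have h2 := (card_le_card h1).trans (card_insert_le _ _)
  have h3 := h.pt.deg a
  have h4 : 1 ≤ l ^ 2 := Nat.one_le_pow _ _ (by have := h.hl; omega)
  omega

theorem nb_spec (T : TD) (f : ℕ → ℝ) (a : ℕ) : T.nb f a = a ∨ adj T.N T.par a (T.nb f a) := by
  unfold nb
  split_ifs with h
  · exact Or.inr h.choose_spec.1
  · exact Or.inl rfl

theorem nb_max (T : TD) (f : ℕ → ℝ) {a a' : ℕ} (h : adj T.N T.par a a') :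
    f a' ≤ f (T.nb f a) := by
  have h1 : ∃ a', adj T.N T.par a a' ∧ ∀ a'', adj T.N T.par a a'' → f a'' ≤ f a' := by
    obtain ⟨c, hc, hm⟩ := exists_max_image ((range T.N).filter fun a' => adj T.N T.par a a') f
      ⟨a', mem_filter.2 ⟨mem_range.2 h.2.1, h⟩⟩
    exact ⟨c, (mem_filter.1 hc).2, fun a'' h'' =>
      hm a'' (mem_filter.2 ⟨mem_range.2 h''.2.1, h''⟩)⟩
  unfold nb
  rw [dif_pos h1]
  exact h1.choose_spec.2 a' h

theorem om_nonneg (T : TD) (f : ℕ → ℝ) (a : ℕ) : 0 ≤ T.om f a := by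
  exact le_max_right _ _

theorem om_le_one (T : TD) {f : ℕ → ℝ} (hf : ∀ a, 0 ≤ f a ∧ f a ≤ 1) (a : ℕ) : T.om f a ≤ 1 := by
  refine max_le ?_ zero_le_one
  have h1 := (hf (T.nb f a)).2
  have h2 := (hf a).1
  linarith

theorem Ok.sum_om_le (h : T.Ok l D b) (f : ℕ → ℝ) :
    ∑ a ∈ range T.N, T.om f a ≤ 2 * tau T.N T.par f := by
  have h1 : ∀ a ∈ range T.N, T.om f a ≤ (if 0 < a then |f a - f (T.par a)| else 0) +
      ∑ j ∈ ((range T.N).filter fun j => 0 < j).filter (fun j => T.par j = a),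
        |f j - f (T.par j)| := by
    intro a _
    have p1 : (0 : ℝ) ≤ if 0 < a then |f a - f (T.par a)| else 0 := by
      split_ifs
      · exact abs_nonneg _
      · exact le_rfl
    have p2 : (0 : ℝ) ≤ ∑ j ∈ ((range T.N).filter fun j => 0 < j).filter (fun j => T.par j = a),
        |f j - f (T.par j)| := sum_nonneg fun _ _ => abs_nonneg _
    refine max_le ?_ (add_nonneg p1 p2)
    rcases T.nb_spec f a with e | ⟨-, hN, ⟨h0, e⟩ | ⟨h0, e⟩⟩
    · rw [e, sub_self]
      exact add_nonneg p1 p2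
    · rw [if_pos h0, e, abs_sub_comm]
      exact (le_abs_self _).trans (le_add_of_nonneg_right p2)
    · refine le_trans ?_ (le_add_of_nonneg_left p1)
      refine le_trans ?_ (single_le_sum (f := fun j => |f j - f (T.par j)|)
        (fun _ _ => abs_nonneg _)
        (mem_filter.2 ⟨mem_filter.2 ⟨mem_range.2 hN, h0⟩, e⟩))
      simp only [e]
      exact le_abs_self _
  refine (sum_le_sum h1).trans (le_of_eq ?_)
  rw [sum_add_distrib, ← sum_filter, sum_fiberwise_of_maps_to, tau, two_mul]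
  intro j hj
  obtain ⟨h2, h3⟩ := mem_filter.1 hj
  have h2 := mem_range.1 h2
  have := (h.pt.plt j h3 h2).1
  exact mem_range.2 (by omega)

theorem Ok.le_sum_om (h : T.Ok l D b) (f : ℕ → ℝ) :
    tau T.N T.par f ≤ 6 * (l : ℝ) ^ 2 * ∑ a ∈ range T.N, T.om f a := by
  have hm : ∀ j ∈ (range T.N).filter (fun j => 0 < j), T.par j ∈ range T.N := by
    intro j hj
    obtain ⟨h2, h3⟩ := mem_filter.1 hj
    have h2 := mem_range.1 h2
    have := (h.pt.plt j h3 h2).1
    exact mem_range.2 (by omega)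
  have h1 : ∀ j ∈ (range T.N).filter (fun j => 0 < j),
      |f j - f (T.par j)| ≤ T.om f j + T.om f (T.par j) := by
    intro j hj
    have ha : adj T.N T.par j (T.par j) :=
      ⟨mem_range.1 (mem_filter.1 hj).1, mem_range.1 (hm j hj), Or.inl ⟨(mem_filter.1 hj).2, rfl⟩⟩
    have a1 := T.nb_max f ha
    have a2 := T.nb_max f (adj_symm ha)
    have a3 : f (T.nb f j) - f j ≤ T.om f j := le_max_left _ _
    have a4 : f (T.nb f (T.par j)) - f (T.par j) ≤ T.om f (T.par j) := le_max_left _ _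
    have a5 := T.om_nonneg f j
    have a6 := T.om_nonneg f (T.par j)
    rw [abs_le]
    constructor <;> linarith
  have h2 : ∑ j ∈ (range T.N).filter (fun j => 0 < j), T.om f j ≤ ∑ a ∈ range T.N, T.om f a :=
    sum_le_sum_of_subset_of_nonneg (filter_subset _ _) fun a _ _ => T.om_nonneg f a
  have h3 : ∑ j ∈ (range T.N).filter (fun j => 0 < j), T.om f (T.par j) ≤
      5 * (l : ℝ) ^ 2 * ∑ a ∈ range T.N, T.om f a := by
    rw [← sum_fiberwise_of_maps_to hm, mul_sum]
    refine sum_le_sum fun a _ => ?_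
    rw [sum_congr rfl fun j hj => by rw [(mem_filter.1 hj).2], sum_const, nsmul_eq_mul,
      filter_filter]
    refine mul_le_mul_of_nonneg_right ?_ (T.om_nonneg f a)
    exact_mod_cast h.pt.deg a
  have h4 : (0 : ℝ) ≤ ∑ a ∈ range T.N, T.om f a := sum_nonneg fun a _ => T.om_nonneg f a
  have h5 : (1 : ℝ) ≤ (l : ℝ) ^ 2 := by
    have : (1000 : ℝ) ≤ l := by exact_mod_cast h.hl
    nlinarith
  have h6 := sum_le_sum h1
  rw [sum_add_distrib] at h6
  unfold tau
  nlinarith

theorem osc_nonneg (T : TD) (D : ℕ) (f : ℕ → ℝ) (i : ℕ) : 0 ≤ T.osc D f i := by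
  exact sum_nonneg fun _ _ => abs_nonneg _

theorem Ok.le_osc (h : T.Ok l D b) (f : ℕ → ℝ) {i a a' : ℕ} (hi : i < T.k) (ha : T.meets D i a)
    (ha' : T.meets D i a') : |f a - f a'| ≤ T.osc D f i := by
  have key : ∀ {c c' : ℕ}, T.meets D i c → T.meets D i c' → c ≤ c' →
      |f c - f c'| ≤ T.osc D f i := by
    intro c c' hc hc' hle
    have h1 := dist_le_Ico_sum_dist f hle
    simp only [Real.dist_eq] at h1
    refine h1.trans ?_
    rw [sum_congr rfl fun j _ => abs_sub_comm (f j) (f (j + 1))]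
    exact sum_le_sum_of_subset_of_nonneg
      (Ico_subset_Ico (h.meets_range hi hc).1 (h.meets_range hi hc').2) fun _ _ _ => abs_nonneg _
  rcases le_total a a' with h1 | h1
  · exact key ha ha' h1
  · rw [abs_sub_comm]
    exact key ha' ha h1

theorem Ok.sum_osc (h : T.Ok l D b) (f : ℕ → ℝ) :
    ∑ i ∈ range T.k, T.osc D f i ≤ 2 * tau T.N T.par f := by
  have hd : ∀ {i j : ℕ}, i < j → Disjoint (Ico (T.fst D i) (T.atm (T.st D (i + 1) - 1)))
      (Ico (T.fst D j) (T.atm (T.st D (j + 1) - 1))) := by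
    intro i j hij
    have h1 : T.atm (T.st D (i + 1) - 1) ≤ T.fst D j :=
      T.atm_mono ((Nat.sub_le _ _).trans (T.st_mono D hij))
    refine disjoint_left.2 fun y hy hy' => ?_
    have := (mem_Ico.1 hy).2
    have := (mem_Ico.1 hy').1
    omega
  unfold osc
  rw [← sum_biUnion]
  · refine le_trans (sum_le_sum_of_subset_of_nonneg ?_ fun _ _ _ => abs_nonneg _) (h.pt.tv f)
    intro y hy
    obtain ⟨i, hi, hy⟩ := mem_biUnion.1 hy
    have hi := mem_range.1 hi
    have h1 : T.st D (i + 1) ≤ T.pos T.N := h.st_k ▸ T.st_mono D hi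
    have h2 : 0 < D * T.n i := by
      obtain ⟨y, hy⟩ := h.sp_ne ⟨i, hi⟩
      exact Nat.zero_lt_of_lt (mem_range.1 hy)
    have h3 := T.st_succ D i
    have h4 := (T.atm_spec (p := T.st D (i + 1) - 1) (by omega)).1
    have := (mem_Ico.1 hy).2
    exact mem_range.2 (by omega)
  · intro i _ j _ hij
    rcases lt_or_gt_of_ne hij with h1 | h1
    · exact hd h1
    · exact (hd h1).symm

theorem Ok.capture (h : T.Ok l D b) (f : ℕ → ℝ) {x : Fin T.k → ℕ} (hx : x ∈ T.sp D) {i : ℕ}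
    (hi : i < T.k) :
    T.gn D f x i ≤ 0 ∨ ∃ a < T.N, adj T.N T.par a (T.zc D x i) ∧ (∀ j < T.k, T.zc D x j ≠ a) ∧
      (∀ j < T.k, j ≠ i → ¬ adj T.N T.par a (T.zc D x j)) ∧
      T.gn D f x i ≤ f a - f (T.zc D x i) := by
  by_cases hc : T.clean D f x i (T.z D x i)
  swap
  · left
    rw [gn, if_neg hc]
  by_cases h0 : f (T.nb f (T.z D x i)) - f (T.z D x i) ≤ 0
  · left
    rw [gn, if_pos hc]
    exact max_le h0 le_rfl
  right
  have hz : T.zc D x i = T.z D x i := by
    rw [zc, if_neg]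
    exact fun h1 => hc.1 ⟨h1.1, h1.2.symm⟩
  have hne : T.nb f (T.z D x i) ≠ T.z D x i := fun e => h0 (by rw [e, sub_self])
  have ha : adj T.N T.par (T.z D x i) (T.nb f (T.z D x i)) := (T.nb_spec f _).resolve_left hne
  have key : ∀ j < T.k, j ≠ i → ¬ (T.zc D x j = T.nb f (T.z D x i) ∨
      adj T.N T.par (T.nb f (T.z D x i)) (T.zc D x j)) := by
    intro j hj hji hor
    obtain ⟨h1, h2⟩ := hc.2 j hj hji _ hor (h.zc_meets hx hj)
    apply h1
    rw [zc, if_neg]
    exact fun h3 => h2 (h.z_prev hx h3.1 hj h3.2)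
  refine ⟨T.nb f (T.z D x i), ha.2.1, by rw [hz]; exact adj_symm ha, fun j hj => ?_,
    fun j hj hji h1 => key j hj hji (Or.inr h1), ?_⟩
  · by_cases hji : j = i
    · rw [hji, hz]
      exact hne.symm
    · exact fun e => key j hj hji (Or.inl e)
  · rw [gn, if_pos hc, hz]
    exact max_le le_rfl (not_le.1 h0).le

/-- A constant function gives nothing. -/
theorem Ok.psi_one (h : T.Ok l D b) {f : ℕ → ℝ} (hf : ∀ a < T.N, f a = 1) (m : ℕ)
    {x : Fin T.k → ℕ} (hx : x ∈ T.sp D) : T.Psi D m f x = 0 ∧ tau T.N T.par f = 0 := by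
  constructor
  · have h1 : ∀ i ∈ range T.k, T.gn D f x i = 0 := by
      intro i hi
      have hz := (h.z_meets hx (mem_range.1 hi)).1
      have hn : T.nb f (T.z D x i) < T.N := by
        rcases T.nb_spec f (T.z D x i) with e | e
        · rwa [e]
        · exact e.2.1
      rw [gn, om, hf _ hz, hf _ hn]
      simp
    have h2 : ∀ i ∈ range T.k, (T.n i : ℝ) * f (T.zc D x i) = T.n i := by
      intro i hi
      rw [hf _ (h.zc_meets hx (mem_range.1 hi)).1, mul_one]
    have h3 : ∀ a ∈ range T.N, (T.mu a : ℝ) / D * f a = (T.mu a : ℝ) / D := by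
      intro a ha
      rw [hf _ (mem_range.1 ha), mul_one]
    have h4 : ∑ a ∈ range T.N, (T.mu a : ℝ) = D * ∑ i ∈ range T.k, (T.n i : ℝ) := by
      exact_mod_cast h.tot
    have h5 : (D : ℝ) ≠ 0 := Nat.cast_ne_zero.2 h.hD.ne'
    rw [Psi, dev, sum_eq_zero h1, sum_congr rfl h2, sum_congr rfl h3, ← sum_div, h4]
    field_simp
    ring
  · refine sum_eq_zero fun j hj => ?_
    obtain ⟨h2, h3⟩ := mem_filter.1 hj
    have h2 := mem_range.1 h2
    have := (h.pt.plt j h3 h2).1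
    rw [hf j h2, hf _ (by omega), sub_self, abs_zero]

end TD


end Pool.Agent.Lib.MP_f20cd2_co.PL
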