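import Pool.Agent.Lib.MP_f20cd2_co.PL.Mgf

/-!
A sample that is good for all sets of atoms at once (D4).
-/

set_option autoImplicit false
set_option linter.unusedSectionVars false

namespace Pool.Agent.Lib.MP_f20cd2_co.PL

open Finset
open Pool.Agent.Lib.MP_f20cd2_co.H83 (Conn Cells)
open scoped Classical

namespace GoodXAux

lemma mem_bd {T : ℕ → TD} {J : ℕ} {Z : Finset (ℕ × ℕ)} {p : ℕ × ℕ} :
    p ∈ bd T J Z ↔ p ∈ atoms T J ∧
      ((p.2 = 0 ∧ p ∈ Z) ∨ (0 < p.2 ∧ ¬ (p ∈ Z ↔ (p.1, (T p.1).par p.2) ∈ Z))) := by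
  unfold bd
  simp only [mem_filter]

/-- One point of a product space is at most the average of a positive combination of products. -/
lemma exists_le_avg {X : ℕ → Type} (x0 : ∀ c, X c) (S : ∀ c, Finset (X c)) {κ : Type}
    (I : Finset κ) (g : κ → ∀ c, X c → ℝ) (hg : ∀ Z c y, 0 ≤ g Z c y) (B : κ → ℕ → ℝ)
    (hB0 : ∀ Z c, 0 ≤ B Z c) (J : ℕ) (hS : ∀ c < J, (S c).Nonempty)
    (hB : ∀ Z ∈ I, ∀ c < J, ∑ y ∈ S c, g Z c y ≤ (S c).card * B Z c) (w : κ → ℝ)
    (hw : ∀ Z, 0 ≤ w Z) :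
    ∃ x : ∀ c, X c, (∀ c < J, x c ∈ S c) ∧
      ∑ Z ∈ I, w Z * ∏ c ∈ range J, g Z c (x c) ≤ ∑ Z ∈ I, w Z * ∏ c ∈ range J, B Z c := by
  induction J generalizing w with
  | zero => exact ⟨x0, fun c hc => absurd hc (Nat.not_lt_zero c), by simp⟩
  | succ J ih =>
    obtain ⟨x, hx, hle⟩ := ih (fun c hc => hS c (by omega))
      (fun Z hZ c hc => hB Z hZ c (by omega)) (fun Z => w Z * B Z J)
      (fun Z => mul_nonneg (hw Z) (hB0 Z J))
    have hsum : ∑ y ∈ S J, ∑ Z ∈ I, (w Z * ∏ c ∈ range J, g Z c (x c)) * g Z J y ≤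
        ∑ _y ∈ S J, ∑ Z ∈ I, w Z * B Z J * ∏ c ∈ range J, g Z c (x c) := by
      rw [sum_comm, sum_const, nsmul_eq_mul, mul_sum]
      refine sum_le_sum fun Z hZ => ?_
      rw [← mul_sum]
      have h0 : 0 ≤ w Z * ∏ c ∈ range J, g Z c (x c) :=
        mul_nonneg (hw Z) (prod_nonneg fun c _ => hg Z c _)
      calc (w Z * ∏ c ∈ range J, g Z c (x c)) * ∑ y ∈ S J, g Z J y
          ≤ (w Z * ∏ c ∈ range J, g Z c (x c)) * ((S J).card * B Z J) :=
            mul_le_mul_of_nonneg_left (hB Z hZ J (by omega)) h0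
        _ = _ := by ring
    obtain ⟨y, hy, hyle⟩ := exists_le_of_sum_le (hS J (by omega)) hsum
    refine ⟨Function.update x J y, fun c hc => ?_, ?_⟩
    · by_cases hcJ : c = J
      · subst hcJ
        rwa [Function.update_self]
      · rw [Function.update_of_ne hcJ]
        exact hx c (by omega)
    · have e1 : ∀ Z, ∏ c ∈ range (J + 1), g Z c (Function.update x J y c) =
          (∏ c ∈ range J, g Z c (x c)) * g Z J y := by
        intro Z
        rw [prod_range_succ, Function.update_self]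
        congr 1
        refine prod_congr rfl fun c hc => ?_
        rw [Function.update_of_ne (mem_range.1 hc).ne]
      calc ∑ Z ∈ I, w Z * ∏ c ∈ range (J + 1), g Z c (Function.update x J y c)
          = ∑ Z ∈ I, (w Z * ∏ c ∈ range J, g Z c (x c)) * g Z J y :=
            sum_congr rfl fun Z _ => by rw [e1, mul_assoc]
        _ ≤ ∑ Z ∈ I, w Z * B Z J * ∏ c ∈ range J, B Z c := hyle.trans hle
        _ = _ := sum_congr rfl fun Z _ => by rw [prod_range_succ]; ring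

lemma card_atoms (T : ℕ → TD) (J : ℕ) : (atoms T J).card ≤ ∑ c ∈ range J, (T c).N := by
  unfold atoms
  refine card_biUnion_le.trans (sum_le_sum fun c _ => ?_)
  exact card_image_le.trans (card_range _).le

lemma sp_nonempty {T : TD} {l D b : ℕ} (h : T.Ok l D b) : (T.sp D).Nonempty := by
  refine ⟨fun _ => 0, Fintype.mem_piFinset.2 fun i => mem_range.2 ?_⟩
  have h1 := h.nlo i i.2
  have h2 : 0 < l ^ 6 * b := Nat.mul_pos (pow_pos (by have := h.hl; omega) 6) h.hb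
  exact Nat.mul_pos h.hD (by omega)

lemma small (l n : ℕ) (hl : 1000 ≤ l) (hn : n < 2 ^ l) :
    2 * ((n : ℝ) * Real.exp (-(l : ℝ) ^ 2)) < 1 := by
  have h1 : (n : ℝ) ≤ Real.exp l := by
    refine le_trans ?_ (two_pow_le_exp l)
    exact_mod_cast hn.le
  have hl' : (1000 : ℝ) ≤ l := by exact_mod_cast hl
  have h2 : (n : ℝ) * Real.exp (-(l : ℝ) ^ 2) ≤ Real.exp (-2) := by
    calc (n : ℝ) * Real.exp (-(l : ℝ) ^ 2) ≤ Real.exp l * Real.exp (-(l : ℝ) ^ 2) :=
          mul_le_mul_of_nonneg_right h1 (Real.exp_pos _).le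
      _ = Real.exp (l + -(l : ℝ) ^ 2) := (Real.exp_add _ _).symm
      _ ≤ Real.exp (-2) := Real.exp_le_exp.2 (by nlinarith)
  have h3 : Real.exp (-2) * Real.exp 2 = 1 := by rw [← Real.exp_add]; simp
  have h4 : (2 : ℝ) + 1 ≤ Real.exp 2 := Real.add_one_le_exp 2
  have h5 := Real.exp_pos (-2)
  nlinarith

end GoodXAux

open GoodXAux

theorem bd_inj {T : ℕ → TD} {J : ℕ} (hp : ∀ c < J, ∀ j, 0 < j → j < (T c).N → (T c).par j < j)
    {Z Z' : Finset (ℕ × ℕ)} (hZ : Z ⊆ atoms T J) (hZ' : Z' ⊆ atoms T J)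
    (h : bd T J Z = bd T J Z') : Z = Z' := by
  have key : ∀ c < J, ∀ a, a < (T c).N → ((c, a) ∈ Z ↔ (c, a) ∈ Z') := by
    intro c hc a
    induction a using Nat.strong_induction_on with
    | _ a ih =>
      intro ha
      have hm : (c, a) ∈ atoms T J := mem_atoms.2 ⟨hc, ha⟩
      have hb : (c, a) ∈ bd T J Z ↔ (c, a) ∈ bd T J Z' := by rw [h]
      rw [mem_bd, mem_bd] at hb
      rcases Nat.eq_zero_or_pos a with h0 | h0
      · subst h0
        simp only [hm, true_and, lt_self_iff_false, false_and, or_false] at hb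
        exact hb
      · have hlt := hp c hc a h0 ha
        have := ih _ hlt (hlt.trans ha)
        simp only [hm, true_and, h0, h0.ne', false_and, false_or] at hb
        tauto
  ext ⟨c, a⟩
  constructor
  · intro hm
    obtain ⟨hc, ha⟩ := mem_atoms.1 (hZ hm)
    exact (key c hc a ha).1 hm
  · intro hm
    obtain ⟨hc, ha⟩ := mem_atoms.1 (hZ' hm)
    exact (key c hc a ha).2 hm

theorem good_x (l D b : ℕ) (hl : 1000 ≤ l) (T : ℕ → TD) (hok : ∀ c < l ^ 68, (T c).Ok l D b)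
    (hN : ∑ c ∈ range (l ^ 68), (T c).N < 2 ^ l) (f : Finset (ℕ × ℕ) → ℕ → ℕ → ℝ)
    (hf : ∀ Z c a, 0 ≤ f Z c a ∧ f Z c a ≤ 1)
    (h1 : ∀ c < l ^ 68, ∀ a < (T c).N, f ∅ c a = 1) :
    ∃ x : (c : ℕ) → Fin (T c).k → ℕ, (∀ c < l ^ 68, x c ∈ (T c).sp D) ∧
      ∀ Z ⊆ atoms T (l ^ 68),
        3 / 2 / (l : ℝ) ^ 9 * ((l : ℝ) ^ 6 * b) *
            ∑ c ∈ range (l ^ 68), tau (T c).N (T c).par (f Z c) -
          (l : ℝ) ^ 6 * b * (l : ℝ) ^ 25 * (bd T (l ^ 68) Z).card ≤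
        ∑ c ∈ range (l ^ 68), (T c).Psi D (l ^ 6 * b) (f Z c) (x c) := by
  have hl0 : 0 < l := by omega
  have hJ : 0 < l ^ 68 := pow_pos hl0 68
  have hb : 0 < b := (hok 0 hJ).hb
  generalize l ^ 68 = J at *
  have hlR : (0 : ℝ) < l := by exact_mod_cast hl0
  have hbR : (0 : ℝ) < b := by exact_mod_cast hb
  set m : ℝ := (l : ℝ) ^ 6 * b with hm
  have hm0 : 0 < m := by positivity
  set lam : ℝ := 1 / ((l : ℝ) ^ 23 * m) with hlam
  have hlam0 : 0 < lam := by positivity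
  have hp : ∀ c < J, ∀ j, 0 < j → j < (T c).N → (T c).par j < j :=
    fun c hc j h0 hj => ((hok c hc).pt.plt j h0 hj).1
  set τ : Finset (ℕ × ℕ) → ℕ → ℝ := fun Z c => tau (T c).N (T c).par (f Z c) with hτ
  set thr : Finset (ℕ × ℕ) → ℝ := fun Z => 3 / 2 / (l : ℝ) ^ 9 * m * ∑ c ∈ range J, τ Z c -
    m * (l : ℝ) ^ 25 * (bd T J Z).card with hthr
  obtain ⟨x, hx, hle⟩ := exists_le_avg (X := fun c => Fin (T c).k → ℕ) (fun _ _ => 0)
    (fun c => (T c).sp D) ((atoms T J).powerset.filter fun Z => Z.Nonempty)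
    (fun Z c y => Real.exp (-(lam * (T c).Psi D (l ^ 6 * b) (f Z c) y)))
    (fun _ _ _ => (Real.exp_pos _).le)
    (fun Z c => Real.exp (-(lam * (2 / (l : ℝ) ^ 9 * m * τ Z c)) +
      lam ^ 2 * ((l : ℝ) ^ 14 * m ^ 2 * τ Z c) / 2))
    (fun _ _ => (Real.exp_pos _).le) J (fun c hc => sp_nonempty (hok c hc))
    (fun Z _ c hc => (hok c hc).mgf (hf Z c) lam hlam0.le)
    (fun Z => Real.exp (lam * thr Z)) (fun _ => (Real.exp_pos _).le)
  have hR : ∀ Z, Real.exp (lam * thr Z) * ∏ c ∈ range J,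
      Real.exp (-(lam * (2 / (l : ℝ) ^ 9 * m * τ Z c)) +
        lam ^ 2 * ((l : ℝ) ^ 14 * m ^ 2 * τ Z c) / 2) =
      Real.exp (-(l : ℝ) ^ 2) ^ (bd T J Z).card := by
    intro Z
    rw [← Real.exp_sum, ← Real.exp_add, ← Real.exp_nat_mul]
    congr 1
    have e : ∀ c, -(lam * (2 / (l : ℝ) ^ 9 * m * τ Z c)) +
        lam ^ 2 * ((l : ℝ) ^ 14 * m ^ 2 * τ Z c) / 2 = -(3 / 2 / (l : ℝ) ^ 32) * τ Z c := by
      intro c
      rw [hlam]
      field_simp
      ring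
    rw [sum_congr rfl fun c _ => e c, ← mul_sum, hthr, hlam]
    field_simp
    ring
  have hsm := small l (atoms T J).card hl ((card_atoms T J).trans_lt hN)
  have hx0 : 0 ≤ Real.exp (-(l : ℝ) ^ 2) := (Real.exp_pos _).le
  have hbd : ∀ Z, bd T J Z ⊆ atoms T J := fun Z p hp' => (mem_bd.1 hp').1
  have hbe : bd T J ∅ = ∅ := by
    refine eq_empty_of_forall_notMem fun p hp' => ?_
    have := (mem_bd.1 hp').2
    simp at this
  have hS : ∑ Z ∈ (atoms T J).powerset.filter (fun Z => Z.Nonempty),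
      Real.exp (-(l : ℝ) ^ 2) ^ (bd T J Z).card < 1 := by
    have hinj : Set.InjOn (bd T J)
        (((atoms T J).powerset.filter fun Z => Z.Nonempty : Finset _) : Set _) := by
      intro Z hZ Z' hZ' h
      exact bd_inj hp (mem_powerset.1 (mem_filter.1 hZ).1) (mem_powerset.1 (mem_filter.1 hZ').1) h
    rw [← sum_image (f := fun S : Finset (ℕ × ℕ) => Real.exp (-(l : ℝ) ^ 2) ^ S.card) hinj]
    refine lt_of_le_of_lt (le_trans (sum_le_sum_of_subset_of_nonneg ?_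
      fun _ _ _ => pow_nonneg hx0 _) (sum_pow_card_le (atoms T J) _ hx0 (by linarith))) hsm
    intro S hS
    obtain ⟨Z, hZ, rfl⟩ := mem_image.1 hS
    obtain ⟨hZ1, hZ2⟩ := mem_filter.1 hZ
    refine mem_filter.2 ⟨mem_powerset.2 (hbd Z), nonempty_iff_ne_empty.2 fun he => ?_⟩
    exact hZ2.ne_empty (bd_inj hp (mem_powerset.1 hZ1) (empty_subset _) (he.trans hbe.symm))
  refine ⟨x, hx, fun Z hZ => ?_⟩
  rcases Z.eq_empty_or_nonempty with rfl | hne
  · have e1 : ∑ c ∈ range J, (T c).Psi D (l ^ 6 * b) (f ∅ c) (x c) = 0 :=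
      sum_eq_zero fun c hc => ((hok c (mem_range.1 hc)).psi_one (h1 c (mem_range.1 hc)) _
        (hx c (mem_range.1 hc))).1
    have e2 : ∑ c ∈ range J, tau (T c).N (T c).par (f ∅ c) = 0 :=
      sum_eq_zero fun c hc => ((hok c (mem_range.1 hc)).psi_one (h1 c (mem_range.1 hc)) 0
        (hx c (mem_range.1 hc))).2
    rw [e1, e2, hbe]
    simp
  · rw [sum_congr rfl fun Z _ => hR Z] at hle
    have hone := (single_le_sum (f := fun Z => Real.exp (lam * thr Z) * ∏ c ∈ range J,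
      Real.exp (-(lam * (T c).Psi D (l ^ 6 * b) (f Z c) (x c))))
      (fun Z _ => mul_nonneg (Real.exp_pos _).le (prod_nonneg fun _ _ => (Real.exp_pos _).le))
      (mem_filter.2 ⟨mem_powerset.2 hZ, hne⟩)).trans (hle.trans hS.le)
    rw [← Real.exp_sum, ← Real.exp_add, Real.exp_le_one_iff, sum_neg_distrib, ← mul_sum] at hone
    have : lam * thr Z ≤ lam * ∑ c ∈ range J, (T c).Psi D (l ^ 6 * b) (f Z c) (x c) := by
      linarith
    exact le_of_mul_le_mul_left this hlam0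


end Pool.Agent.Lib.MP_f20cd2_co.PL
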