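import Pool.Agent.Lib.MP_f20cd2_co.PL.Basic

/-!
A level at which the number of components does not halve (B3).
-/

set_option autoImplicit false
set_option linter.unusedSectionVars false

namespace Pool.Agent.Lib.MP_f20cd2_co.PL

open Finset
open Pool.Agent.Lib.MP_f20cd2_co.H83 (Conn Cells)
open scoped Classical

variable {V : Type} [Fintype V] [DecidableEq V] {G : SimpleGraph V}

namespace LevAux

lemma rch_symm {Y : Finset V} {v w : V} (h : Rch G Y v w) : Rch G Y w v := by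
  unfold Rch at h ⊢
  induction h with
  | refl => exact Relation.ReflTransGen.refl
  | tail _ hbc ih => exact Relation.ReflTransGen.head ⟨hbc.2.1, hbc.1, hbc.2.2.symm⟩ ih

lemma rch_mono {Y Y' : Finset V} (hY : Y ⊆ Y') {v w : V} (h : Rch G Y v w) : Rch G Y' v w := by
  unfold Rch at h ⊢
  induction h with
  | refl => exact Relation.ReflTransGen.refl
  | tail _ hbc ih => exact Relation.ReflTransGen.tail ih ⟨hY hbc.1, hY hbc.2.1, hbc.2.2⟩

lemma rch_of_cmp {Y : Finset V} {v w : V} (h : cmp G Y v = cmp G Y w) : Rch G Y v w := by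
  rw [← mem_cmp, h, mem_cmp]
  exact Relation.ReflTransGen.refl

lemma lab_of_rch {Y B : Finset V} (hY : Y ⊆ B) {lab : V → ℕ}
    (hl : ∀ v ∈ B, ∀ w ∈ B, G.Adj v w → lab v = lab w) {v w : V} (h : Rch G Y v w) :
    lab v = lab w := by
  unfold Rch at h
  induction h with
  | refl => rfl
  | tail _ hbc ih => exact ih.trans (hl _ (hY hbc.1) _ (hY hbc.2.1) hbc.2.2)

lemma card_image_le_of {α β γ : Type} [DecidableEq β] [DecidableEq γ] (S : Finset α) (f : α → β)
    (g : α → γ) (h : ∀ a ∈ S, ∀ b ∈ S, f a = f b → g a = g b) :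
    (S.image g).card ≤ (S.image f).card := by
  rcases S.eq_empty_or_nonempty with rfl | ⟨a0, _⟩
  · simp
  let k : β → γ := fun y => if hy : ∃ a ∈ S, f a = y then g hy.choose else g a0
  refine le_trans (card_le_card (t := (S.image f).image k) fun z hz => ?_) card_image_le
  obtain ⟨a, ha, rfl⟩ := mem_image.1 hz
  have hy : ∃ a' ∈ S, f a' = f a := ⟨a, ha, rfl⟩
  refine mem_image.2 ⟨f a, mem_image_of_mem _ ha, ?_⟩
  simp only [k]
  rw [dif_pos hy]
  exact h _ hy.choose_spec.1 _ ha hy.choose_spec.2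

lemma exists_not_half (N : ℕ → ℕ) (l : ℕ) (h0 : N 0 < 2 ^ l) (hl : 1 ≤ N l) :
    ∃ i < l, N i < 2 * N (i + 1) := by
  by_contra hc
  push Not at hc
  have key : ∀ k ≤ l, 2 ^ k * N k ≤ N 0 := by
    intro k
    induction k with
    | zero => simp
    | succ k ih =>
      intro hk
      have h1 := ih (by omega)
      have h2 := hc k (by omega)
      calc 2 ^ (k + 1) * N (k + 1) = 2 ^ k * (2 * N (k + 1)) := by ring
        _ ≤ 2 ^ k * N k := Nat.mul_le_mul_left _ h2
        _ ≤ N 0 := h1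
  have h3 := key l le_rfl
  have h4 : 2 ^ l * 1 ≤ 2 ^ l * N l := Nat.mul_le_mul_left _ hl
  omega

end LevAux

open LevAux

theorem cmp_eq {Y : Finset V} {v w : V} (h : Rch G Y v w) : cmp G Y v = cmp G Y w := by
  ext u
  rw [mem_cmp, mem_cmp]
  exact ⟨fun hu => Relation.ReflTransGen.trans (rch_symm h) hu,
    fun hu => Relation.ReflTransGen.trans h hu⟩

namespace LevAux

lemma cms_anti {Y0 Y Y' : Finset V} (hY : Y ⊆ Y') : (cms G Y0 Y').card ≤ (cms G Y0 Y).card :=
  card_image_le_of Y0 _ _ fun _ _ _ _ h => cmp_eq (rch_mono hY (rch_of_cmp h))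

/-- The grouping of the components of one level by the components of a larger level. -/
lemma exists_gamma (Y0 Y Y' : Finset V) (hY : Y ⊆ Y') :
    ∃ γ ∈ gset (cms G Y0 Y) (Fintype.card V),
      ((cms G Y0 Y).image γ).card = (cms G Y0 Y').card ∧
        ∀ a ∈ Y0, ∀ b ∈ Y0, Rch G Y' a b → γ (cmp G Y a) = γ (cmp G Y b) := by
  let idx : Finset V → ℕ := fun K =>
    if h : ∃ v ∈ Y0, cmp G Y' v = K then (Fintype.equivFin V h.choose : ℕ) else 0
  let γ : Finset V → ℕ := fun C =>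
    if h : ∃ v ∈ Y0, cmp G Y v = C then idx (cmp G Y' h.choose) else 0
  have hγ : ∀ a ∈ Y0, γ (cmp G Y a) = idx (cmp G Y' a) := by
    intro a ha
    have h : ∃ v ∈ Y0, cmp G Y v = cmp G Y a := ⟨a, ha, rfl⟩
    simp only [γ]
    rw [dif_pos h, cmp_eq (rch_mono hY (rch_of_cmp h.choose_spec.2))]
  have hlt : ∀ a ∈ Y0, idx (cmp G Y' a) < Fintype.card V := by
    intro a ha
    have h : ∃ v ∈ Y0, cmp G Y' v = cmp G Y' a := ⟨a, ha, rfl⟩
    simp only [idx]
    rw [dif_pos h]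
    exact Fin.is_lt _
  have hinj : ∀ a ∈ Y0, ∀ b ∈ Y0, idx (cmp G Y' a) = idx (cmp G Y' b) →
      cmp G Y' a = cmp G Y' b := by
    intro a ha b hb hab
    have h : ∃ v ∈ Y0, cmp G Y' v = cmp G Y' a := ⟨a, ha, rfl⟩
    have h' : ∃ v ∈ Y0, cmp G Y' v = cmp G Y' b := ⟨b, hb, rfl⟩
    simp only [idx] at hab
    rw [dif_pos h, dif_pos h'] at hab
    have h2 : h.choose = h'.choose := (Fintype.equivFin V).injective (Fin.ext hab)
    rw [← h.choose_spec.2, ← h'.choose_spec.2, h2]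
  refine ⟨γ, ?_, ?_, ?_⟩
  · rw [gset, Fintype.mem_piFinset]
    intro C
    by_cases hC : C ∈ cms G Y0 Y
    · rw [if_pos hC]
      obtain ⟨a, ha, rfl⟩ := mem_image.1 hC
      rw [hγ a ha]
      exact mem_range.2 (hlt a ha)
    · rw [if_neg hC, mem_singleton]
      simp only [γ]
      rw [dif_neg fun h => hC (mem_image.2 h)]
  · rw [cms, cms, image_image]
    refine le_antisymm (card_image_le_of Y0 _ _ fun a ha b hb h => ?_)
      (card_image_le_of Y0 _ _ fun a ha b hb h => ?_)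
    · simp only [Function.comp]
      rw [hγ a ha, hγ b hb, h]
    · simp only [Function.comp] at h
      rw [hγ a ha, hγ b hb] at h
      exact hinj a ha b hb h
  · intro a ha b hb h
    rw [hγ a ha, hγ b hb, cmp_eq h]

/-- Most labels of a bad separator occur on the dominating set. -/
lemma many_labels (M : ℕ) (hM : 0 < M) (t t' : ℝ) (ht' : 0 < t') (ht : 16 * M * t' ≤ t)
    (W0 F B : Finset V) (hD : Dom G M t W0) (hB : W0 \ F ⊆ B) (c : ℕ) (hc : 0 < c) (lab : V → ℕ)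
    (h1 : ∀ j < c, ∃ v ∈ B, lab v = j) (h2 : ∀ v ∈ B, ∀ w ∈ B, G.Adj v w → lab v = lab w)
    (hF : (F.card : ℝ) < t' * c) : 3 * c < 4 * ((W0 \ F).image lab).card := by
  have : Nonempty V := ⟨(h1 0 hc).choose⟩
  choose! rep hrep using h1
  let J : Finset ℕ := range c \ (W0 \ F).image lab
  have hJ : ∀ j ∈ J, rep j ∈ B ∧ lab (rep j) = j := fun j hj =>
    hrep j (mem_range.1 (mem_sdiff.1 hj).1)
  have hcard : (J.image rep).card = J.card :=
    card_image_of_injOn fun j hj j' hj' h => by rw [← (hJ j hj).2, ← (hJ j' hj').2, h]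
  have hind : Ind G (J.image rep) := by
    intro u hu v hv hadj
    obtain ⟨j, hj, rfl⟩ := mem_image.1 hu
    obtain ⟨j', hj', rfl⟩ := mem_image.1 hv
    have h3 := h2 _ (hJ j hj).1 _ (hJ j' hj').1 hadj
    rw [(hJ j hj).2, (hJ j' hj').2] at h3
    subst h3
    exact G.irrefl hadj
  have hsub : nbr G (J.image rep) ∩ W0 ⊆ F := by
    intro v hv
    by_contra hvF
    obtain ⟨hv1, hv2⟩ := mem_inter.1 hv
    obtain ⟨u, hu, hadj⟩ := mem_nbr.1 hv1
    obtain ⟨j, hj, rfl⟩ := mem_image.1 hu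
    have hv3 : v ∈ W0 \ F := mem_sdiff.2 ⟨hv2, hvF⟩
    have h3 := h2 _ (hJ j hj).1 _ (hB hv3) hadj
    rw [(hJ j hj).2] at h3
    exact (mem_sdiff.1 hj).2 (mem_image.2 ⟨v, hv3, h3.symm⟩)
  have h4 := hD.2 _ hind
  rw [hcard] at h4
  have h5 : ((nbr G (J.image rep) ∩ W0).card : ℝ) ≤ F.card := by exact_mod_cast card_le_card hsub
  have hM' : (0 : ℝ) < M := by exact_mod_cast hM
  have hJ0 : (0 : ℝ) ≤ J.card := Nat.cast_nonneg _
  have h6 : 4 * M * t' * (4 * (J.card : ℝ)) < 4 * M * t' * c := by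
    have h7 : 16 * M * t' * (J.card : ℝ) ≤ t * J.card := mul_le_mul_of_nonneg_right ht hJ0
    have h8 : 4 * (M : ℝ) * ((nbr G (J.image rep) ∩ W0).card : ℝ) < 4 * M * (t' * c) :=
      mul_lt_mul_of_pos_left (h5.trans_lt hF) (by positivity)
    linarith
  have h9 : 4 * (J.card : ℝ) < c := lt_of_mul_lt_mul_left h6 (by positivity)
  have h10 : 4 * J.card < c := by exact_mod_cast h9
  have h11 : c ≤ J.card + ((W0 \ F).image lab).card := by
    have := le_card_sdiff ((W0 \ F).image lab) (range c)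
    rw [card_range] at this
    simp only [J]
    omega
  omega

end LevAux

theorem levels (l M : ℕ) (hM : 0 < M) (hn : Fintype.card V < 2 ^ l) (t t' : ℝ) (ht' : 0 < t')
    (ht : 16 * M * t' ≤ t) (W : ℕ → Finset V) (hW : ∀ i, W i ⊆ W (i + 1)) (hD : Dom G M t (W 0))
    (hbad : ¬ RT G (W l) t') :
    ∃ i < l, ∃ F : Finset V, ∃ γ ∈ gset (cms G (W 0 \ F) (W i \ F)) (Fintype.card V),
      Lev G t' (W 0) (W i) F γ ∧ NoX G (W 0) (W i) (W (i + 1)) F γ := by
  unfold RT at hbad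
  push Not at hbad
  obtain ⟨B, c, ⟨lab, h1, h2⟩, hc, hF⟩ := hbad
  set F := W l \ B with hFdef
  have hmono : Monotone W := monotone_nat_of_le_succ hW
  have hYmono : ∀ {i j : ℕ}, i ≤ j → W i \ F ⊆ W j \ F := fun h =>
    sdiff_subset_sdiff (hmono h) Subset.rfl
  have hlB : W l \ F ⊆ B := by
    intro v hv
    by_contra hvB
    exact (mem_sdiff.1 hv).2 (mem_sdiff.2 ⟨(mem_sdiff.1 hv).1, hvB⟩)
  let N : ℕ → ℕ := fun i => (cms G (W 0 \ F) (W i \ F)).card
  have hanti : ∀ {i j : ℕ}, i ≤ j → N j ≤ N i := fun h => cms_anti (hYmono h)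
  have h3 := many_labels M hM t t' ht' ht (W 0) F B hD ((hYmono (Nat.zero_le l)).trans hlB) c
    (by omega) lab h1 h2 hF
  have h4 : ((W 0 \ F).image lab).card ≤ N l :=
    card_image_le_of _ _ _ fun a _ b _ h => lab_of_rch hlB h2 (rch_of_cmp h)
  have h5 : N 0 ≤ Fintype.card V := card_image_le.trans (card_le_univ _)
  obtain ⟨i, hi, hNi⟩ := exists_not_half N l (by omega) (by omega)
  obtain ⟨γ, hγ, hcard, hrch⟩ := exists_gamma (G := G) (W 0 \ F) (W i \ F) (W (i + 1) \ F)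
    (hYmono (Nat.le_succ i))
  have h6 : N l ≤ N (i + 1) := hanti hi
  have h7 : N (i + 1) ≤ N i := hanti (Nat.le_succ i)
  refine ⟨i, hi, F, γ, hγ, ⟨?_, ?_, ?_⟩, ?_⟩
  · have h8 : (c : ℝ) ≤ 2 * (N i : ℝ) := by exact_mod_cast (by omega : c ≤ 2 * N i)
    have h9 : t' * c ≤ t' * (2 * (N i : ℝ)) := mul_le_mul_of_nonneg_left h8 ht'.le
    change (F.card : ℝ) ≤ 2 * t' * (N i : ℝ)
    linarith
  · rw [hcard]
    change 2 ≤ N (i + 1)
    omega
  · rw [hcard]
    exact hNi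
  · intro v w hadj hvF hwF hv hw hvW hwW
    have key : ∀ u, u ∉ F → u ∉ far G (W 0 \ F) → u ∈ W (i + 1) →
        Rch G (W (i + 1) \ F) u (anc G (W 0 \ F) u) := by
      intro u huF hu huW
      obtain ⟨ha, hb | hb⟩ := anc_spec hu
      · rw [hb]
        exact Relation.ReflTransGen.refl
      · exact Relation.ReflTransGen.single
          ⟨mem_sdiff.2 ⟨huW, huF⟩, hYmono (Nat.zero_le _) ha, hb⟩
    refine hrch _ (anc_spec hv).1 _ (anc_spec hw).1 ?_
    exact Relation.ReflTransGen.trans (rch_symm (key v hvF hv hvW))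
      (Relation.ReflTransGen.head ⟨mem_sdiff.2 ⟨hvW, hvF⟩, mem_sdiff.2 ⟨hwW, hwF⟩, hadj⟩
        (key w hwF hw hwW))


end Pool.Agent.Lib.MP_f20cd2_co.PL
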