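import Pool.Agent.Lib.MP_f20cd2_co.PL.Unit
import Pool.Agent.Lib.MP_f20cd2_co.PL.Small
import Pool.Agent.Lib.MP_f20cd2_co.PL.Carve
import Pool.Agent.Lib.MP_f20cd2_co.PL.Sample

/-!
Assembly (E4).
-/

set_option autoImplicit false
set_option linter.unusedSectionVars false

namespace Pool.Agent.Lib.MP_f20cd2_co.PL

open Finset
open Pool.Agent.Lib.MP_f20cd2_co.H83 (Conn Cells)
open scoped Classical

variable {V : Type} [Fintype V] [DecidableEq V] {G : SimpleGraph V}

theorem pack_of_good {ι : Type} (l : ℕ) (hl : 1000 ≤ l) (hn : Fintype.card V < 2 ^ l)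
    {χ : V → ℕ} (hχ : Good G l χ) (hV : 0 < Fintype.card V) (I : Finset ι) (a : ι → ℕ)
    (hpos : ∀ i ∈ I, 0 < a i) (hsum : ∑ i ∈ I, a i = Fintype.card V) : Pack G univ I a := by
  have hl1 : 1 ≤ l := by omega
  have hlR : (1 : ℝ) ≤ l := by exact_mod_cast hl1
  have hI : I.Nonempty := by
    rcases I.eq_empty_or_nonempty with h | h
    · rw [h, sum_empty] at hsum
      omega
    · exact h
  obtain ⟨i0, -⟩ := hI
  obtain ⟨en, ix, -, hix⟩ :=
    UnitAAux.exists_enum (I.filter fun i => Fintype.card V ≤ l ^ 71 * a i) i0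
  have hBg : (I.filter fun i => Fintype.card V ≤ l ^ 71 * a i).card ≤ l ^ 71 := by
    refine Nat.le_of_mul_le_mul_right ?_ hV
    calc (I.filter fun i => Fintype.card V ≤ l ^ 71 * a i).card * Fintype.card V
        = ∑ _i ∈ I.filter (fun i => Fintype.card V ≤ l ^ 71 * a i), Fintype.card V := by
          rw [sum_const, smul_eq_mul]
      _ ≤ ∑ i ∈ I.filter (fun i => Fintype.card V ≤ l ^ 71 * a i), l ^ 71 * a i :=
          sum_le_sum fun i hi => (mem_filter.1 hi).2
      _ ≤ ∑ i ∈ I, l ^ 71 * a i := sum_le_sum_of_subset (filter_subset _ _)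
      _ = l ^ 71 * Fintype.card V := by rw [← mul_sum, hsum]
  obtain ⟨key, hkey⟩ : ∃ key : ι → ℕ, ∀ i, key i = if Fintype.card V ≤ l ^ 71 * a i then ix i else
      if a i < l ^ 102 then l ^ 71 else l ^ 71 + 1 + Nat.log 2 (a i / l ^ 102) := ⟨_, fun _ => rfl⟩
  have hk1 : ∀ i ∈ I, Fintype.card V ≤ l ^ 71 * a i → key i < l ^ 71 ∧ en (key i) = i := by
    intro i hi h
    rw [hkey, if_pos h]
    have := hix i (mem_filter.2 ⟨hi, h⟩)
    exact ⟨lt_of_lt_of_le this.1 hBg, this.2⟩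
  have hk2 : ∀ i, ¬ Fintype.card V ≤ l ^ 71 * a i → l ^ 71 ≤ key i := by
    intro i h
    rw [hkey, if_neg h]
    split_ifs <;> omega
  have hk3 : ∀ i ∈ I, key i < l ^ 71 + 1 + l := by
    intro i hi
    by_cases h : Fintype.card V ≤ l ^ 71 * a i
    · have := (hk1 i hi h).1
      omega
    · rw [hkey, if_neg h]
      split_ifs with h2
      · omega
      · have h3 : a i ≤ Fintype.card V := by
          rw [← hsum]
          exact single_le_sum (fun _ _ => Nat.zero_le _) hi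
        have h4 : a i / l ^ 102 < 2 ^ l := lt_of_le_of_lt ((Nat.div_le_self _ _).trans h3) hn
        have h5 : Nat.log 2 (a i / l ^ 102) < l := Nat.log_lt_of_lt_pow' (by omega) h4
        omega
  have hg0 : 4 * ((l ^ 71 + 1 + l + 1) * (2 * l ^ 91)) ≤ l ^ 163 := by
    have a1 : l ≤ l ^ 71 := Nat.le_self_pow (by norm_num) l
    calc 4 * ((l ^ 71 + 1 + l + 1) * (2 * l ^ 91)) ≤ 4 * ((4 * l ^ 71) * (2 * l ^ 91)) :=
          Nat.mul_le_mul_left _ (Nat.mul_le_mul_right _ (by omega))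
      _ = 32 * l ^ 162 := by ring
      _ ≤ l ^ 163 := absorb hl 32 162 1 (by norm_num)
  have hlρ : l + 1 ≤ 2 * l ^ 91 := by
    have a1 : l ≤ l ^ 91 := Nat.le_self_pow (by norm_num) l
    omega
  have hκ : ∀ κ ≤ l ^ 71 + 1 + l, 4 * (κ * (2 * l ^ 91) + 2 * l ^ 91) ≤ l ^ 163 := by
    intro κ h
    refine le_trans (Nat.mul_le_mul_left _ ?_) hg0
    calc κ * (2 * l ^ 91) + 2 * l ^ 91 = (κ + 1) * (2 * l ^ 91) := by ring
      _ ≤ _ := Nat.mul_le_mul_right _ (by omega)
  have hcls : ∀ κ ≤ l ^ 71 + 1 + l,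
      RT G (col χ (κ * (2 * l ^ 91)) (κ * (2 * l ^ 91) + 2 * l ^ 91)) ((l : ℝ) ^ 102) := by
    intro κ h
    have h1 := hκ κ h
    refine (hχ.rt (κ * (2 * l ^ 91)) (by omega)).mono (fun v hv => ?_) le_rfl
    rw [mem_col] at hv ⊢
    omega
  obtain ⟨Act, hAct⟩ : ∃ Act : Finset ℕ, ∀ κ, κ ∈ Act ↔ κ < l ^ 71 + 1 + l ∧
      Fintype.card V ≤ l ^ 71 * ∑ i ∈ I.filter (fun i => key i = κ), a i ∧
      (l ^ 71 ≤ κ → 16 * Fintype.card V ≤ l ^ 3 * ∑ i ∈ I.filter (fun i => key i = κ), a i) :=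
    ⟨(range (l ^ 71 + 1 + l)).filter fun κ =>
      Fintype.card V ≤ l ^ 71 * ∑ i ∈ I.filter (fun i => key i = κ), a i ∧
      (l ^ 71 ≤ κ → 16 * Fintype.card V ≤ l ^ 3 * ∑ i ∈ I.filter (fun i => key i = κ), a i),
      fun κ => by rw [mem_filter, mem_range]⟩
  refine glue I a hsum key Act
    (fun κ => col χ (κ * (2 * l ^ 91)) (κ * (2 * l ^ 91) + 2 * l ^ 91)) ?_ ?_ ?_ ?_
  · have hd : ∀ κ κ', κ < κ' → Disjoint (col χ (κ * (2 * l ^ 91)) (κ * (2 * l ^ 91) + 2 * l ^ 91))
        (col χ (κ' * (2 * l ^ 91)) (κ' * (2 * l ^ 91) + 2 * l ^ 91)) := by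
      intro κ κ' h
      refine disjoint_left.2 fun v hv hv' => ?_
      rw [mem_col] at hv hv'
      have h1 : (κ + 1) * (2 * l ^ 91) ≤ κ' * (2 * l ^ 91) := Nat.mul_le_mul_right _ h
      have e : (κ + 1) * (2 * l ^ 91) = κ * (2 * l ^ 91) + 2 * l ^ 91 := by ring
      omega
    intro κ _ κ' _ hne
    rcases lt_or_gt_of_ne hne with h | h
    · exact hd κ κ' h
    · exact (hd κ' κ h).symm
  · intro κ hκA
    obtain ⟨h1, h2, -⟩ := (hAct κ).1 hκA
    have h3 := hκ κ h1.le
    have h4 := hχ.size (κ * (2 * l ^ 91)) (κ * (2 * l ^ 91) + 2 * l ^ 91) (by omega)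
    rw [Nat.add_sub_cancel_left] at h4
    refine Nat.le_of_mul_le_mul_left ?_ (show 0 < l ^ 163 by positivity)
    calc _ ≤ 2 * (2 * l ^ 91) * Fintype.card V := h4
      _ ≤ 2 * (2 * l ^ 91) * (l ^ 71 * ∑ i ∈ I.filter (fun i => key i = κ), a i) :=
          Nat.mul_le_mul_left _ h2
      _ = 4 * l ^ 162 * ∑ i ∈ I.filter (fun i => key i = κ), a i := by ring
      _ ≤ _ := Nat.mul_le_mul_right _ (absorb hl 4 162 1 (by norm_num))
  · have h1 := hκ (l ^ 71 + 1 + l) le_rfl
    have hsub : Act.biUnion (fun κ => col χ (κ * (2 * l ^ 91)) (κ * (2 * l ^ 91) + 2 * l ^ 91)) ⊆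
        col χ 0 ((l ^ 71 + 1 + l) * (2 * l ^ 91)) := by
      intro v hv
      obtain ⟨κ, hκA, hv⟩ := mem_biUnion.1 hv
      have h2 := ((hAct κ).1 hκA).1
      rw [mem_col] at hv ⊢
      have h3 : (κ + 1) * (2 * l ^ 91) ≤ (l ^ 71 + 1 + l) * (2 * l ^ 91) :=
        Nat.mul_le_mul_right _ h2
      have e : (κ + 1) * (2 * l ^ 91) = κ * (2 * l ^ 91) + 2 * l ^ 91 := by ring
      omega
    have hhalf : 2 * (col χ 0 ((l ^ 71 + 1 + l) * (2 * l ^ 91))).card ≤ Fintype.card V := by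
      have h2 := hχ.size 0 ((l ^ 71 + 1 + l) * (2 * l ^ 91)) (by omega)
      rw [Nat.sub_zero] at h2
      refine Nat.le_of_mul_le_mul_left ?_ (show 0 < l ^ 163 by positivity)
      calc l ^ 163 * (2 * (col χ 0 ((l ^ 71 + 1 + l) * (2 * l ^ 91))).card)
          = 2 * (l ^ 163 * (col χ 0 ((l ^ 71 + 1 + l) * (2 * l ^ 91))).card) := by ring
        _ ≤ 2 * (2 * ((l ^ 71 + 1 + l) * (2 * l ^ 91)) * Fintype.card V) :=
            Nat.mul_le_mul_left _ h2
        _ = 4 * ((l ^ 71 + 1 + l) * (2 * l ^ 91)) * Fintype.card V := by ring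
        _ ≤ _ := Nat.mul_le_mul_right _ (by omega)
    have hA0 : Fintype.card V ≤ 2 * (univ \ Act.biUnion
        (fun κ => col χ (κ * (2 * l ^ 91)) (κ * (2 * l ^ 91) + 2 * l ^ 91))).card := by
      have h2 := card_sdiff_add_card_eq_card (subset_univ (Act.biUnion
        (fun κ => col χ (κ * (2 * l ^ 91)) (κ * (2 * l ^ 91) + 2 * l ^ 91))))
      have h3 := card_le_card hsub
      rw [card_univ] at h2
      omega
    obtain ⟨r, par, rk, hT, hadj⟩ := tree_exists (G := G) l hn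
      (A := univ \ Act.biUnion
        (fun κ => col χ (κ * (2 * l ^ 91)) (κ * (2 * l ^ 91) + 2 * l ^ 91)))
      ((hcls (l ^ 71 + 1 + l) le_rfl).mono Subset.rfl (one_le_pow₀ hlR))
      (fun v hv => mem_sdiff.2 ⟨mem_univ _, fun h => by
        have h2 := mem_col.1 (hsub h)
        have h3 := mem_col.1 hv
        omega⟩)
      (card_pos.1 (by omega))
    refine carve hT hadj (by omega) _ a (fun i hi => hpos i (mem_filter.1 hi).1) ?_
    have hin : ∀ i ∈ I.filter (fun i => key i ∉ Act),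
        key i ∈ (Ico (l ^ 71) (l ^ 71 + 1 + l)).filter fun κ => κ ∉ Act := by
      intro i hi
      obtain ⟨hi1, hi2⟩ := mem_filter.1 hi
      refine mem_filter.2 ⟨mem_Ico.2 ⟨?_, hk3 i hi1⟩, hi2⟩
      by_cases h : Fintype.card V ≤ l ^ 71 * a i
      · refine absurd ((hAct _).2 ⟨hk3 i hi1, h.trans (Nat.mul_le_mul_left _ ?_), fun h2 => ?_⟩) hi2
        · exact single_le_sum (f := a) (fun _ _ => Nat.zero_le _) (mem_filter.2 ⟨hi1, rfl⟩)
        · have := (hk1 i hi1 h).1
          omega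
      · exact hk2 i h
    have hS : l ^ 3 * ∑ i ∈ I.filter (fun i => key i ∉ Act), a i ≤
        (l + 1) * (16 * Fintype.card V) := by
      rw [← sum_fiberwise_of_maps_to hin, mul_sum]
      refine (sum_le_card_nsmul _ _ (16 * Fintype.card V) fun κ hκ' => ?_).trans ?_
      · obtain ⟨h2, h3⟩ := mem_filter.1 hκ'
        obtain ⟨h4, h5⟩ := mem_Ico.1 h2
        have h6 : ∑ i ∈ (I.filter fun i => key i ∉ Act).filter (fun i => key i = κ), a i ≤
            ∑ i ∈ I.filter (fun i => key i = κ), a i :=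
          sum_le_sum_of_subset (filter_subset_filter _ (filter_subset _ _))
        refine (Nat.mul_le_mul_left _ h6).trans ?_
        by_contra h7
        refine h3 ((hAct κ).2 ⟨h5, ?_, fun _ => by omega⟩)
        have h8 : l ^ 3 * ∑ i ∈ I.filter (fun i => key i = κ), a i ≤
            l ^ 71 * ∑ i ∈ I.filter (fun i => key i = κ), a i :=
          Nat.mul_le_mul_right _ (Nat.pow_le_pow_right hl1 (by norm_num))
        omega
      · rw [smul_eq_mul]
        refine Nat.mul_le_mul_right _ ((card_filter_le _ _).trans ?_)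
        rw [Nat.card_Ico]
        omega
    refine Nat.le_of_mul_le_mul_left ?_ (show 0 < l ^ 3 by positivity)
    have a1 : 128 * (l * (l + 1)) ≤ l ^ 3 := by
      calc 128 * (l * (l + 1)) ≤ 128 * (l * (2 * l)) :=
            Nat.mul_le_mul_left _ (Nat.mul_le_mul_left _ (by omega))
        _ = 256 * l ^ 2 := by ring
        _ ≤ l ^ 3 := absorb hl 256 2 1 (by norm_num)
    have e5 : ∀ x y : ℕ, 64 * x * (2 * y) = 128 * x * y := fun x y => by ring
    calc l ^ 3 * (4 * l * ∑ i ∈ I.filter (fun i => key i ∉ Act), a i)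
        = 4 * l * (l ^ 3 * ∑ i ∈ I.filter (fun i => key i ∉ Act), a i) := by ring
      _ ≤ 4 * l * ((l + 1) * (16 * Fintype.card V)) := Nat.mul_le_mul_left _ hS
      _ = 64 * (l * (l + 1)) * Fintype.card V := by ring
      _ ≤ 64 * (l * (l + 1)) * (2 * _) := Nat.mul_le_mul_left _ hA0
      _ = 128 * (l * (l + 1)) * _ := e5 _ _
      _ ≤ _ := Nat.mul_le_mul_right _ a1
  · intro κ hκA A hRA hA
    obtain ⟨h1, h2, h3⟩ := (hAct κ).1 hκA
    have hmass : 0 < ∑ i ∈ I.filter (fun i => key i = κ), a i := by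
      rcases Nat.eq_zero_or_pos (∑ i ∈ I.filter (fun i => key i = κ), a i) with h | h
      · rw [h, mul_zero] at h2
        omega
      · exact h
    have hex : (I.filter fun i => key i = κ).Nonempty := by
      rcases (I.filter fun i => key i = κ).eq_empty_or_nonempty with h | h
      · rw [h, sum_empty] at hmass
        exact absurd hmass (lt_irrefl _)
      · exact h
    have ht0 : (0 : ℝ) < (l : ℝ) ^ 102 := by positivity
    rcases lt_trichotomy κ (l ^ 71) with hc | hc | hc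
    · have huniq : ∀ i ∈ I.filter (fun i => key i = κ), en κ = i := by
        intro i hi
        obtain ⟨hi1, hi2⟩ := mem_filter.1 hi
        by_cases h : Fintype.card V ≤ l ^ 71 * a i
        · rw [← hi2]
          exact (hk1 i hi1 h).2
        · have := hk2 i h
          omega
      refine ⟨fun _ => A, fun i hi => ⟨Subset.rfl, ?_,
        (hcls κ h1.le).conn ht0 hRA (card_pos.1 (by rw [hA]; exact hmass))⟩, fun i hi j hj hne =>
        absurd ((huniq i hi).symm.trans (huniq j hj)) hne⟩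
      have he : (I.filter fun i => key i = κ) = {i} :=
        eq_singleton_iff_unique_mem.2 ⟨hi, fun j hj => (huniq j hj).symm.trans (huniq i hi)⟩
      rw [hA, he, sum_singleton]
    · refine small_unit (hcls κ h1.le) ht0 hRA _ a (fun i hi => hpos i (mem_filter.1 hi).1)
        (fun i hi => ?_) hA.symm
      obtain ⟨hi1, hi2⟩ := mem_filter.1 hi
      have h4 : a i < l ^ 102 := by
        by_cases h : Fintype.card V ≤ l ^ 71 * a i
        · have := (hk1 i hi1 h).1
          omega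
        · rw [hkey, if_neg h] at hi2
          by_contra h5
          rw [if_neg h5] at hi2
          omega
      exact_mod_cast h4.le
    · have hgrp : ∀ i ∈ I.filter (fun i => key i = κ), l ^ 71 * a i < Fintype.card V ∧
          l ^ 6 * (l ^ 96 * 2 ^ (κ - (l ^ 71 + 1))) ≤ a i ∧
          a i ≤ 2 * (l ^ 6 * (l ^ 96 * 2 ^ (κ - (l ^ 71 + 1)))) := by
        intro i hi
        obtain ⟨hi1, hi2⟩ := mem_filter.1 hi
        by_cases h : Fintype.card V ≤ l ^ 71 * a i
        · have := (hk1 i hi1 h).1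
          omega
        · rw [hkey, if_neg h] at hi2
          by_cases h5 : a i < l ^ 102
          · rw [if_pos h5] at hi2
            omega
          · rw [if_neg h5] at hi2
            have hp : 0 < l ^ 102 := by positivity
            have e : κ - (l ^ 71 + 1) = Nat.log 2 (a i / l ^ 102) := by omega
            have e2 : l ^ 6 * (l ^ 96 * 2 ^ Nat.log 2 (a i / l ^ 102)) =
                2 ^ Nat.log 2 (a i / l ^ 102) * l ^ 102 := by ring
            have h6 : a i / l ^ 102 ≠ 0 := (Nat.div_pos (not_lt.1 h5) hp).ne'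
            have h7 := (Nat.le_div_iff_mul_le hp).1 (Nat.pow_log_le_self 2 h6)
            have h8 := (Nat.div_lt_iff_lt_mul hp).1
              (Nat.lt_pow_succ_log_self (by norm_num : 1 < 2) (a i / l ^ 102))
            have e3 : 2 ^ (Nat.log 2 (a i / l ^ 102)).succ * l ^ 102 =
                2 * (2 ^ Nat.log 2 (a i / l ^ 102) * l ^ 102) := by
              rw [Nat.succ_eq_add_one, pow_succ]
              ring
            rw [e, e2]
            exact ⟨not_le.1 h, h7, by omega⟩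
      have h4 := hκ κ h1.le
      have h5 := h3 hc.le
      refine tree_unit l hl hn hχ (κ * (2 * l ^ 91)) (by omega) A hRA
        (l ^ 96 * 2 ^ (κ - (l ^ 71 + 1))) (Nat.le_mul_of_pos_right _ (by positivity)) _ a
        (fun i hi => (hgrp i hi).2.1) (fun i hi => (hgrp i hi).2.2) hA.symm ?_ (by rwa [hA]) hV
      obtain ⟨i, hi⟩ := hex
      obtain ⟨h6, h7, -⟩ := hgrp i hi
      rw [hA]
      refine Nat.le_of_mul_le_mul_left ?_ (show 0 < l ^ 3 by positivity)
      calc l ^ 3 * (16 * l ^ 68 * (l ^ 6 * (l ^ 96 * 2 ^ (κ - (l ^ 71 + 1)))))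
          = 16 * (l ^ 71 * (l ^ 6 * (l ^ 96 * 2 ^ (κ - (l ^ 71 + 1))))) := by ring
        _ ≤ 16 * (l ^ 71 * a i) := Nat.mul_le_mul_left _ (Nat.mul_le_mul_left _ h7)
        _ ≤ 16 * Fintype.card V := Nat.mul_le_mul_left _ h6.le
        _ ≤ _ := h5

theorem main_thm (l : ℕ) (hl : 1000 ≤ l) (hn : Fintype.card V < 2 ^ l)
    (hT : RT G univ ((l : ℝ) ^ 760)) {k : ℕ} (a : Fin k → ℕ) (hpos : ∀ i, 0 < a i)
    (hsum : ∑ i, a i = Fintype.card V) : Pack G univ univ a := by
  by_cases hnc : ∃ u v, u ≠ v ∧ ¬ G.Adj u v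
  · obtain ⟨χ, hχ⟩ := sample l hl hn hT hnc
    obtain ⟨u, -⟩ := hnc
    exact pack_of_good l hl hn hχ (Fintype.card_pos_iff.2 ⟨u⟩) univ a (fun i _ => hpos i) hsum
  · push Not at hnc
    exact pack_complete hnc univ a (fun i _ => hpos i) hsum.le


end Pool.Agent.Lib.MP_f20cd2_co.PL
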