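import Pool.Agent.Lib.MP_f20cd2_co.PL.Defs

/-!
The bounded differences inequality on a product of finite sets (A1, A2).
-/

set_option autoImplicit false
set_option linter.unusedSectionVars false

namespace Pool.Agent.Lib.MP_f20cd2_co.PL

open Finset
open Pool.Agent.Lib.MP_f20cd2_co.H83 (Conn Cells)
open scoped Classical

variable {ι α : Type} [Fintype ι] [DecidableEq ι]

namespace McDAux

theorem chord (c t : ℝ) : ∃ σ : ℝ, ∀ z, |z| ≤ c →
    Real.exp (t * z) ≤ Real.exp (t ^ 2 * c ^ 2 / 2) + σ * z := by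
  rcases le_or_gt c 0 with hc | hc
  · refine ⟨0, fun z hz => ?_⟩
    have h0 : z = 0 := abs_eq_zero.1 (le_antisymm (hz.trans hc) (abs_nonneg z))
    rw [h0, mul_zero, mul_zero, add_zero]
    exact Real.exp_le_exp.2 (by positivity)
  · refine ⟨(Real.exp (t * c) - Real.exp (-(t * c))) / (2 * c), fun z hz => ?_⟩
    obtain ⟨h1, h2⟩ := abs_le.1 hz
    have h3 := convexOn_exp.2 (Set.mem_univ (t * c)) (Set.mem_univ (-(t * c)))
      (show 0 ≤ (c + z) / (2 * c) from div_nonneg (by linarith) (by linarith))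
      (show 0 ≤ (c - z) / (2 * c) from div_nonneg (by linarith) (by linarith))
      (by field_simp; ring)
    simp only [smul_eq_mul] at h3
    have h4 : (c + z) / (2 * c) * (t * c) + (c - z) / (2 * c) * -(t * c) = t * z := by
      field_simp; ring
    have h5 := Real.cosh_le_exp_half_sq (t * c)
    rw [Real.cosh_eq, mul_pow] at h5
    rw [h4] at h3
    refine h3.trans (le_trans (le_of_eq ?_) (add_le_add_left h5 _))
    field_simp; ring

theorem sum_cons' {n : ℕ} (S : Fin (n + 1) → Finset α) (F : (Fin (n + 1) → α) → ℝ) :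
    ∑ x ∈ Fintype.piFinset S, F x =
      ∑ a ∈ S 0, ∑ x ∈ Fintype.piFinset (Fin.tail S), F (Fin.cons a x) := by
  rw [← sum_product' (f := fun a x => F (Fin.cons a x))]
  refine sum_nbij' (fun x => (x 0, Fin.tail x)) (fun p => Fin.cons p.1 p.2) (fun x hx => ?_)
    (fun p hp => ?_) (fun x _ => by simp) (fun p _ => by simp) (fun x _ => by simp)
  · exact mem_product.2 (Fin.mem_piFinset_iff_zero_tail.1 hx)
  · exact Fin.mem_piFinset_iff_zero_tail.2 (by simpa using mem_product.1 hp)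

theorem card_cons' {n : ℕ} (S : Fin (n + 1) → Finset α) :
    ((Fintype.piFinset S).card : ℝ) = (S 0).card * (Fintype.piFinset (Fin.tail S)).card := by
  simpa using sum_cons' S fun _ => 1

theorem mgf (t : ℝ) (n : ℕ) : ∀ (S : Fin n → Finset α), (∀ i, (S i).Nonempty) →
    ∀ (f : (Fin n → α) → ℝ) (d : Fin n → ℝ) (M : ℝ),
      (∀ x ∈ Fintype.piFinset S, ∀ i, ∀ a ∈ S i, |f (Function.update x i a) - f x| ≤ d i) →
      ∑ x ∈ Fintype.piFinset S, f x = M * (Fintype.piFinset S).card →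
      ∑ x ∈ Fintype.piFinset S, Real.exp (t * (f x - M)) ≤
        (Fintype.piFinset S).card * Real.exp (t ^ 2 * (∑ i, d i ^ 2) / 2) := by
  induction n with
  | zero =>
    intro S _ f d M _ h2
    simp only [Fintype.piFinset_of_isEmpty, univ_unique, sum_singleton, card_singleton,
      Nat.cast_one, mul_one] at h2 ⊢
    simp [h2]
  | succ n ih =>
    intro S hS f d M h1 h2
    obtain ⟨N, hN⟩ : ∃ N : ℝ, N = (Fintype.piFinset (Fin.tail S)).card := ⟨_, rfl⟩
    have N0 : 0 < N := by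
      rw [hN]
      exact Nat.cast_pos.2 (card_pos.2 (Fintype.piFinset_nonempty.2 fun i => hS _))
    have S0 : (0 : ℝ) < (S 0).card := Nat.cast_pos.2 (card_pos.2 (hS 0))
    obtain ⟨g, hg⟩ : ∃ g : α → ℝ, ∀ a,
        ∑ x ∈ Fintype.piFinset (Fin.tail S), f (Fin.cons a x) = g a * N :=
      ⟨fun a => (∑ x ∈ Fintype.piFinset (Fin.tail S), f (Fin.cons a x)) / N,
        fun a => by field_simp⟩
    have mem : ∀ a ∈ S 0, ∀ x ∈ Fintype.piFinset (Fin.tail S), (Fin.cons a x : Fin (n + 1) → α) ∈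
      Fintype.piFinset S := fun a ha x hx => Fin.mem_piFinset_iff_zero_tail.2 ⟨ha, hx⟩
    have g1 : ∑ a ∈ S 0, g a = M * (S 0).card := by
      rw [sum_cons', card_cons', ← hN, sum_congr rfl fun a _ => hg a, ← sum_mul, ← mul_assoc] at h2
      exact mul_right_cancel₀ N0.ne' h2
    have g2 : ∀ a ∈ S 0, ∀ a' ∈ S 0, |g a - g a'| ≤ d 0 := fun a ha a' ha' => by
      refine le_of_mul_le_mul_right ?_ N0
      rw [← abs_of_pos N0, ← abs_mul, abs_of_pos N0, sub_mul, ← hg, ← hg, ← sum_sub_distrib]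
      refine (abs_sum_le_sum_abs _ _).trans ((sum_le_card_nsmul _ _ (d 0) fun x hx => ?_).trans
        (by rw [nsmul_eq_mul, ← hN, mul_comm]))
      simpa using h1 _ (mem a' ha' x hx) 0 a ha
    have g3 : ∀ a ∈ S 0, |g a - M| ≤ d 0 := fun a ha => by
      refine le_of_mul_le_mul_right ?_ S0
      rw [← abs_of_pos S0, ← abs_mul, abs_of_pos S0, sub_mul, ← g1, mul_comm, ← nsmul_eq_mul,
        ← sum_const, ← sum_sub_distrib]
      exact (abs_sum_le_sum_abs _ _).trans
        ((sum_le_card_nsmul _ _ (d 0) fun x hx => g2 a ha x hx).trans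
          (by rw [nsmul_eq_mul, mul_comm]))
    obtain ⟨σ, hσ⟩ := chord (d 0) t
    have g4 : ∀ a ∈ S 0,
        ∑ x ∈ Fintype.piFinset (Fin.tail S), Real.exp (t * (f (Fin.cons a x) - M)) ≤
          N * Real.exp (t ^ 2 * (∑ i : Fin n, d i.succ ^ 2) / 2) *
            (Real.exp (t ^ 2 * d 0 ^ 2 / 2) + σ * (g a - M)) := fun a ha => by
      have a1 := ih (Fin.tail S) (fun i => hS _) (fun x => f (Fin.cons a x)) (fun i => d i.succ)
        (g a) (fun x hx i b hb => by
          simpa [Fin.cons_update] using h1 _ (mem a ha x hx) i.succ b hb) (hN ▸ hg a)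
      rw [← hN] at a1
      refine le_trans (le_of_eq ?_) (mul_le_mul a1 (hσ _ (g3 a ha)) (Real.exp_pos _).le
        (by positivity))
      rw [sum_mul]
      exact sum_congr rfl fun x _ => by rw [← Real.exp_add]; congr 1; ring
    rw [sum_cons', card_cons', ← hN]
    refine (sum_le_sum g4).trans (le_of_eq ?_)
    rw [← mul_sum, sum_add_distrib, ← mul_sum, sum_sub_distrib, g1, sum_const, sum_const,
      nsmul_eq_mul, nsmul_eq_mul, Fin.sum_univ_succ, mul_add (t ^ 2), add_div, Real.exp_add]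
    ring

theorem sum_equiv' {n : ℕ} (e : ι ≃ Fin n) (s : ι → Finset α) (F : (ι → α) → ℝ) :
    ∑ x ∈ Fintype.piFinset s, F x =
      ∑ y ∈ Fintype.piFinset (fun i => s (e.symm i)), F (fun j => y (e j)) := by
  refine sum_nbij' (fun x i => x (e.symm i)) (fun y j => y (e j)) (fun x hx => ?_)
    (fun y hy => ?_) (fun x _ => by simp) (fun y _ => by simp) (fun x _ => by simp)
  · exact Fintype.mem_piFinset.2 fun i => Fintype.mem_piFinset.1 hx _
  · exact Fintype.mem_piFinset.2 fun j => by simpa using Fintype.mem_piFinset.1 hy (e j)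

end McDAux

theorem mcd_mgf (s : ι → Finset α) (hs : ∀ i, (s i).Nonempty) (F : (ι → α) → ℝ) (c : ι → ℝ)
    (hF : ∀ x ∈ Fintype.piFinset s, ∀ j, ∀ y ∈ s j, |F (Function.update x j y) - F x| ≤ c j)
    (lam μ : ℝ) (hμ : ∑ x ∈ Fintype.piFinset s, F x = μ * (Fintype.piFinset s).card) :
    ∑ x ∈ Fintype.piFinset s, Real.exp (lam * (F x - μ)) ≤
      (Fintype.piFinset s).card * Real.exp (lam ^ 2 * (∑ j, c j ^ 2) / 2) := by
  let e := Fintype.equivFin ι
  have hcard : ((Fintype.piFinset s).card : ℝ) =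
      (Fintype.piFinset (fun i => s (e.symm i))).card := by
    simpa using McDAux.sum_equiv' e s fun _ => 1
  rw [McDAux.sum_equiv' e, hcard] at hμ ⊢
  rw [← Equiv.sum_comp e.symm fun j => c j ^ 2]
  refine McDAux.mgf lam _ (fun i => s (e.symm i)) (fun i => hs _) (fun y => F fun j => y (e j))
    (fun i => c (e.symm i)) μ (fun y hy i a ha => ?_) hμ
  have h1 : (fun j => Function.update y i a (e j)) =
      Function.update (fun j => y (e j)) (e.symm i) a := by
    funext j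
    by_cases hj : j = e.symm i
    · subst hj; simp
    · rw [Function.update_of_ne hj, Function.update_of_ne]
      rintro rfl
      exact hj (e.symm_apply_apply j).symm
  simp only [h1]
  exact hF _ (Fintype.mem_piFinset.2 fun j => by simpa using Fintype.mem_piFinset.1 hy (e j)) _ a ha

theorem mcd_lower (s : ι → Finset α) (hs : ∀ i, (s i).Nonempty) (F : (ι → α) → ℝ) (c : ι → ℝ)
    (hF : ∀ x ∈ Fintype.piFinset s, ∀ j, ∀ y ∈ s j, |F (Function.update x j y) - F x| ≤ c j)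
    (μ u v : ℝ) (hu : 0 ≤ u) (hv : 0 < v) (hc : ∑ j, c j ^ 2 ≤ v)
    (hμ : μ * (Fintype.piFinset s).card ≤ ∑ x ∈ Fintype.piFinset s, F x) :
    (((Fintype.piFinset s).filter fun x => F x ≤ μ - u).card : ℝ) ≤
      Real.exp (-(u ^ 2 / (2 * v))) * (Fintype.piFinset s).card := by
  have hN : (0 : ℝ) < (Fintype.piFinset s).card :=
    Nat.cast_pos.2 (card_pos.2 (Fintype.piFinset_nonempty.2 hs))
  obtain ⟨M, hM⟩ : ∃ M : ℝ, ∑ x ∈ Fintype.piFinset s, F x = M * (Fintype.piFinset s).card :=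
    ⟨(∑ x ∈ Fintype.piFinset s, F x) / (Fintype.piFinset s).card, by field_simp⟩
  have hμM : μ ≤ M := le_of_mul_le_mul_right (hM ▸ hμ) hN
  have h1 := mcd_mgf s hs F c hF (-(u / v)) M hM
  have hq : 0 ≤ u / v := div_nonneg hu hv.le
  have h2 : (((Fintype.piFinset s).filter fun x => F x ≤ μ - u).card : ℝ) * Real.exp (u / v * u) ≤
      ∑ x ∈ Fintype.piFinset s, Real.exp (-(u / v) * (F x - M)) := by
    rw [← nsmul_eq_mul, ← sum_const]
    refine le_trans (sum_le_sum fun x hx => ?_) (sum_le_sum_of_subset_of_nonneg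
      (filter_subset _ _) fun x _ _ => (Real.exp_pos _).le)
    have h3 := (mem_filter.1 hx).2
    exact Real.exp_le_exp.2 (by nlinarith [mul_le_mul_of_nonneg_left (show u ≤ M - F x by linarith) hq])
  have h4 : Real.exp ((-(u / v)) ^ 2 * (∑ j, c j ^ 2) / 2) ≤
      Real.exp (-(u ^ 2 / (2 * v))) * Real.exp (u / v * u) := by
    rw [← Real.exp_add]
    refine Real.exp_le_exp.2 ?_
    have h5 := mul_le_mul_of_nonneg_left hc (sq_nonneg (-(u / v)))
    have h6 : -(u ^ 2 / (2 * v)) + u / v * u = (-(u / v)) ^ 2 * v / 2 := by field_simp; ring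
    linarith
  refine le_of_mul_le_mul_right (h2.trans (h1.trans ?_)) (Real.exp_pos (u / v * u))
  have h7 := mul_le_mul_of_nonneg_left h4 hN.le
  linarith

theorem mcd_upper (s : ι → Finset α) (hs : ∀ i, (s i).Nonempty) (F : (ι → α) → ℝ) (c : ι → ℝ)
    (hF : ∀ x ∈ Fintype.piFinset s, ∀ j, ∀ y ∈ s j, |F (Function.update x j y) - F x| ≤ c j)
    (μ u v : ℝ) (hu : 0 ≤ u) (hv : 0 < v) (hc : ∑ j, c j ^ 2 ≤ v)
    (hμ : ∑ x ∈ Fintype.piFinset s, F x ≤ μ * (Fintype.piFinset s).card) :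
    (((Fintype.piFinset s).filter fun x => μ + u ≤ F x).card : ℝ) ≤
      Real.exp (-(u ^ 2 / (2 * v))) * (Fintype.piFinset s).card := by
  have h1 := mcd_lower s hs (fun x => -F x) c
    (fun x hx j y hy => by
      rw [← abs_neg]
      convert hF x hx j y hy using 2
      ring) (-μ) u v hu hv hc (by rw [sum_neg_distrib]; linarith)
  refine le_trans (le_of_eq ?_) h1
  congr 2
  exact filter_congr fun x _ => by constructor <;> intro h <;> linarith

theorem mcd_local {κ : Type} (s : ι → Finset α) (hs : ∀ i, (s i).Nonempty) (K : Finset κ)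
    (ψ : κ → (ι → α) → ℝ) (dep : κ → Finset ι) (r : κ → ℝ) (C1 C2 : ℝ) (hC1 : 0 ≤ C1)
    (hr : ∀ k ∈ K, 0 ≤ r k)
    (hdep : ∀ k ∈ K, ∀ x ∈ Fintype.piFinset s, ∀ j, j ∉ dep k → ∀ y ∈ s j,
      ψ k (Function.update x j y) = ψ k x)
    (hrange : ∀ k ∈ K, ∀ x ∈ Fintype.piFinset s, ∀ y ∈ Fintype.piFinset s, |ψ k x - ψ k y| ≤ r k)
    (h1 : ∀ j, ∑ k ∈ K.filter (fun k => j ∈ dep k), r k ≤ C1)
    (h2 : ∑ k ∈ K, ((dep k).card : ℝ) * r k ≤ C2)
    (lam μ : ℝ) (hlam : 0 ≤ lam)
    (hμ : μ * (Fintype.piFinset s).card ≤ ∑ x ∈ Fintype.piFinset s, ∑ k ∈ K, ψ k x) :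
    ∑ x ∈ Fintype.piFinset s, Real.exp (-(lam * ∑ k ∈ K, ψ k x)) ≤
      (Fintype.piFinset s).card * Real.exp (-(lam * μ) + lam ^ 2 * (C1 * C2) / 2) := by
  have hN : (0 : ℝ) < (Fintype.piFinset s).card :=
    Nat.cast_pos.2 (card_pos.2 (Fintype.piFinset_nonempty.2 hs))
  obtain ⟨M, hM⟩ : ∃ M : ℝ,
      ∑ x ∈ Fintype.piFinset s, ∑ k ∈ K, ψ k x = M * (Fintype.piFinset s).card :=
    ⟨(∑ x ∈ Fintype.piFinset s, ∑ k ∈ K, ψ k x) / (Fintype.piFinset s).card, by field_simp⟩
  have hμM : μ ≤ M := le_of_mul_le_mul_right (hM ▸ hμ) hN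
  have h3 := mcd_mgf s hs (fun x => ∑ k ∈ K, ψ k x)
    (fun j => ∑ k ∈ K.filter (fun k => j ∈ dep k), r k) (fun x hx j y hy => by
      have hx' : Function.update x j y ∈ Fintype.piFinset s := by
        refine Fintype.mem_piFinset.2 fun i => ?_
        by_cases hi : i = j
        · subst hi; simpa using hy
        · rw [Function.update_of_ne hi]; exact Fintype.mem_piFinset.1 hx i
      rw [← sum_sub_distrib, sum_filter]
      refine (abs_sum_le_sum_abs _ _).trans (sum_le_sum fun k hk => ?_)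
      split_ifs with hj
      · exact hrange k hk _ hx' _ hx
      · rw [hdep k hk x hx j hj y hy, sub_self, abs_zero]) (-lam) M hM
  have h4 : ∑ j, ∑ k ∈ K.filter (fun k => j ∈ dep k), r k = ∑ k ∈ K, ((dep k).card : ℝ) * r k := by
    simp only [sum_filter]
    rw [sum_comm]
    refine sum_congr rfl fun k _ => ?_
    rw [← sum_filter, sum_const, nsmul_eq_mul]
    congr 3
    ext j
    simp
  have h5 : ∑ j, (∑ k ∈ K.filter (fun k => j ∈ dep k), r k) ^ 2 ≤ C1 * C2 := by
    refine le_trans ?_ (mul_le_mul_of_nonneg_left (h4.trans_le h2) hC1)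
    rw [mul_sum]
    refine sum_le_sum fun j _ => ?_
    rw [sq]
    exact mul_le_mul_of_nonneg_right (h1 j) (sum_nonneg fun k hk => hr k (mem_filter.1 hk).1)
  have h6 : ∑ x ∈ Fintype.piFinset s, Real.exp (-(lam * ∑ k ∈ K, ψ k x)) =
      (∑ x ∈ Fintype.piFinset s, Real.exp (-lam * (∑ k ∈ K, ψ k x - M))) *
        Real.exp (-(lam * M)) := by
    rw [sum_mul]
    exact sum_congr rfl fun x _ => by rw [← Real.exp_add]; congr 1; ring
  rw [h6]
  refine (mul_le_mul_of_nonneg_right h3 (Real.exp_pos _).le).trans ?_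
  rw [mul_assoc, ← Real.exp_add]
  refine mul_le_mul_of_nonneg_left (Real.exp_le_exp.2 ?_) hN.le
  have h7 := mul_le_mul_of_nonneg_left h5 (sq_nonneg lam)
  have h8 := mul_le_mul_of_nonneg_left hμM hlam
  rw [neg_sq]
  linarith


end Pool.Agent.Lib.MP_f20cd2_co.PL
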