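import Pool.Agent.Lib.MP_f20cd2_co.PL.GeoB
import Pool.Agent.Lib.MP_f20cd2_co.PL.Prod

/-!
The mean of the deviation (D2, first half).
-/

set_option autoImplicit false
set_option linter.unusedSectionVars false

namespace Pool.Agent.Lib.MP_f20cd2_co.PL

open Finset
open Pool.Agent.Lib.MP_f20cd2_co.H83 (Conn Cells)
open scoped Classical

variable {T : TD} {l D b : ℕ}

namespace MeanAAux

lemma z_eq (x : Fin T.k → ℕ) {i : ℕ} (hi : i < T.k) :
    T.z D x i = T.atm (T.st D i + x ⟨i, hi⟩) := by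
  simp [TD.z, TD.ex, hi]

lemma coord (T : TD) (D : ℕ) {i : ℕ} (hi : i < T.k) (g : ℕ → ℝ) :
    (∑ x ∈ T.sp D, g (x ⟨i, hi⟩)) * ((D : ℝ) * T.n i) =
      (T.sp D).card * ∑ y ∈ range (D * T.n i), g y := by
  have h := sum_coord (fun j : Fin T.k => range (D * T.n j)) ⟨i, hi⟩ g
  simp only [card_range, Nat.cast_mul] at h
  exact h

lemma n_pos (h : T.Ok l D b) {i : ℕ} (hi : i < T.k) : 0 < T.n i := by
  have h1 := h.nlo i hi
  have h2 : 0 < l ^ 6 * b := Nat.mul_pos (pow_pos (by have := h.hl; omega) 6) h.hb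
  omega

/-- The samples themselves give mean zero. -/
lemma mean_z (h : T.Ok l D b) (f : ℕ → ℝ) :
    ∑ x ∈ T.sp D, ∑ i ∈ range T.k, (T.n i : ℝ) * f (T.z D x i) =
      (T.sp D).card * ∑ a ∈ range T.N, (T.mu a : ℝ) / D * f a := by
  have hD : (0 : ℝ) < D := by exact_mod_cast h.hD
  have h1 : ∀ i ∈ range T.k, ∑ x ∈ T.sp D, (T.n i : ℝ) * f (T.z D x i) =
      (T.sp D).card / D * ∑ y ∈ range (D * T.n i), f (T.atm (T.st D i + y)) := by
    intro i hi
    have hi' := mem_range.1 hi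
    have h2 := coord T D hi' fun y => f (T.atm (T.st D i + y))
    rw [← mul_sum, div_mul_eq_mul_div, eq_div_iff hD.ne', ← h2]
    simp only [z_eq _ hi']
    ring
  rw [sum_comm, sum_congr rfl h1, ← mul_sum, h.sum_strata f, mul_sum, mul_sum]
  refine sum_congr rfl fun a _ => ?_
  field_simp

lemma hit_real (h : T.Ok l D b) {j : ℕ} (hj : j < T.k) (a : ℕ) :
    (((range (D * T.n j)).filter fun y => T.atm (T.st D j + y) = a).card : ℝ) ≤
      5 / (l : ℝ) ^ 5 * ((D : ℝ) * T.n j) := by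
  have hl : (0 : ℝ) < (l : ℝ) ^ 5 := by
    have : (1000 : ℝ) ≤ l := by exact_mod_cast h.hl
    positivity
  have h1 : (l : ℝ) ^ 5 * (((range (D * T.n j)).filter
      fun y => T.atm (T.st D j + y) = a).card : ℝ) ≤ 5 * ((D : ℝ) * T.n j) := by
    exact_mod_cast h.hit hj a
  rw [div_mul_eq_mul_div, le_div_iff₀ hl]
  linarith

/-- The loss caused by moving the centre of one stratum. -/
lemma loss (h : T.Ok l D b) (f : ℕ → ℝ) {i : ℕ} (hi : i < T.k) :
    ∑ x ∈ T.sp D, (f (T.z D x i) - f (T.zc D x i)) ≤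
      25 / (l : ℝ) ^ 10 * T.osc D f i * (T.sp D).card := by
  have ho := T.osc_nonneg D f i
  have hl : (0 : ℝ) < l := by
    have : (1000 : ℝ) ≤ l := by exact_mod_cast h.hl
    linarith
  rcases Nat.eq_zero_or_pos i with h0 | h0
  · have : ∀ x ∈ T.sp D, f (T.z D x i) - f (T.zc D x i) = 0 := by
      intro x _
      simp [TD.zc, h0]
    rw [sum_eq_zero this]
    positivity
  have hj : i - 1 < T.k := by omega
  have hne : (⟨i, hi⟩ : Fin T.k) ≠ ⟨i - 1, hj⟩ := by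
    intro e
    have := congrArg Fin.val e
    simp only at this
    omega
  obtain ⟨g, hg⟩ : ∃ g : ℕ → ℝ,
      g = fun y => if T.atm (T.st D i + y) = T.fst D i then T.osc D f i else 0 := ⟨_, rfl⟩
  have hg0 : ∀ y, 0 ≤ g y := by
    intro y
    rw [hg]
    dsimp only
    split_ifs
    · exact ho
    · exact le_rfl
  have h2 := sum_two (fun j : Fin T.k => range (D * T.n j)) hne g (fun y _ => hg0 y)
    (fun _ y' => T.atm (T.st D (i - 1) + y') = T.fst D i) (5 / (l : ℝ) ^ 5) (by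
      intro y _
      have h3 := hit_real h hj (T.fst D i)
      simp only [card_range, Nat.cast_mul]
      convert h3)
  have h3 : ∑ x ∈ T.sp D, (f (T.z D x i) - f (T.zc D x i)) ≤
      5 / (l : ℝ) ^ 5 * ∑ x ∈ T.sp D, g (x ⟨i, hi⟩) := by
    refine le_trans (sum_le_sum fun x hx => ?_) h2
    by_cases hc : T.z D x i = T.z D x (i - 1)
    · have h4 := h.z_prev hx h0 hi hc
      have h5 : T.atm (T.st D (i - 1) + x ⟨i - 1, hj⟩) = T.fst D i := by
        rw [← z_eq x hj, ← hc, h4]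
      have h6 : T.atm (T.st D i + x ⟨i, hi⟩) = T.fst D i := by
        rw [← z_eq x hi, h4]
      rw [if_pos h5, hg]
      dsimp only
      rw [if_pos h6]
      exact (le_abs_self _).trans (h.le_osc f hi (h.z_meets hx hi) (h.zc_meets hx hi))
    · have h4 : T.zc D x i = T.z D x i := by simp [TD.zc, hc]
      rw [h4, sub_self]
      split_ifs
      · exact hg0 _
      · exact le_rfl
  have hDn : (0 : ℝ) < (D : ℝ) * T.n i := by
    have a1 : (0 : ℝ) < D := by exact_mod_cast h.hD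
    have a2 : (0 : ℝ) < T.n i := by exact_mod_cast n_pos h hi
    positivity
  have h4 : ∑ y ∈ range (D * T.n i), g y ≤ 5 / (l : ℝ) ^ 5 * ((D : ℝ) * T.n i) * T.osc D f i := by
    rw [hg, ← sum_filter, sum_const, nsmul_eq_mul]
    exact mul_le_mul_of_nonneg_right (hit_real h hi _) ho
  have h5 : ∑ x ∈ T.sp D, g (x ⟨i, hi⟩) ≤ 5 / (l : ℝ) ^ 5 * T.osc D f i * (T.sp D).card := by
    refine le_of_mul_le_mul_right ?_ hDn
    rw [coord T D hi g]
    calc _ ≤ ((T.sp D).card : ℝ) * (5 / (l : ℝ) ^ 5 * ((D : ℝ) * T.n i) * T.osc D f i) :=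
          mul_le_mul_of_nonneg_left h4 (Nat.cast_nonneg _)
      _ = _ := by ring
  calc _ ≤ 5 / (l : ℝ) ^ 5 * ∑ x ∈ T.sp D, g (x ⟨i, hi⟩) := h3
    _ ≤ 5 / (l : ℝ) ^ 5 * (5 / (l : ℝ) ^ 5 * T.osc D f i * (T.sp D).card) :=
        mul_le_mul_of_nonneg_left h5 (by positivity)
    _ = _ := by
        field_simp
        ring

end MeanAAux

theorem TD.Ok.mean_dev (h : T.Ok l D b) {f : ℕ → ℝ} (hf : ∀ a, 0 ≤ f a ∧ f a ≤ 1) :
    -(100 / (l : ℝ) ^ 10 * ((l : ℝ) ^ 6 * b) * tau T.N T.par f) * (T.sp D).card ≤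
      ∑ x ∈ T.sp D, T.dev D f (T.zc D x) := by
  have h1 : ∑ x ∈ T.sp D, T.dev D f (T.zc D x) =
      -∑ i ∈ range T.k, (T.n i : ℝ) * ∑ x ∈ T.sp D, (f (T.z D x i) - f (T.zc D x i)) := by
    unfold TD.dev
    rw [sum_sub_distrib, sum_const, nsmul_eq_mul, ← MeanAAux.mean_z h f, sum_comm,
      sum_comm (s := T.sp D), ← sum_sub_distrib, ← sum_neg_distrib]
    refine sum_congr rfl fun i _ => ?_
    rw [sum_sub_distrib, ← mul_sum, ← mul_sum]
    ring
  have hc : (0 : ℝ) ≤ 25 / (l : ℝ) ^ 10 * (T.sp D).card := by positivity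
  have hm : (0 : ℝ) ≤ 2 * ((l : ℝ) ^ 6 * b) := by positivity
  have h2 : ∑ i ∈ range T.k, (T.n i : ℝ) * ∑ x ∈ T.sp D, (f (T.z D x i) - f (T.zc D x i)) ≤
      ∑ i ∈ range T.k, 2 * ((l : ℝ) ^ 6 * b) * (25 / (l : ℝ) ^ 10 * (T.sp D).card) *
        T.osc D f i := by
    refine sum_le_sum fun i hi => ?_
    have hi' := mem_range.1 hi
    have a1 : (T.n i : ℝ) ≤ 2 * ((l : ℝ) ^ 6 * b) := by exact_mod_cast h.nhi i hi'
    have a2 := mul_le_mul_of_nonneg_left (MeanAAux.loss h f hi') (Nat.cast_nonneg (T.n i))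
    have a3 := mul_le_mul_of_nonneg_right a1 (mul_nonneg hc (T.osc_nonneg D f i))
    calc _ ≤ _ := a2
      _ = (T.n i : ℝ) * (25 / (l : ℝ) ^ 10 * (T.sp D).card * T.osc D f i) := by ring
      _ ≤ _ := a3
      _ = _ := by ring
  rw [← mul_sum] at h2
  have h3 := mul_le_mul_of_nonneg_left (h.sum_osc f) (mul_nonneg hm hc)
  rw [h1]
  have h4 : 2 * ((l : ℝ) ^ 6 * b) * (25 / (l : ℝ) ^ 10 * (T.sp D).card) * (2 * tau T.N T.par f) =
      100 / (l : ℝ) ^ 10 * ((l : ℝ) ^ 6 * b) * tau T.N T.par f * (T.sp D).card := by ring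
  linarith


end Pool.Agent.Lib.MP_f20cd2_co.PL
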