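import Pool.Agent.Lib.MP_f20cd2_co.PL.GeoB
import Pool.Agent.Lib.MP_f20cd2_co.PL.Prod

/-!
The mean of the gain (D2, second half).
-/

set_option autoImplicit false
set_option linter.unusedSectionVars false

namespace Pool.Agent.Lib.MP_f20cd2_co.PL

open Finset
open Pool.Agent.Lib.MP_f20cd2_co.H83 (Conn Cells)
open scoped Classical

variable {T : TD} {l D b : ℕ}

namespace MeanBAux

lemma z_eq (T : TD) (D : ℕ) (x : Fin T.k → ℕ) {i : ℕ} (hi : i < T.k) :
    T.z D x i = T.atm (T.st D i + x ⟨i, hi⟩) := by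
  simp [TD.z, TD.ex, hi]

/-- One event on another coordinate. -/
lemma one_event (h : T.Ok l D b) {i j : ℕ} (hi : i < T.k) (hj : j < T.k) (hij : j ≠ i) (t : ℕ)
    (g : ℕ → ℝ) (hg : ∀ y, 0 ≤ g y) :
    ∑ x ∈ T.sp D, (if T.z D x j = t then g (x ⟨i, hi⟩) else 0) ≤
      5 / (l : ℝ) ^ 5 * ∑ x ∈ T.sp D, g (x ⟨i, hi⟩) := by
  have hl : (0 : ℝ) < l := by
    have := h.hl
    exact_mod_cast (by omega : 0 < l)
  have hne : (⟨i, hi⟩ : Fin T.k) ≠ ⟨j, hj⟩ := fun e => hij (by simpa using e.symm)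
  have key := sum_two (fun i : Fin T.k => range (D * T.n i)) hne g (fun y _ => hg y)
    (fun _ y' => T.atm (T.st D j + y') = t) (5 / (l : ℝ) ^ 5) (by
      intro y _
      have h1 : ((l ^ 5 * ((range (D * T.n j)).filter fun y => T.atm (T.st D j + y) = t).card : ℕ) :
          ℝ) ≤ ((5 * (D * T.n j) : ℕ) : ℝ) := by exact_mod_cast h.hit hj t
      rw [card_range, div_mul_eq_mul_div, le_div_iff₀ (by positivity)]
      push_cast at h1 ⊢
      rw [mul_comm]
      refine le_trans (le_of_eq ?_) h1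
      congr)
  unfold TD.sp
  refine le_trans (le_of_eq ?_) key
  refine sum_congr rfl fun x _ => ?_
  rw [z_eq T D x hj]
  congr

/-- The events that can spoil cleanness. -/
noncomputable def Ev (T : TD) (D : ℕ) (f : ℕ → ℝ) (i a : ℕ) : Finset (ℕ × ℕ) :=
  (insert (i - 1, a)
    ((insert (T.nb f a) ((range T.N).filter fun a' => adj T.N T.par (T.nb f a) a')).biUnion
      fun a' => ((range T.k).filter fun j => T.meets D j a').biUnion
        fun j => {(j, a'), (j, T.fst D j)})).filter fun p => p.1 < T.k ∧ p.1 ≠ i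

lemma card_Ev (h : T.Ok l D b) (f : ℕ → ℝ) (i a : ℕ) : (Ev T D f i a).card ≤ 24 * l ^ 2 + 5 := by
  unfold Ev
  refine (card_filter_le _ _).trans ((card_insert_le _ _).trans ?_)
  have h1 : ∀ a', (((range T.k).filter fun j => T.meets D j a').biUnion
      fun j => ({(j, a'), (j, T.fst D j)} : Finset (ℕ × ℕ))).card ≤ 4 := by
    intro a'
    refine (card_biUnion_le_card_mul _ _ 2 fun j _ => card_le_two).trans ?_
    have := h.meets_two a'
    omega
  have h2 := card_biUnion_le_card_mul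
    (insert (T.nb f a) ((range T.N).filter fun a' => adj T.N T.par (T.nb f a) a')) _ 4
    fun a' _ => h1 a'
  have h3 := card_insert_le (T.nb f a)
    ((range T.N).filter fun a' => adj T.N T.par (T.nb f a) a')
  have h4 := h.adj_card (T.nb f a)
  omega

lemma exists_Ev (f : ℕ → ℝ) {x : Fin T.k → ℕ} {i a : ℕ} (hi : i < T.k)
    (hc : ¬ T.clean D f x i a) : ∃ p ∈ Ev T D f i a, T.z D x p.1 = p.2 := by
  by_contra hno
  push Not at hno
  apply hc
  refine ⟨fun h0 => ?_, fun j hj hji a' ha' hm => ?_⟩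
  · refine hno (i - 1, a) ?_ h0.2
    have := h0.1
    unfold Ev
    exact mem_filter.2 ⟨mem_insert_self _ _, by simp only; omega, by simp only; omega⟩
  · have hmem : a' ∈ insert (T.nb f a)
        ((range T.N).filter fun a' => adj T.N T.par (T.nb f a) a') := by
      rcases ha' with rfl | ha'
      · exact mem_insert_self _ _
      · exact mem_insert_of_mem (mem_filter.2 ⟨mem_range.2 ha'.2.1, ha'⟩)
    have hjm : j ∈ (range T.k).filter fun j => T.meets D j a' :=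
      mem_filter.2 ⟨mem_range.2 hj, hm⟩
    constructor
    · refine hno (j, a') ?_
      unfold Ev
      exact mem_filter.2 ⟨mem_insert_of_mem (mem_biUnion.2 ⟨a', hmem,
        mem_biUnion.2 ⟨j, hjm, by simp⟩⟩), hj, hji⟩
    · refine hno (j, T.fst D j) ?_
      unfold Ev
      exact mem_filter.2 ⟨mem_insert_of_mem (mem_biUnion.2 ⟨a', hmem,
        mem_biUnion.2 ⟨j, hjm, by simp⟩⟩), hj, hji⟩

lemma not_clean (h : T.Ok l D b) (f : ℕ → ℝ) {i : ℕ} (hi : i < T.k) (a : ℕ)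
    (g : ℕ → ℝ) (hg : ∀ y, 0 ≤ g y) :
    ∑ x ∈ T.sp D, (if T.clean D f x i a then 0 else g (x ⟨i, hi⟩)) ≤
      1 / 2 * ∑ x ∈ T.sp D, g (x ⟨i, hi⟩) := by
  have hl : (1000 : ℝ) ≤ l := by exact_mod_cast h.hl
  have hS : 0 ≤ ∑ x ∈ T.sp D, g (x ⟨i, hi⟩) := sum_nonneg fun x _ => hg _
  calc ∑ x ∈ T.sp D, (if T.clean D f x i a then 0 else g (x ⟨i, hi⟩))
      ≤ ∑ x ∈ T.sp D, ∑ p ∈ Ev T D f i a, (if T.z D x p.1 = p.2 then g (x ⟨i, hi⟩) else 0) := by
        refine sum_le_sum fun x _ => ?_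
        have hnn : ∀ p ∈ Ev T D f i a,
            0 ≤ (if T.z D x p.1 = p.2 then g (x ⟨i, hi⟩) else 0) := by
          intro p _
          split_ifs
          · exact hg _
          · exact le_rfl
        split_ifs with hc
        · exact sum_nonneg hnn
        · obtain ⟨p, hp, he⟩ := exists_Ev f hi hc
          have := single_le_sum hnn hp
          rwa [if_pos he] at this
    _ = ∑ p ∈ Ev T D f i a, ∑ x ∈ T.sp D, (if T.z D x p.1 = p.2 then g (x ⟨i, hi⟩) else 0) :=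
        sum_comm
    _ ≤ ∑ p ∈ Ev T D f i a, 5 / (l : ℝ) ^ 5 * ∑ x ∈ T.sp D, g (x ⟨i, hi⟩) := by
        refine sum_le_sum fun p hp => ?_
        have hp' := (mem_filter.1 hp).2
        exact one_event h hi hp'.1 hp'.2 p.2 g hg
    _ = ((Ev T D f i a).card * (5 / (l : ℝ) ^ 5)) * ∑ x ∈ T.sp D, g (x ⟨i, hi⟩) := by
        rw [sum_const, nsmul_eq_mul, mul_assoc]
    _ ≤ _ := by
        refine mul_le_mul_of_nonneg_right ?_ hS
        have h1 : ((Ev T D f i a).card : ℝ) ≤ 24 * (l : ℝ) ^ 2 + 5 := by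
          exact_mod_cast card_Ev h f i a
        have h2 : (1000 : ℝ) ^ 2 ≤ (l : ℝ) ^ 2 := pow_le_pow_left₀ (by norm_num) hl 2
        have h3 : 1000 * (l : ℝ) ^ 2 ≤ (l : ℝ) ^ 5 := absorbR h.hl 1000 2 3 (by norm_num)
        rw [← mul_div_assoc, div_le_iff₀ (by positivity)]
        nlinarith

lemma half_le (h : T.Ok l D b) (f : ℕ → ℝ) {i : ℕ} (hi : i < T.k) :
    1 / 2 * ∑ x ∈ T.sp D, T.om f (T.z D x i) ≤ ∑ x ∈ T.sp D, T.gn D f x i := by
  let g : ℕ → ℕ → ℝ := fun a y => if T.atm (T.st D i + y) = a then T.om f a else 0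
  have hg : ∀ a y, 0 ≤ g a y := by
    intro a y
    simp only [g]
    split_ifs
    · exact T.om_nonneg f a
    · exact le_rfl
  have h1 : ∀ x ∈ T.sp D, T.om f (T.z D x i) = ∑ a ∈ range T.N, g a (x ⟨i, hi⟩) := by
    intro x hx
    have hz := (h.z_meets hx hi).1
    simp only [g]
    rw [← z_eq T D x hi, sum_ite_eq, if_pos (mem_range.2 hz)]
  have h2 : ∀ x ∈ T.sp D, T.gn D f x i = T.om f (T.z D x i) -
      ∑ a ∈ range T.N, (if T.clean D f x i a then 0 else g a (x ⟨i, hi⟩)) := by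
    intro x hx
    have hz := (h.z_meets hx hi).1
    rw [sum_eq_single (T.z D x i)]
    · simp only [g]
      rw [← z_eq T D x hi, if_pos rfl]
      unfold TD.gn
      split_ifs <;> simp
    · intro a _ hne
      simp only [g]
      rw [← z_eq T D x hi, if_neg (Ne.symm hne)]
      simp
    · intro hn
      exact absurd (mem_range.2 hz) hn
  have h3 : ∑ x ∈ T.sp D, ∑ a ∈ range T.N, (if T.clean D f x i a then 0 else g a (x ⟨i, hi⟩)) ≤
      1 / 2 * ∑ x ∈ T.sp D, T.om f (T.z D x i) := by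
    rw [sum_congr rfl h1, sum_comm, sum_comm (s := T.sp D), mul_sum]
    exact sum_le_sum fun a _ => not_clean h f hi a (g a) (hg a)
  rw [sum_congr rfl h2, sum_sub_distrib]
  linarith

lemma mean_om (h : T.Ok l D b) (f : ℕ → ℝ) {i : ℕ} (hi : i < T.k) :
    ((T.sp D).card : ℝ) * ∑ y ∈ range (D * T.n i), T.om f (T.atm (T.st D i + y)) ≤
      (∑ x ∈ T.sp D, T.om f (T.z D x i)) * (D * (2 * ((l : ℝ) ^ 6 * b))) := by
  have key := sum_coord (fun i : Fin T.k => range (D * T.n i)) ⟨i, hi⟩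
    (fun y => T.om f (T.atm (T.st D i + y)))
  have h1 : ∑ x ∈ T.sp D, T.om f (T.z D x i) =
      ∑ x ∈ T.sp D, T.om f (T.atm (T.st D i + x ⟨i, hi⟩)) :=
    sum_congr rfl fun x _ => by rw [z_eq T D x hi]
  have h2 : ((range (D * T.n i)).card : ℝ) ≤ D * (2 * ((l : ℝ) ^ 6 * b)) := by
    rw [card_range]
    exact_mod_cast Nat.mul_le_mul_left D (h.nhi i hi)
  rw [h1]
  unfold TD.sp
  refine le_trans (le_of_eq key.symm) ?_
  exact mul_le_mul_of_nonneg_left h2 (sum_nonneg fun x _ => T.om_nonneg f _)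

end MeanBAux

theorem TD.Ok.mean_gn (h : T.Ok l D b) {f : ℕ → ℝ} (hf : ∀ a, 0 ≤ f a ∧ f a ≤ 1) :
    tau T.N T.par f / (24 * (l : ℝ) ^ 8) * (T.sp D).card ≤
      ∑ x ∈ T.sp D, ∑ i ∈ range T.k, T.gn D f x i := by
  have hl : (0 : ℝ) < l := by
    have := h.hl
    exact_mod_cast (by omega : 0 < l)
  have hD : (0 : ℝ) < D := by exact_mod_cast h.hD
  have hb : (0 : ℝ) < b := by exact_mod_cast h.hb
  have hc : (0 : ℝ) ≤ (T.sp D).card := Nat.cast_nonneg _
  set S := ∑ x ∈ T.sp D, ∑ i ∈ range T.k, T.gn D f x i with hS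
  have h1 : ((T.sp D).card : ℝ) * ∑ a ∈ range T.N, (T.mu a : ℝ) * T.om f a ≤
      2 * S * (D * (2 * ((l : ℝ) ^ 6 * b))) := by
    rw [← h.sum_strata (T.om f), hS, sum_comm (s := T.sp D), mul_sum, mul_sum, sum_mul]
    refine sum_le_sum fun i hi => ?_
    have hi' := mem_range.1 hi
    refine (MeanBAux.mean_om h f hi').trans (mul_le_mul_of_nonneg_right ?_ (by positivity))
    have := MeanBAux.half_le h f hi'
    linarith
  have h2 : (D * b : ℝ) * ∑ a ∈ range T.N, T.om f a ≤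
      ∑ a ∈ range T.N, (T.mu a : ℝ) * T.om f a := by
    rw [mul_sum]
    refine sum_le_sum fun a ha => mul_le_mul_of_nonneg_right ?_ (T.om_nonneg f a)
    exact_mod_cast h.lo a (mem_range.1 ha)
  have h3 := h.le_sum_om f
  have h4 : ((T.sp D).card : ℝ) * ∑ a ∈ range T.N, T.om f a ≤ 4 * (l : ℝ) ^ 6 * S := by
    have h5 : (D * b : ℝ) * (((T.sp D).card : ℝ) * ∑ a ∈ range T.N, T.om f a) ≤
        (D * b : ℝ) * (4 * (l : ℝ) ^ 6 * S) := by
      have := mul_le_mul_of_nonneg_left h2 hc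
      nlinarith
    exact le_of_mul_le_mul_left h5 (by positivity)
  rw [div_mul_eq_mul_div, div_le_iff₀ (by positivity)]
  calc tau T.N T.par f * (T.sp D).card
      ≤ (6 * (l : ℝ) ^ 2 * ∑ a ∈ range T.N, T.om f a) * (T.sp D).card :=
        mul_le_mul_of_nonneg_right h3 hc
    _ = 6 * (l : ℝ) ^ 2 * (((T.sp D).card : ℝ) * ∑ a ∈ range T.N, T.om f a) := by ring
    _ ≤ 6 * (l : ℝ) ^ 2 * (4 * (l : ℝ) ^ 6 * S) :=
        mul_le_mul_of_nonneg_left h4 (by positivity)
    _ = S * (24 * (l : ℝ) ^ 8) := by ring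

end Pool.Agent.Lib.MP_f20cd2_co.PL
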