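import Pool.Agent.Lib.MP_f20cd2_co.PL.MeanA
import Pool.Agent.Lib.MP_f20cd2_co.PL.MeanB
import Pool.Agent.Lib.MP_f20cd2_co.PL.McD

/-!
The exponential moment for one tree (D3).
-/

set_option autoImplicit false
set_option linter.unusedSectionVars false

namespace Pool.Agent.Lib.MP_f20cd2_co.PL

open Finset
open Pool.Agent.Lib.MP_f20cd2_co.H83 (Conn Cells)
open scoped Classical

variable {T : TD} {l D b : ℕ}

namespace MgfAux

/-- The closed neighbourhood of an atom. -/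
noncomputable def cn (T : TD) (a : ℕ) : Finset ℕ :=
  insert a ((range T.N).filter fun a' => adj T.N T.par a a')

/-- The strata that meet an atom. -/
noncomputable def St (T : TD) (D a : ℕ) : Finset ℕ := (range T.k).filter fun i => T.meets D i a

/-- The pairs of a stratum and an atom that meets it. -/
noncomputable def PP (T : TD) (D : ℕ) : Finset (ℕ × ℕ) :=
  (range T.k ×ˢ range T.N).filter fun p => T.meets D p.1 p.2

/-- The index set of the terms. -/
noncomputable def KK (T : TD) (D : ℕ) : Finset (Option (ℕ ⊕ ℕ × ℕ)) :=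
  insertNone ((range T.k).disjSum (PP T D))

/-- The terms. -/
noncomputable def psi (T : TD) (D : ℕ) (m : ℝ) (f : ℕ → ℝ) :
    Option (ℕ ⊕ ℕ × ℕ) → (Fin T.k → ℕ) → ℝ
  | none, _ => -∑ a ∈ range T.N, (T.mu a : ℝ) / D * f a
  | some (Sum.inl i), x => (T.n i : ℝ) * f (T.zc D x i)
  | some (Sum.inr p), x =>
      m / 4 * if T.z D x p.1 = p.2 ∧ T.clean D f x p.1 p.2 then T.om f p.2 else 0

/-- The coordinates on which a term depends. -/
noncomputable def depN (T : TD) (D : ℕ) (f : ℕ → ℝ) : Option (ℕ ⊕ ℕ × ℕ) → Finset ℕ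
  | none => ∅
  | some (Sum.inl i) => {i, i - 1}
  | some (Sum.inr p) => {p.1, p.1 - 1} ∪ (cn T (T.nb f p.2)).biUnion (St T D)

/-- The same as a set of coordinates. -/
noncomputable def dep (T : TD) (D : ℕ) (f : ℕ → ℝ) (q : Option (ℕ ⊕ ℕ × ℕ)) : Finset (Fin T.k) :=
  univ.filter fun j => (j : ℕ) ∈ depN T D f q

/-- The range of a term. -/
noncomputable def rr (T : TD) (D : ℕ) (m : ℝ) (f : ℕ → ℝ) : Option (ℕ ⊕ ℕ × ℕ) → ℝ
  | none => 0
  | some (Sum.inl i) => 2 * m * min 1 (T.osc D f i)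
  | some (Sum.inr p) => m / 4 * T.om f p.2

lemma sum_KK (g : Option (ℕ ⊕ ℕ × ℕ) → ℝ) :
    ∑ q ∈ KK T D, g q = g none + (∑ i ∈ range T.k, g (some (Sum.inl i)) +
      ∑ p ∈ PP T D, g (some (Sum.inr p))) := by
  rw [KK, sum_insertNone, sum_disjSum]

lemma mem_PP {p : ℕ × ℕ} : p ∈ PP T D ↔ p.1 < T.k ∧ T.meets D p.1 p.2 := by
  simp only [PP, mem_filter, mem_product, mem_range]
  exact ⟨fun h => ⟨h.1.1, h.2⟩, fun h => ⟨⟨h.1, h.2.1⟩, h.2⟩⟩

lemma mem_cn {a a' : ℕ} : a' ∈ cn T a ↔ a' = a ∨ adj T.N T.par a a' := by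
  simp only [cn, mem_insert, mem_filter, mem_range]
  exact or_congr Iff.rfl ⟨fun h => h.2, fun h => ⟨h.2.1, h⟩⟩

lemma mem_St {a i : ℕ} : i ∈ St T D a ↔ i < T.k ∧ T.meets D i a := by
  simp only [St, mem_filter, mem_range]

lemma cn_card (h : T.Ok l D b) (a : ℕ) : (cn T a).card ≤ 7 * l ^ 2 := by
  have h1 := h.adj_card a
  have h2 : 1 ≤ l ^ 2 := Nat.one_le_pow _ _ (by have := h.hl; omega)
  have h3 := card_insert_le a ((range T.N).filter fun a' => adj T.N T.par a a')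
  unfold cn
  omega

lemma St_card (h : T.Ok l D b) (a : ℕ) : (St T D a).card ≤ 2 := h.meets_two a

lemma dep_card (f : ℕ → ℝ) (q : Option (ℕ ⊕ ℕ × ℕ)) :
    (dep T D f q).card ≤ (depN T D f q).card :=
  card_le_card_of_injOn (fun j => (j : ℕ)) (fun _ hj => (mem_filter.1 hj).2)
    fun _ _ _ _ e => Fin.ext e

lemma sum_psi (h : T.Ok l D b) (f : ℕ → ℝ) (m : ℕ) {x : Fin T.k → ℕ} (hx : x ∈ T.sp D) :
    ∑ q ∈ KK T D, psi T D m f q x = T.Psi D m f x := by
  have e : ∑ p ∈ PP T D, (if T.z D x p.1 = p.2 ∧ T.clean D f x p.1 p.2 then T.om f p.2 else 0) =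
      ∑ i ∈ range T.k, T.gn D f x i := by
    rw [PP, sum_filter, sum_product]
    refine sum_congr rfl fun i hi => ?_
    have hm := h.z_meets hx (mem_range.1 hi)
    rw [sum_eq_single (T.z D x i)]
    · simp only [TD.gn, hm, if_true, true_and]
    · intro a _ ha
      simp [ha.symm]
    · intro ha
      exact absurd (mem_range.2 hm.1) ha
  rw [sum_KK]
  simp only [psi, ← mul_sum]
  rw [e, TD.Psi, TD.dev]
  ring

lemma z_update (x : Fin T.k → ℕ) (j : Fin T.k) (y : ℕ) {i : ℕ} (hij : i ≠ j) :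
    T.z D (Function.update x j y) i = T.z D x i := by
  rw [TD.z, TD.z, TD.ex_update x j y i hij]

lemma psi_update (m : ℝ) (f : ℕ → ℝ) (q : Option (ℕ ⊕ ℕ × ℕ)) (x : Fin T.k → ℕ) (j : Fin T.k)
    (hj : j ∉ dep T D f q) (y : ℕ) : psi T D m f q (Function.update x j y) = psi T D m f q x := by
  have hj' : (j : ℕ) ∉ depN T D f q := fun hh => hj (mem_filter.2 ⟨mem_univ _, hh⟩)
  rcases q with _ | i | p
  · rfl
  · simp only [depN, mem_insert, mem_singleton, not_or] at hj'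
    simp only [psi, TD.zc, z_update x j y (Ne.symm hj'.1), z_update x j y (Ne.symm hj'.2)]
  · simp only [depN, mem_union, mem_insert, mem_singleton, not_or, mem_biUnion, not_exists,
      not_and] at hj'
    have hc : T.clean D f (Function.update x j y) p.1 p.2 ↔ T.clean D f x p.1 p.2 := by
      unfold TD.clean
      rw [z_update x j y (Ne.symm hj'.1.2)]
      refine and_congr Iff.rfl (forall_congr' fun j' => forall_congr' fun h1 =>
        forall_congr' fun _ => forall_congr' fun a' => forall_congr' fun h2 =>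
        forall_congr' fun h3 => ?_)
      have : j' ≠ j := by
        rintro rfl
        exact hj'.2 a' (mem_cn.2 h2) (mem_St.2 ⟨h1, h3⟩)
      rw [z_update x j y this]
    simp only [psi, z_update x j y (Ne.symm hj'.1.1), hc]

lemma rr_nonneg {m : ℝ} (hm : 0 ≤ m) (f : ℕ → ℝ) (q : Option (ℕ ⊕ ℕ × ℕ)) : 0 ≤ rr T D m f q := by
  rcases q with _ | i | p
  · exact le_rfl
  · exact mul_nonneg (by positivity) (le_min zero_le_one (T.osc_nonneg D f i))
  · exact mul_nonneg (by positivity) (T.om_nonneg f _)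

lemma psi_range (h : T.Ok l D b) {f : ℕ → ℝ} (hf : ∀ a, 0 ≤ f a ∧ f a ≤ 1)
    {q : Option (ℕ ⊕ ℕ × ℕ)} (hq : q ∈ KK T D) {x y : Fin T.k → ℕ} (hx : x ∈ T.sp D)
    (hy : y ∈ T.sp D) :
    |psi T D ((l : ℝ) ^ 6 * b) f q x - psi T D ((l : ℝ) ^ 6 * b) f q y| ≤
      rr T D ((l : ℝ) ^ 6 * b) f q := by
  rcases q with _ | i | p
  · simp [psi, rr]
  · have hi : i < T.k := by simpa [KK] using hq
    have h1 : (T.n i : ℝ) ≤ 2 * ((l : ℝ) ^ 6 * b) := by exact_mod_cast h.nhi i hi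
    simp only [psi, rr]
    rw [← mul_sub, abs_mul, abs_of_nonneg (Nat.cast_nonneg _)]
    refine mul_le_mul h1 (le_min ?_ (h.le_osc f hi (h.zc_meets hx hi) (h.zc_meets hy hi)))
      (abs_nonneg _) (by positivity)
    rw [abs_le]
    constructor <;> linarith [hf (T.zc D x i), hf (T.zc D y i)]
  · simp only [psi, rr]
    rw [← mul_sub, abs_mul, abs_of_nonneg (by positivity)]
    refine mul_le_mul_of_nonneg_left ?_ (by positivity)
    have := T.om_nonneg f p.2
    split_ifs <;> simp [abs_of_nonneg this, this]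

lemma PP_fst (h : T.Ok l D b) (i : ℕ) : ((PP T D).filter fun p => p.1 = i).card ≤ 3 * l ^ 6 := by
  by_cases hi : i < T.k
  · refine le_trans (card_le_card_of_injOn (fun p => p.2) (fun p hp => ?_) ?_) (h.meets_card hi)
    · obtain ⟨h1, rfl⟩ := mem_filter.1 (mem_coe.1 hp)
      have h2 := (mem_PP.1 h1).2
      exact mem_coe.2 (mem_filter.2 ⟨mem_range.2 h2.1, h2⟩)
    · intro p hp q hq e
      exact Prod.ext ((mem_filter.1 (mem_coe.1 hp)).2.trans (mem_filter.1 (mem_coe.1 hq)).2.symm) e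
  · rw [filter_false_of_mem, card_empty]
    · exact Nat.zero_le _
    · rintro p hp rfl
      exact hi (mem_PP.1 hp).1

lemma PP_dep (h : T.Ok l D b) (f : ℕ → ℝ) (j : Fin T.k) :
    ((PP T D).filter fun p => j ∈ dep T D f (some (Sum.inr p))).card ≤ 300 * l ^ 10 := by
  let Q : Finset (ℕ × ℕ) := ((range T.N).filter fun a => T.meets D j a).biUnion fun a' =>
    (cn T a').biUnion fun c => (cn T c).biUnion fun a => (St T D a).image fun i => (i, a)
  have hQ : Q.card ≤ 3 * l ^ 6 * (7 * l ^ 2 * (7 * l ^ 2 * 2)) := by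
    refine (card_biUnion_le_card_mul _ _ (7 * l ^ 2 * (7 * l ^ 2 * 2)) fun a' _ => ?_).trans
      (Nat.mul_le_mul_right _ (h.meets_card j.2))
    refine (card_biUnion_le_card_mul _ _ (7 * l ^ 2 * 2) fun c _ => ?_).trans
      (Nat.mul_le_mul_right _ (cn_card h a'))
    exact (card_biUnion_le_card_mul _ _ 2 fun a _ => card_image_le.trans (St_card h a)).trans
      (Nat.mul_le_mul_right _ (cn_card h c))
  have hsub : ((PP T D).filter fun p => j ∈ dep T D f (some (Sum.inr p))) ⊆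
      (((PP T D).filter fun p => p.1 = j) ∪ ((PP T D).filter fun p => p.1 = j + 1)) ∪ Q := by
    intro p hp
    obtain ⟨h1, h2⟩ := mem_filter.1 hp
    have h3 := (mem_filter.1 h2).2
    simp only [depN, mem_union, mem_insert, mem_singleton, mem_biUnion] at h3
    rcases h3 with h3 | ⟨a', ha', hj⟩
    · refine mem_union_left _ ?_
      simp only [mem_union, mem_filter, h1, true_and]
      omega
    · refine mem_union_right _ ?_
      have hm := (mem_St.1 hj).2
      simp only [Q, mem_biUnion, mem_image]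
      refine ⟨a', mem_filter.2 ⟨mem_range.2 hm.1, hm⟩, T.nb f p.2, ?_, p.2, ?_, p.1,
        mem_St.2 (mem_PP.1 h1), rfl⟩
      · exact mem_cn.2 ((mem_cn.1 ha').imp Eq.symm adj_symm)
      · exact mem_cn.2 ((T.nb_spec f p.2).imp Eq.symm adj_symm)
  have h1 := PP_fst h j
  have h2 := PP_fst h (j + 1)
  have h3 := (card_le_card hsub).trans ((card_union_le _ _).trans
    (Nat.add_le_add_right (card_union_le _ _) _))
  have h4 : l ^ 6 ≤ l ^ 10 := Nat.pow_le_pow_right (by have := h.hl; omega) (by norm_num)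
  have h5 : 3 * l ^ 6 * (7 * l ^ 2 * (7 * l ^ 2 * 2)) = 294 * l ^ 10 := by ring
  omega

lemma C1_le (h : T.Ok l D b) {m : ℝ} (hm : 0 ≤ m) {f : ℕ → ℝ} (hf : ∀ a, 0 ≤ f a ∧ f a ≤ 1)
    (j : Fin T.k) :
    ∑ q ∈ (KK T D).filter (fun q => j ∈ dep T D f q), rr T D m f q ≤ (l : ℝ) ^ 11 * m := by
  have hl : (1000 : ℝ) ≤ l := by exact_mod_cast h.hl
  rw [sum_filter, sum_KK, ← sum_filter, ← sum_filter]
  have h1 : ∑ i ∈ (range T.k).filter (fun i => j ∈ dep T D f (some (Sum.inl i))),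
      rr T D m f (some (Sum.inl i)) ≤ 2 * (2 * m) := by
    refine (sum_le_card_nsmul _ _ (2 * m) fun i _ => ?_).trans ?_
    · exact mul_le_of_le_one_right (by positivity) (min_le_left _ _)
    · rw [nsmul_eq_mul]
      refine mul_le_mul_of_nonneg_right ?_ (by positivity)
      have : ((range T.k).filter (fun i => j ∈ dep T D f (some (Sum.inl i)))) ⊆
          {(j : ℕ), (j : ℕ) + 1} := by
        intro i hi
        have h3 := (mem_filter.1 (mem_filter.1 hi).2).2
        simp only [depN, mem_insert, mem_singleton] at h3 ⊢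
        omega
      exact_mod_cast (card_le_card this).trans card_le_two
  have h2 : ∑ p ∈ (PP T D).filter (fun p => j ∈ dep T D f (some (Sum.inr p))),
      rr T D m f (some (Sum.inr p)) ≤ 300 * (l : ℝ) ^ 10 * (m / 4) := by
    refine (sum_le_card_nsmul _ _ (m / 4) fun p _ => ?_).trans ?_
    · exact mul_le_of_le_one_right (by positivity) (T.om_le_one hf _)
    · rw [nsmul_eq_mul]
      refine mul_le_mul_of_nonneg_right ?_ (by positivity)
      exact_mod_cast PP_dep h f j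
  have h3 : (1 : ℝ) ≤ (l : ℝ) ^ 10 := one_le_pow₀ (by linarith)
  have h4 : 4 + 75 * (l : ℝ) ^ 10 ≤ (l : ℝ) ^ 11 := by
    rw [pow_succ (l : ℝ) 10]
    nlinarith
  have h5 := mul_le_mul_of_nonneg_right h4 hm
  have h6 : (if j ∈ dep T D f none then rr T D m f none else 0) = 0 := by simp [rr]
  rw [h6]
  linarith

lemma C2_le (h : T.Ok l D b) {m : ℝ} (hm : 0 ≤ m) (f : ℕ → ℝ) :
    ∑ q ∈ KK T D, ((dep T D f q).card : ℝ) * rr T D m f q ≤
      (l : ℝ) ^ 3 * m * tau T.N T.par f := by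
  have hl : (1000 : ℝ) ≤ l := by exact_mod_cast h.hl
  have ht := tau_nonneg T.N T.par f
  rw [sum_KK]
  have h1 : ∑ i ∈ range T.k, ((dep T D f (some (Sum.inl i))).card : ℝ) *
      rr T D m f (some (Sum.inl i)) ≤ 4 * m * (2 * tau T.N T.par f) := by
    refine le_trans ?_ (mul_le_mul_of_nonneg_left (h.sum_osc f) (by positivity))
    rw [mul_sum]
    refine sum_le_sum fun i _ => ?_
    have e1 : ((dep T D f (some (Sum.inl i))).card : ℝ) ≤ 2 := by
      exact_mod_cast (dep_card f _).trans card_le_two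
    have e2 : rr T D m f (some (Sum.inl i)) ≤ 2 * m * T.osc D f i :=
      mul_le_mul_of_nonneg_left (min_le_right _ _) (by positivity)
    calc _ ≤ 2 * (2 * m * T.osc D f i) := mul_le_mul e1 e2 (rr_nonneg hm f _) (by norm_num)
      _ = _ := by ring
  have h2 : ∑ p ∈ PP T D, T.om f p.2 ≤ 2 * (2 * tau T.N T.par f) := by
    refine le_trans ?_ (mul_le_mul_of_nonneg_left (h.sum_om_le f) (by norm_num))
    rw [PP, sum_filter, sum_product_right, mul_sum]
    refine sum_le_sum fun a _ => ?_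
    rw [← sum_filter]
    simp only [sum_const, nsmul_eq_mul]
    refine mul_le_mul_of_nonneg_right ?_ (T.om_nonneg f a)
    exact_mod_cast h.meets_two a
  have h3 : ∑ p ∈ PP T D, ((dep T D f (some (Sum.inr p))).card : ℝ) *
      rr T D m f (some (Sum.inr p)) ≤
      (2 + 7 * (l : ℝ) ^ 2 * 2) * (m / 4) * (2 * (2 * tau T.N T.par f)) := by
    refine le_trans ?_ (mul_le_mul_of_nonneg_left h2 (by positivity))
    rw [mul_sum]
    refine sum_le_sum fun p _ => ?_
    have e1 : (dep T D f (some (Sum.inr p))).card ≤ 2 + 7 * l ^ 2 * 2 := by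
      refine (dep_card f _).trans ((card_union_le _ _).trans (Nat.add_le_add card_le_two ?_))
      exact (card_biUnion_le_card_mul _ _ 2 fun a _ => St_card h a).trans
        (Nat.mul_le_mul_right _ (cn_card h _))
    rw [mul_assoc]
    refine mul_le_mul_of_nonneg_right ?_ (rr_nonneg hm f (some (Sum.inr p)))
    exact_mod_cast e1
  have h4 : 10 + 14 * (l : ℝ) ^ 2 ≤ (l : ℝ) ^ 3 := by
    rw [pow_succ (l : ℝ) 2]
    nlinarith
  have h5 := mul_le_mul_of_nonneg_right h4 (mul_nonneg hm ht)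
  have h6 : ((dep T D f none).card : ℝ) * rr T D m f none = 0 := by simp [rr]
  rw [h6]
  nlinarith

end MgfAux

theorem TD.Ok.mean_psi (h : T.Ok l D b) {f : ℕ → ℝ} (hf : ∀ a, 0 ≤ f a ∧ f a ≤ 1) :
    2 / (l : ℝ) ^ 9 * ((l : ℝ) ^ 6 * b) * tau T.N T.par f * (T.sp D).card ≤
      ∑ x ∈ T.sp D, T.Psi D (l ^ 6 * b) f x := by
  have hl : (1000 : ℝ) ≤ l := by exact_mod_cast h.hl
  have hl0 : (0 : ℝ) < l := by linarith
  have h1 := h.mean_dev hf
  have h2 := mul_le_mul_of_nonneg_left (h.mean_gn hf)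
    (show (0 : ℝ) ≤ (l : ℝ) ^ 6 * b / 4 by positivity)
  have h3 : 2 / (l : ℝ) ^ 9 ≤ -(100 / (l : ℝ) ^ 10) + 1 / (96 * (l : ℝ) ^ 8) := by
    rw [← sub_nonneg]
    have : -(100 / (l : ℝ) ^ 10) + 1 / (96 * (l : ℝ) ^ 8) - 2 / (l : ℝ) ^ 9 =
        ((l : ℝ) ^ 2 - 192 * l - 9600) / (96 * (l : ℝ) ^ 10) := by
      field_simp
      ring
    rw [this]
    exact div_nonneg (by nlinarith) (by positivity)
  have h4 := mul_le_mul_of_nonneg_right h3
    (show (0 : ℝ) ≤ (l : ℝ) ^ 6 * b * tau T.N T.par f * (T.sp D).card from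
      mul_nonneg (mul_nonneg (by positivity) (tau_nonneg _ _ _)) (Nat.cast_nonneg _))
  simp only [TD.Psi, sum_add_distrib, ← mul_sum]
  push_cast
  have h5 : (l : ℝ) ^ 6 * b / 4 * (tau T.N T.par f / (24 * (l : ℝ) ^ 8) * (T.sp D).card) =
      1 / (96 * (l : ℝ) ^ 8) * ((l : ℝ) ^ 6 * b * tau T.N T.par f * (T.sp D).card) := by
    field_simp
    ring
  rw [h5] at h2
  linarith

theorem TD.Ok.mgf (h : T.Ok l D b) {f : ℕ → ℝ} (hf : ∀ a, 0 ≤ f a ∧ f a ≤ 1) (lam : ℝ)
    (hlam : 0 ≤ lam) :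
    ∑ x ∈ T.sp D, Real.exp (-(lam * T.Psi D (l ^ 6 * b) f x)) ≤
      (T.sp D).card * Real.exp (-(lam * (2 / (l : ℝ) ^ 9 * ((l : ℝ) ^ 6 * b) * tau T.N T.par f)) +
        lam ^ 2 * ((l : ℝ) ^ 14 * ((l : ℝ) ^ 6 * b) ^ 2 * tau T.N T.par f) / 2) := by
  have hm : (0 : ℝ) ≤ (l : ℝ) ^ 6 * b := by positivity
  have e : ∀ x ∈ T.sp D, ∑ q ∈ MgfAux.KK T D, MgfAux.psi T D ((l : ℝ) ^ 6 * b) f q x =
      T.Psi D (l ^ 6 * b) f x := fun x hx => by
    rw [← MgfAux.sum_psi h f (l ^ 6 * b) hx]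
    push_cast
    rfl
  have key := mcd_local (fun i : Fin T.k => range (D * T.n i)) h.sp_ne (MgfAux.KK T D)
    (MgfAux.psi T D ((l : ℝ) ^ 6 * b) f) (MgfAux.dep T D f) (MgfAux.rr T D ((l : ℝ) ^ 6 * b) f)
    ((l : ℝ) ^ 11 * ((l : ℝ) ^ 6 * b)) ((l : ℝ) ^ 3 * ((l : ℝ) ^ 6 * b) * tau T.N T.par f)
    (by positivity) (fun q _ => MgfAux.rr_nonneg hm f q)
    (fun q _ x _ j hj y _ => MgfAux.psi_update _ f q x j hj y)
    (fun q hq x hx y hy => MgfAux.psi_range h hf hq hx hy)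
    (fun j => by convert MgfAux.C1_le h hm hf j) (MgfAux.C2_le h hm f) lam
    (2 / (l : ℝ) ^ 9 * ((l : ℝ) ^ 6 * b) * tau T.N T.par f) hlam
    ((h.mean_psi hf).trans (le_of_eq (sum_congr rfl fun x hx => (e x hx).symm)))
  have e2 : (l : ℝ) ^ 14 * ((l : ℝ) ^ 6 * b) ^ 2 * tau T.N T.par f =
      (l : ℝ) ^ 11 * ((l : ℝ) ^ 6 * b) * ((l : ℝ) ^ 3 * ((l : ℝ) ^ 6 * b) * tau T.N T.par f) := by
    ring
  rw [e2]
  exact le_trans (le_of_eq (sum_congr rfl fun x hx => by rw [e x hx])) key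


end Pool.Agent.Lib.MP_f20cd2_co.PL
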