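import Pool.Agent.Lib.MP_f20cd2_co.PL.Tree
import Pool.Agent.Lib.MP_f20cd2_co.PL.Atoms
import Pool.Agent.Lib.MP_f20cd2_co.PL.Pre

/-!
The tree of atoms of one class (E1, first half).
-/

set_option autoImplicit false
set_option linter.unusedSectionVars false

namespace Pool.Agent.Lib.MP_f20cd2_co.PL

open Finset
open Pool.Agent.Lib.MP_f20cd2_co.H83 (Conn Cells)
open scoped Classical

variable {V : Type} [Fintype V] [DecidableEq V] {G : SimpleGraph V}

theorem one_tree (l : ℕ) (hl : 1000 ≤ l) (hn : Fintype.card V < 2 ^ l) {W U : Finset V}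
    (hT : RT G W 1) (hW : W.Nonempty) (ft : V → V) (hft : ∀ u ∈ U, ft u ∈ W ∧ G.Adj u (ft u))
    (hload : ∀ x ∈ W, 2 * l ^ 89 ≤ (U.filter fun u => ft u = x).card ∧
      (U.filter fun u => ft u = x).card ≤ 5 * l ^ 163)
    (b th k : ℕ) (n : ℕ → ℕ) (hb : l ^ 96 ≤ b) (hk : 0 < k)
    (hnlo : ∀ i < k, l ^ 6 * b ≤ n i) (hnhi : ∀ i < k, n i ≤ 2 * (l ^ 6 * b))
    (hsum : th + W.card = ∑ i ∈ range k, n i) (hlt : ∑ i ∈ range k, n i < 2 ^ l)
    (hth1 : l ^ 68 * th ≤ 2 * U.card) (hth2 : U.card ≤ 2 * (l ^ 68 * th)) :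
    ∃ (T : TD) (φ : V → ℕ) (S : ℕ → Finset V), T.k = k ∧ T.n = n ∧ T.Ok l U.card b ∧
      T.N ≤ W.card ∧ (∀ u ∈ U, φ u < T.N ∧ ∃ x ∈ S (φ u), G.Adj u x) ∧
      (∀ a < T.N, T.mu a = th * (U.filter fun u => φ u = a).card + U.card * (S a).card ∧
        l ^ 21 * (U.card * (S a).card) ≤ T.mu a ∧ S a ⊆ W ∧ Conn G (S a)) ∧
      (∀ a < T.N, ∀ a' < T.N, a ≠ a' → Disjoint (S a) (S a')) ∧
      ∀ j, 0 < j → j < T.N → ∃ x ∈ S j, ∃ y ∈ S (T.par j), G.Adj x y := by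
  obtain ⟨x0, hx0⟩ := hW
  have hl0 : 0 < l := by omega
  have hD : 0 < U.card := by
    have h1 := (hload x0 hx0).1
    have h2 : 0 < 2 * l ^ 89 := by positivity
    exact lt_of_lt_of_le (h2.trans_le h1) (card_filter_le _ _)
  have hb0 : 0 < b := lt_of_lt_of_le (by positivity) hb
  obtain ⟨r, par, rk, hR, hadj⟩ := tree_exists l hn hT (subset_refl W) ⟨x0, hx0⟩
  obtain ⟨μ, hμ⟩ : ∃ μ : V → ℕ, ∀ x, μ x = th * (U.filter fun u => ft u = x).card + U.card :=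
    ⟨_, fun _ => rfl⟩
  have hμhi : ∀ v ∈ W, μ v ≤ U.card * b := by
    intro v hv
    have h1 : th * (U.filter fun u => ft u = v).card ≤ 10 * l ^ 95 * U.card :=
      calc th * (U.filter fun u => ft u = v).card ≤ th * (5 * l ^ 163) :=
            Nat.mul_le_mul_left _ (hload v hv).2
        _ = 5 * l ^ 95 * (l ^ 68 * th) := by ring
        _ ≤ 5 * l ^ 95 * (2 * U.card) := Nat.mul_le_mul_left _ hth1
        _ = 10 * l ^ 95 * U.card := by ring
    have h2 : 11 * l ^ 95 ≤ l ^ 96 := absorb hl 11 95 1 (by norm_num)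
    have h3 : 1 ≤ l ^ 95 := Nat.one_le_pow _ _ hl0
    calc μ v ≤ 10 * l ^ 95 * U.card + U.card := by rw [hμ]; omega
      _ = U.card * (10 * l ^ 95 + 1) := by ring
      _ ≤ U.card * b := Nat.mul_le_mul_left _ (by omega)
  have hμlo : ∀ v ∈ W, l ^ 21 * U.card ≤ μ v := by
    intro v hv
    calc l ^ 21 * U.card ≤ l ^ 21 * (2 * (l ^ 68 * th)) := Nat.mul_le_mul_left _ hth2
      _ = th * (2 * l ^ 89) := by ring
      _ ≤ th * (U.filter fun u => ft u = v).card := Nat.mul_le_mul_left _ (hload v hv).1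
      _ ≤ μ v := by rw [hμ]; omega
  have hsumS : ∀ (P Q : Finset V), (∀ u, u ∈ Q ↔ u ∈ U ∧ ft u ∈ P) →
      ∑ v ∈ P, μ v = th * Q.card + U.card * P.card := by
    intro P Q hQ
    have h1 : Q.card = ∑ v ∈ P, (U.filter fun u => ft u = v).card := by
      rw [card_eq_sum_card_fiberwise (f := ft) (t := P) fun u hu => ((hQ u).1 hu).2]
      refine sum_congr rfl fun v hv => congrArg _ ?_
      ext u
      simp only [mem_filter, hQ]
      exact ⟨fun h => ⟨h.1.1, h.2⟩, fun h => ⟨⟨h.1, h.2 ▸ hv⟩, h.2⟩⟩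
    rw [h1, mul_sum, sum_congr rfl fun v _ => hμ v, sum_add_distrib, sum_const, smul_eq_mul,
      mul_comm P.card]
  have htot : ∑ v ∈ W, μ v = U.card * ∑ i ∈ range k, n i := by
    rw [hsumS W U fun u => ⟨fun h => ⟨h, (hft u h).1⟩, fun h => h.1⟩, ← hsum]
    ring
  have hlo : U.card * b ≤ ∑ v ∈ W, μ v := by
    rw [htot]
    refine Nat.mul_le_mul_left _ ?_
    calc b ≤ l ^ 6 * b := Nat.le_mul_of_pos_left _ (by positivity)
      _ ≤ n 0 := hnlo 0 hk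
      _ ≤ ∑ i ∈ range k, n i := single_le_sum (fun _ _ => Nat.zero_le _) (mem_range.2 hk)
  have hhi : ∑ v ∈ W, μ v < 2 ^ l * (U.card * b) := by
    rw [htot]
    calc U.card * ∑ i ∈ range k, n i < U.card * 2 ^ l := Nat.mul_lt_mul_of_pos_left hlt hD
      _ ≤ U.card * 2 ^ l * b := Nat.le_mul_of_pos_right _ hb0
      _ = 2 ^ l * (U.card * b) := by ring
  obtain ⟨top, -, htop, hmass, hR'⟩ :=
    exists_atoms hR μ (U.card * b) l (Nat.mul_pos hD hb0) hμhi hlo hhi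
  obtain ⟨nd, ix, p, e, hPT, hnd, hix, -, hp⟩ := exists_pre hR'
  simp only [mem_filter] at hnd hix
  generalize hNdef : (Finset.card _) = N at hPT hnd hix hp
  have hNW : N ≤ W.card := by
    rw [← hNdef]
    exact card_le_card fun a ha => by simp only [mem_filter] at ha; exact ha.1
  obtain ⟨S, hS⟩ : ∃ S : ℕ → Finset V, ∀ j v, v ∈ S j ↔ v ∈ W ∧ top v = nd j :=
    ⟨fun j => W.filter fun v => top v = nd j, fun j v => mem_filter⟩
  have hixt : ∀ v ∈ W, ix (top v) < N ∧ nd (ix (top v)) = top v := fun v hv =>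
    hix _ ⟨(htop v hv).1, (htop v hv).2.1⟩
  have hS' : ∀ j < N, ∀ v, v ∈ S j ↔ v ∈ W ∧ ix (top v) = j := by
    intro j hj v
    rw [hS]
    refine and_congr_right fun hv => ⟨fun h => ?_, fun h => ?_⟩
    · rw [h, (hnd j hj).2]
    · rw [← h, (hixt v hv).2]
  have hmassS : ∀ j < N, U.card * b ≤ ∑ v ∈ S j, μ v ∧
      ∑ v ∈ S j, μ v ≤ (4 * l + 2) * (U.card * b) := by
    intro j hj
    have h := hmass (nd j) (hnd j hj).1.1 (hnd j hj).1.2
    convert h using 3 <;>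
    · ext v
      simp only [hS, mem_filter]
  have hself : ∀ j < N, nd j ∈ S j := fun j hj => (hS j _).2 (hnd j hj).1
  refine ⟨⟨N, p, e, fun j => ∑ v ∈ S j, μ v, k, n⟩, fun u => ix (top (ft u)), S, rfl, rfl,
    ⟨hl, hD, hb0, hPT.mono (by nlinarith), fun a ha => (hmassS a ha).1,
      fun a ha => (hmassS a ha).2.trans (Nat.mul_le_mul_right _ (by omega)), hnlo, hnhi, ?_⟩,
    hNW, fun u hu => ?_, fun a ha => ⟨?_, ?_, fun v hv => ((hS a v).1 hv).1, ?_⟩,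
    fun a ha a' ha' hne => ?_, fun j hj0 hj => ?_⟩
  · show ∑ a ∈ range N, ∑ v ∈ S a, μ v = U.card * ∑ i ∈ range k, n i
    rw [← htot, ← sum_fiberwise_of_maps_to (s := W) (t := range N) (g := fun v => ix (top v))
      (fun v hv => mem_range.2 (hixt v hv).1) μ]
    refine sum_congr rfl fun j hj => sum_congr ?_ fun _ _ => rfl
    ext v
    rw [hS' j (mem_range.1 hj), mem_filter]
  · have h := hixt _ (hft u hu).1
    exact ⟨h.1, ft u, (hS _ _).2 ⟨(hft u hu).1, h.2.symm⟩, (hft u hu).2⟩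
  · refine hsumS (S a) _ fun u => ?_
    rw [mem_filter, hS' a ha]
    exact and_congr_right fun hu => ⟨fun h => ⟨(hft u hu).1, h⟩, fun h => h.2⟩
  · show l ^ 21 * (U.card * (S a).card) ≤ ∑ v ∈ S a, μ v
    calc l ^ 21 * (U.card * (S a).card) = (S a).card • (l ^ 21 * U.card) := by
          rw [smul_eq_mul]; ring
      _ ≤ ∑ v ∈ S a, μ v := card_nsmul_le_sum _ _ _ fun v hv => hμlo v ((hS a v).1 hv).1
  · refine conn_of_rank (S a) (nd a) (hself a ha) rk fun v hv hne => ?_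
    obtain ⟨hvW, hvt⟩ := (hS a v).1 hv
    obtain ⟨hvr, hpt⟩ := (htop v hvW).2.2 (by rw [hvt]; exact hne)
    exact ⟨par v, (hS a _).2 ⟨hR.mem v hvW hvr, hpt.trans hvt⟩, hadj v hvW hvr, hR.lt v hvW hvr⟩
  · refine disjoint_left.2 fun v hv hv' => hne ?_
    rw [← ((hS' a ha v).1 hv).2, ← ((hS' a' ha' v).1 hv').2]
  · obtain ⟨h1, h2⟩ := hp j hj0 hj
    have hW' := (hnd j hj).1.1
    exact ⟨nd j, hself j hj, par (nd j), (hS _ _).2 ⟨hR.mem _ hW' h1, h2.symm⟩, hadj _ hW' h1⟩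


end Pool.Agent.Lib.MP_f20cd2_co.PL
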