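import Pool.Agent.Lib.MP_f20cd2_co.PL.UnitA

/-!
The unit of parts of comparable large size (E1).
-/

set_option autoImplicit false
set_option linter.unusedSectionVars false

namespace Pool.Agent.Lib.MP_f20cd2_co.PL

open Finset
open Pool.Agent.Lib.MP_f20cd2_co.H83 (Conn Cells)
open scoped Classical

variable {V : Type} [Fintype V] [DecidableEq V] {G : SimpleGraph V}

theorem tree_unit {ι : Type} (l : ℕ) (hl : 1000 ≤ l) (hn : Fintype.card V < 2 ^ l) {χ : V → ℕ}
    (hχ : Good G l χ) (g : ℕ) (hg : g + 2 * l ^ 91 ≤ l ^ 163) (A : Finset V)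
    (hA : col χ g (g + 2 * l ^ 91) ⊆ A) (b : ℕ) (hb : l ^ 96 ≤ b) (I : Finset ι) (a : ι → ℕ)
    (hlo : ∀ i ∈ I, l ^ 6 * b ≤ a i) (hhi : ∀ i ∈ I, a i ≤ 2 * (l ^ 6 * b))
    (hsum : ∑ i ∈ I, a i = A.card) (hbig : 16 * l ^ 68 * (l ^ 6 * b) ≤ A.card)
    (hact : 16 * Fintype.card V ≤ l ^ 3 * A.card) (hV : 0 < Fintype.card V) : Pack G A I a := by
  have hl1 : 1 ≤ l := by omega
  have hlR : (1 : ℝ) ≤ l := by exact_mod_cast hl1
  have hJ : l ^ 68 * (l + 1) ≤ l ^ 91 := by
    calc l ^ 68 * (l + 1) ≤ l ^ 68 * (2 * l) := Nat.mul_le_mul_left _ (by omega)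
      _ = 2 * l ^ 69 := by ring
      _ ≤ l ^ 70 := absorb hl 2 69 1 (by norm_num)
      _ ≤ l ^ 91 := Nat.pow_le_pow_right hl1 (by norm_num)
  have h91 : 0 < l ^ 91 := by positivity
  have hc1 : ∀ c < l ^ 68, c * (l + 1) + (l + 1) ≤ l ^ 68 * (l + 1) := by
    intro c hc
    calc c * (l + 1) + (l + 1) = (c + 1) * (l + 1) := by ring
      _ ≤ l ^ 68 * (l + 1) := Nat.mul_le_mul_right _ hc
  obtain ⟨W, hWd⟩ : ∃ W : ℕ → Finset V,
      ∀ c, W c = col χ (g + c * (l + 1)) (g + c * (l + 1) + l + 1) := ⟨_, fun _ => rfl⟩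
  have hWA : ∀ c < l ^ 68, W c ⊆ A := by
    intro c hc v hv
    rw [hWd, mem_col] at hv
    have := hc1 c hc
    exact hA (mem_col.2 ⟨by omega, by omega⟩)
  have hBA : (range (l ^ 68)).biUnion W ⊆ A :=
    biUnion_subset.2 fun c hc => hWA c (mem_range.1 hc)
  have hWW : ∀ c < l ^ 68, ∀ c' < l ^ 68, c ≠ c' → Disjoint (W c) (W c') := by
    have key : ∀ c c', c < c' → Disjoint (W c) (W c') := by
      intro c c' h
      refine disjoint_left.2 fun v hv hv' => ?_
      rw [hWd, mem_col] at hv hv'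
      have : (c + 1) * (l + 1) ≤ c' * (l + 1) := Nat.mul_le_mul_right _ h
      have e : (c + 1) * (l + 1) = c * (l + 1) + l + 1 := by ring
      omega
    intro c _ c' _ hne
    rcases lt_or_gt_of_ne hne with h | h
    · exact key c c' h
    · exact (key c' c h).symm
  have hFU : col χ (g + l ^ 68 * (l + 1)) (g + l ^ 68 * (l + 1) + l ^ 91) ⊆
      A \ (range (l ^ 68)).biUnion W := by
    intro v hv
    rw [mem_col] at hv
    refine mem_sdiff.2 ⟨hA (mem_col.2 ⟨by omega, by omega⟩), fun h => ?_⟩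
    obtain ⟨c, hc, hvc⟩ := mem_biUnion.1 h
    rw [hWd, mem_col] at hvc
    have := hc1 c (mem_range.1 hc)
    omega
  have hft : ∀ c, ∃ ft : V → V, c < l ^ 68 →
      ((∀ u ∈ A \ (range (l ^ 68)).biUnion W, ft u ∈ W c ∧ G.Adj u (ft u)) ∧
      ∀ x ∈ W c, 2 * l ^ 89 ≤ ((A \ (range (l ^ 68)).biUnion W).filter fun u => ft u = x).card ∧
        ((A \ (range (l ^ 68)).biUnion W).filter fun u => ft u = x).card ≤ 5 * l ^ 163) := by
    intro c
    by_cases hc : c < l ^ 68
    · have h1 := hc1 c hc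
      obtain ⟨ft, h2, h3⟩ := feet (G := G) (W c) (col χ (g + c * (l + 1)) (g + c * (l + 1) + 1))
        (col χ (g + l ^ 68 * (l + 1)) (g + l ^ 68 * (l + 1) + l ^ 91))
        (A \ (range (l ^ 68)).biUnion W) (2 * l ^ 89) (4 * l ^ 163)
        (fun v hv => by
          rw [mem_col] at hv
          rw [hWd, mem_col]
          omega) hFU (hχ.up _ (by omega))
        (fun D hD => hχ.low (g + c * (l + 1)) _ (by omega) (by omega) D (by rwa [hWd] at hD))
      refine ⟨ft, fun _ => ⟨h2, fun x hx => ⟨(h3 x hx).1, (h3 x hx).2.trans ?_⟩⟩⟩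
      have a1 : 2 * l ^ 89 ≤ l ^ 163 :=
        (absorb hl 2 89 1 (by norm_num)).trans (Nat.pow_le_pow_right hl1 (by norm_num))
      omega
    · exact ⟨id, fun h => absurd h hc⟩
  choose ft hft using hft
  have hcardW : ((range (l ^ 68)).biUnion W).card = ∑ c ∈ range (l ^ 68), (W c).card :=
    card_biUnion fun c hc c' hc' hne =>
      hWW c (mem_range.1 (mem_coe.1 hc)) c' (mem_range.1 (mem_coe.1 hc')) hne
  have hP := unit_pack (G := G) l hl hn b hb (A \ (range (l ^ 68)).biUnion W) W ft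
    (fun c hc => by
      have h1 := hc1 c hc
      rw [hWd]
      exact (hχ.rt _ (by omega)).mono Subset.rfl (one_le_pow₀ hlR))
    (fun c hc => by
      have h1 := hc1 c hc
      obtain ⟨v⟩ := Fintype.card_pos_iff.1 hV
      have h2 := hχ.up (g + c * (l + 1)) (by omega) {v}
      rw [card_singleton] at h2
      have h3 : 0 < (nbr G {v} ∩ col χ (g + c * (l + 1)) (g + c * (l + 1) + 1)).card := by
        rcases Nat.eq_zero_or_pos
          (nbr G {v} ∩ col χ (g + c * (l + 1)) (g + c * (l + 1) + 1)).card with h | h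
        · rw [h, mul_zero] at h2
          omega
        · exact h
      obtain ⟨x, hx⟩ := card_pos.1 h3
      have h4 := mem_col.1 (mem_inter.1 hx).2
      exact ⟨x, by rw [hWd, mem_col]; omega⟩)
    (fun c hc => disjoint_left.2 fun v hv hv' =>
      (mem_sdiff.1 hv').2 (mem_biUnion.2 ⟨c, mem_range.2 hc, hv⟩))
    hWW (fun c hc => (hft c hc).1) (fun c hc => (hft c hc).2) I a hlo hhi
    (by rw [hsum, ← hcardW, card_sdiff_add_card_eq_card hBA])
    (by rw [hsum]; exact hbig)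
    (fun c hc => by
      have h1 := hc1 c hc
      have h2 := hχ.size (g + c * (l + 1)) (g + c * (l + 1) + l + 1) (by omega)
      rw [← hWd, show g + c * (l + 1) + l + 1 - (g + c * (l + 1)) = l + 1 by omega] at h2
      rw [hsum]
      refine Nat.le_of_mul_le_mul_left ?_ (show 0 < 16 * l ^ 163 by positivity)
      have a1 : l ^ 68 * (l + 1) * l ^ 3 ≤ l ^ 163 := by
        calc l ^ 68 * (l + 1) * l ^ 3 ≤ l ^ 91 * l ^ 3 := Nat.mul_le_mul_right _ hJ
          _ = l ^ 94 := by ring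
          _ ≤ l ^ 163 := Nat.pow_le_pow_right hl1 (by norm_num)
      calc 16 * l ^ 163 * (4 * l ^ 68 * (W c).card)
          = 64 * l ^ 68 * (l ^ 163 * (W c).card) := by ring
        _ ≤ 64 * l ^ 68 * (2 * (l + 1) * Fintype.card V) := Nat.mul_le_mul_left _ h2
        _ = 8 * (l ^ 68 * (l + 1)) * (16 * Fintype.card V) := by ring
        _ ≤ 8 * (l ^ 68 * (l + 1)) * (l ^ 3 * A.card) := Nat.mul_le_mul_left _ hact
        _ = 8 * (l ^ 68 * (l + 1) * l ^ 3) * A.card := by ring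
        _ ≤ 16 * l ^ 163 * A.card := Nat.mul_le_mul_right _ (by omega))
  rwa [sdiff_union_of_subset hBA] at hP

end Pool.Agent.Lib.MP_f20cd2_co.PL
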