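import Pool.Agent.Lib.MP_f20cd2_co.PL.Core
import Pool.Agent.Lib.MP_f20cd2_co.PL.OneTree

/-!
From the core lemma to a packing (E1, second half).
-/

set_option autoImplicit false
set_option linter.unusedSectionVars false

namespace Pool.Agent.Lib.MP_f20cd2_co.PL

open Finset
open Pool.Agent.Lib.MP_f20cd2_co.H83 (Conn Cells)
open scoped Classical

variable {V : Type} [Fintype V] [DecidableEq V] {G : SimpleGraph V}

namespace UnitAAux

lemma exists_enum {ι : Type} (S : Finset ι) (i0 : ι) :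
    ∃ (en : ℕ → ι) (ix : ι → ℕ), (∀ j < S.card, en j ∈ S ∧ ix (en j) = j) ∧
      ∀ i ∈ S, ix i < S.card ∧ en (ix i) = i := by
  refine ⟨fun j => if h : j < S.card then (S.equivFin.symm ⟨j, h⟩ : ι) else i0,
    fun i => if h : i ∈ S then (S.equivFin ⟨i, h⟩ : ℕ) else 0, fun j hj => ?_, fun i hi => ?_⟩
  · simp only [dif_pos hj]
    refine ⟨(S.equivFin.symm ⟨j, hj⟩).2, ?_⟩
    rw [dif_pos (S.equivFin.symm ⟨j, hj⟩).2]
    simp
  · simp only [dif_pos hi]
    refine ⟨(S.equivFin ⟨i, hi⟩).2, ?_⟩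
    rw [dif_pos (S.equivFin ⟨i, hi⟩).2]
    simp

lemma arith {J m N w s D Tm : ℕ} (hJ : 0 < J) (hm : 0 < m) (h1 : J * N ≤ Tm + J * (2 * m))
    (h2 : Tm ≤ J * N + J * (2 * m)) (h3 : 16 * J * m ≤ Tm) (h4 : 4 * J * w ≤ Tm)
    (h5 : 4 * s ≤ Tm) (h6 : Tm = D + s) :
    0 < N ∧ w ≤ N ∧ J * (N - w) ≤ 2 * D ∧ D ≤ 2 * (J * (N - w)) := by
  have e1 : J * (2 * m) = 2 * (J * m) := by ring
  have e2 : 16 * J * m = 16 * (J * m) := by ring
  have e3 : 4 * J * w = 4 * (J * w) := by ring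
  have p : 0 < J * m := Nat.mul_pos hJ hm
  rw [e1] at h1 h2
  rw [e2] at h3
  rw [e3] at h4
  have a1 : w ≤ N := Nat.le_of_mul_le_mul_left (show J * w ≤ J * N by omega) hJ
  have a2 : J * (N - w) + J * w = J * N := by rw [← mul_add, Nat.sub_add_cancel a1]
  refine ⟨?_, a1, by omega, by omega⟩
  rcases Nat.eq_zero_or_pos N with h | h
  · rw [h, mul_zero] at h2
    omega
  · exact h

end UnitAAux

theorem unit_pack {ι : Type} (l : ℕ) (hl : 1000 ≤ l) (hn : Fintype.card V < 2 ^ l) (b : ℕ)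
    (hb : l ^ 96 ≤ b) (U : Finset V) (W : ℕ → Finset V) (ft : ℕ → V → V)
    (hT : ∀ c < l ^ 68, RT G (W c) 1) (hW : ∀ c < l ^ 68, (W c).Nonempty)
    (hWU : ∀ c < l ^ 68, Disjoint (W c) U)
    (hWW : ∀ c < l ^ 68, ∀ c' < l ^ 68, c ≠ c' → Disjoint (W c) (W c'))
    (hft : ∀ c < l ^ 68, ∀ u ∈ U, ft c u ∈ W c ∧ G.Adj u (ft c u))
    (hload : ∀ c < l ^ 68, ∀ x ∈ W c, 2 * l ^ 89 ≤ (U.filter fun u => ft c u = x).card ∧
      (U.filter fun u => ft c u = x).card ≤ 5 * l ^ 163)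
    (I : Finset ι) (a : ι → ℕ) (hlo : ∀ i ∈ I, l ^ 6 * b ≤ a i)
    (hhi : ∀ i ∈ I, a i ≤ 2 * (l ^ 6 * b))
    (hsum : ∑ i ∈ I, a i = U.card + ∑ c ∈ range (l ^ 68), (W c).card)
    (hbig : 16 * l ^ 68 * (l ^ 6 * b) ≤ ∑ i ∈ I, a i)
    (hsm : ∀ c < l ^ 68, 4 * l ^ 68 * (W c).card ≤ ∑ i ∈ I, a i) :
    Pack G (U ∪ (range (l ^ 68)).biUnion W) I a := by
  have hl1 : 1 ≤ l := by omega
  have hJ : 0 < l ^ 68 := by positivity
  have hb0 : 0 < b := lt_of_lt_of_le (by positivity) hb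
  have hm : 0 < l ^ 6 * b := by positivity
  obtain ⟨tr, htr, hbal⟩ := split I a (l ^ 68) (2 * (l ^ 6 * b)) hJ hhi
  have hI : I.Nonempty := by
    rcases I.eq_empty_or_nonempty with h | h
    · rw [h, sum_empty] at hbig
      have : 0 < 16 * l ^ 68 * (l ^ 6 * b) := by positivity
      omega
    · exact h
  obtain ⟨i0, -⟩ := hI
  choose en ix hen hix using fun c : ℕ => UnitAAux.exists_enum (I.filter fun i => tr i = c) i0
  have hcardW : ((range (l ^ 68)).biUnion W).card = ∑ c ∈ range (l ^ 68), (W c).card :=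
    card_biUnion fun c hc c' hc' hne =>
      hWW c (mem_range.1 (mem_coe.1 hc)) c' (mem_range.1 (mem_coe.1 hc')) hne
  have hdis : Disjoint U ((range (l ^ 68)).biUnion W) := by
    rw [disjoint_biUnion_right]
    exact fun c hc => (hWU c (mem_range.1 hc)).symm
  have htot : ∑ i ∈ I, a i < 2 ^ l := by
    rw [hsum, ← hcardW, ← card_union_of_disjoint hdis]
    exact lt_of_le_of_lt (card_le_univ _) hn
  have hs4 : 4 * ∑ c ∈ range (l ^ 68), (W c).card ≤ ∑ i ∈ I, a i := by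
    refine Nat.le_of_mul_le_mul_left ?_ hJ
    calc l ^ 68 * (4 * ∑ c ∈ range (l ^ 68), (W c).card)
        = ∑ c ∈ range (l ^ 68), 4 * l ^ 68 * (W c).card := by
          rw [← mul_sum]
          ring
      _ ≤ ∑ _c ∈ range (l ^ 68), ∑ i ∈ I, a i := sum_le_sum fun c hc => hsm c (mem_range.1 hc)
      _ = l ^ 68 * ∑ i ∈ I, a i := by rw [sum_const, card_range, smul_eq_mul]
  have har := fun c (hc : c < l ^ 68) => UnitAAux.arith hJ hm (hbal c hc).1 (hbal c hc).2 hbig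
    (hsm c hc) hs4 hsum
  have hsumc : ∀ c, ∑ j ∈ range (I.filter fun i => tr i = c).card, a (en c j) =
      ∑ i ∈ I.filter (fun i => tr i = c), a i := by
    intro c
    exact sum_nbij' (en c) (ix c) (fun j hj => (hen c j (mem_range.1 hj)).1)
      (fun i hi => mem_range.2 (hix c i hi).1) (fun j hj => (hen c j (mem_range.1 hj)).2)
      (fun i hi => (hix c i hi).2) (fun _ _ => rfl)
  have hone : ∀ c, ∃ (T : TD) (φ : V → ℕ) (S : ℕ → Finset V), c < l ^ 68 →
      (T.k = (I.filter fun i => tr i = c).card ∧ T.n = (fun j => a (en c j)) ∧ T.Ok l U.card b ∧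
      T.N ≤ (W c).card ∧ (∀ u ∈ U, φ u < T.N ∧ ∃ x ∈ S (φ u), G.Adj u x) ∧
      (∀ y < T.N, T.mu y = (∑ i ∈ I.filter (fun i => tr i = c), a i - (W c).card) *
          (U.filter fun u => φ u = y).card + U.card * (S y).card ∧
        l ^ 21 * (U.card * (S y).card) ≤ T.mu y ∧ S y ⊆ W c ∧ Conn G (S y)) ∧
      (∀ y < T.N, ∀ y' < T.N, y ≠ y' → Disjoint (S y) (S y')) ∧
      ∀ j, 0 < j → j < T.N → ∃ x ∈ S j, ∃ y ∈ S (T.par j), G.Adj x y) := by
    intro c
    by_cases hc : c < l ^ 68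
    · obtain ⟨h1, h2, h3, h4⟩ := har c hc
      have hmem : ∀ j < (I.filter fun i => tr i = c).card, en c j ∈ I :=
        fun j hj => (mem_filter.1 (hen c j hj).1).1
      obtain ⟨T, φ, S, h⟩ := one_tree l hl hn (hT c hc) (hW c hc) (ft c) (hft c hc) (hload c hc) b
        (∑ i ∈ I.filter (fun i => tr i = c), a i - (W c).card)
        (I.filter fun i => tr i = c).card (fun j => a (en c j)) hb
        (by
          rcases (I.filter fun i => tr i = c).eq_empty_or_nonempty with h | h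
          · rw [h, sum_empty] at h1
            exact absurd h1 (lt_irrefl _)
          · exact card_pos.2 h)
        (fun j hj => hlo _ (hmem j hj)) (fun j hj => hhi _ (hmem j hj))
        (by rw [hsumc c]; exact Nat.sub_add_cancel h2)
        (by
          rw [hsumc c]
          exact lt_of_le_of_lt (sum_le_sum_of_subset (filter_subset _ _)) htot)
        h3 h4
      exact ⟨T, φ, S, fun _ => h⟩
    · exact ⟨⟨0, id, id, id, 0, id⟩, fun _ => 0, fun _ => ∅, fun h => absurd h hc⟩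
  choose T φ S hone using hone
  have hF : Fl l U.card b T U φ (fun c => ∑ i ∈ I.filter (fun i => tr i = c), a i - (W c).card)
      (fun c y => (S c y).card) := by
    refine ⟨fun c hc => (hone c hc).2.2.1, rfl, fun c hc u hu => ((hone c hc).2.2.2.2.1 u hu).1,
      fun c hc y hy => ((hone c hc).2.2.2.2.2.1 y hy).1,
      fun c hc y hy => ((hone c hc).2.2.2.2.2.1 y hy).2.1, ?_, fun c hc => (har c hc).2.2.1⟩
    have h1 : ∑ c ∈ range (l ^ 68), ∑ i ∈ I.filter (fun i => tr i = c), a i = ∑ i ∈ I, a i :=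
      sum_fiberwise_of_maps_to (fun i hi => mem_range.2 (htr i hi)) _
    have h2 : ∑ c ∈ range (l ^ 68), (∑ i ∈ I.filter (fun i => tr i = c), a i - (W c).card) +
        ∑ c ∈ range (l ^ 68), (W c).card =
        ∑ c ∈ range (l ^ 68), ∑ i ∈ I.filter (fun i => tr i = c), a i := by
      rw [← sum_add_distrib]
      exact sum_congr rfl fun c hc => Nat.sub_add_cancel (har c (mem_range.1 hc)).2.1
    omega
  obtain ⟨ow, tp, ψ, hcut, hψ, hcnt⟩ := core hF hl
    (lt_of_le_of_lt (sum_le_sum fun c hc => (hone c (mem_range.1 hc)).2.2.2.1) (by omega))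
    (by omega)
  have hixk : ∀ i ∈ I, ix (tr i) i < (T (tr i)).k := by
    intro i hi
    rw [(hone _ (htr i hi)).1]
    exact (hix (tr i) i (mem_filter.2 ⟨hi, rfl⟩)).1
  have hSW : ∀ c < l ^ 68, ∀ (j : ℕ) (v : V),
      v ∈ ((range (T c).N).filter fun y => ow c y = j).biUnion (S c) → v ∈ W c := by
    intro c hc j v hv
    obtain ⟨y, hy, hvy⟩ := mem_biUnion.1 hv
    exact ((hone c hc).2.2.2.2.2.1 y (mem_range.1 (mem_filter.1 hy).1)).2.2.1 hvy
  have hkey : ∀ i ∈ I, ∀ i' ∈ I, tr i = tr i' → ix (tr i) i = ix (tr i') i' → i = i' := by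
    intro i hi i' hi' h1 h2
    have h3 := (hix (tr i) i (mem_filter.2 ⟨hi, rfl⟩)).2
    have h4 := (hix (tr i') i' (mem_filter.2 ⟨hi', rfl⟩)).2
    rw [← h3, h2, h1, h4]
  refine ⟨fun i => ((range (T (tr i)).N).filter fun y => ow (tr i) y = ix (tr i) i).biUnion
      (S (tr i)) ∪ U.filter fun u => ψ u = tr i ∧ ow (tr i) (φ (tr i) u) = ix (tr i) i,
    fun i hi => ⟨?_, ?_, ?_⟩, fun i hi i' hi' hne => ?_⟩
  · intro v hv
    rcases mem_union.1 hv with h | h
    · exact mem_union_right _ (mem_biUnion.2 ⟨tr i, mem_range.2 (htr i hi), hSW _ (htr i hi) _ v h⟩)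
    · exact mem_union_left _ (mem_filter.1 h).1
  · have hc := htr i hi
    have h1 := hcnt (tr i) hc (ix (tr i) i) (hixk i hi)
    rw [card_union_of_disjoint (disjoint_left.2 fun v hv hv' =>
      disjoint_left.1 (hWU _ hc) (hSW _ hc _ v hv) (mem_filter.1 hv').1),
      card_biUnion fun y hy y' hy' hne => (hone _ hc).2.2.2.2.2.2.1 y
        (mem_range.1 (mem_filter.1 (mem_coe.1 hy)).1) y'
        (mem_range.1 (mem_filter.1 (mem_coe.1 hy')).1) hne]
    rw [(hone _ hc).2.1] at h1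
    simp only [(hix (tr i) i (mem_filter.2 ⟨hi, rfl⟩)).2, skel] at h1
    omega
  · have hc := htr i hi
    have hC := hcut (tr i) hc
    have ht := hC.top _ (hixk i hi)
    refine conn_attach (conn_biUnion _ _ (tp (tr i) (ix (tr i) i))
      (mem_filter.2 ⟨mem_range.2 ht.1, ht.2⟩)
      (fun y hy => ((hone _ hc).2.2.2.2.2.1 y (mem_range.1 (mem_filter.1 hy).1)).2.2.2)
      (fun y hy hne => ?_)) _ (fun u hu => ?_)
    · obtain ⟨hy1, hy2⟩ := mem_filter.1 hy
      have hy3 := mem_range.1 hy1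
      obtain ⟨h0, h1⟩ := hC.up y hy3 (by rw [hy2]; exact hne)
      have h2 := ((hone _ hc).2.2.1.pt.plt y h0 hy3).1
      exact ⟨(T (tr i)).par y, mem_filter.2 ⟨mem_range.2 (h2.trans hy3), h1.trans hy2⟩, h2,
        (hone _ hc).2.2.2.2.2.2.2 y h0 hy3⟩
    · obtain ⟨hu1, -, hu2⟩ := mem_filter.1 hu
      obtain ⟨h1, x, hx, hadj⟩ := (hone _ hc).2.2.2.2.1 u hu1
      exact ⟨x, mem_biUnion.2 ⟨φ (tr i) u, mem_filter.2 ⟨mem_range.2 h1, hu2⟩, hx⟩, hadj⟩
  · have hc := htr i hi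
    have hc' := htr i' hi'
    refine disjoint_left.2 fun v hv hv' => ?_
    rcases mem_union.1 hv with h | h <;> rcases mem_union.1 hv' with h' | h'
    · by_cases he : tr i = tr i'
      · obtain ⟨y, hy, hvy⟩ := mem_biUnion.1 h
        obtain ⟨y', hy', hvy'⟩ := mem_biUnion.1 h'
        obtain ⟨hy1, hy2⟩ := mem_filter.1 hy
        obtain ⟨hy1', hy2'⟩ := mem_filter.1 hy'
        rw [← he] at hy1' hvy'
        by_cases hyy : y = y'
        · refine hne (hkey i hi i' hi' he ?_)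
          rw [← hy2, ← hy2', hyy, he]
        · exact disjoint_left.1 ((hone _ hc).2.2.2.2.2.2.1 y (mem_range.1 hy1) y'
            (mem_range.1 hy1') hyy) hvy hvy'
      · exact disjoint_left.1 (hWW _ hc _ hc' he) (hSW _ hc _ v h) (hSW _ hc' _ v h')
    · exact disjoint_left.1 (hWU _ hc) (hSW _ hc _ v h) (mem_filter.1 h').1
    · exact disjoint_left.1 (hWU _ hc') (hSW _ hc' _ v h') (mem_filter.1 h).1
    · obtain ⟨-, h1, h2⟩ := mem_filter.1 h
      obtain ⟨-, h1', h2'⟩ := mem_filter.1 h'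
      have he : tr i = tr i' := h1.symm.trans h1'
      refine hne (hkey i hi i' hi' he ?_)
      rw [← h2, ← h2', he]

end Pool.Agent.Lib.MP_f20cd2_co.PL
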